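import Pool.Agent.Lib.MP_d610d0_nt.CA.SC.Stm2

set_option autoImplicit false

/-! [SC CB] -/

namespace Pool.Agent.CA.SC

open Finset Filter
open Pool.Agent.CH (wJ wL)

private theorem CB_one (n : ℕ) : (1 : DirichletCharacter ℂ 1) (n : ZMod 1) = 1 :=
  MulChar.one_apply (isUnit_of_subsingleton _)

theorem p_CB : S_CB := by
  intro h k lo hi hb A
  obtain ⟨E0, hE0⟩ := h k lo hi hb A 0
  refine ⟨E0, fun E hE => ?_⟩
  filter_upwards [hE0 E hE] with J hJ j hj
  have h1 := hJ j 1 1 hj (le_refl _) (by rw [pow_zero]; norm_num)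
    DirichletCharacter.isPrimitive_one_level_one
  have h2 : ∑ n ∈ Icc 1 (27 * J ^ 3), (bx k (lo J) (hi J) n : ℂ) *
      ((1 : DirichletCharacter ℂ 1) (n : ZMod 1) * dW ((Real.log J) ^ E) J j n) =
      ((2 * (J : ℝ) * ∑ n ∈ Icc 1 (27 * J ^ 3), bx k (lo J) (hi J) n * wJ J j n
        - (Real.log J) ^ E * ∑ n ∈ Icc 1 (27 * J ^ 3),
          bx k (lo J) (hi J) n * wL ((Real.log J) ^ E) j n : ℝ) : ℂ) := by
    rw [Finset.mul_sum, Finset.mul_sum, ← Finset.sum_sub_distrib, Complex.ofReal_sum]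
    refine Finset.sum_congr rfl (fun n _ => ?_)
    rw [CB_one, one_mul]
    unfold dW
    rw [← Complex.ofReal_mul]
    congr 1
    ring
  rw [h2, Complex.norm_real, Real.norm_eq_abs] at h1
  exact h1

end Pool.Agent.CA.SC
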