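import Pool.Agent.Lib.MP_d610d0_nt.CA.SC.Stm2

set_option autoImplicit false

/-!
Piece CL.
-/

namespace Pool.Agent.CA.SC

open Finset Filter
open ArithmeticFunction (vonMangoldt moebius)
open Pool.Agent.CH (wJ wL)
open Pool.Agent.CH.D (FL)

theorem p_CL : S_CL := by
  intro h A
  obtain ⟨E0, hE⟩ := h A 0
  refine ⟨E0, fun E hE0 => ?_⟩
  filter_upwards [hE E hE0] with J hJ j hj
  have h1 := hJ j 1 (1 : DirichletCharacter ℂ 1) hj le_rfl (by simp) (Or.inl rfl)
  have e : ∑ n ∈ Icc 1 (27 * J ^ 3), ((vonMangoldt n : ℝ) : ℂ) *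
      ((1 : DirichletCharacter ℂ 1) (n : ZMod 1) * dW ((Real.log J) ^ E) J j n) =
      ((2 * (J : ℝ) * ∑ n ∈ Icc 1 (27 * J ^ 3), FL J n * wJ J j n
        - (Real.log J) ^ E * ∑ n ∈ Icc 1 (27 * J ^ 3), FL J n * wL ((Real.log J) ^ E) j n : ℝ) :
          ℂ) := by
    rw [mul_sum, mul_sum, ← sum_sub_distrib, Complex.ofReal_sum]
    apply sum_congr rfl
    intro n _
    have h2 : (1 : DirichletCharacter ℂ 1) (n : ZMod 1) = 1 :=
      MulChar.one_apply (isUnit_of_subsingleton _)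
    rw [h2, one_mul]
    unfold dW FL
    push_cast
    ring
  rw [e, Complex.norm_real, Real.norm_eq_abs] at h1
  exact h1

end Pool.Agent.CA.SC
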