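import Pool.Agent.Lib.MP_d610d0_nt.CA.SC.Stm
import Pool.Agent.Lib.MP_d610d0_nt.CH.D.p_ms

set_option autoImplicit false

/-!
Piece mvp: mean values of products of Dirichlet polynomials.
-/

namespace Pool.Agent.CA.SC

open Finset Filter
open Pool.Agent.CH.V (pz)
open Pool.Agent.CH.D (dp kap R_kf R_kb R_sch ms_pz ms_pz_norm ms_dp_cont ms_dp_le)

/-- `x ↦ x^(iθ)` is multiplicative. -/
lemma mvp_pz_prod {m : ℕ} (t : Fin m → ℕ) (ht : ∀ l, 1 ≤ t l) (θ : ℝ) :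
    ∏ l, pz (-θ) (t l) = pz (-θ) ((∏ l, t l : ℕ) : ℝ) := by
  simp only [ms_pz]
  rw [← Complex.exp_sum]
  congr 1
  rw [← Finset.mul_sum]
  congr 1
  rw [← Complex.ofReal_sum, ← Finset.mul_sum, Nat.cast_prod,
    Real.log_prod (fun l _ => by have := ht l; positivity)]

/-- a product of Dirichlet polynomials as a sum over tuples -/
lemma mvp_prod {m : ℕ} (a : Fin m → ℕ → ℂ) (N : Fin m → ℕ) (θ : ℝ) :
    ∏ l, dp (a l) (N l) θ = ∑ t ∈ Fintype.piFinset (fun l => Icc 1 (N l)),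
      (∏ l, a l (t l)) * pz (-θ) ((∏ l, t l : ℕ) : ℝ) := by
  unfold dp
  rw [Finset.prod_univ_sum]
  refine Finset.sum_congr rfl fun t ht => ?_
  rw [Finset.prod_mul_distrib, mvp_pz_prod t (fun l =>
    (Finset.mem_Icc.1 (Fintype.mem_piFinset.1 ht l)).1)]

/-- the coefficients of the product -/
noncomputable def mvp_b {m : ℕ} (a : Fin m → ℕ → ℂ) (N : Fin m → ℕ) (n : ℕ) : ℂ :=
  ∑ t ∈ (Fintype.piFinset (fun l => Icc 1 (N l))).filter (fun t => ∏ l, t l = n), ∏ l, a l (t l)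

lemma mvp_dp {m : ℕ} (a : Fin m → ℕ → ℂ) (N : Fin m → ℕ) (θ : ℝ) :
    ∏ l, dp (a l) (N l) θ = dp (mvp_b a N) (∏ l, N l) θ := by
  rw [mvp_prod, dp, ← Finset.sum_fiberwise_of_maps_to (g := fun t : Fin m → ℕ => ∏ l, t l)
    (t := Icc 1 (∏ l, N l))]
  · refine Finset.sum_congr rfl fun n _ => ?_
    rw [mvp_b, Finset.sum_mul]
    refine Finset.sum_congr rfl fun t ht => ?_
    rw [(Finset.mem_filter.1 ht).2]
  · intro t ht
    have h := fun l => Finset.mem_Icc.1 (Fintype.mem_piFinset.1 ht l)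
    rw [Finset.mem_Icc]
    exact ⟨Finset.one_le_prod' fun l _ => (h l).1, Finset.prod_le_prod' fun l _ => (h l).2⟩

lemma mvp_b_le {m : ℕ} (a : Fin m → ℕ → ℂ) (N : Fin m → ℕ) {G : ℝ} (hG : 0 ≤ G)
    (ha : ∀ l n, ‖a l n‖ ≤ G) {n : ℕ} (hn : 1 ≤ n) :
    ‖mvp_b a N n‖ ≤ G ^ m * ((Nat.finMulAntidiag m n).card : ℝ) := by
  unfold mvp_b
  refine (norm_sum_le _ _).trans ?_
  have h1 : ∀ t ∈ (Fintype.piFinset (fun l => Icc 1 (N l))).filter (fun t => ∏ l, t l = n),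
      ‖∏ l, a l (t l)‖ ≤ G ^ m := fun t _ => by
    rw [norm_prod]
    refine (Finset.prod_le_prod (fun l _ => norm_nonneg _) fun l _ => ha l (t l)).trans ?_
    rw [Finset.prod_const, Finset.card_univ, Fintype.card_fin]
  refine (Finset.sum_le_sum h1).trans ?_
  rw [Finset.sum_const, nsmul_eq_mul, mul_comm]
  refine mul_le_mul_of_nonneg_left ?_ (by positivity)
  have h2 : (Fintype.piFinset (fun l => Icc 1 (N l))).filter (fun t => ∏ l, t l = n) ⊆
      Nat.finMulAntidiag m n := by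
    intro t ht
    rw [Nat.mem_finMulAntidiag]
    exact ⟨(Finset.mem_filter.1 ht).2, by omega⟩
  exact_mod_cast Finset.card_le_card h2

/-- the full product -/
lemma mvp_full (hkf : R_kf) (hkb : R_kb) (hsch : R_sch) {m C : ℕ}
    (hC : ∀ N : ℕ, 1 ≤ N →
      ∑ n ∈ Icc 1 N, ((Nat.finMulAntidiag m n).card : ℝ) ^ 2 ≤ N * (1 + Real.log N) ^ C)
    (N : Fin m → ℕ) (a : Fin m → ℕ → ℂ) {G T : ℝ} (hG : 1 ≤ G) (hT : 1 ≤ T)
    (hN : ∀ l, 1 ≤ N l) (ha : ∀ l n, ‖a l n‖ ≤ G) :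
    ∫ θ in Set.Icc (-T) T, ‖∏ l, dp (a l) (N l) θ‖ ^ 2 ≤
      24 * G ^ (2 * m) * (1 + Real.log ((∏ l, N l : ℕ) : ℝ)) ^ C *
        ((T + ((∏ l, N l : ℕ) : ℝ)) * ((∏ l, N l : ℕ) : ℝ)) := by
  have hT0 : 0 < T := by linarith
  have hG0 : 0 ≤ G := by linarith
  set P : ℕ := ∏ l, N l with hP
  have hP1 : 1 ≤ P := Finset.one_le_prod' fun l _ => hN l
  have hPr : (1 : ℝ) ≤ P := by exact_mod_cast hP1
  set b := mvp_b a N with hb
  obtain ⟨hki, -⟩ := hkf T hT0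
  obtain ⟨hk0, -, -, hklo, -, -, -⟩ := hkb T hT0
  have hcont : Continuous (fun θ : ℝ => ‖dp b P θ‖ ^ 2) := (ms_dp_cont b P).norm.pow 2
  have hi1 : MeasureTheory.Integrable (fun θ : ℝ => kap T θ * ‖dp b P θ‖ ^ 2) := by
    refine hki.mul_bdd (c := (∑ n ∈ Icc 1 P, ‖b n‖) ^ 2) hcont.aestronglyMeasurable
      (MeasureTheory.ae_of_all _ fun θ => ?_)
    rw [Real.norm_of_nonneg (by positivity)]
    exact pow_le_pow_left₀ (norm_nonneg _) (ms_dp_le b P θ) 2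
  have hi2 : MeasureTheory.IntegrableOn (fun θ : ℝ => ‖dp b P θ‖ ^ 2) (Set.Icc (-T) T) :=
    hcont.continuousOn.integrableOn_Icc
  have h1 : ∫ θ in Set.Icc (-T) T, ‖∏ l, dp (a l) (N l) θ‖ ^ 2 ≤
      8 * T * ∫ θ : ℝ, kap T θ * ‖dp b P θ‖ ^ 2 := by
    simp only [mvp_dp]
    rw [← MeasureTheory.integral_const_mul]
    calc ∫ θ in Set.Icc (-T) T, ‖dp b P θ‖ ^ 2
        ≤ ∫ θ in Set.Icc (-T) T, 8 * T * (kap T θ * ‖dp b P θ‖ ^ 2) := by
          refine MeasureTheory.setIntegral_mono_on hi2 (hi1.const_mul _).integrableOn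
            measurableSet_Icc fun θ hθ => ?_
          have h2 := hklo θ (abs_le.2 hθ)
          have h3 : 1 ≤ 8 * T * kap T θ := by
            rw [div_le_iff₀ (by positivity)] at h2
            linarith
          calc ‖dp b P θ‖ ^ 2 = 1 * ‖dp b P θ‖ ^ 2 := (one_mul _).symm
            _ ≤ 8 * T * kap T θ * ‖dp b P θ‖ ^ 2 := mul_le_mul_of_nonneg_right h3 (by positivity)
            _ = _ := by ring
      _ ≤ ∫ θ : ℝ, 8 * T * (kap T θ * ‖dp b P θ‖ ^ 2) := by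
          refine MeasureTheory.setIntegral_le_integral (hi1.const_mul _)
            (MeasureTheory.ae_of_all _ fun θ => ?_)
          have := hk0 θ
          show 0 ≤ 8 * T * (kap T θ * ‖dp b P θ‖ ^ 2)
          positivity
  have h4 : ∑ n ∈ Icc 1 P, ‖b n‖ ^ 2 ≤ G ^ (2 * m) * (P * (1 + Real.log P) ^ C) := by
    calc ∑ n ∈ Icc 1 P, ‖b n‖ ^ 2
        ≤ ∑ n ∈ Icc 1 P, G ^ (2 * m) * ((Nat.finMulAntidiag m n).card : ℝ) ^ 2 := by
          refine Finset.sum_le_sum fun n hn => ?_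
          have h5 := pow_le_pow_left₀ (norm_nonneg _)
            (mvp_b_le a N hG0 ha (Finset.mem_Icc.1 hn).1) 2
          calc ‖b n‖ ^ 2 ≤ (G ^ m * ((Nat.finMulAntidiag m n).card : ℝ)) ^ 2 := h5
            _ = _ := by rw [mul_pow, ← pow_mul, mul_comm m 2]
      _ = G ^ (2 * m) * ∑ n ∈ Icc 1 P, ((Nat.finMulAntidiag m n).card : ℝ) ^ 2 := by
          rw [Finset.mul_sum]
      _ ≤ _ := mul_le_mul_of_nonneg_left (hC P hP1) (by positivity)
  have hlog : 0 ≤ Real.log P := Real.log_nonneg hPr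
  calc ∫ θ in Set.Icc (-T) T, ‖∏ l, dp (a l) (N l) θ‖ ^ 2
      ≤ 8 * T * ∫ θ : ℝ, kap T θ * ‖dp b P θ‖ ^ 2 := h1
    _ ≤ 8 * T * ((1 + 3 * P / T) * ∑ n ∈ Icc 1 P, ‖b n‖ ^ 2) :=
        mul_le_mul_of_nonneg_left (hsch T P b hT) (by positivity)
    _ ≤ 8 * T * ((1 + 3 * P / T) * (G ^ (2 * m) * (P * (1 + Real.log P) ^ C))) := by
        refine mul_le_mul_of_nonneg_left (mul_le_mul_of_nonneg_left h4 ?_) (by positivity)
        positivity
    _ = (8 * T + 24 * P) * (G ^ (2 * m) * (P * (1 + Real.log P) ^ C)) := by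
        field_simp
        ring
    _ ≤ (24 * (T + P)) * (G ^ (2 * m) * (P * (1 + Real.log P) ^ C)) := by
        refine mul_le_mul_of_nonneg_right ?_ (by positivity)
        linarith
    _ = _ := by ring

theorem p_mvp : S_mvp := by
  intro hkf hkb hsch htm m
  obtain ⟨C, hC⟩ := htm m
  refine ⟨C + 24, by omega, ?_⟩
  intro N a S G T hG hT hN ha
  classical
  set N' : Fin m → ℕ := fun l => if l ∈ S then N l else 1 with hN'
  set a' : Fin m → ℕ → ℂ := fun l n => if l ∈ S then a l n else 1 with ha'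
  have hprod : ∏ l, N' l = ∏ l ∈ S, N l := by
    rw [hN', Finset.prod_ite_mem, Finset.univ_inter]
  have hdp : ∀ θ : ℝ, ∏ l ∈ S, ‖dp (a l) (N l) θ‖ ^ 2 = ‖∏ l, dp (a' l) (N' l) θ‖ ^ 2 := by
    intro θ
    have h1 : ∀ l, dp (a' l) (N' l) θ = if l ∈ S then dp (a l) (N l) θ else 1 := by
      intro l
      by_cases hl : l ∈ S
      · simp only [hN', ha', if_pos hl]
      · simp only [hN', ha', if_neg hl]
        simp [dp, pz]
    have h2 : ∏ l, dp (a' l) (N' l) θ = ∏ l ∈ S, dp (a l) (N l) θ := by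
      rw [Finset.prod_congr rfl fun l _ => h1 l, Finset.prod_ite_mem, Finset.univ_inter]
    rw [h2, norm_prod, Finset.prod_pow]
  have h3 := mvp_full hkf hkb hsch hC N' a' hG hT (fun l => by
      simp only [hN']
      split_ifs
      · exact hN l
      · exact le_rfl) (fun l n => by
      simp only [ha']
      split_ifs
      · exact ha l n
      · rw [norm_one]
        exact hG)
  simp only [← hdp] at h3
  rw [hprod] at h3
  have hP1 : 1 ≤ ∏ l ∈ S, N l := Finset.one_le_prod' fun l _ => hN l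
  have hPr : (1 : ℝ) ≤ ((∏ l ∈ S, N l : ℕ) : ℝ) := by exact_mod_cast hP1
  rw [← Nat.cast_prod]
  set P : ℕ := ∏ l ∈ S, N l with hP
  have hlog : 0 ≤ Real.log P := Real.log_nonneg hPr
  refine h3.trans ?_
  have h5 : (1 + Real.log P) ^ C ≤ (1 + Real.log P) ^ (C + 24) :=
    pow_le_pow_right₀ (by linarith) (by omega)
  have h6 : (24 : ℝ) ≤ ((C + 24 : ℕ) : ℝ) := by
    push_cast
    have : (0 : ℝ) ≤ C := Nat.cast_nonneg C
    linarith
  have hG0 : 0 ≤ G := by linarith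
  have hT0 : 0 ≤ T := by linarith
  gcongr

end Pool.Agent.CA.SC
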