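import Pool.Agent.Lib.MP_d610d0_nt.CA.SC.Stm
import Pool.Agent.Lib.MP_d610d0_nt.CA.SC.p_mvp
import Pool.Agent.Lib.MP_d610d0_nt.CH.D.p_cm

set_option autoImplicit false

/-!
Piece G: the general trilinear estimate for the comparison of the short window and the long window.
-/

namespace Pool.Agent.CA.SC

open Finset Filter
open Pool.Agent.MP89da58 (tri)
open Pool.Agent.CH (wJ wL)
open Pool.Agent.CH.V (pz)
open Pool.Agent.CH.D (dp kap xj R_kf R_kb R_sch ms_pz ms_pz_norm ms_dp_cont ms_dp_le ms_int ms_set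
  ms_kap_tail cm_e cm_e_norm cm_e_cont cm_integrable cm_sq cm_int2)

lemma G_fourier (hkf : R_kf) {lam : ℝ} (hl : 0 < lam) {m : ℕ} (a : Fin m → ℕ → ℂ)
    (N : Fin m → ℕ) (y : ℝ) :
    ∑ t ∈ Fintype.piFinset (fun l => Icc 1 (N l)), (∏ l, a l (t l)) *
      ((tri (lam * (Real.log ((∏ l, t l : ℕ) : ℝ) - y)) : ℝ) : ℂ) =
    ∫ θ : ℝ, (kap lam θ : ℂ) * (∏ l, dp (a l) (N l) θ) * cm_e y θ := by
  obtain ⟨hint, htri⟩ := hkf lam hl
  have hexp : ∀ θ : ℝ, (kap lam θ : ℂ) * (∏ l, dp (a l) (N l) θ) * cm_e y θ =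
      ∑ t ∈ Fintype.piFinset (fun l => Icc 1 (N l)), (∏ l, a l (t l)) * ((kap lam θ : ℂ) *
        Complex.exp (Complex.I *
          ((θ * (Real.log ((∏ l, t l : ℕ) : ℝ) - y) : ℝ) : ℂ))) := by
    intro θ
    rw [mvp_prod, Finset.mul_sum, Finset.sum_mul]
    refine Finset.sum_congr rfl fun t _ => ?_
    have e : Complex.exp (Complex.I * ((θ * (Real.log ((∏ l, t l : ℕ) : ℝ) - y) : ℝ) : ℂ)) =
        pz (-θ) ((∏ l, t l : ℕ) : ℝ) * cm_e y θ := by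
      rw [ms_pz, cm_e, ← Complex.exp_add]
      congr 1
      rw [mul_sub, Complex.ofReal_sub]
      ring
    rw [e]
    ring
  simp_rw [hexp]
  rw [MeasureTheory.integral_finsetSum _ fun t _ => (ms_int hint _).const_mul _]
  refine Finset.sum_congr rfl fun t _ => ?_
  rw [MeasureTheory.integral_const_mul, htri]

lemma G_wL (lam : ℝ) (j : ℕ) {n : ℕ} (hn : 1 ≤ n) :
    wL lam j n = tri (lam * (Real.log n - Real.log (xj j))) := by
  have hn0 : (n : ℝ) ≠ 0 := by positivity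
  have hx : xj j ≠ 0 := by
    unfold xj
    positivity
  unfold wL
  have e : ((j : ℝ) + 1 / 2) ^ 3 = xj j := rfl
  rw [e, Real.log_div hn0 hx]

lemma G_wJ (J j : ℕ) {n : ℕ} (hn : 1 ≤ n) :
    wJ J j n = tri (2 * J * (Real.log n - Real.log (xj j))) := by
  rw [← G_wL (2 * J) j hn]
  rfl

/-- the kernel -/
noncomputable def G_K (J : ℕ) (lam θ : ℝ) : ℝ := 2 * J * kap (2 * J) θ - lam * kap lam θ

lemma G_cont {m : ℕ} (a : Fin m → ℕ → ℂ) (N : Fin m → ℕ) :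
    Continuous (fun θ : ℝ => ∏ l, dp (a l) (N l) θ) :=
  continuous_finsetProd _ fun l _ => ms_dp_cont (a l) (N l)

lemma G_dp_le {m : ℕ} (a : Fin m → ℕ → ℂ) (N : Fin m → ℕ) {G : ℝ}
    (ha : ∀ l n, ‖a l n‖ ≤ G) (l : Fin m) (θ : ℝ) : ‖dp (a l) (N l) θ‖ ≤ G * N l := by
  refine (ms_dp_le _ _ θ).trans ?_
  refine (Finset.sum_le_sum fun n _ => ha l n).trans ?_
  rw [Finset.sum_const, Nat.card_Icc, nsmul_eq_mul, mul_comm]
  simp

lemma G_F_le {m : ℕ} (a : Fin m → ℕ → ℂ) (N : Fin m → ℕ) {G : ℝ}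
    (ha : ∀ l n, ‖a l n‖ ≤ G) (θ : ℝ) :
    ‖∏ l, dp (a l) (N l) θ‖ ≤ G ^ m * ∏ l, (N l : ℝ) := by
  rw [norm_prod]
  refine (Finset.prod_le_prod (fun l _ => norm_nonneg _) fun l _ => G_dp_le a N ha l θ).trans ?_
  rw [Finset.prod_mul_distrib, Finset.prod_const, Finset.card_univ, Fintype.card_fin]

/-- the sum over the tuples as an integral -/
lemma G_TS (hkf : R_kf) {J : ℕ} (hJ : 1 ≤ J) {lam : ℝ} (hl : 0 < lam) (j : ℕ) {m : ℕ}
    (a : Fin m → ℕ → ℂ) (N : Fin m → ℕ) {G : ℝ} (ha : ∀ l n, ‖a l n‖ ≤ G) :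
    MeasureTheory.Integrable (fun θ : ℝ => |G_K J lam θ| * ‖∏ l, dp (a l) (N l) θ‖) ∧
    ‖TS a N (dW lam J j)‖ ≤ ∫ θ : ℝ, |G_K J lam θ| * ‖∏ l, dp (a l) (N l) θ‖ := by
  have hJ0 : (0 : ℝ) < 2 * J := by
    have : (1 : ℝ) ≤ J := by exact_mod_cast hJ
    linarith
  set y : ℝ := Real.log (xj j) with hy
  have hm := (G_cont a N).measurable
  have i2 := cm_integrable (hkf (2 * J) hJ0).1 hm (G_F_le a N ha) y
  have il := cm_integrable (hkf lam hl).1 hm (G_F_le a N ha) y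
  have ik : MeasureTheory.Integrable (G_K J lam) := by
    unfold G_K
    exact ((hkf (2 * J) hJ0).1.const_mul _).sub ((hkf lam hl).1.const_mul _)
  have e1 : TS a N (dW lam J j) =
      ∫ θ : ℝ, (G_K J lam θ : ℂ) * (∏ l, dp (a l) (N l) θ) * cm_e y θ := by
    have e2 : TS a N (dW lam J j) =
        (2 * J : ℂ) * (∑ t ∈ Fintype.piFinset (fun l => Icc 1 (N l)), (∏ l, a l (t l)) *
          ((tri (2 * J * (Real.log ((∏ l, t l : ℕ) : ℝ) - y)) : ℝ) : ℂ)) -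
        (lam : ℂ) * (∑ t ∈ Fintype.piFinset (fun l => Icc 1 (N l)), (∏ l, a l (t l)) *
          ((tri (lam * (Real.log ((∏ l, t l : ℕ) : ℝ) - y)) : ℝ) : ℂ)) := by
      unfold TS
      rw [Finset.mul_sum, Finset.mul_sum, ← Finset.sum_sub_distrib]
      refine Finset.sum_congr rfl fun t ht => ?_
      have h1 : 1 ≤ ∏ l, t l := Finset.one_le_prod' fun l _ =>
        (Finset.mem_Icc.1 (Fintype.mem_piFinset.1 ht l)).1
      unfold dW
      rw [G_wJ J j h1, G_wL lam j h1, Complex.ofReal_sub, Complex.ofReal_mul, Complex.ofReal_mul,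
        Complex.ofReal_mul, Complex.ofReal_natCast, Complex.ofReal_ofNat]
      ring
    rw [e2, G_fourier hkf hJ0, G_fourier hkf hl]
    refine (cm_int2 i2 il (2 * J : ℂ) (lam : ℂ)).trans ?_
    refine MeasureTheory.integral_congr_ae (MeasureTheory.ae_of_all _ fun θ => ?_)
    simp only [G_K]
    push_cast
    ring
  refine ⟨?_, ?_⟩
  · refine ik.abs.mul_bdd (c := G ^ m * ∏ l, (N l : ℝ)) (G_cont a N).norm.aestronglyMeasurable
      (MeasureTheory.ae_of_all _ fun θ => ?_)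
    rw [norm_norm]
    exact G_F_le a N ha θ
  · rw [e1]
    refine (MeasureTheory.norm_integral_le_integral_norm _).trans (le_of_eq ?_)
    refine MeasureTheory.integral_congr_ae (MeasureTheory.ae_of_all _ fun θ => ?_)
    show ‖(G_K J lam θ : ℂ) * (∏ l, dp (a l) (N l) θ) * cm_e y θ‖ =
      |G_K J lam θ| * ‖∏ l, dp (a l) (N l) θ‖
    rw [norm_mul, norm_mul, cm_e_norm, mul_one, Complex.norm_real, Real.norm_eq_abs]

/-- a form of the Cauchy-Schwarz inequality -/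
lemma G_cs {f g : ℝ → ℝ} (hf : Continuous f) (hg : Continuous g) (E : Set ℝ)
    (hE : MeasurableSet E) (T : ℝ) (hET : E ⊆ Set.Icc (-T) T) {A B : ℝ} (hA : 0 < A) (hB : 0 < B)
    (h1 : ∫ θ in Set.Icc (-T) T, f θ ^ 2 ≤ A) (h2 : ∫ θ in Set.Icc (-T) T, g θ ^ 2 ≤ B) :
    ∫ θ in E, f θ * g θ ≤ Real.sqrt (A * B) := by
  have hsA : 0 < Real.sqrt A := Real.sqrt_pos.2 hA
  have hsB : 0 < Real.sqrt B := Real.sqrt_pos.2 hB
  set s : ℝ := Real.sqrt B / Real.sqrt A with hs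
  have hs0 : 0 < s := by positivity
  have if1 : MeasureTheory.IntegrableOn (fun θ => f θ ^ 2) (Set.Icc (-T) T) :=
    (hf.pow 2).continuousOn.integrableOn_Icc
  have if2 : MeasureTheory.IntegrableOn (fun θ => g θ ^ 2) (Set.Icc (-T) T) :=
    (hg.pow 2).continuousOn.integrableOn_Icc
  have if3 : MeasureTheory.IntegrableOn (fun θ => f θ * g θ) (Set.Icc (-T) T) :=
    (hf.mul hg).continuousOn.integrableOn_Icc
  have if4 : MeasureTheory.IntegrableOn (fun θ => s / 2 * f θ ^ 2 + 1 / (2 * s) * g θ ^ 2)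
      (Set.Icc (-T) T) := (if1.const_mul _).add (if2.const_mul _)
  have h3 : ∫ θ in E, f θ * g θ ≤
      ∫ θ in E, (s / 2 * f θ ^ 2 + 1 / (2 * s) * g θ ^ 2) := by
    refine MeasureTheory.setIntegral_mono_on (if3.mono_set hET) (if4.mono_set hET) hE
      fun θ _ => ?_
    have h4 : 0 ≤ (s * f θ - g θ) ^ 2 := sq_nonneg _
    have h5 : s / 2 * f θ ^ 2 + 1 / (2 * s) * g θ ^ 2 - f θ * g θ =
        (s * f θ - g θ) ^ 2 / (2 * s) := by
      field_simp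
      ring
    have h6 : 0 ≤ (s * f θ - g θ) ^ 2 / (2 * s) := by positivity
    linarith
  have h7 : ∫ θ in E, (s / 2 * f θ ^ 2 + 1 / (2 * s) * g θ ^ 2) ≤
      ∫ θ in Set.Icc (-T) T, (s / 2 * f θ ^ 2 + 1 / (2 * s) * g θ ^ 2) := by
    refine MeasureTheory.setIntegral_mono_set if4 (MeasureTheory.ae_of_all _ fun θ => ?_)
      (Filter.Eventually.of_forall hET)
    show 0 ≤ s / 2 * f θ ^ 2 + 1 / (2 * s) * g θ ^ 2
    positivity
  have h8 : ∫ θ in Set.Icc (-T) T, (s / 2 * f θ ^ 2 + 1 / (2 * s) * g θ ^ 2) ≤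
      s / 2 * A + 1 / (2 * s) * B := by
    rw [MeasureTheory.integral_add (if1.const_mul _) (if2.const_mul _),
      MeasureTheory.integral_const_mul, MeasureTheory.integral_const_mul]
    exact add_le_add (mul_le_mul_of_nonneg_left h1 (by positivity))
      (mul_le_mul_of_nonneg_left h2 (by positivity))
  have h9 : s / 2 * A + 1 / (2 * s) * B = Real.sqrt (A * B) := by
    rw [Real.sqrt_mul hA.le, hs]
    have eA : A = Real.sqrt A * Real.sqrt A := (Real.mul_self_sqrt hA.le).symm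
    have eB : B = Real.sqrt B * Real.sqrt B := (Real.mul_self_sqrt hB.le).symm
    set u := Real.sqrt A
    set v := Real.sqrt B
    rw [eA, eB]
    field_simp
    ring
  linarith

/-- bounds for the kernel -/
lemma G_K_le (hkb : R_kb) {J : ℕ} (hJ : 1 ≤ J) {lam : ℝ} (hl : 1 ≤ lam) (hl2 : lam ≤ 2 * J)
    {T θ : ℝ} (hT : 0 < T) (hθ : T < |θ|) :
    |G_K J lam θ| ≤ 6 * min 1 ((J : ℝ) ^ 2 / T ^ 2) := by
  have hJr : (1 : ℝ) ≤ J := by exact_mod_cast hJ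
  have hJ0 : (0 : ℝ) < 2 * J := by linarith
  have hl0 : 0 < lam := by linarith
  have hpi := Real.pi_gt_three
  have hpi0 := Real.pi_pos
  obtain ⟨k20, -, k2b, -, -, -, -⟩ := hkb (2 * J) hJ0
  obtain ⟨kl0, -, klb, -, -, klpi, -⟩ := hkb lam hl0
  have hθ0 : θ ≠ 0 := by
    rintro rfl
    rw [abs_zero] at hθ
    linarith
  have hT2 : T ^ 2 ≤ θ ^ 2 := by
    rw [← sq_abs θ]
    exact pow_le_pow_left₀ hT.le hθ.le 2
  have h1 : |G_K J lam θ| ≤ 1 / (2 * Real.pi) := klpi (2 * J) θ hJ0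
  have h2 : |G_K J lam θ| ≤ 6 * ((J : ℝ) ^ 2 / T ^ 2) := by
    have h3 : |G_K J lam θ| ≤ 2 * J * kap (2 * J) θ + lam * kap lam θ := by
      unfold G_K
      have a1 : 0 ≤ 2 * J * kap (2 * J) θ := mul_nonneg hJ0.le (k20 θ)
      have a2 : 0 ≤ lam * kap lam θ := mul_nonneg hl0.le (kl0 θ)
      rw [abs_le]
      constructor <;> linarith
    have h4 : 2 * J * kap (2 * J) θ ≤ 8 * (J : ℝ) ^ 2 / (Real.pi * T ^ 2) := by
      calc 2 * J * kap (2 * J) θ ≤ 2 * J * (2 * (2 * J) / (Real.pi * θ ^ 2)) :=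
            mul_le_mul_of_nonneg_left (k2b θ hθ0) hJ0.le
        _ = 8 * (J : ℝ) ^ 2 / (Real.pi * θ ^ 2) := by ring
        _ ≤ 8 * (J : ℝ) ^ 2 / (Real.pi * T ^ 2) := by gcongr
    have h5 : lam * kap lam θ ≤ 8 * (J : ℝ) ^ 2 / (Real.pi * T ^ 2) := by
      calc lam * kap lam θ ≤ lam * (2 * lam / (Real.pi * θ ^ 2)) :=
            mul_le_mul_of_nonneg_left (klb θ hθ0) hl0.le
        _ = 2 * lam ^ 2 / (Real.pi * θ ^ 2) := by ring
        _ ≤ 2 * (2 * (J : ℝ)) ^ 2 / (Real.pi * T ^ 2) := by gcongr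
        _ = _ := by ring
    have h6 : 8 * (J : ℝ) ^ 2 / (Real.pi * T ^ 2) ≤ 3 * ((J : ℝ) ^ 2 / T ^ 2) := by
      rw [← mul_div_assoc, div_le_div_iff₀ (by positivity) (by positivity)]
      have : 0 ≤ (J : ℝ) ^ 2 * T ^ 2 := by positivity
      nlinarith
    linarith
  have h7 : 1 / (2 * Real.pi) ≤ 6 := by
    rw [div_le_iff₀ (by positivity)]
    linarith
  rcases min_choice 1 ((J : ℝ) ^ 2 / T ^ 2) with h | h
  · rw [h]
    linarith
  · rw [h]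
    exact h2

/-- the far range -/
lemma G_far (hkf : R_kf) (hkb : R_kb) {J : ℕ} (hJ : 1 ≤ J) {lam : ℝ} (hl : 1 ≤ lam)
    (hl2 : lam ≤ 2 * J) {T : ℝ} (hT : (J : ℝ) ^ 3 ≤ T) {g : ℝ → ℝ} {W : ℝ}
    (hi : MeasureTheory.Integrable (fun θ : ℝ => |G_K J lam θ| * g θ))
    (hg : ∀ θ, g θ ≤ W) (hW : 0 ≤ W) :
    ∫ θ in {θ : ℝ | T < |θ|}, |G_K J lam θ| * g θ ≤ 11 / J * W := by
  have hJr : (1 : ℝ) ≤ J := by exact_mod_cast hJ
  have hJ0 : (0 : ℝ) < 2 * J := by linarith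
  have hl0 : 0 < lam := by linarith
  have hT0 : 0 < T := lt_of_lt_of_le (by positivity) hT
  have hpi := Real.pi_gt_three
  obtain ⟨k20, -⟩ := hkb (2 * J) hJ0
  obtain ⟨kl0, -⟩ := hkb lam hl0
  have i2 := (hkf (2 * J) hJ0).1
  have il := (hkf lam hl0).1
  have h1 : ∫ θ in {θ : ℝ | T < |θ|}, |G_K J lam θ| * g θ ≤
      ∫ θ in {θ : ℝ | T < |θ|}, (W * (2 * J) * kap (2 * J) θ + W * lam * kap lam θ) := by
    refine MeasureTheory.setIntegral_mono_on hi.integrableOn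
      ((i2.const_mul _).add (il.const_mul _)).integrableOn (ms_set T) fun θ _ => ?_
    have h3 : |G_K J lam θ| ≤ 2 * J * kap (2 * J) θ + lam * kap lam θ := by
      unfold G_K
      have a1 : 0 ≤ 2 * J * kap (2 * J) θ := mul_nonneg hJ0.le (k20 θ)
      have a2 : 0 ≤ lam * kap lam θ := mul_nonneg hl0.le (kl0 θ)
      rw [abs_le]
      constructor <;> linarith
    calc |G_K J lam θ| * g θ ≤ |G_K J lam θ| * W :=
          mul_le_mul_of_nonneg_left (hg θ) (abs_nonneg _)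
      _ ≤ (2 * J * kap (2 * J) θ + lam * kap lam θ) * W := mul_le_mul_of_nonneg_right h3 hW
      _ = _ := by ring
  refine h1.trans ?_
  rw [MeasureTheory.integral_add (i2.const_mul _).integrableOn (il.const_mul _).integrableOn,
    MeasureTheory.integral_const_mul, MeasureTheory.integral_const_mul]
  have t2 := mul_le_mul_of_nonneg_left (ms_kap_tail hkf hkb hJ0 hT0)
    (show 0 ≤ W * (2 * J) by positivity)
  have tl := mul_le_mul_of_nonneg_left (ms_kap_tail hkf hkb hl0 hT0)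
    (show 0 ≤ W * lam by positivity)
  have h5 : W * (2 * J) * (4 * (2 * J) / (Real.pi * T)) + W * lam * (4 * lam / (Real.pi * T)) ≤
      11 / J * W := by
    have h6 : W * lam * (4 * lam / (Real.pi * T)) ≤
        W * (2 * J) * (4 * (2 * J) / (Real.pi * T)) := by
      gcongr
    have h7 : 32 * (J : ℝ) ^ 2 / (Real.pi * T) ≤ 11 / J := by
      rw [div_le_div_iff₀ (by positivity) (by positivity)]
      have h8 : 3 * (J : ℝ) ^ 3 ≤ Real.pi * T := by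
        have : 0 ≤ (J : ℝ) ^ 3 := by positivity
        calc 3 * (J : ℝ) ^ 3 ≤ Real.pi * (J : ℝ) ^ 3 := mul_le_mul_of_nonneg_right hpi.le this
          _ ≤ Real.pi * T := mul_le_mul_of_nonneg_left hT (by positivity)
      have h9 : (0 : ℝ) ≤ (J : ℝ) ^ 3 := by positivity
      calc 32 * (J : ℝ) ^ 2 * J = 32 * (J : ℝ) ^ 3 := by ring
        _ ≤ 11 * (3 * (J : ℝ) ^ 3) := by linarith
        _ ≤ 11 * (Real.pi * T) := by linarith
    calc W * (2 * J) * (4 * (2 * J) / (Real.pi * T)) + W * lam * (4 * lam / (Real.pi * T))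
        ≤ W * (2 * J) * (4 * (2 * J) / (Real.pi * T)) +
          W * (2 * J) * (4 * (2 * J) / (Real.pi * T)) := by linarith
      _ = 32 * (J : ℝ) ^ 2 / (Real.pi * T) * W := by ring
      _ ≤ 11 / J * W := mul_le_mul_of_nonneg_right h7 hW
  linarith

/-- the near range -/
lemma G_near (hkb : R_kb) {J : ℕ} {lam : ℝ} (hl : 1 ≤ lam)
    (hl2 : lam ≤ 2 * J) {T : ℝ} (hT : 0 ≤ T) {g : ℝ → ℝ} {W : ℝ}
    (hi : MeasureTheory.Integrable (fun θ : ℝ => |G_K J lam θ| * g θ))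
    (hg : ∀ θ, g θ ≤ W) (hW : 0 ≤ W) :
    ∫ θ in {θ : ℝ | T < |θ|}ᶜ, |G_K J lam θ| * g θ ≤ T ^ 3 / lam ^ 2 * W := by
  have hl0 : 0 < lam := by linarith
  obtain ⟨-, -, -, -, klsq, -, -⟩ := hkb lam hl0
  obtain ⟨s1, s2⟩ := cm_sq hT
  have h1 : ∫ θ in {θ : ℝ | T < |θ|}ᶜ, |G_K J lam θ| * g θ ≤
      ∫ θ in {θ : ℝ | T < |θ|}ᶜ, W / lam ^ 2 * θ ^ 2 := by
    refine MeasureTheory.setIntegral_mono_on hi.integrableOn (s1.const_mul _) (ms_set T).compl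
      fun θ _ => ?_
    calc |G_K J lam θ| * g θ ≤ |G_K J lam θ| * W :=
          mul_le_mul_of_nonneg_left (hg θ) (abs_nonneg _)
      _ ≤ (θ ^ 2 / lam ^ 2) * W := mul_le_mul_of_nonneg_right (klsq (2 * J) θ hl2) hW
      _ = _ := by ring
  refine h1.trans ?_
  rw [MeasureTheory.integral_const_mul]
  calc W / lam ^ 2 * ∫ θ in {θ : ℝ | T < |θ|}ᶜ, θ ^ 2 ≤ W / lam ^ 2 * T ^ 3 :=
        mul_le_mul_of_nonneg_left s2 (by positivity)
    _ = _ := by ring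

/-- the splitting of the line -/
lemma G_split {h : ℝ → ℝ} (hi : MeasureTheory.Integrable h) {T0 : ℝ} (hT0 : 0 < T0) (I : ℕ)
    (b : ℕ → ℝ) (hb : ∀ i < I, ∫ θ in {θ : ℝ | 2 ^ i * T0 < |θ|} \ {θ : ℝ | 2 ^ (i + 1) * T0 < |θ|},
      h θ ≤ b i) :
    ∫ θ : ℝ, h θ ≤ (∫ θ in {θ : ℝ | T0 < |θ|}ᶜ, h θ) + (∫ θ in {θ : ℝ | 2 ^ I * T0 < |θ|}, h θ) +
      ∑ i ∈ range I, b i := by
  set c : ℕ → ℝ := fun i => ∫ θ in {θ : ℝ | 2 ^ i * T0 < |θ|}, h θ with hc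
  have h1 : ∀ i < I, c i - c (i + 1) ≤ b i := by
    intro i hiI
    have hsub : {θ : ℝ | 2 ^ (i + 1) * T0 < |θ|} ⊆ {θ : ℝ | 2 ^ i * T0 < |θ|} := by
      intro θ hθ
      have h2 : (2 : ℝ) ^ i * T0 ≤ 2 ^ (i + 1) * T0 := by
        refine mul_le_mul_of_nonneg_right ?_ hT0.le
        exact pow_le_pow_right₀ (by norm_num) (by omega)
      exact lt_of_le_of_lt h2 hθ
    have h3 := MeasureTheory.setIntegral_sdiff (ms_set (2 ^ (i + 1) * T0)) hi.integrableOn hsub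
    have h4 := hb i hiI
    rw [h3] at h4
    exact h4
  have h5 : ∑ i ∈ range I, (c i - c (i + 1)) = c 0 - c I := Finset.sum_range_sub' c I
  have h6 : c 0 - c I ≤ ∑ i ∈ range I, b i := by
    rw [← h5]
    exact Finset.sum_le_sum fun i hi' => h1 i (Finset.mem_range.1 hi')
  have h7 : ∫ θ : ℝ, h θ = (∫ θ in {θ : ℝ | T0 < |θ|}ᶜ, h θ) + c 0 := by
    have h8 := MeasureTheory.integral_add_compl (ms_set T0) hi
    have h9 : c 0 = ∫ θ in {θ : ℝ | T0 < |θ|}, h θ := by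
      simp only [hc, pow_zero, one_mul]
    rw [h9, ← h8]
    ring
  rw [h7]
  have h10 : c I = ∫ θ in {θ : ℝ | 2 ^ I * T0 < |θ|}, h θ := rfl
  rw [← h10]
  linarith

theorem p_G : S_G := by
  intro hkf hkb hmvp m
  obtain ⟨C, hC1, hC⟩ := hmvp m
  refine ⟨12 * C, by omega, ?_⟩
  intro J j I lam T0 G N a l0 S1 S2 S hJ _ hT0 hl1 hl2 hG hI hN ha hn1 hn2 hdis huniv hS
  have hJr : (2 : ℝ) ≤ J := by exact_mod_cast hJ
  have hT00 : 0 < T0 := by linarith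
  have hl0 : 0 < lam := by linarith
  have hG0 : 0 ≤ G := by linarith
  set W : ℝ := G ^ m * ∏ l, (N l : ℝ) with hW
  have hW0 : 0 ≤ W := by positivity
  set g : ℝ → ℝ := fun θ => ‖∏ l, dp (a l) (N l) θ‖ with hg
  have hgW : ∀ θ, g θ ≤ W := fun θ => G_F_le a N ha θ
  obtain ⟨hint, hTS⟩ := G_TS hkf (show 1 ≤ J by omega) hl0 j a N ha
  -- sizes
  have hcast : ∀ A : Finset (Fin m), ∏ l ∈ A, (N l : ℝ) = ((∏ l ∈ A, N l : ℕ) : ℝ) :=
    fun A => (Nat.cast_prod _ _).symm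
  have hP1 : ∀ A : Finset (Fin m), (1 : ℝ) ≤ ∏ l ∈ A, (N l : ℝ) := by
    intro A
    rw [hcast]
    exact_mod_cast Finset.one_le_prod' (fun l _ => hN l)
  have hPle : ∀ A : Finset (Fin m), ∏ l ∈ A, (N l : ℝ) ≤ ∏ l, (N l : ℝ) := by
    intro A
    rw [hcast, hcast]
    exact_mod_cast Finset.prod_le_prod_of_subset_of_one_le' (Finset.subset_univ A)
      (fun l _ _ => hN l)
  set Λ : ℝ := Real.log (∏ l, (N l : ℝ)) with hΛ
  have hΛ0 : 0 ≤ Λ := Real.log_nonneg (hP1 univ)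
  have hΛA : ∀ A : Finset (Fin m), Real.log (∏ l ∈ A, (N l : ℝ)) ≤ Λ := fun A =>
    Real.log_le_log (by have := hP1 A; linarith) (hPle A)
  have hCr : (1 : ℝ) ≤ C := by exact_mod_cast hC1
  set D : ℝ := C * G ^ (2 * m) * (1 + Λ) ^ C with hD
  have hD0 : 0 < D := by positivity
  -- mean values
  have hmean : ∀ (A : Finset (Fin m)) (T : ℝ), 1 ≤ T →
      ∫ θ in Set.Icc (-(2 * T)) (2 * T), (∏ l ∈ A, ‖dp (a l) (N l) θ‖) ^ 2 ≤
        2 * D * ((T + ∏ l ∈ A, (N l : ℝ)) * ∏ l ∈ A, (N l : ℝ)) := by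
    intro A T hT
    have h1 := hC N a A G (2 * T) hG (by linarith) hN ha
    have h2 : ∀ θ : ℝ, (∏ l ∈ A, ‖dp (a l) (N l) θ‖) ^ 2 = ∏ l ∈ A, ‖dp (a l) (N l) θ‖ ^ 2 :=
      fun θ => (Finset.prod_pow _ _ _).symm
    simp only [h2]
    refine h1.trans ?_
    have hPA := hP1 A
    have hlA : 0 ≤ Real.log (∏ l ∈ A, (N l : ℝ)) := Real.log_nonneg hPA
    have h3 : (1 + Real.log (∏ l ∈ A, (N l : ℝ))) ^ C ≤ (1 + Λ) ^ C :=
      pow_le_pow_left₀ (by linarith) (by have := hΛA A; linarith) C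
    have h4 : C * G ^ (2 * m) * (1 + Real.log (∏ l ∈ A, (N l : ℝ))) ^ C ≤ D :=
      mul_le_mul_of_nonneg_left h3 (by positivity)
    calc C * G ^ (2 * m) * (1 + Real.log (∏ l ∈ A, (N l : ℝ))) ^ C *
          ((2 * T + ∏ l ∈ A, (N l : ℝ)) * ∏ l ∈ A, (N l : ℝ))
        ≤ D * ((2 * T + ∏ l ∈ A, (N l : ℝ)) * ∏ l ∈ A, (N l : ℝ)) := by
          refine mul_le_mul_of_nonneg_right h4 ?_
          positivity
      _ ≤ D * ((2 * T + 2 * ∏ l ∈ A, (N l : ℝ)) * ∏ l ∈ A, (N l : ℝ)) := by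
          refine mul_le_mul_of_nonneg_left (mul_le_mul_of_nonneg_right ?_ (by linarith)) hD0.le
          linarith
      _ = _ := by ring
  -- the dyadic ranges
  have hmid : ∀ i < I, ∫ θ in {θ : ℝ | 2 ^ i * T0 < |θ|} \ {θ : ℝ | 2 ^ (i + 1) * T0 < |θ|},
      |G_K J lam θ| * g θ ≤ 12 * D * (min 1 ((J : ℝ) ^ 2 / (2 ^ i * T0) ^ 2) * S i *
        Real.sqrt (((2 ^ i * T0 + ∏ l ∈ S1, (N l : ℝ)) * ∏ l ∈ S1, (N l : ℝ)) *
          ((2 ^ i * T0 + ∏ l ∈ S2, (N l : ℝ)) * ∏ l ∈ S2, (N l : ℝ)))) := by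
    intro i hiI
    set T : ℝ := 2 ^ i * T0 with hT
    have hT1 : 1 ≤ T := by
      have : (1 : ℝ) ≤ 2 ^ i := one_le_pow₀ (by norm_num)
      nlinarith
    have hT0' : 0 < T := by linarith
    have eT : (2 : ℝ) ^ (i + 1) * T0 = 2 * T := by
      rw [hT, pow_succ]
      ring
    rw [eT]
    set E : Set ℝ := {θ : ℝ | T < |θ|} \ {θ : ℝ | 2 * T < |θ|} with hE
    have mE : MeasurableSet E := (ms_set T).diff (ms_set _)
    have hEm : ∀ θ ∈ E, T < |θ| ∧ |θ| ≤ 2 * T := fun θ hθ => ⟨hθ.1, not_lt.1 hθ.2⟩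
    have hEsub : E ⊆ Set.Icc (-(2 * T)) (2 * T) := fun θ hθ => abs_le.1 (hEm θ hθ).2
    have hSi : 0 ≤ S i := by
      refine (norm_nonneg _).trans (hS i hiI T ?_ ?_)
      · rw [abs_of_pos hT0']
      · rw [abs_of_pos hT0']
        linarith
    set M : ℝ := min 1 ((J : ℝ) ^ 2 / T ^ 2) with hM
    have hM0 : 0 ≤ M := le_min zero_le_one (by positivity)
    set f1 : ℝ → ℝ := fun θ => ∏ l ∈ S1, ‖dp (a l) (N l) θ‖ with hf1
    set f2 : ℝ → ℝ := fun θ => ∏ l ∈ S2, ‖dp (a l) (N l) θ‖ with hf2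
    have c1 : Continuous f1 := continuous_finsetProd _ fun l _ => (ms_dp_cont (a l) (N l)).norm
    have c2 : Continuous f2 := continuous_finsetProd _ fun l _ => (ms_dp_cont (a l) (N l)).norm
    have hprod : ∀ θ, g θ = ‖dp (a l0) (N l0) θ‖ * (f1 θ * f2 θ) := by
      intro θ
      simp only [hg, hf1, hf2]
      rw [norm_prod, ← huniv, Finset.prod_insert (by
        rw [Finset.mem_union]
        exact fun h => h.elim hn1 hn2), Finset.prod_union hdis]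
    have hf0 : ∀ θ, 0 ≤ f1 θ * f2 θ := fun θ => by positivity
    have h1 : ∫ θ in E, |G_K J lam θ| * g θ ≤ ∫ θ in E, 6 * M * S i * (f1 θ * f2 θ) := by
      refine MeasureTheory.setIntegral_mono_on hint.integrableOn ?_ mE fun θ hθ => ?_
      · exact ((continuous_const.mul (c1.mul c2)).continuousOn.integrableOn_Icc).mono_set hEsub
      · have h2 := hEm θ hθ
        have h3 := G_K_le hkb (show 1 ≤ J by omega) hl1 hl2 hT0' h2.1
        have h4 := hS i hiI θ h2.1.le h2.2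
        rw [hprod]
        calc |G_K J lam θ| * (‖dp (a l0) (N l0) θ‖ * (f1 θ * f2 θ))
            ≤ (6 * M) * (S i * (f1 θ * f2 θ)) :=
              mul_le_mul h3 (mul_le_mul_of_nonneg_right h4 (hf0 θ))
                (mul_nonneg (norm_nonneg _) (hf0 θ)) (by positivity)
          _ = _ := by ring
    refine h1.trans ?_
    rw [MeasureTheory.integral_const_mul]
    have hPS1 := hP1 S1
    have hPS2 := hP1 S2
    set P1 : ℝ := ∏ l ∈ S1, (N l : ℝ)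
    set P2 : ℝ := ∏ l ∈ S2, (N l : ℝ)
    have hcs := G_cs c1 c2 E mE (2 * T) hEsub (A := 2 * D * ((T + P1) * P1))
      (B := 2 * D * ((T + P2) * P2)) (by positivity) (by positivity)
      (hmean S1 T hT1) (hmean S2 T hT1)
    have hsq : Real.sqrt (2 * D * ((T + P1) * P1) * (2 * D * ((T + P2) * P2))) =
        2 * D * Real.sqrt ((T + P1) * P1 * ((T + P2) * P2)) := by
      have e : 2 * D * ((T + P1) * P1) * (2 * D * ((T + P2) * P2)) =
          (2 * D) ^ 2 * ((T + P1) * P1 * ((T + P2) * P2)) := by ring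
      rw [e, Real.sqrt_mul (by positivity), Real.sqrt_sq (by positivity)]
    rw [hsq] at hcs
    calc 6 * M * S i * ∫ θ in E, f1 θ * f2 θ
        ≤ 6 * M * S i * (2 * D * Real.sqrt ((T + P1) * P1 * ((T + P2) * P2))) :=
          mul_le_mul_of_nonneg_left hcs (by positivity)
      _ = _ := by ring
  have h1 := G_split hint hT00 I _ hmid
  have h2 := G_near hkb hl1 hl2 hT00.le hint hgW hW0
  have h3 := G_far hkf hkb (show 1 ≤ J by omega) hl1 hl2 hI hint hgW hW0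
  rw [← Finset.mul_sum] at h1
  have hSs : 0 ≤ ∑ i ∈ range I, min 1 ((J : ℝ) ^ 2 / (2 ^ i * T0) ^ 2) * S i *
      Real.sqrt (((2 ^ i * T0 + ∏ l ∈ S1, (N l : ℝ)) * ∏ l ∈ S1, (N l : ℝ)) *
          ((2 ^ i * T0 + ∏ l ∈ S2, (N l : ℝ)) * ∏ l ∈ S2, (N l : ℝ))) := by
    refine Finset.sum_nonneg fun i hi => ?_
    have hT0' : 0 < 2 ^ i * T0 := by positivity
    have hSi : 0 ≤ S i := by
      refine (norm_nonneg _).trans (hS i (Finset.mem_range.1 hi) (2 ^ i * T0) ?_ ?_)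
      · rw [abs_of_pos hT0']
      · rw [abs_of_pos hT0']
        linarith
    have hM0 : 0 ≤ min 1 ((J : ℝ) ^ 2 / (2 ^ i * T0) ^ 2) := le_min zero_le_one (by positivity)
    positivity
  set Sg : ℝ := ∑ i ∈ range I, min 1 ((J : ℝ) ^ 2 / (2 ^ i * T0) ^ 2) * S i *
      Real.sqrt (((2 ^ i * T0 + ∏ l ∈ S1, (N l : ℝ)) * ∏ l ∈ S1, (N l : ℝ)) *
          ((2 ^ i * T0 + ∏ l ∈ S2, (N l : ℝ)) * ∏ l ∈ S2, (N l : ℝ))) with hSg
  have h4 : 12 * D * Sg ≤ ((12 * C : ℕ) : ℝ) * G ^ (2 * m) * (1 + Λ) ^ (12 * C) * Sg := by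
    refine mul_le_mul_of_nonneg_right ?_ hSs
    have h5 : (1 + Λ) ^ C ≤ (1 + Λ) ^ (12 * C) := pow_le_pow_right₀ (by linarith) (by omega)
    rw [hD]
    push_cast
    calc 12 * (C * G ^ (2 * m) * (1 + Λ) ^ C) = 12 * C * G ^ (2 * m) * (1 + Λ) ^ C := by ring
      _ ≤ 12 * C * G ^ (2 * m) * (1 + Λ) ^ (12 * C) :=
        mul_le_mul_of_nonneg_left h5 (by positivity)
  calc ‖TS a N (dW lam J j)‖ ≤ ∫ θ : ℝ, |G_K J lam θ| * g θ := hTS
    _ ≤ T0 ^ 3 / lam ^ 2 * W + 11 / J * W + 12 * D * Sg := by linarith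
    _ ≤ T0 ^ 3 / lam ^ 2 * W + 11 / J * W +
        ((12 * C : ℕ) : ℝ) * G ^ (2 * m) * (1 + Λ) ^ (12 * C) * Sg := by linarith
    _ = _ := by ring

end Pool.Agent.CA.SC
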