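import Pool.Agent.Lib.MP_d610d0_nt.CA.SC.Stm

set_option autoImplicit false

/-!
Piece KL: the Kusmin-Landau inequality.
-/

namespace Pool.Agent.CA.SC

open Finset Filter
open Pool.Agent.CH.V (ex)

private theorem KL_ex_add (x y : ℝ) : ex (x + y) = ex x * ex y := by
  unfold ex
  rw [← Complex.exp_add]
  congr 1
  push_cast
  ring

private theorem KL_norm_ex (x : ℝ) : ‖ex x‖ = 1 := by
  unfold ex
  rw [Complex.norm_exp]
  simp

/-- The cotangent of `π g`. -/
private noncomputable def KL_t (g : ℝ) : ℝ := Real.cos (Real.pi * g) / Real.sin (Real.pi * g)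

/-- The coefficient `1 / (ex g - 1)`. -/
private noncomputable def KL_c (g : ℝ) : ℂ := -(1 + Complex.I * (KL_t g : ℂ)) / 2

private theorem KL_sin_pos {g : ℝ} (h0 : 0 < g) (h1 : g < 1) : 0 < Real.sin (Real.pi * g) := by
  apply Real.sin_pos_of_pos_of_lt_pi
  · positivity
  · nlinarith [Real.pi_pos]

private theorem KL_ex_sub (g : ℝ) : ex g - 1 = 2 * Complex.I * (Real.sin (Real.pi * g) : ℂ) *
    ((Real.cos (Real.pi * g) : ℂ) + Complex.I * (Real.sin (Real.pi * g) : ℂ)) := by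
  have h1 : ex g = ((Real.cos (Real.pi * g) : ℂ) + (Real.sin (Real.pi * g) : ℂ) * Complex.I) ^ 2 := by
    unfold ex
    rw [Complex.ofReal_cos, Complex.ofReal_sin, Complex.cos_add_sin_I, ← Complex.exp_nat_mul]
    congr 1
    push_cast
    ring
  have h2 : ((Real.cos (Real.pi * g) : ℂ)) ^ 2 + (Real.sin (Real.pi * g) : ℂ) ^ 2 = 1 := by
    exact_mod_cast Real.cos_sq_add_sin_sq (Real.pi * g)
  rw [h1, ← h2]
  linear_combination (-(Real.sin (Real.pi * g) : ℂ) ^ 2) * Complex.I_sq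

private theorem KL_mul {g : ℝ} (h0 : 0 < g) (h1 : g < 1) : KL_c g * (ex g - 1) = 1 := by
  have hs := KL_sin_pos h0 h1
  have hs' : (Real.sin (Real.pi * g) : ℂ) ≠ 0 := by exact_mod_cast hs.ne'
  have h2 : ((Real.cos (Real.pi * g) : ℂ)) ^ 2 + (Real.sin (Real.pi * g) : ℂ) ^ 2 = 1 := by
    exact_mod_cast Real.cos_sq_add_sin_sq (Real.pi * g)
  rw [KL_ex_sub]
  unfold KL_c KL_t
  rw [Complex.ofReal_div]
  field_simp
  linear_combination (-(Real.sin (Real.pi * g) : ℂ) ^ 2 - (Real.cos (Real.pi * g) : ℂ) ^ 2 -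
    Complex.I * (Real.sin (Real.pi * g) : ℂ) * (Real.cos (Real.pi * g) : ℂ)) * Complex.I_sq + h2

private theorem KL_norm_sub (g : ℝ) (h0 : 0 < g) (h1 : g < 1) :
    ‖ex g - 1‖ = 2 * Real.sin (Real.pi * g) := by
  have hs := KL_sin_pos h0 h1
  rw [KL_ex_sub, norm_mul, norm_mul, norm_mul, Complex.norm_I, Complex.norm_real,
    Real.norm_of_nonneg hs.le]
  have : ‖(Real.cos (Real.pi * g) : ℂ) + Complex.I * (Real.sin (Real.pi * g) : ℂ)‖ = 1 := by
    rw [mul_comm Complex.I, Complex.ofReal_cos, Complex.ofReal_sin, Complex.cos_add_sin_I,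
      Complex.norm_exp_ofReal_mul_I]
  rw [this]
  simp

private theorem KL_sin_ge {g δ : ℝ} (hδ : 0 < δ) (h0 : δ ≤ g) (h1 : g ≤ 1 - δ) :
    2 * δ ≤ Real.sin (Real.pi * g) := by
  have hp := Real.pi_pos
  rcases le_total g (1 / 2) with h | h
  · have := Real.mul_le_sin (x := Real.pi * g) (by nlinarith) (by nlinarith)
    have h2 : 2 / Real.pi * (Real.pi * g) = 2 * g := by field_simp
    linarith
  · have := Real.mul_le_sin (x := Real.pi * (1 - g)) (by nlinarith) (by nlinarith)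
    have h2 : 2 / Real.pi * (Real.pi * (1 - g)) = 2 * (1 - g) := by field_simp
    have h3 : Real.sin (Real.pi * (1 - g)) = Real.sin (Real.pi * g) := by
      rw [mul_sub, mul_one, Real.sin_pi_sub]
    linarith

private theorem KL_norm_c {g δ : ℝ} (hδ : 0 < δ) (h0 : δ ≤ g) (h1 : g ≤ 1 - δ) :
    ‖KL_c g‖ ≤ 1 / (4 * δ) := by
  have hg0 : 0 < g := lt_of_lt_of_le hδ h0
  have hg1 : g < 1 := by linarith
  have h2 := congrArg norm (KL_mul hg0 hg1)
  rw [norm_mul, norm_one, KL_norm_sub g hg0 hg1] at h2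
  have h3 := KL_sin_ge hδ h0 h1
  rw [le_div_iff₀ (by positivity)]
  nlinarith [norm_nonneg (KL_c g)]

private theorem KL_t_le (g : ℝ) : |KL_t g| / 2 ≤ ‖KL_c g‖ := by
  have h := Complex.abs_im_le_norm (KL_c g)
  have h2 : (KL_c g).im = -(KL_t g) / 2 := by
    unfold KL_c
    simp
  rw [h2, abs_div, abs_neg, abs_two] at h
  exact h

private theorem KL_mono {g g' : ℝ} (h0 : 0 < g') (h : g' ≤ g) (h1 : g < 1) :
    KL_t g ≤ KL_t g' := by
  have hs := KL_sin_pos (lt_of_lt_of_le h0 h) h1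
  have hs' := KL_sin_pos h0 (lt_of_le_of_lt h h1)
  unfold KL_t
  rw [div_le_div_iff₀ hs hs']
  have h3 : 0 ≤ Real.sin (Real.pi * g - Real.pi * g') := by
    apply Real.sin_nonneg_of_nonneg_of_le_pi
    · nlinarith [Real.pi_pos]
    · nlinarith [Real.pi_pos]
  rw [Real.sin_sub] at h3
  linarith

private theorem KL_diff {g g' : ℝ} (h : KL_t g ≤ KL_t g') :
    ‖KL_c g - KL_c g'‖ = (KL_t g' - KL_t g) / 2 := by
  have h1 : KL_c g - KL_c g' = Complex.I * (((KL_t g' - KL_t g) / 2 : ℝ) : ℂ) := by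
    unfold KL_c
    push_cast
    ring
  rw [h1, norm_mul, Complex.norm_I, one_mul, Complex.norm_real, Real.norm_of_nonneg]
  linarith

theorem p_KL : S_KL := by
  intro K φ δ hδ hδ2 hg hm
  rcases Nat.eq_zero_or_pos K with rfl | hK
  · simp only [range_zero, sum_empty, norm_zero]
    positivity
  have hstep : ∀ n < K, ex (φ n) = KL_c (φ (n + 1) - φ n) * (ex (φ (n + 1)) - ex (φ n)) := by
    intro n hn
    obtain ⟨h1, h2⟩ := hg n hn
    have h3 := KL_mul (lt_of_lt_of_le hδ h1) (by linarith : φ (n + 1) - φ n < 1)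
    have h4 : ex (φ (n + 1)) = ex (φ (n + 1) - φ n) * ex (φ n) := by
      rw [← KL_ex_add]
      congr 1
      ring
    rw [h4]
    linear_combination (-ex (φ n)) * h3
  have key : ∀ m < K, ‖∑ n ∈ range (m + 1), ex (φ n) -
      KL_c (φ (m + 1) - φ m) * ex (φ (m + 1))‖ ≤ ‖KL_c (φ 1 - φ 0)‖ +
        (KL_t (φ (m + 1) - φ m) - KL_t (φ 1 - φ 0)) / 2 := by
    intro m
    induction m with
    | zero =>
      intro h0
      have h1 := hstep 0 h0
      simp only [zero_add, range_one, sum_singleton] at h1 ⊢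
      have h2 : ex (φ 0) - KL_c (φ 1 - φ 0) * ex (φ 1) = -(KL_c (φ 1 - φ 0) * ex (φ 0)) := by
        linear_combination h1
      rw [h2, norm_neg, norm_mul, KL_norm_ex]
      linarith
    | succ m ih =>
      intro hm1
      have h0 := ih (by omega)
      have h1 := hstep (m + 1) hm1
      obtain ⟨a1, a2⟩ := hg m (by omega)
      obtain ⟨b1, b2⟩ := hg (m + 1) hm1
      have hmm := hm m hm1
      have h2 := KL_mono (lt_of_lt_of_le hδ b1) hmm (by linarith : φ (m + 1) - φ m < 1)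
      have h3 : ∑ n ∈ range (m + 1 + 1), ex (φ n) -
          KL_c (φ (m + 1 + 1) - φ (m + 1)) * ex (φ (m + 1 + 1)) =
          (∑ n ∈ range (m + 1), ex (φ n) - KL_c (φ (m + 1) - φ m) * ex (φ (m + 1))) +
          (KL_c (φ (m + 1) - φ m) - KL_c (φ (m + 1 + 1) - φ (m + 1))) * ex (φ (m + 1)) := by
        rw [sum_range_succ _ (m + 1)]
        linear_combination h1
      rw [h3]
      refine (norm_add_le _ _).trans ?_
      rw [norm_mul, KL_norm_ex, mul_one, KL_diff h2]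
      have h5 : φ (m + 1 + 1) = φ (m + 2) := rfl
      rw [h5]
      linarith
  obtain ⟨m, rfl⟩ : ∃ m, K = m + 1 := ⟨K - 1, by omega⟩
  have h1 := key m (Nat.lt_succ_self m)
  obtain ⟨a1, a2⟩ := hg m (Nat.lt_succ_self m)
  obtain ⟨b1, b2⟩ := hg 0 (by omega)
  rw [zero_add] at b1 b2
  have h2 := KL_norm_c hδ a1 a2
  have h3 := KL_norm_c hδ b1 b2
  have h4 := KL_t_le (φ (m + 1) - φ m)
  have h5 := KL_t_le (φ 1 - φ 0)
  have h6 : ‖∑ n ∈ range (m + 1), ex (φ n)‖ ≤
      ‖∑ n ∈ range (m + 1), ex (φ n) - KL_c (φ (m + 1) - φ m) * ex (φ (m + 1))‖ +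
        ‖KL_c (φ (m + 1) - φ m)‖ := by
    have := norm_add_le (∑ n ∈ range (m + 1), ex (φ n) -
      KL_c (φ (m + 1) - φ m) * ex (φ (m + 1))) (KL_c (φ (m + 1) - φ m) * ex (φ (m + 1)))
    rw [sub_add_cancel, norm_mul, KL_norm_ex, mul_one] at this
    exact this
  have h7 := le_abs_self (KL_t (φ (m + 1) - φ m))
  have h8 := neg_abs_le (KL_t (φ 1 - φ 0))
  have h9 : 1 / δ = 4 * (1 / (4 * δ)) := by
    field_simp
  rw [h9]
  linarith

end Pool.Agent.CA.SC
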