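import Pool.Agent.Lib.MP_d610d0_nt.CA.SC.Stm2

set_option autoImplicit false

/-!
Project CA, section SC, piece SB: small conductors for products of at least five primes.
-/

namespace Pool.Agent.CA.SC

open Finset Filter
open Pool.Agent.CH (wJ wL)
open Pool.Agent.CH.D (Sf FL)

/-- The decomposition of the short window. -/
theorem SB_split (f : ℕ → ℝ) (J j E : ℕ) {r : ℕ} (χ : DirichletCharacter ℂ r) :
    (2 * (J : ℂ)) * Sf f J j χ =
      ∑ n ∈ Icc 1 (27 * J ^ 3), ((f n : ℝ) : ℂ) * (χ (n : ZMod r) * dW ((Real.log J) ^ E) J j n)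
      + (((Real.log J) ^ E : ℝ) : ℂ) * ∑ n ∈ Icc 1 (27 * J ^ 3), ((f n : ℝ) : ℂ) *
        (χ (n : ZMod r) * (wL ((Real.log J) ^ E) j n : ℂ)) := by
  unfold Sf
  rw [Finset.mul_sum, Finset.mul_sum, ← Finset.sum_add_distrib]
  refine Finset.sum_congr rfl fun n _ => ?_
  unfold dW
  push_cast
  ring

/-- The final estimate. -/
theorem SB_fin (A E : ℕ) (J : ℕ) (hJ : 1 ≤ J) (hL : 1 ≤ Real.log J) (S X Y : ℂ)
    (h : (2 * (J : ℂ)) * S = X + (((Real.log J) ^ E : ℝ) : ℂ) * Y)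
    (hX : ‖X‖ ≤ (J : ℝ) ^ 3 / (Real.log J) ^ (A + 1))
    (hY : ‖Y‖ ≤ (J : ℝ) ^ 3 / (Real.log J) ^ (A + 1 + E)) :
    ‖S‖ ≤ (J : ℝ) ^ 2 / (Real.log J) ^ A := by
  have hJ0 : (0 : ℝ) < J := by exact_mod_cast hJ
  have hL0 : (0 : ℝ) < Real.log J := by linarith
  set L := Real.log J with hLd
  have h1 : ‖(2 * (J : ℂ)) * S‖ = 2 * J * ‖S‖ := by
    rw [norm_mul, norm_mul]
    simp
  have h2 : ‖(((L : ℝ) ^ E : ℝ) : ℂ) * Y‖ ≤ (J : ℝ) ^ 3 / L ^ (A + 1) := by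
    rw [norm_mul, Complex.norm_real, Real.norm_of_nonneg (by positivity)]
    calc L ^ E * ‖Y‖ ≤ L ^ E * ((J : ℝ) ^ 3 / L ^ (A + 1 + E)) :=
          mul_le_mul_of_nonneg_left hY (by positivity)
      _ = (J : ℝ) ^ 3 / L ^ (A + 1) := by
          rw [pow_add L (A + 1) E]
          field_simp
  have h3 : 2 * J * ‖S‖ ≤ (J : ℝ) ^ 3 / L ^ (A + 1) + (J : ℝ) ^ 3 / L ^ (A + 1) := by
    rw [← h1, h]
    exact (norm_add_le _ _).trans (add_le_add hX h2)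
  have h4 : (J : ℝ) ^ 3 / L ^ (A + 1) ≤ (J : ℝ) ^ 3 / L ^ A := by
    apply div_le_div_of_nonneg_left (by positivity) (by positivity)
    exact pow_le_pow_right₀ hL (by omega)
  have h5 : J * ‖S‖ ≤ J * ((J : ℝ) ^ 2 / L ^ A) := by
    have h6 : (J : ℝ) * ((J : ℝ) ^ 2 / L ^ A) = (J : ℝ) ^ 3 / L ^ A := by ring
    rw [h6]
    linarith
  exact le_of_mul_le_mul_left h5 hJ0

theorem SB_L (J : ℕ) (h : 3 ≤ J) : 1 ≤ Real.log J := by
  have h1 : Real.exp 1 ≤ J := by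
    have h2 : (3 : ℝ) ≤ J := by exact_mod_cast h
    have h3 := Real.exp_one_lt_d9
    linarith
  have h4 := Real.log_le_log (Real.exp_pos 1) h1
  rwa [Real.log_exp] at h4

theorem p_SB : S_SB := by
  intro hC hw k lo hi hbox A B
  obtain ⟨E0, hE⟩ := hC k lo hi hbox (A + 1) B
  filter_upwards [hE E0 le_rfl, hw k lo hi hbox (A + 1 + E0) B E0, eventually_ge_atTop 3]
    with J h1 h2 h3
  intro r χ hr hrB hχ j hj
  have hX := h1 j r χ hj (by omega) hrB hχ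
  have hY := h2 j r χ hj hr hrB hχ
  exact SB_fin A E0 J (by omega) (SB_L J h3) _ _ _
    (SB_split (fun n => bx k (lo J) (hi J) n) J j E0 χ) hX hY

end Pool.Agent.CA.SC
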