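import Pool.Agent.Lib.MP_d610d0_nt.CA.SC.Stm2
import Pool.Agent.Lib.MP_d610d0_nt.CA.LC.P.vsm

set_option autoImplicit false

/-!
Project CA, section SC: piece Wd (the two smooth shapes).
-/

namespace Pool.Agent.CA.SC

open Finset Filter
open scoped ContDiff
open Pool.Agent.CA.LC (Vsm vsm_Vs vsm_Wd_zero vsm_out)

theorem Wd_lip (V : ℝ → ℝ) (hV : Vsm V) : ∃ C : ℝ, ∀ x y, |V x - V y| ≤ C * |x - y| := by
  have hc : HasCompactSupport V := by
    refine HasCompactSupport.intro (K := Set.Icc (1 / 2 : ℝ) 2) isCompact_Icc fun x hx => ?_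
    by_contra h
    exact hx (hV.sp x h)
  obtain ⟨C, hC⟩ := ContDiff.lipschitzWith_of_hasCompactSupport hc hV.sm (by simp)
  refine ⟨C, fun x y => ?_⟩
  have h1 := hC.dist_le_mul x y
  rwa [Real.dist_eq, Real.dist_eq] at h1

theorem Wd_range (x : ℝ) : 0 ≤ Wd x ∧ Wd x ≤ 1 := by
  by_cases hx : x < 1 / 2
  · rw [vsm_Wd_zero x (Or.inl hx)]
    exact ⟨le_refl _, zero_le_one⟩
  · push Not at hx
    unfold Wd
    have h1 : Real.smoothTransition (2 - 2 * x) ≤ Real.smoothTransition (2 - x) :=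
      Real.smoothTransition.monotone (by linarith)
    have h2 := Real.smoothTransition.le_one (2 - x)
    have h3 := Real.smoothTransition.nonneg (2 - 2 * x)
    exact ⟨by linarith, by linarith⟩

theorem Wd_bd (i : Fin 2) (x : ℝ) : |Vs i x| ≤ 1 := by
  by_cases hx : x < 1 / 2 ∨ 2 < x
  · rw [vsm_out (Vs i) (vsm_Vs i) x hx, abs_zero]
    exact zero_le_one
  · push Not at hx
    obtain ⟨h1, h2⟩ := hx
    obtain ⟨h3, h4⟩ := Wd_range x
    unfold Vs
    split_ifs
    · rw [abs_of_nonneg h3]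
      exact h4
    · rw [abs_mul, abs_of_nonneg h3]
      have h5 : |Real.log x| ≤ 1 := by
        have hlog2 : Real.log 2 < 1 := by
          have := Real.log_two_lt_d9
          linarith
        rw [abs_le]
        constructor
        · have h6 : Real.log (1 / 2) ≤ Real.log x := Real.log_le_log (by norm_num) h1
          rw [one_div, Real.log_inv] at h6
          linarith
        · have h6 : Real.log x ≤ Real.log 2 := Real.log_le_log (by linarith) h2
          linarith
      calc Wd x * |Real.log x| ≤ 1 * 1 := mul_le_mul h4 h5 (abs_nonneg _) zero_le_one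
        _ = 1 := one_mul 1

theorem Wd_sum (K : ℕ) (x : ℝ) (h1 : 1 ≤ x) (h2 : x ≤ 2 ^ K) :
    ∑ k ∈ range (K + 1), Wd (x / 2 ^ k) = 1 := by
  have h : ∀ k : ℕ, Wd (x / 2 ^ k) = Real.smoothTransition (2 - 2 * (x / 2 ^ (k + 1))) -
      Real.smoothTransition (2 - 2 * (x / 2 ^ k)) := by
    intro k
    unfold Wd
    have h3 : 2 * (x / 2 ^ (k + 1)) = x / 2 ^ k := by
      rw [pow_succ]
      field_simp
    rw [h3]
  rw [Finset.sum_congr rfl (fun k _ => h k),
    Finset.sum_range_sub (fun k => Real.smoothTransition (2 - 2 * (x / 2 ^ k)))]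
  have h4 : Real.smoothTransition (2 - 2 * (x / 2 ^ (K + 1))) = 1 := by
    apply Real.smoothTransition.one_of_one_le
    have h5 : 2 * (x / 2 ^ (K + 1)) = x / 2 ^ K := by
      rw [pow_succ]
      field_simp
    have h6 : x / 2 ^ K ≤ 1 := by
      rw [div_le_one (by positivity)]
      exact h2
    rw [h5]
    linarith
  have h5 : Real.smoothTransition (2 - 2 * (x / 2 ^ 0)) = 0 := by
    apply Real.smoothTransition.zero_of_nonpos
    rw [pow_zero, div_one]
    linarith
  rw [h4, h5, sub_zero]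

theorem p_Wd : S_Wd := by
  obtain ⟨C0, hC0⟩ := Wd_lip (Vs 0) (vsm_Vs 0)
  obtain ⟨C1, hC1⟩ := Wd_lip (Vs 1) (vsm_Vs 1)
  refine ⟨max 1 (max C0 C1), le_max_left _ _, ⟨fun x => ?_, fun x y => ?_, fun x hx => ?_⟩,
    ⟨fun x => ?_, fun x y => ?_, fun x hx => ?_⟩, Wd_bd, Wd_sum⟩
  · exact (Wd_bd 0 x).trans (le_max_left _ _)
  · exact (hC0 x y).trans (mul_le_mul_of_nonneg_right
      ((le_max_left _ _).trans (le_max_right _ _)) (abs_nonneg _))
  · exact (vsm_Vs 0).sp x hx
  · exact (Wd_bd 1 x).trans (le_max_left _ _)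
  · exact (hC1 x y).trans (mul_le_mul_of_nonneg_right
      ((le_max_right _ _).trans (le_max_right _ _)) (abs_nonneg _))
  · exact (vsm_Vs 1).sp x hx

end Pool.Agent.CA.SC
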