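import Pool.Agent.Lib.MP_d610d0_nt.CA.SC.Stm2

set_option autoImplicit false

/-!
Project CA, section SC, piece box.
-/

namespace Pool.Agent.CA.SC

open Finset Filter
open ArithmeticFunction (vonMangoldt moebius)
open Pool.Agent.MP89da58 (tri)
open Pool.Agent.CH (wJ wL)
open Pool.Agent.CH.V (pz ex)
open Pool.Agent.CH.D (dp kap xj Sf FL R_spc R_pwp)

private lemma dW_zero (hspc : R_spc) {J j n : ℕ} {lam : ℝ} (hJ : 1 ≤ J) (hj : j ∈ Ioc J (2 * J))
    (hlam : 10 ≤ lam) (hn : 1 ≤ n) (h : 2 * n ≤ J ^ 3 ∨ 27 * J ^ 3 < n) : dW lam J j n = 0 := by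
  obtain ⟨-, h1, h2⟩ := hspc J hJ
  have hw : wJ J j n = 0 := by
    by_contra hne
    obtain ⟨ha, hb⟩ := h1 j hj n hn hne
    rw [mem_Ioc] at hj
    have h3 : (j + 1) ^ 3 ≤ (2 * J + 1) ^ 3 := Nat.pow_le_pow_left (by omega) 3
    have h4 : (J + 1) ^ 3 ≤ j ^ 3 := Nat.pow_le_pow_left (by omega) 3
    have h5 : (2 * J + 1) ^ 3 ≤ 27 * J ^ 3 := by
      have : (2 * J + 1) ^ 3 ≤ (3 * J) ^ 3 := Nat.pow_le_pow_left (by omega) 3
      calc (2 * J + 1) ^ 3 ≤ (3 * J) ^ 3 := this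
        _ = 27 * J ^ 3 := by ring
    have h6 : J ^ 3 ≤ (J + 1) ^ 3 := Nat.pow_le_pow_left (by omega) 3
    rcases h with h | h
    · omega
    · omega
  have hl : wL lam j n = 0 := by
    by_contra hne
    obtain ⟨ha, hb⟩ := h2 j hj n lam hn hlam hne
    rcases h with h | h
    · omega
    · omega
  unfold dW
  rw [hw, hl]
  simp

/-- Blocks: support and size. -/
private lemma blk_supp (hWd : R_Wd) {f : ArithmeticFunction ℂ} {N : ℕ} {Z : ℝ}
    (h : Sb f (N : ℝ) ∨ (Mb f (N : ℝ) ∧ (N : ℝ) ≤ Z)) :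
    1 ≤ N ∧ (∀ n, ‖f n‖ ≤ 1) ∧ ∀ n, 2 * N < n → f n = 0 := by
  obtain ⟨G, hG1, hV0, hV1, hVb, -⟩ := hWd
  rcases h with h | ⟨h, -⟩
  · have hN : 1 ≤ N := by exact_mod_cast h.one
    obtain ⟨i, hi⟩ := h.sm
    refine ⟨hN, fun n => ?_, fun n hn => ?_⟩
    · rcases Nat.eq_zero_or_pos n with rfl | hn
      · simp
      · rw [hi n hn, Complex.norm_real]
        exact hVb i _
    · rw [hi n (by omega)]
      have hc : Cf G (Pool.Agent.CA.Vs i) := by
        fin_cases i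
        · exact hV0
        · exact hV1
      have h0 : Pool.Agent.CA.Vs i ((n : ℝ) / N) = 0 := by
        by_contra hne
        obtain ⟨-, h2⟩ := hc.supp _ hne
        have hN0 : (0 : ℝ) < N := by exact_mod_cast (by omega : 0 < N)
        rw [div_le_iff₀ hN0] at h2
        have : (n : ℝ) ≤ ((2 * N : ℕ) : ℝ) := by push_cast; exact h2
        have : n ≤ 2 * N := by exact_mod_cast this
        omega
      rw [h0]; simp
  · have hN : 1 ≤ N := by exact_mod_cast h.one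
    obtain ⟨a, b, -, hb, hf⟩ := h.mu
    have hb' : b ≤ N := by exact_mod_cast hb
    refine ⟨hN, fun n => ?_, fun n hn => ?_⟩
    · rw [hf n]
      split_ifs with hc
      · have h1 : |(moebius n : ℤ)| ≤ 1 := ArithmeticFunction.abs_moebius_le_one
        rw [Complex.norm_intCast]
        exact_mod_cast h1
      · simp
    · rw [hf n, if_neg (by omega)]

/-- The sum over `n` as a sum over tuples. -/
private lemma to_TS (hcv : R_cv) (hspc : R_spc) {m : ℕ} {J j r : ℕ} {lam : ℝ}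
    (χ : DirichletCharacter ℂ r) (f : Fin m → ArithmeticFunction ℂ) (N : Fin m → ℕ) (hJ : 1 ≤ J)
    (hj : j ∈ Ioc J (2 * J)) (hlam : 10 ≤ lam) (hf : ∀ i n, 2 * N i < n → f i n = 0) :
    ∑ n ∈ Icc 1 (27 * J ^ 3), (∏ i, f i) n * (χ (n : ZMod r) * dW lam J j n)
      = TS (fun i n => f i n * χ (n : ZMod r)) (fun i => 2 * N i) (dW lam J j) := by
  have h := hcv m f (fun i => 2 * N i) (27 * J ^ 3)
    (fun n => if 1 ≤ n ∧ n ≤ 27 * J ^ 3 then χ (n : ZMod r) * dW lam J j n else 0) hf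
    (fun n hn => by rw [if_neg (by omega)])
  have h2 : ∑ n ∈ Icc 1 (27 * J ^ 3), (∏ i, f i) n * (χ (n : ZMod r) * dW lam J j n)
      = ∑ n ∈ Icc 1 (27 * J ^ 3), (∏ l, f l) n *
        (if 1 ≤ n ∧ n ≤ 27 * J ^ 3 then χ (n : ZMod r) * dW lam J j n else 0) := by
    refine Finset.sum_congr rfl fun n hn => ?_
    rw [mem_Icc] at hn
    rw [if_pos hn]
  rw [h2, h]
  unfold TS
  refine Finset.sum_congr rfl fun n hn => ?_
  rw [Fintype.mem_piFinset] at hn
  have hn1 : 1 ≤ ∏ l, n l := by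
    refine Nat.one_le_iff_ne_zero.mpr (Finset.prod_ne_zero_iff.mpr fun l _ => ?_)
    have := hn l
    rw [mem_Icc] at this
    omega
  have hprod : χ (((∏ l, n l : ℕ)) : ZMod r) = ∏ l, χ ((n l : ℕ) : ZMod r) := by
    rw [Nat.cast_prod, map_prod]
  beta_reduce
  by_cases hle : ∏ l, n l ≤ 27 * J ^ 3
  · rw [if_pos ⟨hn1, hle⟩, hprod, Finset.prod_mul_distrib]
    ring
  · rw [if_neg (fun hc => hle hc.2), dW_zero hspc hJ hj hlam hn1 (Or.inr (by omega))]
    simp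

/-- The sum vanishes when the product of the sizes is too small. -/
private lemma TS_zero (hspc : R_spc) {m : ℕ} {J j : ℕ} {lam : ℝ} (a : Fin m → ℕ → ℂ) (N : Fin m → ℕ)
    (hJ : 1 ≤ J) (hj : j ∈ Ioc J (2 * J)) (hlam : 10 ≤ lam)
    (h : 2 * (2 ^ m * ∏ i, N i) ≤ J ^ 3) :
    TS a (fun i => 2 * N i) (dW lam J j) = 0 := by
  unfold TS
  refine Finset.sum_eq_zero fun n hn => ?_
  rw [Fintype.mem_piFinset] at hn
  have hn1 : 1 ≤ ∏ l, n l := by
    refine Nat.one_le_iff_ne_zero.mpr (Finset.prod_ne_zero_iff.mpr fun l _ => ?_)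
    have := hn l
    rw [mem_Icc] at this
    omega
  have hle : ∏ l, n l ≤ 2 ^ m * ∏ i, N i := by
    calc ∏ l, n l ≤ ∏ l, (2 * N l) := Finset.prod_le_prod' fun l _ => by
          have := hn l
          rw [mem_Icc] at this
          exact this.2
      _ = 2 ^ m * ∏ i, N i := by
          rw [Finset.prod_mul_distrib, Finset.prod_const, Finset.card_univ, Fintype.card_fin]
  rw [dW_zero hspc hJ hj hlam hn1 (Or.inl (by omega)), mul_zero]

private lemma Cf_mono {G G' : ℝ} {V : ℝ → ℝ} (h : Cf G V) (hG : G ≤ G') : Cf G' V :=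
  ⟨fun x => (h.bd x).trans hG,
    fun x y => (h.lip x y).trans (mul_le_mul_of_nonneg_right hG (abs_nonneg _)), h.supp⟩

/-- A smooth block times `χ` is a smooth factor. -/
private lemma sb_eq {r : ℕ} (χ : DirichletCharacter ℂ r) {f : ArithmeticFunction ℂ} {N : ℕ} {G : ℝ}
    (i : Fin 2) (hi : ∀ n : ℕ, 1 ≤ n → f n = ((Pool.Agent.CA.Vs i (n / N) : ℝ) : ℂ))
    (hc : Cf G (Pool.Agent.CA.Vs i)) :
    (fun n => f n * χ (n : ZMod r)) = sf χ (Pool.Agent.CA.Vs i) N := by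
  funext n
  unfold sf
  rcases Nat.eq_zero_or_pos n with rfl | hn
  · have h0 : Pool.Agent.CA.Vs i (((0 : ℕ) : ℝ) / N) = 0 := by
      by_contra hne
      obtain ⟨h1, -⟩ := hc.supp _ hne
      simp at h1
      linarith
    rw [h0]
    simp
  · rw [hi n hn]
    ring

private lemma mb_eq {r : ℕ} (χ : DirichletCharacter ℂ r) {f : ArithmeticFunction ℂ} (a b : ℕ)
    (hf : ∀ n : ℕ, f n = if a < n ∧ n ≤ b then ((moebius n : ℤ) : ℂ) else 0) :
    (fun n => f n * χ (n : ZMod r)) = mf χ a b := by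
  funext n
  unfold mf
  rw [hf n]
  split_ifs
  · rfl
  · rw [zero_mul]

private lemma ev_log : Tendsto (fun J : ℕ => Real.log (J : ℝ)) atTop atTop :=
  Real.tendsto_log_atTop.comp tendsto_natCast_atTop_atTop

private lemma ev_pow : ∀ᶠ x : ℝ in atTop, x ^ (19 / 20 : ℝ) ≤ x / 5 := by
  have h1 : Tendsto (fun x : ℝ => x ^ (1 / 20 : ℝ)) atTop atTop := tendsto_rpow_atTop (by norm_num)
  filter_upwards [h1.eventually_ge_atTop 5, eventually_gt_atTop (0 : ℝ)] with x hx hx0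
  have h2 : x ^ (19 / 20 : ℝ) * x ^ (1 / 20 : ℝ) = x := by
    rw [← Real.rpow_add hx0]
    norm_num
  have h3 : 0 < x ^ (19 / 20 : ℝ) := Real.rpow_pos_of_pos hx0 _
  rw [le_div_iff₀ (by norm_num)]
  calc x ^ (19 / 20 : ℝ) * 5 ≤ x ^ (19 / 20 : ℝ) * x ^ (1 / 20 : ℝ) :=
        mul_le_mul_of_nonneg_left hx h3.le
    _ = x := h2

private lemma log_lo {J n P : ℕ} (hJ : 2 ≤ J) (hL : 100 ≤ Real.log J) (h1 : J ^ 3 < 2 * (2 ^ (2 * 6) * P))
    (h2 : P ≤ n ^ (2 * 6)) (hn : 1 ≤ n) : Real.log J / 5 ≤ Real.log n := by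
  have hJ0 : (0 : ℝ) < J := by exact_mod_cast (by omega : 0 < J)
  have hn0 : (0 : ℝ) < n := by exact_mod_cast (by omega : 0 < n)
  have h3 : (J : ℝ) ^ 3 ≤ 2 ^ 13 * (n : ℝ) ^ 12 := by
    have h4 : J ^ 3 ≤ 2 ^ 13 * n ^ 12 := by
      calc J ^ 3 ≤ 2 * (2 ^ (2 * 6) * P) := h1.le
        _ ≤ 2 * (2 ^ (2 * 6) * n ^ (2 * 6)) :=
            Nat.mul_le_mul_left _ (Nat.mul_le_mul_left _ h2)
        _ = 2 ^ 13 * n ^ 12 := by ring
    exact_mod_cast h4
  have h5 := Real.log_le_log (by positivity) h3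
  rw [Real.log_pow, Real.log_mul (by positivity) (by positivity), Real.log_pow, Real.log_pow] at h5
  push_cast at h5
  have h6 : Real.log 2 ≤ 1 := by
    have := Real.log_two_lt_d9
    linarith
  linarith

private lemma log_hi {J n P : ℕ} (hJ : 2 ≤ J) (hL : 100 ≤ Real.log J) (h1 : n ≤ P)
    (h2 : (P : ℝ) ≤ 2 ^ (2 * 6) * (27 * (J : ℝ) ^ 3)) (hn : 1 ≤ n) :
    Real.log n ≤ 4 * Real.log J := by
  have hJ0 : (0 : ℝ) < J := by exact_mod_cast (by omega : 0 < J)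
  have hn0 : (0 : ℝ) < n := by exact_mod_cast (by omega : 0 < n)
  have h3 : (n : ℝ) ≤ 2 ^ 17 * (J : ℝ) ^ 3 := by
    have h4 : (n : ℝ) ≤ P := by exact_mod_cast h1
    have h5 : (0 : ℝ) < (J : ℝ) ^ 3 := by positivity
    norm_num at h2 ⊢
    linarith
  have h5 := Real.log_le_log hn0 h3
  rw [Real.log_mul (by positivity) (by positivity), Real.log_pow, Real.log_pow] at h5
  push_cast at h5
  have h6 : Real.log 2 ≤ 1 := by
    have := Real.log_two_lt_d9
    linarith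
  linarith

theorem p_box : S_box := by
  intro hWd hcv h1 h2 h3 hsmk hmuk hspc A B
  have hWd' := hWd
  obtain ⟨G, hG1, hV0, hV1, -, -⟩ := hWd'
  have hVc : ∀ k : Fin 2, Cf G (Pool.Agent.CA.Vs k) := by
    intro k
    fin_cases k
    · exact hV0
    · exact hV1
  obtain ⟨A1, E1, h1⟩ := h1 (2 * 6) A B
  obtain ⟨A2, E2, h2⟩ := h2 (2 * 6) A A1 B
  obtain ⟨A', h3⟩ := h3 (2 * 6) A (A2 + 1)
  obtain ⟨C1, hmuk⟩ := hmuk A' B
  obtain ⟨E3, h3⟩ := h3 (max (A' + 6) C1)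
  refine ⟨max E1 (max E2 E3) + 1, fun E hE => ?_⟩
  filter_upwards [h1 E (by omega), h2 E (by omega), h3 E (by omega), hsmk (A' + 1) B, hmuk,
    eventually_ge_atTop 2, ev_log.eventually_ge_atTop 100, ev_log.eventually_ge_atTop G,
    ev_log.eventually ev_pow] with J h1 h2 h3 hsmk hmuk hJ hL hLG hLp
  intro j r Z χ f N hj hr hrB hχ hZ hblk hprod
  have hlam : 10 ≤ (Real.log J) ^ E := by
    calc (10 : ℝ) ≤ (Real.log J) ^ 1 := by rw [pow_one]; linarith
      _ ≤ (Real.log J) ^ E := pow_le_pow_right₀ (by linarith) (by omega)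
  have hb := fun i => blk_supp hWd (hblk i)
  have hJ0 : (0 : ℝ) < J := by exact_mod_cast (by omega : 0 < J)
  have hL0 : 0 < Real.log J := by linarith
  have hbound : 0 ≤ (J : ℝ) ^ 3 / (Real.log J) ^ A := by positivity
  rw [to_TS hcv hspc χ f N (by omega) hj hlam (fun i n hn => (hb i).2.2 n hn)]
  by_cases hsmall : 2 * (2 ^ (2 * 6) * ∏ i, N i) ≤ J ^ 3
  · rw [TS_zero hspc _ N (by omega) hj hlam hsmall, norm_zero]
    exact hbound
  push Not at hsmall
  have hL2 : 1 ≤ (Real.log J) ^ 2 := one_le_pow₀ (by linarith)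
  have hGL : G ≤ (Real.log J) ^ 2 := by
    calc G ≤ Real.log J := hLG
      _ = (Real.log J) ^ 1 := (pow_one _).symm
      _ ≤ (Real.log J) ^ 2 := pow_le_pow_right₀ (by linarith) (by norm_num)
  have hN1 : ∀ i, 1 ≤ N i := fun i => (hb i).1
  have hbox : Box (2 * 6) J N (fun i n => f i n * χ (n : ZMod r)) := by
    refine ⟨hN1, fun i n => ?_, ?_, ?_⟩
    · rw [norm_mul]
      calc ‖f i n‖ * ‖χ (n : ZMod r)‖ ≤ 1 * 1 :=
            mul_le_mul ((hb i).2.1 n) (DirichletCharacter.norm_le_one χ _) (norm_nonneg _) zero_le_one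
        _ ≤ (Real.log J) ^ 2 := by rw [one_mul]; exact hL2
    · have h4 : ((J ^ 3 : ℕ) : ℝ) ≤ ((2 * (2 ^ (2 * 6) * ∏ i, N i) : ℕ) : ℝ) := by
        exact_mod_cast hsmall.le
      push_cast at h4
      have h5 : 0 ≤ ∏ i, (N i : ℝ) := Finset.prod_nonneg fun i _ => Nat.cast_nonneg _
      norm_num at h4 ⊢
      linarith
    · have h5 : (0 : ℝ) < (J : ℝ) ^ 3 := by positivity
      norm_num at hprod ⊢
      linarith
  by_cases c1 : ∃ i, Sb (f i) (N i) ∧ (J : ℝ) * (Real.log J) ^ A1 ≤ N i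
  · obtain ⟨l0, hs, hl⟩ := c1
    obtain ⟨k, hk⟩ := hs.sm
    exact h1 j r χ N _ (Pool.Agent.CA.Vs k) l0 hj hr hrB hχ hbox (Cf_mono (hVc k) hGL)
      (sb_eq χ k hk (hVc k)) hl
  push Not at c1
  by_cases c2 : ∃ i, Sb (f i) (N i) ∧ Real.sqrt J * (Real.log J) ^ A2 ≤ N i
  · classical
    obtain ⟨i0, hs0, hi0⟩ := c2
    obtain ⟨l0, hl0, hmax⟩ := Finset.exists_max_image (univ.filter fun i => Sb (f i) (N i)) N
      ⟨i0, by simp [hs0]⟩
    rw [mem_filter] at hl0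
    obtain ⟨k, hk⟩ := hl0.2.sm
    have hge : (N i0 : ℝ) ≤ N l0 := by
      exact_mod_cast hmax i0 (by simp [hs0])
    have hbig : Real.sqrt J * (Real.log J) ^ A2 ≤ N l0 := hi0.trans hge
    refine h2 j r χ N _ (Pool.Agent.CA.Vs k) l0 hj hr hrB hbox (Cf_mono (hVc k) hGL)
      (sb_eq χ k hk (hVc k)) hbig (c1 l0 hl0.2).le ?_
    intro l
    rcases hblk l with hs | ⟨-, hm⟩
    · have h4 : N l ≤ N l0 := hmax l (by simp [hs])
      have h5 : (N l : ℝ) ≤ N l0 := by exact_mod_cast h4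
      have h6 : (0 : ℝ) ≤ N l0 := Nat.cast_nonneg _
      linarith
    · have h4 : 1 ≤ (Real.log J) ^ A2 := one_le_pow₀ (by linarith)
      have h5 : Real.sqrt J ≤ Real.sqrt J * (Real.log J) ^ A2 :=
        le_mul_of_one_le_right (Real.sqrt_nonneg _) h4
      linarith
  push Not at c2
  obtain ⟨l0, -, hmax⟩ := Finset.exists_max_image univ N ⟨0, mem_univ _⟩
  have hall : ∀ l, (N l : ℝ) ≤ Real.sqrt J * (Real.log J) ^ (A2 + 1) := by
    intro l
    have h4 : 1 ≤ (Real.log J) ^ A2 := one_le_pow₀ (by linarith)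
    have h7 : 0 ≤ Real.sqrt J := Real.sqrt_nonneg _
    rcases hblk l with hs | ⟨-, hm⟩
    · refine (c2 l hs).le.trans ?_
      refine mul_le_mul_of_nonneg_left ?_ h7
      exact pow_le_pow_right₀ (by linarith) (by omega)
    · have h5 : 4 ≤ (Real.log J) ^ (A2 + 1) := by
        rw [pow_succ]
        calc (4 : ℝ) ≤ 1 * Real.log J := by linarith
          _ ≤ (Real.log J) ^ A2 * Real.log J := mul_le_mul_of_nonneg_right h4 hL0.le
      calc (N l : ℝ) ≤ 2 * Z := hm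
        _ ≤ Real.sqrt J * 4 := by linarith
        _ ≤ _ := mul_le_mul_of_nonneg_left h5 h7
  refine h3 j N _ l0 hj hbox hall ?_
  intro θ hθ1 hθ2
  have hpl : ∏ i, N i ≤ N l0 ^ (2 * 6) := by
    have := Finset.prod_le_pow_card (univ : Finset (Fin (2 * 6))) N (N l0)
      (fun i _ => hmax i (mem_univ _))
    simpa using this
  have hpg : N l0 ≤ ∏ i, N i :=
    Finset.single_le_prod' (fun i _ => hN1 i) (mem_univ l0)
  have hlo := log_lo hJ hL hsmall hpl (hN1 l0)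
  have hhi := log_hi hJ hL hpg (by push_cast; exact hprod) (hN1 l0)
  have hNn : (0 : ℝ) ≤ N l0 := Nat.cast_nonneg _
  rcases hblk l0 with hs | ⟨hm, -⟩
  · obtain ⟨k, hk⟩ := hs.sm
    have h4 : (fun n => f l0 n * χ (n : ZMod r)) = sf χ (Pool.Agent.CA.Vs k) (N l0) :=
      sb_eq χ k hk (hVc k)
    rw [h4]
    refine (hsmk r χ (N l0) G θ _ hr hrB (hVc k) (hLp.trans hlo) ?_ hθ2).trans ?_
    · exact (pow_le_pow_right₀ (by linarith) (le_max_left _ _)).trans hθ1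
    · rw [pow_succ (Real.log J) A', div_le_div_iff₀ (by positivity) (by positivity)]
      have h5 : 0 < (Real.log J) ^ A' := by positivity
      calc G * (N l0 : ℝ) * (Real.log J) ^ A' ≤ Real.log J * (N l0 : ℝ) * (Real.log J) ^ A' := by
            gcongr
        _ = (N l0 : ℝ) * ((Real.log J) ^ A' * Real.log J) := by ring
  · obtain ⟨a, b, -, hb', hf⟩ := hm.mu
    have h4 : (fun n => f l0 n * χ (n : ZMod r)) = mf χ a b := mb_eq χ a b hf
    rw [h4]
    exact hmuk r χ (N l0) a b θ hr hrB (by exact_mod_cast hb') (by linarith) hhi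
      ((pow_le_pow_right₀ (by linarith) (le_max_right _ _)).trans hθ1) hθ2

end Pool.Agent.CA.SC
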