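import Pool.Agent.Lib.MP_d610d0_nt.CA.SC.Stm2

set_option autoImplicit false

namespace Pool.Agent.CA.SC

open Finset Filter
open Pool.Agent.MP89da58 (tri)
open Pool.Agent.CH (wJ wL)

/-- Split off one coordinate of a sum over tuples. -/
theorem bx1_split {m : ℕ} (l0 : Fin m) (s : Fin m → Finset ℕ) (f : (Fin m → ℕ) → ℂ)
    (h1 : 1 ∈ s l0) :
    ∑ n ∈ Fintype.piFinset s, f n =
      ∑ t ∈ Fintype.piFinset (Function.update s l0 {1}), ∑ v ∈ s l0, f (Function.update t l0 v) := by
  rw [← Finset.sum_product']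
  apply Finset.sum_nbij' (i := fun n => (Function.update n l0 1, n l0))
    (j := fun p => Function.update p.1 l0 p.2)
  · intro n hn
    rw [Fintype.mem_piFinset] at hn
    rw [mem_product, Fintype.mem_piFinset]
    refine ⟨fun l => ?_, hn l0⟩
    by_cases hl : l = l0
    · subst hl
      simp
    · simp [Function.update_of_ne hl, hn l]
  · rintro ⟨t, v⟩ hp
    rw [mem_product, Fintype.mem_piFinset] at hp
    rw [Fintype.mem_piFinset]
    intro l
    by_cases hl : l = l0
    · subst hl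
      simpa using hp.2
    · have := hp.1 l
      simp only [Function.update_of_ne hl] at this ⊢
      exact this
  · intro n _
    simp
  · rintro ⟨t, v⟩ hp
    rw [mem_product, Fintype.mem_piFinset] at hp
    have ht : t l0 = 1 := by simpa using hp.1 l0
    ext1
    · show Function.update (Function.update t l0 v) l0 1 = t
      rw [Function.update_idem, ← ht, Function.update_eq_self]
    · simp
  · intro n _
    simp

theorem bx1_prod_update {m : ℕ} {M : Type*} [CommMonoid M] (l0 : Fin m) (g : Fin m → ℕ → M)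
    (t : Fin m → ℕ) (v : ℕ) :
    ∏ l, g l (Function.update t l0 v l) = g l0 v * ∏ l ∈ univ.erase l0, g l (t l) := by
  rw [← Finset.mul_prod_erase univ _ (mem_univ l0)]
  congr 1
  · simp
  · apply Finset.prod_congr rfl
    intro l hl
    rw [Function.update_of_ne (Finset.ne_of_mem_erase hl)]


theorem bx1_inner2 (ht1 : R_t1) {r : ℕ} (χ : DirichletCharacter ℂ r) {G lam : ℝ} {V : ℝ → ℝ}
    {J j N d : ℕ} (hr : 2 ≤ r) (hχ : χ ≠ 1) (hV : Cf G V) (hJ : 1 ≤ J) (hlam : 0 < lam)
    (hd : 1 ≤ d) (hN : 1 ≤ N) :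
    ‖∑ v ∈ Icc 1 (2 * N), sf χ V N v * dW lam J j (v * d)‖ ≤ (2 * J + lam) * (10 * r * G) := by
  have hJ' : (0 : ℝ) < J := by exact_mod_cast hJ
  have h1 := ht1 r χ G (2 * J) (((j : ℝ) + 1 / 2) ^ 3) V d N (2 * N) hr hχ hV (by positivity)
    (by positivity) hd hN
  have h2 := ht1 r χ G lam (((j : ℝ) + 1 / 2) ^ 3) V d N (2 * N) hr hχ hV hlam
    (by positivity) hd hN
  have h3 : ∑ v ∈ Icc 1 (2 * N), sf χ V N v * dW lam J j (v * d) =
      (2 * J : ℂ) * (∑ n ∈ Icc 1 (2 * N), χ (n : ZMod r) * (V ((n : ℝ) / N) : ℂ) *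
        (tri (2 * J * Real.log ((d * n : ℕ) / ((j : ℝ) + 1 / 2) ^ 3)) : ℂ)) -
      (lam : ℂ) * (∑ n ∈ Icc 1 (2 * N), χ (n : ZMod r) * (V ((n : ℝ) / N) : ℂ) *
        (tri (lam * Real.log ((d * n : ℕ) / ((j : ℝ) + 1 / 2) ^ 3)) : ℂ)) := by
    rw [Finset.mul_sum, Finset.mul_sum, ← Finset.sum_sub_distrib]
    apply Finset.sum_congr rfl
    intro v _
    unfold sf dW wJ wL
    rw [mul_comm v d]
    push_cast
    ring
  rw [h3]
  refine (norm_sub_le _ _).trans ?_
  have h4 : ‖(2 * J : ℂ)‖ = 2 * J := by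
    rw [norm_mul]
    simp
  have h5 : ‖(lam : ℂ)‖ = lam := by
    rw [Complex.norm_real, Real.norm_of_nonneg hlam.le]
  rw [norm_mul (2 * J : ℂ), norm_mul (lam : ℂ), h4, h5, add_mul]
  exact add_le_add (mul_le_mul_of_nonneg_left h1 (by positivity))
    (mul_le_mul_of_nonneg_left h2 hlam.le)

theorem bx1_inner1 {C : ℝ} (ht0 : ∀ (G lam lam' y : ℝ) (V : ℝ → ℝ) (d N N' : ℕ), Cf G V →
    10 ≤ lam → lam ≤ lam' → 0 < y → 1 ≤ d → 1 ≤ N → 2 * N ≤ N' →
    |∑ n ∈ Icc 1 N', V ((n : ℝ) / N) * (lam' * tri (lam' * Real.log ((d * n : ℕ) / y))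
      - lam * tri (lam * Real.log ((d * n : ℕ) / y)))| ≤ C * G * (y / (d * lam) + lam'))
    (χ : DirichletCharacter ℂ 1) {G lam : ℝ} {V : ℝ → ℝ}
    {J j N d : ℕ} (hV : Cf G V) (hlam : 10 ≤ lam) (hlJ : lam ≤ 2 * J)
    (hd : 1 ≤ d) (hN : 1 ≤ N) :
    ‖∑ v ∈ Icc 1 (2 * N), sf χ V N v * dW lam J j (v * d)‖ ≤
      C * G * (((j : ℝ) + 1 / 2) ^ 3 / (d * lam) + 2 * J) := by
  have h1 := ht0 G lam (2 * J) (((j : ℝ) + 1 / 2) ^ 3) V d N (2 * N) hV hlam hlJ
    (by positivity) hd hN le_rfl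
  have h3 : ∑ v ∈ Icc 1 (2 * N), sf χ V N v * dW lam J j (v * d) =
      ((∑ n ∈ Icc 1 (2 * N), V ((n : ℝ) / N) * (2 * J * tri (2 * J *
        Real.log ((d * n : ℕ) / ((j : ℝ) + 1 / 2) ^ 3))
      - lam * tri (lam * Real.log ((d * n : ℕ) / ((j : ℝ) + 1 / 2) ^ 3))) : ℝ) : ℂ) := by
    rw [Complex.ofReal_sum]
    apply Finset.sum_congr rfl
    intro v _
    unfold sf dW wJ wL
    have hχ : χ (v : ZMod 1) = 1 := by
      have : (v : ZMod 1) = 1 := Subsingleton.elim _ _
      rw [this, map_one]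
    rw [mul_comm v d, hχ]
    push_cast
    ring
  rw [h3, Complex.norm_real, Real.norm_eq_abs]
  exact h1

theorem p_bx1 : S_bx1 := by
  intro ht1 ⟨C, hC1, ht0⟩ m A B
  refine ⟨A + B + 3 * m + 3, A + 3 * m + 3, fun E hE => ?_⟩
  have hlogt : Tendsto (fun J : ℕ => Real.log (J : ℝ)) atTop atTop :=
    Real.tendsto_log_atTop.comp tendsto_natCast_atTop_atTop
  have hlamJ : ∀ᶠ J : ℕ in atTop, Real.log (J : ℝ) ^ E ≤ 2 * J := by
    have h1 := Real.isLittleO_pow_log_id_atTop (n := E)
    have h2 := h1.bound (show (0 : ℝ) < 1 by norm_num)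
    have h3 := tendsto_natCast_atTop_atTop (R := ℝ) |>.eventually h2
    filter_upwards [h3, eventually_ge_atTop 1] with J hJ hJ1
    have hJ' : (0 : ℝ) < J := by exact_mod_cast hJ1
    rw [Real.norm_eq_abs, Real.norm_eq_abs, one_mul, id, abs_of_pos hJ'] at hJ
    have := le_abs_self (Real.log (J : ℝ) ^ E)
    linarith
  set K : ℝ := 100 + m + 40 * 2 ^ (2 * m + 5) + C * 16 * 4 ^ m * 2 + C * 2 ^ (2 * m + 6) * 2
    with hK
  filter_upwards [hlogt.eventually_ge_atTop K, eventually_ge_atTop 1, hlamJ] with J hL hJ hlJ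
  intro j r χ N a V l0 hj hr1 hrB hχ hbox hV ha hNl0
  set L := Real.log (J : ℝ) with hLdef
  have hm0 : (0 : ℝ) ≤ m := Nat.cast_nonneg m
  have hCp : (0 : ℝ) < C := lt_of_lt_of_le one_pos hC1
  have hp1 : (0 : ℝ) < 40 * 2 ^ (2 * m + 5) := by positivity
  have hp2 : (0 : ℝ) < C * 16 * 4 ^ m * 2 := by positivity
  have hp3 : (0 : ℝ) < C * 2 ^ (2 * m + 6) * 2 := by positivity
  have hL100 : 100 + m ≤ L := by linarith
  have hL1 : (1 : ℝ) ≤ L := by linarith
  have hLpos : 0 < L := by linarith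
  have hLa : (40 : ℝ) * 2 ^ (2 * m + 5) ≤ L := by linarith
  have hLb : C * 16 * 4 ^ m * 2 ≤ L := by linarith
  have hLc : C * 2 ^ (2 * m + 6) * 2 ≤ L := by linarith
  have hJpos : (0 : ℝ) < J := by exact_mod_cast hJ
  have hlam10 : (10 : ℝ) ≤ L ^ E := by
    calc (10 : ℝ) ≤ L ^ 1 := by rw [pow_one]; linarith
      _ ≤ L ^ E := pow_le_pow_right₀ hL1 (by omega)
  -- the splitting
  set s : Fin m → Finset ℕ := fun l => Icc 1 (2 * N l) with hs
  have hN1 : ∀ l, (1 : ℝ) ≤ N l := fun l => by exact_mod_cast hbox.one l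
  set T := Fintype.piFinset (Function.update s l0 {1}) with hT
  have hTS : TS a (fun l => 2 * N l) (dW (L ^ E) J j) =
      ∑ t ∈ T, (∏ l ∈ univ.erase l0, a l (t l)) *
        ∑ v ∈ Icc 1 (2 * N l0), sf χ V (N l0) v * dW (L ^ E) J j (v * ∏ l, t l) := by
    unfold TS
    rw [bx1_split l0 s _ (by
      rw [hs, mem_Icc]
      have := hbox.one l0
      omega)]
    apply Finset.sum_congr rfl
    intro t ht
    rw [Fintype.mem_piFinset] at ht
    have ht1 : t l0 = 1 := by simpa using ht l0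
    rw [Finset.mul_sum]
    apply Finset.sum_congr rfl
    intro v _
    rw [bx1_prod_update l0 (fun l x => a l x) t v, bx1_prod_update l0 (fun _ x => x) t v, ha,
      ← Finset.mul_prod_erase univ (fun l => t l) (mem_univ l0), ht1, one_mul]
    ring
  have hmem : ∀ t ∈ T, ∀ l, 1 ≤ t l := by
    intro t ht l
    rw [hT, Fintype.mem_piFinset] at ht
    have := ht l
    by_cases hl : l = l0
    · subst hl
      simp at this
      omega
    · rw [Function.update_of_ne hl, hs, mem_Icc] at this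
      exact this.1
  have hd1 : ∀ t ∈ T, 1 ≤ ∏ l, t l := fun t ht => Nat.one_le_iff_ne_zero.2
    (Finset.prod_ne_zero_iff.2 fun l _ => by have := hmem t ht l; omega)
  have hcoef : ∀ t : Fin m → ℕ, ‖∏ l ∈ univ.erase l0, a l (t l)‖ ≤ L ^ (2 * m) := by
    intro t
    rw [norm_prod]
    calc ∏ l ∈ univ.erase l0, ‖a l (t l)‖ ≤ ∏ _l ∈ univ.erase l0, L ^ 2 :=
          Finset.prod_le_prod (fun _ _ => norm_nonneg _) fun l _ => hbox.bd l (t l)
      _ = (L ^ 2) ^ (univ.erase l0).card := by rw [Finset.prod_const]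
      _ ≤ (L ^ 2) ^ m := by
          apply pow_le_pow_right₀ (one_le_pow₀ hL1)
          calc (univ.erase l0).card ≤ (univ : Finset (Fin m)).card := Finset.card_le_card
                (Finset.erase_subset _ _)
            _ = m := by simp
      _ = L ^ (2 * m) := by rw [← pow_mul]
  -- number of tuples
  have hcard : (T.card : ℝ) * (J * L ^ (A + B + 3 * m + 3)) ≤ 2 ^ (2 * m + 5) * (J : ℝ) ^ 3 := by
    have h1 : (T.card : ℝ) * (2 * N l0) = 2 ^ m * ∏ l, (N l : ℝ) := by
      rw [hT, Fintype.card_piFinset, Nat.cast_prod,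
        ← Finset.mul_prod_erase univ _ (mem_univ l0)]
      have h2 : ∏ l ∈ univ.erase l0, (((Function.update s l0 {1} l).card : ℕ) : ℝ) =
          ∏ l ∈ univ.erase l0, (2 * (N l : ℝ)) := by
        apply Finset.prod_congr rfl
        intro l hl
        rw [Function.update_of_ne (Finset.ne_of_mem_erase hl), hs]
        simp
      rw [h2]
      have h3 : (2 : ℝ) ^ m * ∏ l, (N l : ℝ) = ∏ l : Fin m, (2 * (N l : ℝ)) := by
        rw [Finset.prod_mul_distrib]
        simp
      rw [h3, ← Finset.mul_prod_erase univ (fun l => 2 * (N l : ℝ)) (mem_univ l0)]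
      simp
      ring
    have h2 : (T.card : ℝ) * (J * L ^ (A + B + 3 * m + 3)) ≤ (T.card : ℝ) * (2 * N l0) := by
      apply mul_le_mul_of_nonneg_left _ (by positivity)
      have := hN1 l0
      linarith
    calc (T.card : ℝ) * (J * L ^ (A + B + 3 * m + 3)) ≤ 2 ^ m * ∏ l, (N l : ℝ) := h2.trans h1.le
      _ ≤ 2 ^ m * (2 ^ (m + 5) * (J : ℝ) ^ 3) := mul_le_mul_of_nonneg_left hbox.hi (by positivity)
      _ = 2 ^ (2 * m + 5) * (J : ℝ) ^ 3 := by ring
  have hnorm : ‖TS a (fun l => 2 * N l) (dW (L ^ E) J j)‖ ≤ ∑ t ∈ T, L ^ (2 * m) *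
      ‖∑ v ∈ Icc 1 (2 * N l0), sf χ V (N l0) v * dW (L ^ E) J j (v * ∏ l, t l)‖ := by
    rw [hTS]
    refine (norm_sum_le _ _).trans (Finset.sum_le_sum fun t _ => ?_)
    rw [norm_mul]
    exact mul_le_mul_of_nonneg_right (hcoef t) (norm_nonneg _)
  refine hnorm.trans ?_
  have hgoal : ∀ x : ℝ, (J : ℝ) ^ 3 / L ^ A = (J : ℝ) ^ 3 / L ^ A := fun _ => rfl
  by_cases hr : r = 1
  · subst hr
    have hinner : ∀ t ∈ T, ‖∑ v ∈ Icc 1 (2 * N l0), sf χ V (N l0) v *
        dW (L ^ E) J j (v * ∏ l, t l)‖ ≤ C * L ^ 2 * (16 * (J : ℝ) ^ 3 / L ^ E) *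
          (∏ l, (1 / (t l : ℝ))) + C * L ^ 2 * (2 * J) := by
      intro t ht
      refine (bx1_inner1 ht0 χ hV hlam10 hlJ (hd1 t ht) (hbox.one l0)).trans ?_
      have hy : ((j : ℝ) + 1 / 2) ^ 3 ≤ 16 * (J : ℝ) ^ 3 := by
        rw [mem_Ioc] at hj
        have h1 : (j : ℝ) ≤ 2 * J := by exact_mod_cast hj.2
        have h2 : (1 : ℝ) ≤ J := by exact_mod_cast hJ
        calc ((j : ℝ) + 1 / 2) ^ 3 ≤ (5 / 2 * (J : ℝ)) ^ 3 := by gcongr; linarith
          _ = 125 / 8 * (J : ℝ) ^ 3 := by ring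
          _ ≤ 16 * (J : ℝ) ^ 3 := by gcongr; norm_num
      have hdpos : (0 : ℝ) < ((∏ l, t l : ℕ) : ℝ) := by
        exact_mod_cast hd1 t ht
      have hprod : ∏ l, (1 / (t l : ℝ)) = 1 / ((∏ l, t l : ℕ) : ℝ) := by
        rw [Nat.cast_prod, Finset.prod_div_distrib]
        simp
      rw [hprod]
      have h3 : ((j : ℝ) + 1 / 2) ^ 3 / (((∏ l, t l : ℕ) : ℝ) * L ^ E) ≤
          (16 * (J : ℝ) ^ 3 / L ^ E) * (1 / ((∏ l, t l : ℕ) : ℝ)) := by
        rw [div_mul_div_comm, mul_one, mul_comm (L ^ E)]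
        gcongr
      calc C * L ^ 2 * (((j : ℝ) + 1 / 2) ^ 3 / (((∏ l, t l : ℕ) : ℝ) * L ^ E) + 2 * J)
          ≤ C * L ^ 2 * ((16 * (J : ℝ) ^ 3 / L ^ E) * (1 / ((∏ l, t l : ℕ) : ℝ)) + 2 * J) := by
            gcongr
        _ = _ := by ring
    have hsum : ∑ t ∈ T, ∏ l, (1 / (t l : ℝ)) ≤ (4 * L) ^ m := by
      have h1 : ∑ t ∈ T, ∏ l, (1 / (t l : ℝ)) =
          ∏ l, ∑ v ∈ Function.update s l0 {1} l, (1 / (v : ℝ)) := by
        rw [hT, Finset.prod_univ_sum]
      rw [h1]
      calc ∏ l, ∑ v ∈ Function.update s l0 {1} l, (1 / (v : ℝ)) ≤ ∏ _l : Fin m, (4 * L) := by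
            apply Finset.prod_le_prod
            · intro l _
              exact Finset.sum_nonneg fun v _ => by positivity
            · intro l _
              by_cases hl : l = l0
              · subst hl
                simp
                linarith
              · rw [Function.update_of_ne hl, hs]
                have h2 : ∑ v ∈ Icc 1 (2 * N l), (1 / (v : ℝ)) ≤ 1 + Real.log (2 * N l : ℕ) := by
                  have := harmonic_le_one_add_log (2 * N l)
                  rw [harmonic_eq_sum_Icc] at this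
                  push_cast at this ⊢
                  simpa using this
                refine h2.trans ?_
                have h3 : (N l : ℝ) ≤ ∏ l, (N l : ℝ) := by
                  rw [← Finset.mul_prod_erase univ (fun l => (N l : ℝ)) (mem_univ l)]
                  have h33 : (1 : ℝ) ≤ ∏ x ∈ univ.erase l, (N x : ℝ) :=
                    Finset.one_le_prod fun x _ => hN1 x
                  nlinarith [hN1 l]
                have h4 : (N l : ℝ) ≤ 2 ^ (m + 5) * (J : ℝ) ^ 3 := h3.trans hbox.hi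
                have h5 : ((2 * N l : ℕ) : ℝ) ≤ 2 ^ (m + 6) * (J : ℝ) ^ 3 := by
                  push_cast
                  calc 2 * (N l : ℝ) ≤ 2 * (2 ^ (m + 5) * (J : ℝ) ^ 3) := by gcongr
                    _ = 2 ^ (m + 6) * (J : ℝ) ^ 3 := by ring
                have h6 : Real.log ((2 * N l : ℕ) : ℝ) ≤ Real.log (2 ^ (m + 6) * (J : ℝ) ^ 3) :=
                  Real.log_le_log (by
                    have := hbox.one l
                    have h7 : 0 < 2 * N l := by omega
                    exact_mod_cast h7) h5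
                rw [Real.log_mul (by positivity) (by positivity), Real.log_pow, Real.log_pow,
                  ← hLdef] at h6
                push_cast at h6 ⊢
                have := Real.log_two_lt_d9
                have hlog2 : Real.log 2 ≤ 1 := by linarith
                have h8 : ((m : ℝ) + 6) * Real.log 2 ≤ (m + 6) * 1 :=
                  mul_le_mul_of_nonneg_left hlog2 (by positivity)
                linarith
        _ = (4 * L) ^ m := by simp
    calc ∑ t ∈ T, L ^ (2 * m) * ‖∑ v ∈ Icc 1 (2 * N l0), sf χ V (N l0) v *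
          dW (L ^ E) J j (v * ∏ l, t l)‖
        ≤ ∑ t ∈ T, L ^ (2 * m) * (C * L ^ 2 * (16 * (J : ℝ) ^ 3 / L ^ E) *
          (∏ l, (1 / (t l : ℝ))) + C * L ^ 2 * (2 * J)) := by
          apply Finset.sum_le_sum
          intro t ht
          exact mul_le_mul_of_nonneg_left (hinner t ht) (by positivity)
      _ = L ^ (2 * m) * (C * L ^ 2 * (16 * (J : ℝ) ^ 3 / L ^ E)) *
            (∑ t ∈ T, ∏ l, (1 / (t l : ℝ))) +
          L ^ (2 * m) * (C * L ^ 2 * 2) * ((T.card : ℝ) * J) := by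
          rw [Finset.mul_sum, ← nsmul_eq_mul (T.card) (J : ℝ)]
          rw [← Finset.sum_const, Finset.mul_sum, ← Finset.sum_add_distrib]
          apply Finset.sum_congr rfl
          intro t _
          ring
      _ ≤ (J : ℝ) ^ 3 / L ^ A * (1 / 2) + (J : ℝ) ^ 3 / L ^ A * (1 / 2) := by
          apply add_le_add
          · calc L ^ (2 * m) * (C * L ^ 2 * (16 * (J : ℝ) ^ 3 / L ^ E)) *
                (∑ t ∈ T, ∏ l, (1 / (t l : ℝ)))
                ≤ L ^ (2 * m) * (C * L ^ 2 * (16 * (J : ℝ) ^ 3 / L ^ (A + 3 * m + 3))) *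
                  (4 * L) ^ m := by
                  gcongr
              _ = (J : ℝ) ^ 3 / L ^ A * ((C * 16 * 4 ^ m) * L ^ (3 * m + 2) /
                    L ^ (3 * m + 3)) := by
                  rw [mul_pow, show A + 3 * m + 3 = A + (3 * m + 3) by ring, pow_add L A]
                  field_simp
                  ring
              _ ≤ (J : ℝ) ^ 3 / L ^ A * (1 / 2) := by
                  apply mul_le_mul_of_nonneg_left _ (by positivity)
                  rw [div_le_iff₀ (by positivity), pow_succ L (3 * m + 2)]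
                  have : C * 16 * 4 ^ m ≤ 1 / 2 * L := by linarith
                  nlinarith [pow_pos hLpos (3 * m + 2)]
          · have h9 : (T.card : ℝ) * J ≤ 2 ^ (2 * m + 5) * (J : ℝ) ^ 3 /
                L ^ (A + B + 3 * m + 3) := by
              rw [le_div_iff₀ (by positivity)]
              calc (T.card : ℝ) * J * L ^ (A + B + 3 * m + 3) =
                    (T.card : ℝ) * (J * L ^ (A + B + 3 * m + 3)) := by ring
                _ ≤ _ := hcard
            calc L ^ (2 * m) * (C * L ^ 2 * 2) * ((T.card : ℝ) * J)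
                ≤ L ^ (2 * m) * (C * L ^ 2 * 2) * (2 ^ (2 * m + 5) * (J : ℝ) ^ 3 /
                    L ^ (A + B + 3 * m + 3)) := by gcongr
              _ ≤ L ^ (2 * m) * (C * L ^ 2 * 2) * (2 ^ (2 * m + 5) * (J : ℝ) ^ 3 /
                    L ^ (A + (2 * m + 3))) := by
                  have hpw : L ^ (A + (2 * m + 3)) ≤ L ^ (A + B + 3 * m + 3) :=
                    pow_le_pow_right₀ hL1 (by omega)
                  gcongr
              _ = (J : ℝ) ^ 3 / L ^ A * ((C * 2 ^ (2 * m + 6)) * L ^ (2 * m + 2) /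
                    L ^ (2 * m + 3)) := by
                  rw [pow_add L A]
                  field_simp
                  ring
              _ ≤ (J : ℝ) ^ 3 / L ^ A * (1 / 2) := by
                  apply mul_le_mul_of_nonneg_left _ (by positivity)
                  rw [div_le_iff₀ (by positivity), pow_succ L (2 * m + 2)]
                  have : C * 2 ^ (2 * m + 6) ≤ 1 / 2 * L := by linarith
                  nlinarith [pow_pos hLpos (2 * m + 2)]
      _ = (J : ℝ) ^ 3 / L ^ A := by ring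
  · have hr2 : 2 ≤ r := by omega
    have hχ1 : χ ≠ 1 := by
      rcases hχ with h | h
      · exact absurd h hr
      · exact h
    calc ∑ t ∈ T, L ^ (2 * m) * ‖∑ v ∈ Icc 1 (2 * N l0), sf χ V (N l0) v *
          dW (L ^ E) J j (v * ∏ l, t l)‖
        ≤ ∑ _t ∈ T, L ^ (2 * m) * (4 * J * (10 * L ^ B * L ^ 2)) := by
          apply Finset.sum_le_sum
          intro t ht
          apply mul_le_mul_of_nonneg_left _ (by positivity)
          refine (bx1_inner2 ht1 χ hr2 hχ1 hV hJ (by linarith) (hd1 t ht) (hbox.one l0)).trans ?_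
          have h1 : 2 * (J : ℝ) + L ^ E ≤ 4 * J := by linarith
          have h2 : 10 * (r : ℝ) * L ^ 2 ≤ 10 * L ^ B * L ^ 2 := by gcongr
          exact mul_le_mul h1 h2 (by positivity) (by positivity)
      _ = L ^ (2 * m) * (40 * L ^ (B + 2)) * ((T.card : ℝ) * J) := by
          rw [Finset.sum_const, nsmul_eq_mul]
          ring
      _ ≤ L ^ (2 * m) * (40 * L ^ (B + 2)) * (2 ^ (2 * m + 5) * (J : ℝ) ^ 3 /
            L ^ (A + B + 3 * m + 3)) := by
          apply mul_le_mul_of_nonneg_left _ (by positivity)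
          rw [le_div_iff₀ (by positivity)]
          calc (T.card : ℝ) * J * L ^ (A + B + 3 * m + 3) =
                (T.card : ℝ) * (J * L ^ (A + B + 3 * m + 3)) := by ring
            _ ≤ _ := hcard
      _ ≤ L ^ (2 * m) * (40 * L ^ (B + 2)) * (2 ^ (2 * m + 5) * (J : ℝ) ^ 3 /
            L ^ (A + (B + 2 * m + 3))) := by
          have hpw : L ^ (A + (B + 2 * m + 3)) ≤ L ^ (A + B + 3 * m + 3) :=
            pow_le_pow_right₀ hL1 (by omega)
          gcongr
      _ = (J : ℝ) ^ 3 / L ^ A * ((40 * 2 ^ (2 * m + 5)) * L ^ (B + 2 * m + 2) /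
            L ^ (B + 2 * m + 3)) := by
          rw [pow_add L A]
          field_simp
          ring
      _ ≤ (J : ℝ) ^ 3 / L ^ A * 1 := by
          apply mul_le_mul_of_nonneg_left _ (by positivity)
          rw [div_le_iff₀ (by positivity), pow_succ L (B + 2 * m + 2)]
          nlinarith [pow_pos hLpos (B + 2 * m + 2)]
      _ = (J : ℝ) ^ 3 / L ^ A := by ring

end Pool.Agent.CA.SC
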