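import Pool.Agent.Lib.MP_d610d0_nt.CA.SC.Stm2

set_option autoImplicit false

namespace Pool.Agent.CA.SC

open Finset Filter
open Pool.Agent.CH.D (dp)

theorem bx2_alg {a j ν L : ℝ} {A1 Z : ℕ} (hL : 1 ≤ L) (ha : 0 < a) (hj : 0 < j) (hν : 0 < ν)
    (haL : L ^ Z ≤ a) (hjν : j * L ^ Z ≤ ν) (hνj : ν ≤ j ^ 2 * L ^ A1) (hjL : L ^ (Z + A1) ≤ j) :
    min 1 ((j ^ 4) ^ 2 / (a ^ 2) ^ 2) * ((a + ν ^ 2 / a) * (max 1 (a / j ^ 2) * (1 + 5 * a * ν / j ^ 3)))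
      ≤ 12 * ν ^ 2 / L ^ Z := by
  have hLZ : 0 < L ^ Z := by positivity
  have hLZ1 : 1 ≤ L ^ Z := one_le_pow₀ hL
  have hLA1 : 1 ≤ L ^ A1 := one_le_pow₀ hL
  have hj1 : L ^ Z ≤ j := by
    refine le_trans ?_ hjL
    exact pow_le_pow_right₀ hL (by omega)
  have hj11 : 1 ≤ j := le_trans hLZ1 hj1
  have hjν2 : j * ν ≤ ν ^ 2 / L ^ Z := by
    rw [le_div_iff₀ hLZ]
    nlinarith
  have hj2 : j ^ 2 ≤ ν ^ 2 / L ^ Z := by
    have h1 : j ≤ ν := le_trans (by nlinarith) hjν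
    calc j ^ 2 = j * j := by ring
      _ ≤ j * ν := mul_le_mul_of_nonneg_left h1 hj.le
      _ ≤ _ := hjν2
  have hν3 : ν ^ 3 / j ^ 3 ≤ ν ^ 2 / L ^ Z := by
    rw [div_le_div_iff₀ (by positivity) hLZ]
    have h1 : L ^ A1 * L ^ Z ≤ j := by
      rw [← pow_add, add_comm]
      exact hjL
    have h2 : ν * L ^ Z ≤ j ^ 3 := by
      calc ν * L ^ Z ≤ j ^ 2 * L ^ A1 * L ^ Z := mul_le_mul_of_nonneg_right hνj hLZ.le
        _ = j ^ 2 * (L ^ A1 * L ^ Z) := by ring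
        _ ≤ j ^ 2 * j := mul_le_mul_of_nonneg_left h1 (by positivity)
        _ = j ^ 3 := by ring
    calc ν ^ 3 * L ^ Z = ν ^ 2 * (ν * L ^ Z) := by ring
      _ ≤ ν ^ 2 * j ^ 3 := mul_le_mul_of_nonneg_left h2 (by positivity)
  have hexp : (a + ν ^ 2 / a) * (1 + 5 * a * ν / j ^ 3) =
      a + ν ^ 2 / a + 5 * (a ^ 2 * ν / j ^ 3) + 5 * (ν ^ 3 / j ^ 3) := by
    field_simp
    ring
  rcases le_total a (j ^ 2) with hc | hc
  · have hmax : max 1 (a / j ^ 2) = 1 := max_eq_left (by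
      rw [div_le_one (by positivity)]
      exact hc)
    rw [hmax, one_mul, hexp]
    have h1 : a ≤ ν ^ 2 / L ^ Z := hc.trans hj2
    have h2 : ν ^ 2 / a ≤ ν ^ 2 / L ^ Z := by gcongr
    have h3 : a ^ 2 * ν / j ^ 3 ≤ ν ^ 2 / L ^ Z := by
      calc a ^ 2 * ν / j ^ 3 ≤ (j ^ 2) ^ 2 * ν / j ^ 3 := by gcongr
        _ = j * ν := by field_simp
        _ ≤ _ := hjν2
    have h4 : min 1 ((j ^ 4) ^ 2 / (a ^ 2) ^ 2) ≤ 1 := min_le_left _ _
    have h5 : 0 ≤ a + ν ^ 2 / a + 5 * (a ^ 2 * ν / j ^ 3) + 5 * (ν ^ 3 / j ^ 3) := by positivity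
    calc min 1 ((j ^ 4) ^ 2 / (a ^ 2) ^ 2) *
          (a + ν ^ 2 / a + 5 * (a ^ 2 * ν / j ^ 3) + 5 * (ν ^ 3 / j ^ 3))
        ≤ 1 * (a + ν ^ 2 / a + 5 * (a ^ 2 * ν / j ^ 3) + 5 * (ν ^ 3 / j ^ 3)) :=
          mul_le_mul_of_nonneg_right h4 h5
      _ ≤ ν ^ 2 / L ^ Z + ν ^ 2 / L ^ Z + 5 * (ν ^ 2 / L ^ Z) + 5 * (ν ^ 2 / L ^ Z) := by
          rw [one_mul]
          linarith
      _ = 12 * ν ^ 2 / L ^ Z := by ring
  · have hmax : max 1 (a / j ^ 2) = a / j ^ 2 := max_eq_right (by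
      rw [le_div_iff₀ (by positivity)]
      linarith)
    rw [hmax]
    have h4 : min 1 ((j ^ 4) ^ 2 / (a ^ 2) ^ 2) ≤ (j ^ 4) ^ 2 / (a ^ 2) ^ 2 := min_le_right _ _
    have h6 : (a + ν ^ 2 / a) * (a / j ^ 2 * (1 + 5 * a * ν / j ^ 3)) =
        a / j ^ 2 * (a + ν ^ 2 / a + 5 * (a ^ 2 * ν / j ^ 3) + 5 * (ν ^ 3 / j ^ 3)) := by
      rw [← hexp]
      ring
    rw [h6]
    have h5 : 0 ≤ a / j ^ 2 * (a + ν ^ 2 / a + 5 * (a ^ 2 * ν / j ^ 3) + 5 * (ν ^ 3 / j ^ 3)) := by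
      positivity
    refine (mul_le_mul_of_nonneg_right h4 h5).trans ?_
    have h7 : (j ^ 4) ^ 2 / (a ^ 2) ^ 2 * (a / j ^ 2 * (a + ν ^ 2 / a + 5 * (a ^ 2 * ν / j ^ 3) +
        5 * (ν ^ 3 / j ^ 3))) = j ^ 6 / a ^ 2 + j ^ 6 * ν ^ 2 / a ^ 4 + 5 * (j ^ 3 * ν / a) +
        5 * (j ^ 3 * ν ^ 3 / a ^ 3) := by
      field_simp
    rw [h7]
    have ha2 : j ^ 4 ≤ a ^ 2 := by
      calc j ^ 4 = (j ^ 2) ^ 2 := by ring
        _ ≤ a ^ 2 := by gcongr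
    have e1 : j ^ 6 / a ^ 2 ≤ ν ^ 2 / L ^ Z := by
      refine le_trans ?_ hj2
      rw [div_le_iff₀ (by positivity)]
      calc j ^ 6 = j ^ 2 * j ^ 4 := by ring
        _ ≤ j ^ 2 * a ^ 2 := by gcongr
    have e2 : j ^ 6 * ν ^ 2 / a ^ 4 ≤ ν ^ 2 / L ^ Z := by
      rw [div_le_div_iff₀ (by positivity) hLZ]
      calc j ^ 6 * ν ^ 2 * L ^ Z ≤ j ^ 6 * ν ^ 2 * j := by gcongr
        _ ≤ j ^ 6 * ν ^ 2 * j * j := by
            have : 0 ≤ j ^ 6 * ν ^ 2 * j := by positivity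
            nlinarith
        _ = ν ^ 2 * (j ^ 4 * j ^ 4) := by ring
        _ ≤ ν ^ 2 * (a ^ 2 * a ^ 2) := by gcongr
        _ = ν ^ 2 * a ^ 4 := by ring
    have e3 : j ^ 3 * ν / a ≤ ν ^ 2 / L ^ Z := by
      refine le_trans ?_ hjν2
      rw [div_le_iff₀ ha]
      calc j ^ 3 * ν = j * ν * j ^ 2 := by ring
        _ ≤ j * ν * a := by gcongr
    have e4 : j ^ 3 * ν ^ 3 / a ^ 3 ≤ ν ^ 2 / L ^ Z := by
      refine le_trans ?_ hν3
      rw [div_le_div_iff₀ (by positivity) (by positivity)]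
      calc j ^ 3 * ν ^ 3 * j ^ 3 = ν ^ 3 * (j ^ 2) ^ 3 := by ring
        _ ≤ ν ^ 3 * a ^ 3 := by gcongr
    calc j ^ 6 / a ^ 2 + j ^ 6 * ν ^ 2 / a ^ 4 + 5 * (j ^ 3 * ν / a) + 5 * (j ^ 3 * ν ^ 3 / a ^ 3)
        ≤ ν ^ 2 / L ^ Z + ν ^ 2 / L ^ Z + 5 * (ν ^ 2 / L ^ Z) + 5 * (ν ^ 2 / L ^ Z) := by linarith
      _ = 12 * ν ^ 2 / L ^ Z := by ring

theorem bx2_Y1 {J n L P1 P2 T : ℝ} {A1 Z : ℕ} (hL : 1 ≤ L) (hJ : 1 ≤ J) (hn : 1 ≤ n)
    (hP1 : 1 ≤ P1) (hP2 : 1 ≤ P2) (hT : L ^ (2 * Z) ≤ T) (hn1 : Real.sqrt J * L ^ (2 * Z) ≤ n)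
    (hn2 : n ≤ J * L ^ A1) (hJL : L ^ (4 * (Z + A1)) ≤ J) (hQ : J ^ 3 ≤ 64 * (n * P1 * P2))
    (h12 : P1 ≤ 8 * n * P2) (hle : P2 ≤ P1) :
    min 1 (J ^ 2 / T ^ 2) * ((Real.sqrt T + n / Real.sqrt T) *
      Real.sqrt (((T + P1) * P1) * ((T + P2) * P2))) ≤ 36 * L ^ A1 / L ^ Z * (n * P1 * P2) := by
  have hLp : 0 < L := by linarith
  have hTpos : 0 < T := lt_of_lt_of_le (by positivity) hT
  set a := Real.sqrt T with ha
  set ν := Real.sqrt n with hν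
  set j := Real.sqrt (Real.sqrt J) with hj
  have hapos : 0 < a := Real.sqrt_pos.2 hTpos
  have hνpos : 0 < ν := Real.sqrt_pos.2 (by linarith)
  have hjpos : 0 < j := Real.sqrt_pos.2 (Real.sqrt_pos.2 (by linarith))
  have ha2 : a ^ 2 = T := Real.sq_sqrt hTpos.le
  have hν2 : ν ^ 2 = n := Real.sq_sqrt (by linarith)
  have hj2 : j ^ 2 = Real.sqrt J := Real.sq_sqrt (Real.sqrt_nonneg _)
  have hj4 : j ^ 4 = J := by
    calc j ^ 4 = (j ^ 2) ^ 2 := by ring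
      _ = J := by rw [hj2, Real.sq_sqrt (by linarith)]
  have haL : L ^ Z ≤ a := by
    apply Real.le_sqrt_of_sq_le
    rw [← pow_mul, mul_comm]
    exact hT
  have hjν : j * L ^ Z ≤ ν := by
    apply Real.le_sqrt_of_sq_le
    rw [mul_pow, hj2, ← pow_mul, mul_comm Z 2]
    exact hn1
  have hνj : ν ≤ j ^ 2 * L ^ A1 := by
    rw [hν, Real.sqrt_le_left (by positivity)]
    have h1 : (j ^ 2 * L ^ A1) ^ 2 = J * (L ^ A1 * L ^ A1) := by
      rw [← hj4]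
      ring
    rw [h1]
    refine hn2.trans ?_
    apply mul_le_mul_of_nonneg_left _ (by linarith)
    have : 1 ≤ L ^ A1 := one_le_pow₀ hL
    nlinarith
  have hjL : L ^ (Z + A1) ≤ j := by
    have h1 : (L ^ (Z + A1)) ^ 4 ≤ j ^ 4 := by
      rw [← pow_mul, mul_comm, hj4]
      exact hJL
    exact le_of_pow_le_pow_left₀ (by norm_num) hjpos.le h1
  -- lower bounds for the products
  have hP1' : J ≤ 8 * L ^ A1 * P1 := by
    have h1 : J ^ 2 ≤ (8 * L ^ A1 * P1) ^ 2 := by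
      have h2 : J ^ 3 ≤ 64 * (n * P1 * P1) := by
        refine hQ.trans ?_
        gcongr
      have h3 : J ^ 3 ≤ 64 * (J * L ^ A1 * P1 * P1) := by
        refine h2.trans ?_
        gcongr
      have h4 : J * J ^ 2 ≤ J * (64 * L ^ A1 * P1 ^ 2) := by
        calc J * J ^ 2 = J ^ 3 := by ring
          _ ≤ _ := h3
          _ = _ := by ring
      have h5 : J ^ 2 ≤ 64 * L ^ A1 * P1 ^ 2 := le_of_mul_le_mul_left h4 (by linarith)
      refine h5.trans ?_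
      have h6 : 1 ≤ L ^ A1 := one_le_pow₀ hL
      calc 64 * L ^ A1 * P1 ^ 2 ≤ 64 * L ^ A1 * P1 ^ 2 * L ^ A1 := by
            have : 0 ≤ 64 * L ^ A1 * P1 ^ 2 := by positivity
            nlinarith
        _ = (8 * L ^ A1 * P1) ^ 2 := by ring
    exact le_of_pow_le_pow_left₀ (by norm_num) (by positivity) h1
  have hP2' : j ^ 6 ≤ 23 * ν ^ 2 * P2 := by
    have h1 : (j ^ 6) ^ 2 ≤ (23 * ν ^ 2 * P2) ^ 2 := by
      have h2 : J ^ 3 ≤ 64 * (n * (8 * n * P2) * P2) := by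
        refine hQ.trans ?_
        gcongr
      calc (j ^ 6) ^ 2 = (j ^ 4) ^ 3 := by ring
        _ = J ^ 3 := by rw [hj4]
        _ ≤ _ := h2
        _ = 512 * (n * P2) ^ 2 := by ring
        _ ≤ 529 * (n * P2) ^ 2 := by
            have : 0 ≤ (n * P2) ^ 2 := by positivity
            linarith
        _ = (23 * ν ^ 2 * P2) ^ 2 := by rw [hν2]; ring
    exact le_of_pow_le_pow_left₀ (by norm_num) (by positivity) h1
  -- the root
  set s1 := max 1 (a / j ^ 2) with hs1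
  set s2 := 1 + 5 * a * ν / j ^ 3 with hs2
  have hs1p : 1 ≤ s1 := le_max_left _ _
  have hs2p : 1 ≤ s2 := by
    rw [hs2]
    have : 0 ≤ 5 * a * ν / j ^ 3 := by positivity
    linarith
  have hr1 : (T + P1) * P1 ≤ (3 * L ^ A1 * s1 * P1) ^ 2 := by
    have h6 : 1 ≤ L ^ A1 := one_le_pow₀ hL
    have h1 : T ≤ 8 * L ^ A1 * s1 ^ 2 * P1 := by
      have h2 : a / j ^ 2 ≤ s1 := le_max_right _ _
      have h3 : a ≤ s1 * j ^ 2 := by
        rwa [div_le_iff₀ (by positivity)] at h2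
      calc T = a ^ 2 := ha2.symm
        _ ≤ (s1 * j ^ 2) ^ 2 := by gcongr
        _ = s1 ^ 2 * J := by rw [← hj4]; ring
        _ ≤ s1 ^ 2 * (8 * L ^ A1 * P1) := by gcongr
        _ = _ := by ring
    have h7 : P1 ≤ L ^ A1 * s1 ^ 2 * P1 := by
      have h8 : 1 ≤ L ^ A1 * s1 ^ 2 := one_le_mul_of_one_le_of_one_le h6 (one_le_pow₀ hs1p)
      nlinarith
    calc (T + P1) * P1 ≤ (8 * L ^ A1 * s1 ^ 2 * P1 + L ^ A1 * s1 ^ 2 * P1) * P1 := by
          gcongr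
      _ = 9 * L ^ A1 * s1 ^ 2 * P1 ^ 2 := by ring
      _ ≤ 9 * L ^ A1 * s1 ^ 2 * P1 ^ 2 * L ^ A1 := by
          have : 0 ≤ 9 * L ^ A1 * s1 ^ 2 * P1 ^ 2 := by positivity
          nlinarith
      _ = (3 * L ^ A1 * s1 * P1) ^ 2 := by ring
  have hr2 : (T + P2) * P2 ≤ (s2 * P2) ^ 2 := by
    have h1 : T ≤ 25 * (a * ν / j ^ 3) ^ 2 * P2 := by
      have h2 : 25 * (a * ν / j ^ 3) ^ 2 * P2 = 25 * (a ^ 2 * ν ^ 2 * P2) / j ^ 6 := by
        field_simp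
      rw [h2, le_div_iff₀ (by positivity), ← ha2]
      have h3 : 23 * ν ^ 2 * P2 ≤ 25 * ν ^ 2 * P2 := by
        have : 0 ≤ ν ^ 2 * P2 := by positivity
        linarith
      calc a ^ 2 * j ^ 6 ≤ a ^ 2 * (25 * ν ^ 2 * P2) :=
            mul_le_mul_of_nonneg_left (hP2'.trans h3) (by positivity)
        _ = _ := by ring
    have h4 : T + P2 ≤ s2 ^ 2 * P2 := by
      have h5 : s2 ^ 2 = 1 + 10 * (a * ν / j ^ 3) + 25 * (a * ν / j ^ 3) ^ 2 := by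
        rw [hs2]
        ring
      have h6 : 0 ≤ 10 * (a * ν / j ^ 3) * P2 := by positivity
      have h7 : (1 + 10 * (a * ν / j ^ 3) + 25 * (a * ν / j ^ 3) ^ 2) * P2 =
          P2 + 10 * (a * ν / j ^ 3) * P2 + 25 * (a * ν / j ^ 3) ^ 2 * P2 := by ring
      rw [h5, h7]
      linarith
    calc (T + P2) * P2 ≤ s2 ^ 2 * P2 * P2 := by gcongr
      _ = (s2 * P2) ^ 2 := by ring
  have hroot : Real.sqrt (((T + P1) * P1) * ((T + P2) * P2)) ≤
      3 * L ^ A1 * s1 * P1 * (s2 * P2) := by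
    rw [Real.sqrt_le_left (by positivity), mul_pow]
    exact mul_le_mul hr1 hr2 (by positivity) (by positivity)
  have halg := bx2_alg (A1 := A1) (Z := Z) hL hapos hjpos hνpos haL hjν hνj hjL
  rw [hj4, ha2, hν2] at halg
  calc min 1 (J ^ 2 / T ^ 2) * ((a + n / a) * Real.sqrt (((T + P1) * P1) * ((T + P2) * P2)))
      ≤ min 1 (J ^ 2 / T ^ 2) * ((a + n / a) * (3 * L ^ A1 * s1 * P1 * (s2 * P2))) := by
        gcongr
    _ = (3 * L ^ A1 * P1 * P2) * (min 1 (J ^ 2 / T ^ 2) * ((a + n / a) * (s1 * s2))) := by ring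
    _ ≤ (3 * L ^ A1 * P1 * P2) * (12 * n / L ^ Z) := by gcongr
    _ = 36 * L ^ A1 / L ^ Z * (n * P1 * P2) := by ring

theorem bx2_Y {J n L P1 P2 T : ℝ} {A1 Z : ℕ} (hL : 1 ≤ L) (hJ : 1 ≤ J) (hn : 1 ≤ n)
    (hP1 : 1 ≤ P1) (hP2 : 1 ≤ P2) (hT : L ^ (2 * Z) ≤ T) (hn1 : Real.sqrt J * L ^ (2 * Z) ≤ n)
    (hn2 : n ≤ J * L ^ A1) (hJL : L ^ (4 * (Z + A1)) ≤ J) (hQ : J ^ 3 ≤ 64 * (n * P1 * P2))
    (h12 : P1 ≤ 8 * n * P2) (h21 : P2 ≤ 8 * n * P1) :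
    min 1 (J ^ 2 / T ^ 2) * ((Real.sqrt T + n / Real.sqrt T) *
      Real.sqrt (((T + P1) * P1) * ((T + P2) * P2))) ≤ 36 * L ^ A1 / L ^ Z * (n * P1 * P2) := by
  rcases le_total P2 P1 with h | h
  · exact bx2_Y1 hL hJ hn hP1 hP2 hT hn1 hn2 hJL hQ h12 h
  · have := bx2_Y1 (A1 := A1) (Z := Z) hL hJ hn hP2 hP1 hT hn1 hn2 hJL
      (by calc J ^ 3 ≤ _ := hQ
            _ = _ := by ring) h21 h
    rw [mul_comm ((T + P1) * P1)]
    calc _ ≤ _ := this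
      _ = _ := by ring


theorem bx2_ev (k : ℕ) : ∀ᶠ J : ℕ in atTop, Real.log (J : ℝ) ^ k ≤ J := by
  have h1 := Real.isLittleO_pow_log_id_atTop (n := k)
  have h2 := h1.bound (show (0 : ℝ) < 1 by norm_num)
  have h3 := tendsto_natCast_atTop_atTop (R := ℝ) |>.eventually h2
  filter_upwards [h3, eventually_ge_atTop 1] with J hJ hJ1
  have hJ' : (0 : ℝ) < J := by exact_mod_cast hJ1
  rw [Real.norm_eq_abs, Real.norm_eq_abs, one_mul, id, abs_of_pos hJ'] at hJ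
  have := le_abs_self (Real.log (J : ℝ) ^ k)
  linarith

theorem p_bx2 : S_bx2 := by
  intro hG hsmo hgrd m A A1 B
  obtain ⟨C, hC1, hG⟩ := hG m
  obtain ⟨Cs, hCs1, hsmo⟩ := hsmo
  set Z := A + A1 + B + 4 * m + C + 20 with hZ
  refine ⟨2 * Z, 3 * Z + A + 2 * m + 10, fun E hE => ?_⟩
  have hlogt : Tendsto (fun J : ℕ => Real.log (J : ℝ)) atTop atTop :=
    Real.tendsto_log_atTop.comp tendsto_natCast_atTop_atTop
  set K : ℝ := 100 + m + 10 * Cs + 4 * 2 ^ (2 * m + 5) + 44 * 2 ^ (2 * m + 5)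
    + 2 * (C * 4 ^ C * 6 * 36 * 2 ^ (2 * m + 4)) with hK
  filter_upwards [hlogt.eventually_ge_atTop K, eventually_ge_atTop 2, bx2_ev E,
    bx2_ev (4 * (Z + A1)), bx2_ev (2 * m + A + 1)] with J hL hJ hlJ hJL hJs
  intro j r χ N a V l0 hj hr1 hrB hbox hV ha hNlo hNhi hN4
  set L := Real.log (J : ℝ) with hLdef
  have hm0 : (0 : ℝ) ≤ m := Nat.cast_nonneg m
  have hCsp : (0 : ℝ) < Cs := lt_of_lt_of_le one_pos hCs1
  have hCp : (1 : ℝ) ≤ C := by exact_mod_cast hC1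
  have hp1 : (0 : ℝ) < 4 * 2 ^ (2 * m + 5) := by positivity
  have hp2 : (0 : ℝ) < 44 * 2 ^ (2 * m + 5) := by positivity
  have hp3 : (0 : ℝ) < 2 * (C * 4 ^ C * 6 * 36 * 2 ^ (2 * m + 4)) := by positivity
  have hL100 : 100 + m ≤ L := by linarith
  have hL1 : (1 : ℝ) ≤ L := by linarith
  have hLpos : 0 < L := by linarith
  have hLCs : 10 * Cs ≤ L := by linarith
  have hLa : (4 : ℝ) * 2 ^ (2 * m + 5) ≤ L := by linarith
  have hLb : (44 : ℝ) * 2 ^ (2 * m + 5) ≤ L := by linarith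
  have hLc : 2 * (C * 4 ^ C * 6 * 36 * 2 ^ (2 * m + 4)) ≤ L := by linarith
  have hJ1 : (1 : ℝ) ≤ J := by exact_mod_cast (by omega : 1 ≤ J)
  have hJpos : (0 : ℝ) < J := by linarith
  have hN1 : ∀ l, (1 : ℝ) ≤ N l := fun l => by exact_mod_cast hbox.one l
  have hn1 := hN1 l0
  have hlog2 : Real.log 2 ≤ 1 := by
    have := Real.log_two_lt_d9
    linarith
  -- products
  set P : ℝ := ∏ l, (N l : ℝ) with hP
  set Q : ℝ := ∏ l, ((2 * N l : ℕ) : ℝ) with hQdef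
  have hQP : Q = 2 ^ m * P := by
    rw [hQdef, hP]
    push_cast
    rw [Finset.prod_mul_distrib]
    simp
  have hQlo : (J : ℝ) ^ 3 ≤ 32 * Q := by
    calc (J : ℝ) ^ 3 ≤ 2 ^ (m + 5) * P := hbox.lo
      _ = 32 * Q := by rw [hQP]; ring
  have hQhi : Q ≤ 2 ^ (2 * m + 5) * (J : ℝ) ^ 3 := by
    calc Q = 2 ^ m * P := hQP
      _ ≤ 2 ^ m * (2 ^ (m + 5) * (J : ℝ) ^ 3) := mul_le_mul_of_nonneg_left hbox.hi (by positivity)
      _ = 2 ^ (2 * m + 5) * (J : ℝ) ^ 3 := by ring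
  have hQpos : 0 < Q := Finset.prod_pos fun l _ => by
    have := hbox.one l
    have h2 : 0 < 2 * N l := by omega
    exact_mod_cast h2
  have hQ1 : 1 ≤ Q := Finset.one_le_prod fun l _ => by
    have := hbox.one l
    have h2 : 1 ≤ 2 * N l := by omega
    exact_mod_cast h2
  have hlogQ : 1 + Real.log Q ≤ 4 * L := by
    have h1 : Real.log Q ≤ Real.log (2 ^ (2 * m + 5) * (J : ℝ) ^ 3) := Real.log_le_log hQpos hQhi
    rw [Real.log_mul (by positivity) (by positivity), Real.log_pow, Real.log_pow, ← hLdef] at h1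
    push_cast at h1
    have h2 : (2 * (m : ℝ) + 5) * Real.log 2 ≤ (2 * m + 5) * 0.6931471808 := by
      apply mul_le_mul_of_nonneg_left _ (by positivity)
      exact Real.log_two_lt_d9.le
    have h3 : K ≤ L := hL
    have h4 : (m : ℝ) ≤ 2 ^ (2 * m + 5) := by
      have : m ≤ 2 ^ (2 * m + 5) := by
        calc m ≤ 2 ^ m := Nat.lt_two_pow_self.le
          _ ≤ 2 ^ (2 * m + 5) := Nat.pow_le_pow_right (by norm_num) (by omega)
      exact_mod_cast this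
    linarith
  -- the partition
  obtain ⟨S1, S2, hdis, hun, hg12, hg21⟩ := hgrd m (univ.erase l0)
    (fun l => ((2 * N l : ℕ) : ℝ)) (8 * (N l0 : ℝ)) (by linarith) (fun l _ => by
      constructor
      · have := hbox.one l
        have h2 : 1 ≤ 2 * N l := by omega
        exact_mod_cast h2
      · push_cast
        have := hN4 l
        linarith)
  have hl1 : l0 ∉ S1 := fun h => by
    have : l0 ∈ univ.erase l0 := hun ▸ mem_union_left _ h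
    exact (Finset.notMem_erase _ _) this
  have hl2 : l0 ∉ S2 := fun h => by
    have : l0 ∈ univ.erase l0 := hun ▸ mem_union_right _ h
    exact (Finset.notMem_erase _ _) this
  have hins : insert l0 (S1 ∪ S2) = univ := by
    rw [hun]
    exact Finset.insert_erase (mem_univ l0)
  set P1 : ℝ := ∏ l ∈ S1, ((2 * N l : ℕ) : ℝ) with hP1def
  set P2 : ℝ := ∏ l ∈ S2, ((2 * N l : ℕ) : ℝ) with hP2def
  have hx1 : ∀ l, (1 : ℝ) ≤ ((2 * N l : ℕ) : ℝ) := fun l => by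
    have := hbox.one l
    have h2 : 1 ≤ 2 * N l := by omega
    exact_mod_cast h2
  have hP1 : 1 ≤ P1 := Finset.one_le_prod fun l _ => hx1 l
  have hP2 : 1 ≤ P2 := Finset.one_le_prod fun l _ => hx1 l
  have hQ12 : Q = 2 * (N l0 : ℝ) * (P1 * P2) := by
    rw [hQdef, ← Finset.mul_prod_erase univ _ (mem_univ l0), ← hun, Finset.prod_union hdis,
      ← hP1def, ← hP2def, Nat.cast_mul]
    norm_num
  set n : ℝ := (N l0 : ℝ) with hn
  have hQ3 : (J : ℝ) ^ 3 ≤ 64 * (n * P1 * P2) := by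
    calc (J : ℝ) ^ 3 ≤ 32 * Q := hQlo
      _ = 64 * (n * P1 * P2) := by rw [hQ12]; ring
  -- parameters
  set T0 : ℝ := L ^ (2 * Z) with hT0
  have hT01 : 1 ≤ T0 := one_le_pow₀ hL1
  set I : ℕ := ⌈5 * L⌉₊ with hI
  have hIle : (I : ℝ) ≤ 6 * L := by
    have := Nat.ceil_lt_add_one (show 0 ≤ 5 * L by linarith only [hLpos])
    linarith only [this, hL100, hm0, hI]
  have hIT : (J : ℝ) ^ 3 ≤ 2 ^ I * T0 := by
    have h1 : (J : ℝ) ^ 3 = Real.exp (3 * L) := by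
      rw [hLdef, show (3 : ℝ) * Real.log J = ((3 : ℕ) : ℝ) * Real.log J by norm_num,
        Real.exp_nat_mul, Real.exp_log hJpos]
    have h2 : (2 : ℝ) ^ I = Real.exp (I * Real.log 2) := by
      rw [Real.exp_nat_mul, Real.exp_log (by norm_num)]
    have h3 : 5 * L ≤ I := Nat.le_ceil _
    have h4 : 3 * L ≤ I * Real.log 2 := by
      have := Real.log_two_gt_d9
      calc 3 * L ≤ (5 * L) * 0.69 := by linarith
        _ ≤ I * Real.log 2 := mul_le_mul h3 (by linarith) (by norm_num) (by positivity)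
    calc (J : ℝ) ^ 3 ≤ 2 ^ I := by
          rw [h1, h2]
          exact Real.exp_le_exp.2 h4
      _ ≤ 2 ^ I * T0 := by
          have : (0 : ℝ) < 2 ^ I := pow_pos two_pos I
          exact le_mul_of_one_le_right this.le hT01
  set Sf : ℕ → ℝ := fun i => L ^ (B + 4) *
    (Real.sqrt (2 ^ i * T0) + n / Real.sqrt (2 ^ i * T0)) with hSf
  have hL2 : (1 : ℝ) ≤ L ^ 2 := one_le_pow₀ hL1
  have hlogn : 1 + Real.log n ≤ 4 * L := by
    refine le_trans ?_ hlogQ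
    have h1 : n ≤ Q := by
      rw [hQ12]
      have h2 : 1 ≤ P1 * P2 := one_le_mul_of_one_le_of_one_le hP1 hP2
      calc n ≤ 2 * n * 1 := by linarith only [hn1]
        _ ≤ 2 * n * (P1 * P2) := mul_le_mul_of_nonneg_left h2 (by linarith only [hn1])
    have := Real.log_le_log (by linarith) h1
    linarith
  have hdp : ∀ i < I, ∀ θ : ℝ, 2 ^ i * T0 ≤ |θ| → |θ| ≤ 2 * (2 ^ i * T0) →
      ‖dp (a l0) (2 * N l0) θ‖ ≤ Sf i := by
    intro i _ θ hθ1 hθ2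
    set T : ℝ := 2 ^ i * T0 with hT
    have hT1 : 1 ≤ T := one_le_mul_of_one_le_of_one_le (one_le_pow₀ (by norm_num)) hT01
    rw [ha]
    refine (hsmo r χ (N l0) (L ^ 2) θ V hr1 (hbox.one l0) hV (hT1.trans hθ1)).trans ?_
    have h1 : Real.sqrt |θ| ≤ 2 * Real.sqrt T := by
      have h2 : Real.sqrt |θ| ≤ Real.sqrt (4 * T) := Real.sqrt_le_sqrt (by linarith)
      rw [Real.sqrt_mul (by norm_num), show (4 : ℝ) = 2 ^ 2 by norm_num,
        Real.sqrt_sq (by norm_num)] at h2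
      exact h2
    have hsT : 0 < Real.sqrt T := Real.sqrt_pos.2 (by linarith)
    have h3 : n / Real.sqrt |θ| ≤ n / Real.sqrt T := by
      apply div_le_div_of_nonneg_left (by linarith) hsT
      exact Real.sqrt_le_sqrt hθ1
    have h4 : n / Real.sqrt T ≤ 2 * (n / Real.sqrt T) := by
      have : 0 ≤ n / Real.sqrt T := by positivity
      linarith
    have h5 : Real.sqrt |θ| + n / Real.sqrt |θ| ≤ 2 * (Real.sqrt T + n / Real.sqrt T) := by
      linarith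
    have hlogn0 : 0 ≤ 1 + Real.log n := by
      have := Real.log_nonneg hn1
      linarith
    calc Cs * r * L ^ 2 * (1 + Real.log (N l0)) * (Real.sqrt |θ| + (N l0 : ℝ) / Real.sqrt |θ|)
        ≤ Cs * L ^ B * L ^ 2 * (4 * L) * (2 * (Real.sqrt T + n / Real.sqrt T)) := by
          gcongr
      _ = (8 * Cs) * L ^ (B + 3) * (Real.sqrt T + n / Real.sqrt T) := by ring
      _ ≤ L * L ^ (B + 3) * (Real.sqrt T + n / Real.sqrt T) := by
          gcongr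
          linarith
      _ = Sf i := by
          rw [hSf]
          ring
  have hmain := hG J j I (L ^ E) T0 (L ^ 2) (fun l => 2 * N l) a l0 S1 S2 Sf hJ hj hT01
    (one_le_pow₀ hL1) (by linarith) hL2 hIT
    (fun l => by have := hbox.one l; omega) hbox.bd hl1 hl2 hdis hins hdp
  refine hmain.trans ?_
  have hsumle : ∑ i ∈ range I, min 1 ((J : ℝ) ^ 2 / (2 ^ i * T0) ^ 2) * Sf i *
        Real.sqrt (((2 ^ i * T0 + P1) * P1) * ((2 ^ i * T0 + P2) * P2)) ≤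
      6 * L * (L ^ (B + 4) * (36 * L ^ A1 / L ^ Z * (2 ^ (2 * m + 4) * (J : ℝ) ^ 3))) := by
    have hnP : n * P1 * P2 ≤ 2 ^ (2 * m + 4) * (J : ℝ) ^ 3 := by
      have h1 : 2 * (n * P1 * P2) ≤ 2 * (2 ^ (2 * m + 4) * (J : ℝ) ^ 3) := by
        calc 2 * (n * P1 * P2) = Q := by rw [hQ12]; ring
          _ ≤ 2 ^ (2 * m + 5) * (J : ℝ) ^ 3 := hQhi
          _ = _ := by ring
      linarith
    calc _ ≤ ∑ _i ∈ range I, L ^ (B + 4) * (36 * L ^ A1 / L ^ Z *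
          (2 ^ (2 * m + 4) * (J : ℝ) ^ 3)) := by
          apply Finset.sum_le_sum
          intro i _
          have hT : L ^ (2 * Z) ≤ 2 ^ i * T0 := by
            have : (1 : ℝ) ≤ 2 ^ i := one_le_pow₀ (by norm_num)
            rw [← hT0]
            exact le_mul_of_one_le_left (zero_le_one.trans hT01) this
          have hY := bx2_Y (A1 := A1) (Z := Z) hL1 hJ1 hn1 hP1 hP2 hT hNlo hNhi hJL hQ3 hg12 hg21
          calc min 1 ((J : ℝ) ^ 2 / (2 ^ i * T0) ^ 2) * Sf i *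
                Real.sqrt (((2 ^ i * T0 + P1) * P1) * ((2 ^ i * T0 + P2) * P2))
              = L ^ (B + 4) * (min 1 ((J : ℝ) ^ 2 / (2 ^ i * T0) ^ 2) *
                ((Real.sqrt (2 ^ i * T0) + n / Real.sqrt (2 ^ i * T0)) *
                Real.sqrt (((2 ^ i * T0 + P1) * P1) * ((2 ^ i * T0 + P2) * P2)))) := by
                rw [hSf]
                ring
            _ ≤ L ^ (B + 4) * (36 * L ^ A1 / L ^ Z * (n * P1 * P2)) := by gcongr
            _ ≤ _ := by gcongr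
      _ = (I : ℝ) * (L ^ (B + 4) * (36 * L ^ A1 / L ^ Z *
          (2 ^ (2 * m + 4) * (J : ℝ) ^ 3))) := by
          rw [Finset.sum_const, card_range, nsmul_eq_mul]
      _ ≤ _ := by gcongr
  have hlogQ0 : 0 ≤ 1 + Real.log Q := by
    have := Real.log_nonneg hQ1
    linarith
  have hfirst : (T0 ^ 3 / (L ^ E) ^ 2 + 11 / J) * ((L ^ 2) ^ m * Q) ≤
      (J : ℝ) ^ 3 / L ^ A * (1 / 2) := by
    have h1 : T0 ^ 3 / (L ^ E) ^ 2 ≤ 1 / L ^ (2 * m + A + 1) := by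
      rw [hT0, div_le_div_iff₀ (by positivity) (by positivity), one_mul, ← pow_mul, ← pow_mul,
        ← pow_add]
      exact pow_le_pow_right₀ hL1 (by omega)
    have h2 : T0 ^ 3 / (L ^ E) ^ 2 * ((L ^ 2) ^ m * Q) ≤ (J : ℝ) ^ 3 / L ^ A * (1 / 4) := by
      calc T0 ^ 3 / (L ^ E) ^ 2 * ((L ^ 2) ^ m * Q)
          ≤ 1 / L ^ (2 * m + A + 1) * ((L ^ 2) ^ m * (2 ^ (2 * m + 5) * (J : ℝ) ^ 3)) := by gcongr
        _ = (J : ℝ) ^ 3 / L ^ A * (2 ^ (2 * m + 5) / L) := by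
            rw [← pow_mul, pow_add, pow_add]
            field_simp
        _ ≤ (J : ℝ) ^ 3 / L ^ A * (1 / 4) := by
            apply mul_le_mul_of_nonneg_left _ (by positivity)
            rw [div_le_iff₀ hLpos]
            linarith
    have h3 : 11 / (J : ℝ) * ((L ^ 2) ^ m * Q) ≤ (J : ℝ) ^ 3 / L ^ A * (1 / 4) := by
      calc 11 / (J : ℝ) * ((L ^ 2) ^ m * Q)
          ≤ 11 / (J : ℝ) * ((L ^ 2) ^ m * (2 ^ (2 * m + 5) * (J : ℝ) ^ 3)) := by gcongr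
        _ = (J : ℝ) ^ 3 / L ^ A * ((11 * 2 ^ (2 * m + 5)) * L ^ (2 * m + A) / J) := by
            rw [← pow_mul, pow_add L (2 * m) A]
            field_simp
        _ ≤ (J : ℝ) ^ 3 / L ^ A * (1 / 4) := by
            apply mul_le_mul_of_nonneg_left _ (by positivity)
            rw [div_le_iff₀ hJpos]
            have h4 : 44 * 2 ^ (2 * m + 5) * L ^ (2 * m + A) ≤ J := by
              calc 44 * 2 ^ (2 * m + 5) * L ^ (2 * m + A) ≤ L * L ^ (2 * m + A) := by gcongr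
                _ = L ^ (2 * m + A + 1) := by ring
                _ ≤ J := hJs
            linarith
    rw [add_mul]
    linarith
  have hsum0 : 0 ≤ ∑ i ∈ range I, min 1 ((J : ℝ) ^ 2 / (2 ^ i * T0) ^ 2) * Sf i *
        Real.sqrt (((2 ^ i * T0 + P1) * P1) * ((2 ^ i * T0 + P2) * P2)) := by
    apply Finset.sum_nonneg
    intro i _
    refine mul_nonneg (mul_nonneg (le_min zero_le_one (div_nonneg (sq_nonneg _) (sq_nonneg _))) ?_)
      (Real.sqrt_nonneg _)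
    exact mul_nonneg (pow_nonneg hLpos.le _) (add_nonneg (Real.sqrt_nonneg _)
      (div_nonneg (zero_le_one.trans hn1) (Real.sqrt_nonneg _)))
  have hCL0 : (0 : ℝ) ≤ C * (L ^ 2) ^ (2 * m) :=
    mul_nonneg (zero_le_one.trans hCp) (pow_nonneg (sq_nonneg _) _)
  have hfac : C * (L ^ 2) ^ (2 * m) * (1 + Real.log Q) ^ C ≤
      C * (L ^ 2) ^ (2 * m) * (4 * L) ^ C :=
    mul_le_mul_of_nonneg_left (pow_le_pow_left₀ hlogQ0 hlogQ C) hCL0
  have hfac0 : (0 : ℝ) ≤ C * (L ^ 2) ^ (2 * m) * (4 * L) ^ C :=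
    mul_nonneg hCL0 (pow_nonneg (by linarith only [hLpos]) _)
  have hsecond : C * (L ^ 2) ^ (2 * m) * (1 + Real.log Q) ^ C *
      (∑ i ∈ range I, min 1 ((J : ℝ) ^ 2 / (2 ^ i * T0) ^ 2) * Sf i *
        Real.sqrt (((2 ^ i * T0 + P1) * P1) * ((2 ^ i * T0 + P2) * P2))) ≤
      (J : ℝ) ^ 3 / L ^ A * (1 / 2) := by
    calc C * (L ^ 2) ^ (2 * m) * (1 + Real.log Q) ^ C *
      (∑ i ∈ range I, min 1 ((J : ℝ) ^ 2 / (2 ^ i * T0) ^ 2) * Sf i *
        Real.sqrt (((2 ^ i * T0 + P1) * P1) * ((2 ^ i * T0 + P2) * P2)))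
        ≤ C * (L ^ 2) ^ (2 * m) * (4 * L) ^ C *
          (6 * L * (L ^ (B + 4) * (36 * L ^ A1 / L ^ Z * (2 ^ (2 * m + 4) * (J : ℝ) ^ 3)))) :=
          mul_le_mul hfac hsumle hsum0 hfac0
      _ = (J : ℝ) ^ 3 / L ^ A * ((C * 4 ^ C * 6 * 36 * 2 ^ (2 * m + 4)) / L ^ 15) := by
          rw [hZ, mul_pow, ← pow_mul,
            show A + A1 + B + 4 * m + C + 20 = A + (A1 + B + 4 * m + C + 5) + 15 by ring,
            pow_add L (A + (A1 + B + 4 * m + C + 5)), pow_add L A]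
          field_simp
          ring
      _ ≤ (J : ℝ) ^ 3 / L ^ A * (1 / 2) := by
          apply mul_le_mul_of_nonneg_left _ (by positivity)
          rw [div_le_iff₀ (by positivity)]
          have h1 : L ^ 1 ≤ L ^ 15 := pow_le_pow_right₀ hL1 (by norm_num)
          rw [pow_one] at h1
          linarith
  calc _ ≤ (J : ℝ) ^ 3 / L ^ A * (1 / 2) + (J : ℝ) ^ 3 / L ^ A * (1 / 2) :=
        add_le_add hfirst hsecond
    _ = (J : ℝ) ^ 3 / L ^ A := by ring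

end Pool.Agent.CA.SC
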