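import Pool.Agent.Lib.MP_d610d0_nt.CA.SC.Stm2

set_option autoImplicit false

/-!
Project CA, section SC, piece bx3: boxes all of whose sizes are at most about the square root.
-/

namespace Pool.Agent.CA.SC

open Finset Filter

/-- the lower bound for one of the two products -/
private theorem bx3_half (J L b P1 P2 n c : ℝ) (A2 : ℕ) (hJ : 0 < J) (hL : 0 < L) (hc : c ≤ L ^ 2)
    (hc0 : 0 < c) (hb : b = Real.sqrt J * L ^ A2) (hP1 : 0 ≤ P1) (hP2 : 0 ≤ P2)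
    (hn : n ≤ b) (h12 : P1 ≤ b * P2) (hlo : J ^ 3 ≤ c * (P1 * P2 * n)) :
    J ≤ L ^ (A2 + 1) * P2 := by
  have hb0 : 0 ≤ b := by rw [hb]; positivity
  have hb2 : b ^ 2 = J * (L ^ A2) ^ 2 := by
    rw [hb, mul_pow, Real.sq_sqrt hJ.le]
  have h1 : P1 * P2 * n ≤ b * P2 * P2 * b := by
    have h2 : P1 * P2 ≤ b * P2 * P2 := mul_le_mul_of_nonneg_right h12 hP2
    exact (mul_le_mul_of_nonneg_left hn (mul_nonneg hP1 hP2)).trans
      (mul_le_mul_of_nonneg_right h2 hb0)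
  have h3 : J ^ 3 ≤ c * (b ^ 2 * P2 ^ 2) := by
    refine hlo.trans (mul_le_mul_of_nonneg_left (h1.trans (le_of_eq (by ring))) hc0.le)
  rw [hb2] at h3
  have h4 : J * J ^ 2 ≤ J * (L ^ (A2 + 1) * P2) ^ 2 := by
    calc J * J ^ 2 = J ^ 3 := by ring
      _ ≤ c * (J * (L ^ A2) ^ 2 * P2 ^ 2) := h3
      _ ≤ L ^ 2 * (J * (L ^ A2) ^ 2 * P2 ^ 2) := mul_le_mul_of_nonneg_right hc (by positivity)
      _ = J * (L ^ (A2 + 1) * P2) ^ 2 := by ring
  have h5 : J ^ 2 ≤ (L ^ (A2 + 1) * P2) ^ 2 := le_of_mul_le_mul_left h4 hJ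
  exact le_of_sq_le_sq h5 (by positivity)

theorem p_bx3 : S_bx3 := by
  intro hbxs hgrd m A A2
  obtain ⟨A', hA'⟩ := hbxs m A (A2 + 1)
  refine ⟨A', fun C0 => ?_⟩
  obtain ⟨E0, hE0⟩ := hA' C0
  refine ⟨E0, fun E hE => ?_⟩
  have hlog : ∀ᶠ J : ℕ in atTop, (2 : ℝ) ^ (m + 5) ≤ Real.log J := by
    have h : ∀ᶠ x : ℝ in atTop, (2 : ℝ) ^ (m + 5) ≤ Real.log x :=
      Real.tendsto_log_atTop.eventually_ge_atTop _
    exact tendsto_natCast_atTop_atTop.eventually h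
  filter_upwards [hE0 E hE, hlog, eventually_ge_atTop 1] with J hJ hL hJ1
  intro j N a l0 hj hbox hN hdp
  have hJ0 : (0 : ℝ) < J := by exact_mod_cast hJ1
  have h1 : (1 : ℝ) ≤ 2 ^ (m + 5) := one_le_pow₀ (by norm_num)
  have hL1 : 1 ≤ Real.log J := h1.trans hL
  have hc : (2 : ℝ) ^ (m + 5) ≤ (Real.log J) ^ 2 := by nlinarith
  have hone : ∀ l, (1 : ℝ) ≤ N l := fun l => by exact_mod_cast hbox.one l
  obtain ⟨S1, S2, hd, hu, h12, h21⟩ := hgrd m (Finset.univ.erase l0) (fun l => (N l : ℝ))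
    (Real.sqrt J * (Real.log J) ^ A2) ((hone l0).trans (hN l0)) (fun l _ => ⟨hone l, hN l⟩)
  have hl1 : l0 ∉ S1 := fun h => by
    have : l0 ∈ Finset.univ.erase l0 := by rw [← hu]; exact Finset.mem_union_left _ h
    exact Finset.notMem_erase l0 _ this
  have hl2 : l0 ∉ S2 := fun h => by
    have : l0 ∈ Finset.univ.erase l0 := by rw [← hu]; exact Finset.mem_union_right _ h
    exact Finset.notMem_erase l0 _ this
  have hins : insert l0 (S1 ∪ S2) = Finset.univ := by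
    rw [hu, Finset.insert_erase (Finset.mem_univ l0)]
  have hP1 : 0 ≤ ∏ l ∈ S1, (N l : ℝ) := Finset.prod_nonneg fun l _ => by linarith [hone l]
  have hP2 : 0 ≤ ∏ l ∈ S2, (N l : ℝ) := Finset.prod_nonneg fun l _ => by linarith [hone l]
  have hprod : ∏ l, (N l : ℝ) = (∏ l ∈ S1, (N l : ℝ)) * (∏ l ∈ S2, (N l : ℝ)) * N l0 := by
    rw [← Finset.prod_union hd, hu, Finset.prod_erase_mul _ _ (Finset.mem_univ l0)]
  have hlo := hbox.lo
  rw [hprod] at hlo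
  refine hJ j N a l0 S1 S2 hj hbox hl1 hl2 hd hins ?_ ?_ hdp
  · refine bx3_half J (Real.log J) _ (∏ l ∈ S2, (N l : ℝ)) _ (N l0) (2 ^ (m + 5)) A2 hJ0
      (by linarith) hc (by positivity) rfl hP2 hP1 (hN l0) h21 ?_
    rw [mul_comm (∏ l ∈ S2, (N l : ℝ))]
    exact hlo
  · exact bx3_half J (Real.log J) _ (∏ l ∈ S1, (N l : ℝ)) _ (N l0) (2 ^ (m + 5)) A2 hJ0
      (by linarith) hc (by positivity) rfl hP1 hP2 (hN l0) h12 hlo

end Pool.Agent.CA.SC
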