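import Pool.Agent.Lib.MP_d610d0_nt.CA.SC.Stm2

set_option autoImplicit false

/-!
Project CA, section SC, piece bxs: boxes which split well.
-/

namespace Pool.Agent.CA.SC

open Finset Filter
open Pool.Agent.CH.V (pz)
open Pool.Agent.CH.D (dp)

theorem bxs_pz (t x : ℝ) : ‖pz t x‖ = 1 := by
  unfold pz
  rw [Complex.norm_exp]
  simp

theorem bxs_dp {a : ℕ → ℂ} {G : ℝ} (ha : ∀ n, ‖a n‖ ≤ G) (N : ℕ) (θ : ℝ) :
    ‖dp a N θ‖ ≤ N * G := by
  unfold dp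
  calc ‖∑ n ∈ Icc 1 N, a n * pz (-θ) n‖ ≤ ∑ n ∈ Icc 1 N, ‖a n * pz (-θ) n‖ := norm_sum_le _ _
    _ ≤ ∑ _n ∈ Icc 1 N, G := by
        refine Finset.sum_le_sum fun n _ => ?_
        rw [norm_mul, bxs_pz, mul_one]
        exact ha n
    _ = N * G := by
        rw [Finset.sum_const, Nat.card_Icc, nsmul_eq_mul]
        norm_num

/-- the square root -/
theorem bxs_sqrt {T P1 P2 x J : ℝ} (hT : 0 ≤ T) (hJ : 0 < J) (hx : 0 ≤ x) (h1 : 0 ≤ P1)
    (h2 : 0 ≤ P2) (hx1 : J ≤ x * P1) (hx2 : J ≤ x * P2) :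
    Real.sqrt (((T + P1) * P1) * ((T + P2) * P2)) ≤ P1 * P2 * (1 + T * x / J) := by
  have key : ∀ P : ℝ, 0 ≤ P → J ≤ x * P → (T + P) * P ≤ P ^ 2 * (1 + T * x / J) := by
    intro P hP hPJ
    have h3 : T * P ≤ P ^ 2 * (T * x / J) := by
      rw [← mul_div_assoc, le_div_iff₀ hJ]
      calc T * P * J ≤ T * P * (x * P) := mul_le_mul_of_nonneg_left hPJ (mul_nonneg hT hP)
        _ = P ^ 2 * (T * x) := by ring
    calc (T + P) * P = T * P + P ^ 2 := by ring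
      _ ≤ P ^ 2 * (T * x / J) + P ^ 2 := by linarith
      _ = P ^ 2 * (1 + T * x / J) := by ring
  have h0 : 0 ≤ 1 + T * x / J := by positivity
  rw [Real.sqrt_le_iff]
  refine ⟨by positivity, ?_⟩
  calc ((T + P1) * P1) * ((T + P2) * P2)
      ≤ (P1 ^ 2 * (1 + T * x / J)) * (P2 ^ 2 * (1 + T * x / J)) :=
        mul_le_mul (key P1 h1 hx1) (key P2 h2 hx2) (by positivity) (by positivity)
    _ = (P1 * P2 * (1 + T * x / J)) ^ 2 := by ring

/-- one term of the sum over `i` -/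
theorem bxs_term {T P1 P2 x J n a g : ℝ} (hT : 1 ≤ T) (hJ : 1 ≤ J) (hx : 1 ≤ x) (h1 : 0 ≤ P1)
    (h2 : 0 ≤ P2) (hx1 : J ≤ x * P1) (hx2 : J ≤ x * P2) (hn : 0 ≤ n) (ha : 0 ≤ a) (hg : 0 ≤ g) :
    min 1 (J ^ 2 / T ^ 2) * (if 2 * T ≤ J ^ 2 then n * a else 2 * n * g) *
      Real.sqrt (((T + P1) * P1) * ((T + P2) * P2)) ≤
      (2 * x * a + 12 * x * g / J) * (n * P1 * P2) := by
  have hT0 : 0 < T := by linarith
  have hJ0 : 0 < J := by linarith
  have hs := bxs_sqrt hT0.le hJ0 (by linarith) h1 h2 hx1 hx2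
  have hm0 : 0 ≤ min 1 (J ^ 2 / T ^ 2) := le_min zero_le_one (by positivity)
  obtain ⟨μ, hμ⟩ : ∃ μ : ℝ, μ = min 1 (J ^ 2 / T ^ 2) := ⟨_, rfl⟩
  have hμ1 : μ ≤ 1 := by rw [hμ]; exact min_le_left _ _
  have hμ2 : μ ≤ J ^ 2 / T ^ 2 := by rw [hμ]; exact min_le_right _ _
  rw [← hμ] at hm0 ⊢
  have hμT2 : μ * T ^ 2 ≤ J ^ 2 := by
    rwa [le_div_iff₀ (by positivity)] at hμ2
  have hP : 0 ≤ n * P1 * P2 := by positivity
  have hextra : 0 ≤ 12 * x * g / J := by positivity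
  have hextra2 : 0 ≤ 2 * x * a := by positivity
  split_ifs with h
  · have hμT : μ * T ≤ J := by
      rcases le_total T J with h3 | h3
      · calc μ * T ≤ 1 * T := mul_le_mul_of_nonneg_right hμ1 hT0.le
          _ ≤ J := by linarith
      · have h4 : μ * T * T ≤ J * T := by nlinarith
        exact le_of_mul_le_mul_right h4 hT0
    have h5 : μ * (1 + T * x / J) ≤ 2 * x := by
      have h6 : μ * T * x / J ≤ x := by
        rw [div_le_iff₀ hJ0]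
        nlinarith
      calc μ * (1 + T * x / J) = μ + μ * T * x / J := by ring
        _ ≤ 1 + x := by linarith
        _ ≤ 2 * x := by linarith
    calc μ * (n * a) * Real.sqrt (((T + P1) * P1) * ((T + P2) * P2))
        ≤ μ * (n * a) * (P1 * P2 * (1 + T * x / J)) :=
          mul_le_mul_of_nonneg_left hs (by positivity)
      _ = (μ * (1 + T * x / J)) * (a * (n * P1 * P2)) := by ring
      _ ≤ (2 * x) * (a * (n * P1 * P2)) := mul_le_mul_of_nonneg_right h5 (by positivity)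
      _ = (2 * x * a) * (n * P1 * P2) := by ring
      _ ≤ (2 * x * a + 12 * x * g / J) * (n * P1 * P2) :=
          mul_le_mul_of_nonneg_right (by linarith) hP
  · rw [not_le] at h
    have hμT : μ * T ≤ 2 := by
      have h4 : μ * T * T ≤ 2 * T := by nlinarith
      exact le_of_mul_le_mul_right h4 hT0
    have hμ4 : μ ≤ 4 / J := by
      rw [le_div_iff₀ hJ0]
      have h6 : μ * J ^ 2 ≤ 4 := by nlinarith
      have h7 : μ * J ≤ μ * J ^ 2 := by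
        apply mul_le_mul_of_nonneg_left _ hm0
        nlinarith
      linarith
    have h5 : μ * (1 + T * x / J) ≤ 6 * x / J := by
      have h6 : μ * T * x / J ≤ 2 * x / J := by
        apply div_le_div_of_nonneg_right _ hJ0.le
        exact mul_le_mul_of_nonneg_right hμT (by linarith)
      calc μ * (1 + T * x / J) = μ + μ * T * x / J := by ring
        _ ≤ 4 / J + 2 * x / J := by linarith
        _ = (4 + 2 * x) / J := by ring
        _ ≤ 6 * x / J := div_le_div_of_nonneg_right (by linarith) hJ0.le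
    calc μ * (2 * n * g) * Real.sqrt (((T + P1) * P1) * ((T + P2) * P2))
        ≤ μ * (2 * n * g) * (P1 * P2 * (1 + T * x / J)) :=
          mul_le_mul_of_nonneg_left hs (by positivity)
      _ = (μ * (1 + T * x / J)) * (2 * g * (n * P1 * P2)) := by ring
      _ ≤ (6 * x / J) * (2 * g * (n * P1 * P2)) := mul_le_mul_of_nonneg_right h5 (by positivity)
      _ = (12 * x * g / J) * (n * P1 * P2) := by ring
      _ ≤ (2 * x * a + 12 * x * g / J) * (n * P1 * P2) :=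
          mul_le_mul_of_nonneg_right (by linarith) hP

/-- the final computation -/
theorem bxs_alg {L J c Q I W S : ℝ} {m A H C C0 E : ℕ} (hL : 1 ≤ L) (hJ : 0 < J) (hc : 1 ≤ c)
    (hE : 2 * C0 + A + 2 * m + 10 ≤ E)
    (hL1 : 4 * c ≤ L) (hL2 : 44 * c ≤ L) (hL3 : 48 * Q * 4 ^ C * c ≤ L)
    (hL4 : 288 * Q * 4 ^ C * c ≤ L) (hQ : 1 ≤ Q)
    (hJL : L ^ (4 * m + C + H + A + 10) ≤ J) (hI0 : 0 ≤ I) (hI : I ≤ 6 * L) (hW0 : 0 ≤ W)
    (hW : W ≤ 4 * L) (hS0 : 0 ≤ S)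
    (hS : S ≤ c * J ^ 3) :
    ((L ^ C0) ^ 3 / (L ^ E) ^ 2 + 11 / J) * ((L ^ 2) ^ m * S) +
      Q * (L ^ 2) ^ (2 * m) * W ^ C * (I * ((2 * L ^ H * (1 / L ^ (A + H + 4 * m + C + 10)) +
        12 * L ^ H * L ^ 2 / J) * S)) ≤ J ^ 3 / L ^ A := by
  have hL0 : 0 < L := by linarith
  have hc0 : 0 < c := by linarith
  have hJ3 : 0 < J ^ 3 := by positivity
  have hpow : ∀ {p q : ℕ}, p ≤ q → L ^ p ≤ L ^ q := fun h => pow_le_pow_right₀ hL h
  have hLA : 0 < L ^ A := by positivity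
  have hS' : S ≤ J ^ 3 * c := by linarith
  -- first term
  have t1 : (L ^ C0) ^ 3 / (L ^ E) ^ 2 * ((L ^ 2) ^ m * S) ≤ J ^ 3 / L ^ A / 4 := by
    have h1 : (L ^ C0) ^ 3 * (L ^ 2) ^ m * c * L ^ A * 4 ≤ (L ^ E) ^ 2 := by
      calc (L ^ C0) ^ 3 * (L ^ 2) ^ m * c * L ^ A * 4
          = L ^ (C0 * 3 + 2 * m + A) * (4 * c) := by
            rw [← pow_mul, ← pow_mul, pow_add, pow_add]; ring
        _ ≤ L ^ (C0 * 3 + 2 * m + A) * L := mul_le_mul_of_nonneg_left hL1 (by positivity)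
        _ = L ^ (C0 * 3 + 2 * m + A + 1) := by rw [pow_succ]
        _ ≤ L ^ (E * 2) := hpow (by omega)
        _ = (L ^ E) ^ 2 := by rw [← pow_mul]
    rw [div_mul_eq_mul_div, div_div, div_le_div_iff₀ (by positivity) (by positivity)]
    calc (L ^ C0) ^ 3 * ((L ^ 2) ^ m * S) * (L ^ A * 4)
        ≤ (L ^ C0) ^ 3 * ((L ^ 2) ^ m * (J ^ 3 * c)) * (L ^ A * 4) := by gcongr
      _ = J ^ 3 * ((L ^ C0) ^ 3 * (L ^ 2) ^ m * c * L ^ A * 4) := by ring
      _ ≤ J ^ 3 * (L ^ E) ^ 2 := mul_le_mul_of_nonneg_left h1 hJ3.le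
  have t2 : 11 / J * ((L ^ 2) ^ m * S) ≤ J ^ 3 / L ^ A / 4 := by
    have h1 : 44 * c * (L ^ 2) ^ m * L ^ A ≤ J := by
      calc 44 * c * (L ^ 2) ^ m * L ^ A ≤ L * (L ^ 2) ^ m * L ^ A := by gcongr
        _ = L ^ (1 + 2 * m + A) := by rw [← pow_mul, pow_add, pow_add, pow_one]
        _ ≤ L ^ (4 * m + C + H + A + 10) := hpow (by omega)
        _ ≤ J := hJL
    rw [div_mul_eq_mul_div, div_div, div_le_div_iff₀ (by positivity) (by positivity)]
    calc 11 * ((L ^ 2) ^ m * S) * (L ^ A * 4)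
        ≤ 11 * ((L ^ 2) ^ m * (J ^ 3 * c)) * (L ^ A * 4) := by gcongr
      _ = J ^ 3 * (44 * c * (L ^ 2) ^ m * L ^ A) := by ring
      _ ≤ J ^ 3 * J := mul_le_mul_of_nonneg_left h1 hJ3.le
  have hWC : W ^ C ≤ (4 * L) ^ C := pow_le_pow_left₀ hW0 hW C
  have hD : ∀ z : ℝ, 0 ≤ z → Q * (L ^ 2) ^ (2 * m) * W ^ C * (I * (z * S)) ≤
      Q * (L ^ 2) ^ (2 * m) * (4 * L) ^ C * (6 * L * (z * (J ^ 3 * c))) := by
    intro z hz
    gcongr
  have t3 : Q * (L ^ 2) ^ (2 * m) * W ^ C * (I * ((2 * L ^ H *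
      (1 / L ^ (A + H + 4 * m + C + 10))) * S)) ≤ J ^ 3 / L ^ A / 4 := by
    refine (hD _ (by positivity)).trans ?_
    have e : Q * (L ^ 2) ^ (2 * m) * (4 * L) ^ C * (6 * L * ((2 * L ^ H *
        (1 / L ^ (A + H + 4 * m + C + 10))) * (J ^ 3 * c))) =
        (J ^ 3 * (12 * Q * 4 ^ C * c * L ^ (4 * m + C + 1 + H))) / L ^ (A + H + 4 * m + C + 10) := by
      rw [mul_pow, ← pow_mul, pow_add L (4 * m + C + 1), pow_add L (4 * m + C),
        pow_add L (4 * m) C, show 2 * (2 * m) = 4 * m by ring]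
      ring
    rw [e, div_div, div_le_div_iff₀ (by positivity) (by positivity)]
    calc J ^ 3 * (12 * Q * 4 ^ C * c * L ^ (4 * m + C + 1 + H)) * (L ^ A * 4)
        = J ^ 3 * ((48 * Q * 4 ^ C * c) * L ^ (4 * m + C + 1 + H + A)) := by
          rw [pow_add L (4 * m + C + 1 + H)]; ring
      _ ≤ J ^ 3 * (L * L ^ (4 * m + C + 1 + H + A)) := by gcongr
      _ = J ^ 3 * L ^ (1 + (4 * m + C + 1 + H + A)) := by rw [pow_add L 1, pow_one]
      _ ≤ J ^ 3 * L ^ (A + H + 4 * m + C + 10) :=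
          mul_le_mul_of_nonneg_left (hpow (by omega)) hJ3.le
  have t4 : Q * (L ^ 2) ^ (2 * m) * W ^ C * (I * ((12 * L ^ H * L ^ 2 / J) * S)) ≤
      J ^ 3 / L ^ A / 4 := by
    refine (hD _ (by positivity)).trans ?_
    have e : Q * (L ^ 2) ^ (2 * m) * (4 * L) ^ C * (6 * L * ((12 * L ^ H * L ^ 2 / J) *
        (J ^ 3 * c))) =
        (J ^ 3 * (72 * Q * 4 ^ C * c * L ^ (4 * m + C + 1 + H + 2))) / J := by
      rw [mul_pow, ← pow_mul, pow_add L (4 * m + C + 1 + H), pow_add L (4 * m + C + 1),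
        pow_add L (4 * m + C), pow_add L (4 * m) C, show 2 * (2 * m) = 4 * m by ring]
      ring
    rw [e, div_div, div_le_div_iff₀ (by positivity) (by positivity)]
    calc J ^ 3 * (72 * Q * 4 ^ C * c * L ^ (4 * m + C + 1 + H + 2)) * (L ^ A * 4)
        = J ^ 3 * ((288 * Q * 4 ^ C * c) * L ^ (4 * m + C + 1 + H + 2 + A)) := by
          rw [pow_add L (4 * m + C + 1 + H + 2)]; ring
      _ ≤ J ^ 3 * (L * L ^ (4 * m + C + 1 + H + 2 + A)) := by gcongr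
      _ = J ^ 3 * L ^ (1 + (4 * m + C + 1 + H + 2 + A)) := by rw [pow_add L 1, pow_one]
      _ ≤ J ^ 3 * L ^ (4 * m + C + H + A + 10) :=
          mul_le_mul_of_nonneg_left (hpow (by omega)) hJ3.le
      _ ≤ J ^ 3 * J := mul_le_mul_of_nonneg_left hJL hJ3.le
  have hsum : ((L ^ C0) ^ 3 / (L ^ E) ^ 2 + 11 / J) * ((L ^ 2) ^ m * S) +
      Q * (L ^ 2) ^ (2 * m) * W ^ C * (I * ((2 * L ^ H * (1 / L ^ (A + H + 4 * m + C + 10)) +
        12 * L ^ H * L ^ 2 / J) * S)) =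
      (L ^ C0) ^ 3 / (L ^ E) ^ 2 * ((L ^ 2) ^ m * S) + 11 / J * ((L ^ 2) ^ m * S) +
      Q * (L ^ 2) ^ (2 * m) * W ^ C * (I * ((2 * L ^ H *
        (1 / L ^ (A + H + 4 * m + C + 10))) * S)) +
      Q * (L ^ 2) ^ (2 * m) * W ^ C * (I * ((12 * L ^ H * L ^ 2 / J) * S)) := by ring
  rw [hsum]
  linarith

theorem bxs_ev (K : ℕ) (c : ℝ) : ∀ᶠ J : ℕ in atTop, 2 ≤ J ∧ c ≤ Real.log J ∧
    (Real.log J) ^ K ≤ (J : ℝ) := by
  have h1 : Tendsto (fun J : ℕ => Real.log (J : ℝ)) atTop atTop :=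
    Real.tendsto_log_atTop.comp tendsto_natCast_atTop_atTop
  have h2 : ∀ᶠ x : ℝ in atTop, (Real.log x) ^ K ≤ x := by
    have h3 := (isLittleO_log_rpow_rpow_atTop (K : ℝ) (zero_lt_one)).bound zero_lt_one
    filter_upwards [h3, eventually_ge_atTop (1 : ℝ)] with x h4 h5
    rw [Real.rpow_one, one_mul, Real.rpow_natCast,
      Real.norm_of_nonneg (pow_nonneg (Real.log_nonneg h5) K),
      Real.norm_of_nonneg (show (0 : ℝ) ≤ x by linarith)] at h4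
    exact h4
  filter_upwards [eventually_ge_atTop 2, h1.eventually_ge_atTop c,
    tendsto_natCast_atTop_atTop.eventually h2] with J a1 a2 a3
  exact ⟨a1, a2, a3⟩

theorem p_bxs : S_bxs := by
  intro hG m A H
  obtain ⟨C, hC1, hC⟩ := hG m
  refine ⟨A + H + 4 * m + C + 10, fun C0 => ⟨2 * C0 + A + 2 * m + 10, fun E hE => ?_⟩⟩
  obtain ⟨c, hc⟩ : ∃ c : ℝ, c = 2 ^ (2 * m + 5) := ⟨_, rfl⟩
  have hc1 : 1 ≤ c := by rw [hc]; exact one_le_pow₀ (by norm_num)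
  have hQ : (1 : ℝ) ≤ C := by exact_mod_cast hC1
  filter_upwards [bxs_ev (4 * m + C + H + A + 10 + E) (44 * c + 288 * C * 4 ^ C * c + 1 +
    Real.log c)] with J ⟨hJ2, hJc, hJL⟩ j N a l0 S1 S2 hj hB hl1 hl2 hdis huni hs1 hs2 hdp
  obtain ⟨L, hL⟩ : ∃ L : ℝ, L = Real.log J := ⟨_, rfl⟩
  rw [← hL] at hJc hJL hs1 hs2 hdp ⊢
  have hlc : 0 ≤ Real.log c := Real.log_nonneg hc1
  have hq0 : 0 ≤ 288 * (C : ℝ) * 4 ^ C * c := by positivity
  have hc0 : 0 ≤ 44 * c := by linarith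
  have hL1 : 1 ≤ L := by linarith
  have hL44 : 44 * c ≤ L := by linarith
  have hL288 : 288 * (C : ℝ) * 4 ^ C * c ≤ L := by linarith
  have hLlog : 1 + Real.log c ≤ L := by linarith
  have hL0 : 0 < L := by linarith
  have hJr : (2 : ℝ) ≤ J := by exact_mod_cast hJ2
  have hJ0 : (0 : ℝ) < J := by linarith
  have hJ1 : (1 : ℝ) ≤ J := by linarith
  have hJLa : L ^ (4 * m + C + H + A + 10) ≤ J :=
    (pow_le_pow_right₀ hL1 (by omega)).trans hJL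
  have hJLE : L ^ E ≤ J := (pow_le_pow_right₀ hL1 (by omega)).trans hJL
  have hI : (J : ℝ) ^ 3 ≤ 2 ^ ⌈5 * L⌉₊ := by
    have h1 : (2 : ℝ) ^ ⌈5 * L⌉₊ = Real.exp (Real.log 2 * (⌈5 * L⌉₊ : ℝ)) := by
      rw [Real.exp_mul, Real.exp_log (by norm_num), Real.rpow_natCast]
    have h2 : (J : ℝ) ^ 3 = Real.exp (3 * L) := by
      rw [hL, ← Real.exp_log hJ0]
      rw [Real.log_exp, ← Real.exp_nat_mul]
      norm_num
    rw [h1, h2, Real.exp_le_exp]
    have h3 : 5 * L ≤ (⌈5 * L⌉₊ : ℝ) := Nat.le_ceil _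
    have h4 : (0.6 : ℝ) ≤ Real.log 2 := by
      have := Real.log_two_gt_d9
      linarith
    calc 3 * L = 0.6 * (5 * L) := by ring
      _ ≤ Real.log 2 * (⌈5 * L⌉₊ : ℝ) := mul_le_mul h4 h3 (by linarith) (by linarith)
  have hIu : (⌈5 * L⌉₊ : ℝ) ≤ 6 * L := by
    have := (Nat.ceil_lt_add_one (show 0 ≤ 5 * L by linarith)).le
    linarith
  have hT0 : 1 ≤ L ^ C0 := one_le_pow₀ hL1
  have hprod : ∏ l, ((2 * N l : ℕ) : ℝ) ≤ c * (J : ℝ) ^ 3 := by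
    have h1 : ∏ l, ((2 * N l : ℕ) : ℝ) = 2 ^ m * ∏ l, (N l : ℝ) := by
      rw [Finset.prod_congr rfl (fun l _ => show ((2 * N l : ℕ) : ℝ) = 2 * (N l : ℝ) by
        push_cast; ring), Finset.prod_mul_distrib, Finset.prod_const, Finset.card_univ,
        Fintype.card_fin]
    rw [h1]
    calc 2 ^ m * ∏ l, (N l : ℝ) ≤ 2 ^ m * (2 ^ (m + 5) * (J : ℝ) ^ 3) :=
          mul_le_mul_of_nonneg_left hB.hi (by positivity)
      _ = c * (J : ℝ) ^ 3 := by rw [hc]; ring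
  have hNone : ∀ l, 1 ≤ 2 * N l := fun l => by have := hB.one l; omega
  have hprod1 : 1 ≤ ∏ l, ((2 * N l : ℕ) : ℝ) := by
    have h2 : 0 < ∏ l, (2 * N l) := Finset.prod_pos fun l _ => hNone l
    rw [← Nat.cast_prod]
    exact_mod_cast Nat.succ_le_of_lt h2
  obtain ⟨P1, hP1⟩ : ∃ P : ℝ, P = ∏ l ∈ S1, ((2 * N l : ℕ) : ℝ) := ⟨_, rfl⟩
  obtain ⟨P2, hP2⟩ : ∃ P : ℝ, P = ∏ l ∈ S2, ((2 * N l : ℕ) : ℝ) := ⟨_, rfl⟩
  have hP10 : 0 ≤ P1 := by rw [hP1]; exact Finset.prod_nonneg fun l _ => Nat.cast_nonneg _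
  have hP20 : 0 ≤ P2 := by rw [hP2]; exact Finset.prod_nonneg fun l _ => Nat.cast_nonneg _
  have hmono : ∀ S : Finset (Fin m), ∏ l ∈ S, (N l : ℝ) ≤ ∏ l ∈ S, ((2 * N l : ℕ) : ℝ) := by
    intro S
    refine Finset.prod_le_prod (fun l _ => Nat.cast_nonneg _) fun l _ => ?_
    exact_mod_cast (show N l ≤ 2 * N l by omega)
  have hLH : 1 ≤ L ^ H := one_le_pow₀ hL1
  have hLH0 : 0 ≤ L ^ H := by positivity
  have hx1 : (J : ℝ) ≤ L ^ H * P1 := by
    rw [hP1]; exact hs1.trans (mul_le_mul_of_nonneg_left (hmono S1) hLH0)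
  have hx2 : (J : ℝ) ≤ L ^ H * P2 := by
    rw [hP2]; exact hs2.trans (mul_le_mul_of_nonneg_left (hmono S2) hLH0)
  have hsplit : ∏ l, ((2 * N l : ℕ) : ℝ) = 2 * (N l0 : ℝ) * P1 * P2 := by
    rw [← huni, Finset.prod_insert (by
      rw [Finset.mem_union]; rintro (h | h)
      · exact hl1 h
      · exact hl2 h), Finset.prod_union hdis, hP1, hP2]
    push_cast
    ring
  have hnP : (N l0 : ℝ) * P1 * P2 ≤ ∏ l, ((2 * N l : ℕ) : ℝ) := by
    rw [hsplit]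
    have : 0 ≤ (N l0 : ℝ) * P1 * P2 := by positivity
    nlinarith
  have hlogP : 1 + Real.log (∏ l, ((2 * N l : ℕ) : ℝ)) ≤ 4 * L := by
    have h1 : Real.log (∏ l, ((2 * N l : ℕ) : ℝ)) ≤ Real.log (c * (J : ℝ) ^ 3) :=
      Real.log_le_log (by linarith) hprod
    rw [Real.log_mul (by linarith) (by positivity), Real.log_pow,
      show ((3 : ℕ) : ℝ) = 3 by norm_num, ← hL] at h1
    linarith
  have hlogP0 : 0 ≤ 1 + Real.log (∏ l, ((2 * N l : ℕ) : ℝ)) := by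
    have := Real.log_nonneg hprod1
    linarith
  have hA'0 : 0 ≤ 1 / L ^ (A + H + 4 * m + C + 10) := by positivity
  have key := hC J j ⌈5 * L⌉₊ (L ^ E) (L ^ C0) (L ^ 2) (fun l => 2 * N l) a l0 S1 S2
    (fun i => if 2 * (2 ^ i * L ^ C0) ≤ (J : ℝ) ^ 2 then
      (N l0 : ℝ) * (1 / L ^ (A + H + 4 * m + C + 10)) else 2 * (N l0 : ℝ) * L ^ 2)
    hJ2 hj hT0 (one_le_pow₀ hL1) (by linarith) (one_le_pow₀ hL1)
    (hI.trans (le_mul_of_one_le_right (by positivity) hT0)) hNone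
    (fun l n => by have := hB.bd l n; rwa [← hL] at this) hl1 hl2 hdis huni (by
      intro i _ θ hθ1 hθ2
      show ‖dp (a l0) (2 * N l0) θ‖ ≤ if 2 * (2 ^ i * L ^ C0) ≤ (J : ℝ) ^ 2 then
        (N l0 : ℝ) * (1 / L ^ (A + H + 4 * m + C + 10)) else 2 * (N l0 : ℝ) * L ^ 2
      split_ifs with h
      · rw [mul_one_div]
        refine hdp θ ?_ (hθ2.trans h)
        refine le_trans ?_ hθ1
        exact le_mul_of_one_le_left (by positivity) (one_le_pow₀ (by norm_num))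
      · have h1 := bxs_dp (a := a l0) (G := L ^ 2)
          (fun n => by have := hB.bd l0 n; rwa [← hL] at this) (2 * N l0) θ
        push_cast at h1
        exact h1)
  refine key.trans ?_
  have hterm : ∀ i ∈ range ⌈5 * L⌉₊, min 1 ((J : ℝ) ^ 2 / (2 ^ i * L ^ C0) ^ 2) *
      (if 2 * (2 ^ i * L ^ C0) ≤ (J : ℝ) ^ 2 then
        (N l0 : ℝ) * (1 / L ^ (A + H + 4 * m + C + 10)) else 2 * (N l0 : ℝ) * L ^ 2) *
      Real.sqrt (((2 ^ i * L ^ C0 + P1) * P1) * ((2 ^ i * L ^ C0 + P2) * P2)) ≤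
      (2 * L ^ H * (1 / L ^ (A + H + 4 * m + C + 10)) + 12 * L ^ H * L ^ 2 / J) *
        ∏ l, ((2 * N l : ℕ) : ℝ) := by
    intro i _
    have hTi : 1 ≤ 2 ^ i * L ^ C0 := by
      have h1 : (1 : ℝ) ≤ 2 ^ i := one_le_pow₀ (by norm_num)
      nlinarith
    refine (bxs_term hTi hJ1 hLH hP10 hP20 hx1 hx2 (Nat.cast_nonneg _) hA'0
      (by positivity)).trans ?_
    exact mul_le_mul_of_nonneg_left hnP (by positivity)
  have hsum := Finset.sum_le_sum hterm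
  rw [Finset.sum_const, Finset.card_range, nsmul_eq_mul] at hsum
  rw [hP1, hP2] at hsum
  have hfin := bxs_alg (L := L) (J := J) (c := c) (Q := C) (I := (⌈5 * L⌉₊ : ℝ))
    (W := 1 + Real.log (∏ l, ((2 * N l : ℕ) : ℝ))) (S := ∏ l, ((2 * N l : ℕ) : ℝ))
    (m := m) (A := A) (H := H) (C := C) (C0 := C0) (E := E) hL1 hJ0 hc1 hE (by linarith) hL44
    (by linarith) hL288 hQ hJLa (Nat.cast_nonneg _) hIu hlogP0 hlogP (by linarith) hprod
  refine le_trans ?_ hfin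
  refine add_le_add le_rfl ?_
  exact mul_le_mul_of_nonneg_left hsum (by positivity)

end Pool.Agent.CA.SC
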