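import Pool.Agent.Lib.MP_d610d0_nt.CA.SC.Stm2

set_option autoImplicit false

/-!
Piece cv: from products of arithmetic functions to sums over tuples.
-/

namespace Pool.Agent.CA.SC

open Finset Filter

theorem cv_mul (g h : ArithmeticFunction ℂ) (M X : ℕ) (w : ℕ → ℂ)
    (hg : ∀ n, M < n → g n = 0) (hw : ∀ n, X < n → w n = 0) :
    ∑ n ∈ Icc 1 X, (g * h) n * w n =
      ∑ m ∈ Icc 1 M, g m * ∑ n ∈ Icc 1 X, h n * w (m * n) := by
  have hR : ∑ m ∈ Icc 1 M, g m * ∑ n ∈ Icc 1 X, h n * w (m * n) =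
      ∑ x ∈ Icc 1 M ×ˢ Icc 1 X, g x.1 * h x.2 * w (x.1 * x.2) := by
    rw [Finset.sum_product]
    refine Finset.sum_congr rfl fun m _ => ?_
    rw [Finset.mul_sum]
    exact Finset.sum_congr rfl fun n _ => by ring
  have hR2 : ∑ x ∈ Icc 1 M ×ˢ Icc 1 X, g x.1 * h x.2 * w (x.1 * x.2) =
      ∑ x ∈ (Icc 1 M ×ˢ Icc 1 X).filter (fun x => x.1 * x.2 ≤ X),
        g x.1 * h x.2 * w (x.1 * x.2) := by
    symm
    apply Finset.sum_subset (Finset.filter_subset _ _)
    intro x hx hx'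
    have h1 : X < x.1 * x.2 := by
      by_contra h2
      exact hx' (Finset.mem_filter.2 ⟨hx, not_lt.1 h2⟩)
    rw [hw _ h1, mul_zero]
  have hmap : ∀ x ∈ (Icc 1 M ×ˢ Icc 1 X).filter (fun x => x.1 * x.2 ≤ X),
      x.1 * x.2 ∈ Icc 1 X := by
    intro x hx
    rw [Finset.mem_filter, Finset.mem_product, Finset.mem_Icc, Finset.mem_Icc] at hx
    rw [Finset.mem_Icc]
    exact ⟨Nat.mul_pos hx.1.1.1 hx.1.2.1, hx.2⟩
  rw [hR, hR2, ← Finset.sum_fiberwise_of_maps_to hmap]
  apply Finset.sum_congr rfl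
  intro n hn
  rw [Finset.mem_Icc] at hn
  rw [ArithmeticFunction.mul_apply, Finset.sum_mul]
  symm
  apply Finset.sum_subset_zero_on_sdiff
  · intro x hx
    rw [Finset.mem_filter, Finset.mem_filter] at hx
    rw [Nat.mem_divisorsAntidiagonal]
    exact ⟨hx.2, by omega⟩
  · intro x hx
    rw [Finset.mem_sdiff, Nat.mem_divisorsAntidiagonal] at hx
    obtain ⟨⟨hx1, hx2⟩, hx3⟩ := hx
    by_cases h1 : g x.1 = 0
    · rw [h1, zero_mul, zero_mul]
    exfalso
    apply hx3
    have h3 : x.1 ≠ 0 := by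
      intro h0; rw [h0, zero_mul] at hx1; exact hx2 hx1.symm
    have h4 : x.2 ≠ 0 := by
      intro h0; rw [h0, mul_zero] at hx1; exact hx2 hx1.symm
    have h5 : x.2 ≤ X := by
      refine le_trans ?_ (hx1.le.trans hn.2)
      exact Nat.le_mul_of_pos_left _ (Nat.pos_of_ne_zero h3)
    have h6 : x.1 ≤ M := by
      by_contra h7
      exact h1 (hg _ (not_le.1 h7))
    rw [Finset.mem_filter, Finset.mem_filter, Finset.mem_product, Finset.mem_Icc, Finset.mem_Icc]
    exact ⟨⟨⟨⟨Nat.pos_of_ne_zero h3, h6⟩, ⟨Nat.pos_of_ne_zero h4, h5⟩⟩,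
      by rw [hx1]; exact hn.2⟩, hx1⟩
  · intro x hx
    rw [Finset.mem_filter] at hx
    rw [hx.2]

theorem cv_split {m : ℕ} (S : Fin (m + 1) → Finset ℕ) (F : (Fin (m + 1) → ℕ) → ℂ) :
    ∑ n ∈ Fintype.piFinset S, F n =
      ∑ a ∈ S 0, ∑ n ∈ Fintype.piFinset (fun l : Fin m => S l.succ), F (Fin.cons a n) := by
  rw [← Finset.sum_product' (S 0) (Fintype.piFinset (fun l : Fin m => S l.succ))
    (fun a n => F (Fin.cons a n : Fin (m + 1) → ℕ))]
  refine Finset.sum_bij' (fun n _ => (n 0, fun l : Fin m => n l.succ))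
    (fun x _ => (Fin.cons x.1 x.2 : Fin (m + 1) → ℕ)) ?_ ?_ ?_ ?_ ?_
  · intro n hn
    rw [Fintype.mem_piFinset] at hn
    rw [Finset.mem_product, Fintype.mem_piFinset]
    exact ⟨hn 0, fun l => hn l.succ⟩
  · intro x hx
    rw [Finset.mem_product, Fintype.mem_piFinset] at hx
    rw [Fintype.mem_piFinset]
    intro l
    refine Fin.cases ?_ (fun l => ?_) l
    · simpa using hx.1
    · simpa using hx.2 l
  · intro n _
    funext l
    refine Fin.cases ?_ (fun l => ?_) l
    · simp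
    · simp
  · intro x _
    rcases x with ⟨a, b⟩
    simp
  · intro n _
    congr 1
    funext l
    refine Fin.cases ?_ (fun l => ?_) l
    · simp
    · simp

theorem p_cv : S_cv := by
  intro m
  induction m with
  | zero =>
    intro f M X w hf hw
    unfold TS
    have h1 : (∏ l, f l : ArithmeticFunction ℂ) = 1 := by simp
    rw [h1]
    have h2 : ∑ n ∈ Fintype.piFinset (fun l => Icc 1 (M l)),
        (∏ l, (fun l n => f l n) l (n l)) * w (∏ l, n l) = w 1 := by
      simp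
    rw [h2]
    rcases Nat.eq_zero_or_pos X with hX | hX
    · subst hX
      simp [hw 1 (by norm_num)]
    · rw [Finset.sum_eq_single 1]
      · simp
      · intro b _ hb
        rw [ArithmeticFunction.one_apply_ne hb, zero_mul]
      · intro h
        exfalso
        exact h (Finset.mem_Icc.2 ⟨le_refl _, hX⟩)
  | succ m ih =>
    intro f M X w hf hw
    rw [Fin.prod_univ_succ, cv_mul (f 0) (∏ l : Fin m, f l.succ) (M 0) X w (hf 0) hw]
    unfold TS
    rw [cv_split]
    refine Finset.sum_congr rfl fun a ha => ?_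
    have ha1 : 1 ≤ a := (Finset.mem_Icc.1 ha).1
    have h1 := ih (fun l => f l.succ) (fun l => M l.succ) X (fun n => w (a * n))
      (fun l n h => hf l.succ n h) (fun n h => hw _ (lt_of_lt_of_le h (Nat.le_mul_of_pos_left _ ha1)))
    rw [h1]
    unfold TS
    rw [Finset.mul_sum]
    refine Finset.sum_congr rfl fun t _ => ?_
    rw [Fin.prod_univ_succ, Fin.prod_univ_succ]
    simp only [Fin.cons_zero, Fin.cons_succ]
    ring

end Pool.Agent.CA.SC
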