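import Pool.Agent.Lib.MP_d610d0_nt.CA.SC.Stm2

set_option autoImplicit false

/-!
Piece dec: Heath-Brown's decomposition.
-/

namespace Pool.Agent.CA.SC

open Finset Filter
open ArithmeticFunction (vonMangoldt moebius)
open Pool.Agent.CA (Sb Mb Wd Vs)

/-- a constant times the unit -/
noncomputable def dec_c (c : ℂ) : ArithmeticFunction ℂ := ⟨fun n => if n = 1 then c else 0, by simp⟩

lemma dec_c_mul (c : ℂ) (f : ArithmeticFunction ℂ) (n : ℕ) : (dec_c c * f) n = c * f n := by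
  rcases Nat.eq_zero_or_pos n with h | h
  · subst h
    simp
  · rw [ArithmeticFunction.mul_apply, Finset.sum_eq_single (1, n)]
    · simp [dec_c]
    · rintro ⟨a, b⟩ hab hne
      rw [Nat.mem_divisorsAntidiagonal] at hab
      have h1 : a ≠ 1 := by
        rintro rfl
        apply hne
        rw [← hab.1]
        simp
      simp [dec_c, h1]
    · intro hn
      exfalso
      apply hn
      rw [Nat.mem_divisorsAntidiagonal]
      exact ⟨one_mul n, by omega⟩

lemma dec_c_one : dec_c 1 = 1 := by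
  ext n
  rw [← mul_one (dec_c 1), dec_c_mul, one_mul]

lemma dec_c_mul' (a b : ℂ) : dec_c a * dec_c b = dec_c (a * b) := by
  ext n
  rw [dec_c_mul]
  simp only [dec_c, ArithmeticFunction.coe_mk]
  split_ifs <;> simp

lemma dec_c_prod {ι : Type*} (s : Finset ι) (c : ι → ℂ) :
    ∏ l ∈ s, dec_c (c l) = dec_c (∏ l ∈ s, c l) := by
  classical
  induction s using Finset.induction_on with
  | empty => simp [dec_c_one]
  | insert a s ha ih => rw [prod_insert ha, prod_insert ha, ih, dec_c_mul']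

lemma dec_loc_mul {X : ℕ} {F F' G G' : ArithmeticFunction ℂ} (h1 : ∀ n ≤ X, F n = F' n)
    (h2 : ∀ n ≤ X, G n = G' n) : ∀ n ≤ X, (F * G) n = (F' * G') n := by
  intro n hn
  rw [ArithmeticFunction.mul_apply, ArithmeticFunction.mul_apply]
  refine sum_congr rfl fun x hx => ?_
  have h3 : x.1 ≤ n := Nat.divisor_le (Nat.fst_mem_divisors_of_mem_antidiagonal hx)
  have h4 : x.2 ≤ n := Nat.divisor_le (Nat.snd_mem_divisors_of_mem_antidiagonal hx)
  rw [h1 _ (h3.trans hn), h2 _ (h4.trans hn)]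

lemma dec_loc_prod {X : ℕ} {ι : Type*} (s : Finset ι) (F F' : ι → ArithmeticFunction ℂ)
    (h : ∀ l, ∀ n ≤ X, F l n = F' l n) : ∀ n ≤ X, (∏ l ∈ s, F l) n = (∏ l ∈ s, F' l) n := by
  classical
  induction s using Finset.induction_on with
  | empty => intro n _; simp
  | insert a s ha ih =>
    rw [prod_insert ha, prod_insert ha]
    exact dec_loc_mul (h a) ih

lemma dec_supp {ι : Type*} (s : Finset ι) (f : ι → ArithmeticFunction ℂ) (N : ι → ℕ)
    (h : ∀ l n, f l n ≠ 0 → N l ≤ 2 * n) :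
    ∀ n, (∏ l ∈ s, f l) n ≠ 0 → ∏ l ∈ s, N l ≤ 2 ^ s.card * n := by
  classical
  induction s using Finset.induction_on with
  | empty =>
    intro n hn
    rw [prod_empty] at hn
    have : n = 1 := by
      by_contra h1
      exact hn (ArithmeticFunction.one_apply_ne h1)
    simp [this]
  | insert a s ha ih =>
    intro n hn
    rw [prod_insert ha, ArithmeticFunction.mul_apply] at hn
    obtain ⟨x, hx, hx0⟩ := Finset.exists_ne_zero_of_sum_ne_zero hn
    rw [Nat.mem_divisorsAntidiagonal] at hx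
    have h1 := h a x.1 (left_ne_zero_of_mul hx0)
    have h2 := ih x.2 (right_ne_zero_of_mul hx0)
    rw [prod_insert ha, card_insert_of_notMem ha, ← hx.1]
    calc N a * ∏ l ∈ s, N l ≤ (2 * x.1) * (2 ^ s.card * x.2) := Nat.mul_le_mul h1 h2
      _ = 2 ^ (s.card + 1) * (x.1 * x.2) := by ring

/-- `F` is a short combination of blocks up to `X`. -/
def dec_P (F : ArithmeticFunction ℂ) (X Z K0 : ℕ) : Prop :=
  ∃ (c : Fin 2 × ℕ → ℂ) (g : Fin 2 × ℕ → ArithmeticFunction ℂ) (e : Fin 2 × ℕ → ℕ),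
    (∀ i, i.2 ≤ K0 → ‖c i‖ ≤ K0) ∧
    (∀ i, Sb (g i) (((2 ^ e i : ℕ) : ℕ) : ℝ) ∨ (Mb (g i) (((2 ^ e i : ℕ) : ℕ) : ℝ) ∧
      (((2 ^ e i : ℕ) : ℕ) : ℝ) ≤ 2 * (Z : ℝ))) ∧
    (∀ i n, g i n ≠ 0 → 2 ^ e i ≤ 2 * n) ∧
    ∀ n, n ≤ X → F n = ∑ i ∈ (univ : Finset (Fin 2)) ×ˢ range (K0 + 1), c i * g i n

lemma dec_main {m : ℕ} (F : Fin m → ArithmeticFunction ℂ) (X Z K0 : ℕ)
    (hF : ∀ l, dec_P (F l) X Z K0) (ι : Type) (P : Finset ι) (w : ι → ℕ → ℂ) (K : ℝ) (hK : 0 ≤ K)
    (hyp : ∀ (f : Fin m → ArithmeticFunction ℂ) (N : Fin m → ℕ),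
      (∀ i, ∃ s : ℕ, N i = 2 ^ s) →
      (∀ i, Sb (f i) (N i) ∨ (Mb (f i) (N i) ∧ (N i : ℝ) ≤ 2 * (Z : ℝ))) →
      ∏ i, (N i : ℝ) ≤ 2 ^ m * (X : ℝ) →
      ∑ p ∈ P, ‖∑ n ∈ Icc 1 X, (∏ i, f i) n * w p n‖ ≤ K) :
    ∑ p ∈ P, ‖∑ n ∈ Icc 1 X, (∏ i, F i) n * w p n‖ ≤
      (2 * ((K0 : ℝ) + 1)) ^ m * (K0 : ℝ) ^ m * K := by
  classical
  choose c g e hc hg hsp hval using hF
  set T : Finset (Fin 2 × ℕ) := (univ : Finset (Fin 2)) ×ˢ range (K0 + 1) with hT
  set Φ : Finset (Fin m → Fin 2 × ℕ) := Fintype.piFinset (fun _ => T) with hΦ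
  have hexp : ∀ n ≤ X, (∏ i, F i) n = ∑ φ ∈ Φ, (∏ l, c l (φ l)) * (∏ l, g l (φ l)) n := by
    intro n hn
    have h1 : ∀ l, ∀ n ≤ X, F l n = (∑ i ∈ T, dec_c (c l i) * g l i) n := by
      intro l n hn
      rw [hval l n hn]
      have : (∑ i ∈ T, dec_c (c l i) * g l i) n = ∑ i ∈ T, (dec_c (c l i) * g l i) n := by
        induction T using Finset.induction_on with
        | empty => simp
        | insert a s ha ih => rw [sum_insert ha, sum_insert ha, ArithmeticFunction.add_apply, ih]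
      rw [this]
      exact sum_congr rfl fun i _ => (dec_c_mul _ _ _).symm
    rw [dec_loc_prod univ F _ h1 n hn, Finset.prod_univ_sum]
    have : ∀ S : Finset (Fin m → Fin 2 × ℕ), (∑ φ ∈ S, ∏ l, (dec_c (c l (φ l)) * g l (φ l))) n =
        ∑ φ ∈ S, (∏ l, (dec_c (c l (φ l)) * g l (φ l))) n := by
      intro S
      induction S using Finset.induction_on with
      | empty => simp
      | insert a s ha ih => rw [sum_insert ha, sum_insert ha, ArithmeticFunction.add_apply, ih]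
    rw [this]
    refine sum_congr rfl fun φ _ => ?_
    rw [prod_mul_distrib, dec_c_prod, dec_c_mul]
  have hone : ∀ φ ∈ Φ, ∑ p ∈ P, ‖∑ n ∈ Icc 1 X, (∏ l, g l (φ l)) n * w p n‖ ≤ K := by
    intro φ _
    by_cases h : ∏ l, (((2 ^ e l (φ l) : ℕ) : ℕ) : ℝ) ≤ 2 ^ m * (X : ℝ)
    · exact hyp (fun l => g l (φ l)) (fun l => 2 ^ e l (φ l)) (fun l => ⟨_, rfl⟩)
        (fun l => hg l (φ l)) h
    · have h0 : ∀ p ∈ P, ‖∑ n ∈ Icc 1 X, (∏ l, g l (φ l)) n * w p n‖ = 0 := by
        intro p _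
        rw [norm_eq_zero]
        refine sum_eq_zero fun n hn => ?_
        rw [mem_Icc] at hn
        by_contra hne
        have h1 := dec_supp univ (fun l => g l (φ l)) (fun l => 2 ^ e l (φ l))
          (fun l n hn => hsp l (φ l) n hn) n (left_ne_zero_of_mul hne)
        apply h
        rw [card_univ, Fintype.card_fin] at h1
        have h2 : ((∏ l, 2 ^ e l (φ l) : ℕ) : ℝ) ≤ ((2 ^ m * n : ℕ) : ℝ) := by exact_mod_cast h1
        rw [Nat.cast_prod] at h2
        refine h2.trans ?_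
        push_cast
        have : (n : ℝ) ≤ X := by exact_mod_cast hn.2
        exact mul_le_mul_of_nonneg_left this (by positivity)
      rw [sum_eq_zero h0]
      exact hK
  have hcp : ∀ φ ∈ Φ, ‖∏ l, c l (φ l)‖ ≤ (K0 : ℝ) ^ m := by
    intro φ hφ
    rw [hΦ, Fintype.mem_piFinset] at hφ
    rw [norm_prod]
    calc ∏ l, ‖c l (φ l)‖ ≤ ∏ _l : Fin m, (K0 : ℝ) := by
          apply prod_le_prod (fun _ _ => norm_nonneg _)
          intro l _
          have := hφ l
          rw [hT, mem_product, mem_range] at this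
          exact hc l (φ l) (by omega)
      _ = (K0 : ℝ) ^ m := by simp
  have hcard : (Φ.card : ℝ) = (2 * ((K0 : ℝ) + 1)) ^ m := by
    rw [hΦ, Fintype.card_piFinset, hT]
    simp [card_product]
  calc ∑ p ∈ P, ‖∑ n ∈ Icc 1 X, (∏ i, F i) n * w p n‖
      ≤ ∑ p ∈ P, ∑ φ ∈ Φ, (K0 : ℝ) ^ m * ‖∑ n ∈ Icc 1 X, (∏ l, g l (φ l)) n * w p n‖ := by
        refine sum_le_sum fun p _ => ?_
        have h1 : ∑ n ∈ Icc 1 X, (∏ i, F i) n * w p n =
            ∑ φ ∈ Φ, (∏ l, c l (φ l)) * ∑ n ∈ Icc 1 X, (∏ l, g l (φ l)) n * w p n := by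
          rw [sum_congr rfl fun n hn => by rw [hexp n (mem_Icc.1 hn).2, sum_mul]]
          rw [sum_comm]
          refine sum_congr rfl fun φ _ => ?_
          rw [mul_sum]
          exact sum_congr rfl fun n _ => by ring
        rw [h1]
        refine (norm_sum_le _ _).trans (sum_le_sum fun φ hφ => ?_)
        rw [norm_mul]
        exact mul_le_mul_of_nonneg_right (hcp φ hφ) (norm_nonneg _)
    _ = ∑ φ ∈ Φ, (K0 : ℝ) ^ m * ∑ p ∈ P, ‖∑ n ∈ Icc 1 X, (∏ l, g l (φ l)) n * w p n‖ := by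
        rw [sum_comm]
        exact sum_congr rfl fun φ _ => by rw [mul_sum]
    _ ≤ ∑ φ ∈ Φ, (K0 : ℝ) ^ m * K :=
        sum_le_sum fun φ hφ => mul_le_mul_of_nonneg_left (hone φ hφ) (by positivity)
    _ = (2 * ((K0 : ℝ) + 1)) ^ m * (K0 : ℝ) ^ m * K := by
        rw [sum_const, nsmul_eq_mul, hcard]
        ring

/-! ### the four factors -/

lemma dec_Mb_one : Mb (1 : ArithmeticFunction ℂ) (((2 ^ 0 : ℕ) : ℕ) : ℝ) := by
  refine ⟨by norm_num, 0, 1, by norm_num, by norm_num, fun n => ?_⟩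
  by_cases h : n = 1
  · subst h
    simp
  · rw [ArithmeticFunction.one_apply_ne h, if_neg (by omega)]

lemma dec_P_one {X Z K0 : ℕ} (hZ : 1 ≤ Z) (hK : 1 ≤ K0) : dec_P 1 X Z K0 := by
  have hK' : (1 : ℝ) ≤ K0 := by exact_mod_cast hK
  have hZ' : (1 : ℝ) ≤ Z := by exact_mod_cast hZ
  refine ⟨fun i => if i = (0, 0) then 1 else 0, fun _ => 1, fun _ => 0, fun i _ => ?_,
    fun i => Or.inr ⟨dec_Mb_one, ?_⟩, fun i n hn => ?_, fun n _ => ?_⟩
  · dsimp only
    split_ifs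
    · simpa using hK'
    · simp
  · push_cast
    linarith
  · have : n = 1 := by
      by_contra h
      exact hn (ArithmeticFunction.one_apply_ne h)
    simp [this]
  · rw [Finset.sum_eq_single (0, 0)]
    · simp
    · intro b _ hb
      simp [hb]
    · intro h
      simp at h

/-- smooth blocks -/
noncomputable def dec_sb (i : Fin 2) (s : ℕ) : ArithmeticFunction ℂ :=
  ⟨fun n => if n = 0 then 0 else ((Vs i ((n : ℝ) / 2 ^ s) : ℝ) : ℂ), by simp⟩

lemma dec_sb_Sb (i : Fin 2) (s : ℕ) : Sb (dec_sb i s) (((2 ^ s : ℕ) : ℕ) : ℝ) := by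
  refine ⟨?_, i, fun n hn => ?_⟩
  · exact_mod_cast Nat.one_le_two_pow
  · simp only [dec_sb, ArithmeticFunction.coe_mk]
    rw [if_neg (by omega)]
    push_cast
    rfl

lemma dec_sb_supp (hWd : R_Wd) (i : Fin 2) (s n : ℕ) (h : dec_sb i s n ≠ 0) : 2 ^ s ≤ 2 * n := by
  obtain ⟨G, _, h0, h1, _, _⟩ := hWd
  simp only [dec_sb, ArithmeticFunction.coe_mk] at h
  have hn : n ≠ 0 := by
    rintro rfl
    simp at h
  rw [if_neg hn] at h
  have h2 : Vs i ((n : ℝ) / 2 ^ s) ≠ 0 := by exact_mod_cast h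
  have h3 : 1 / 2 ≤ (n : ℝ) / 2 ^ s := by
    fin_cases i
    · exact (h0.supp _ h2).1
    · exact (h1.supp _ h2).1
  rw [le_div_iff₀ (by positivity)] at h3
  have h4 : (2 : ℝ) ^ s ≤ 2 * n := by linarith
  exact_mod_cast h4

lemma dec_sb_sum (hWd : R_Wd) {n K0 : ℕ} (hn : 1 ≤ n) (hnK : n ≤ 2 ^ K0) :
    ∑ s ∈ range (K0 + 1), dec_sb 0 s n = 1 := by
  obtain ⟨G, _, _, _, _, h⟩ := hWd
  have h1 := h K0 n (by exact_mod_cast hn) (by exact_mod_cast hnK)
  have h2 : ∑ s ∈ range (K0 + 1), dec_sb 0 s n =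
      ((∑ s ∈ range (K0 + 1), Wd ((n : ℝ) / 2 ^ s) : ℝ) : ℂ) := by
    rw [Complex.ofReal_sum]
    refine sum_congr rfl fun s _ => ?_
    simp only [dec_sb, ArithmeticFunction.coe_mk]
    rw [if_neg (by omega)]
    simp [Vs]
  rw [h2, h1, Complex.ofReal_one]

lemma dec_P_zeta (hWd : R_Wd) {X Z K0 : ℕ} (hK : 1 ≤ K0) (hX : X ≤ 2 ^ K0) :
    dec_P (ArithmeticFunction.zeta : ArithmeticFunction ℂ) X Z K0 := by
  have hK' : (1 : ℝ) ≤ K0 := by exact_mod_cast hK
  refine ⟨fun i => if i.1 = 0 then 1 else 0, fun i => dec_sb 0 i.2, fun i => i.2, fun i _ => ?_,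
    fun i => Or.inl (dec_sb_Sb 0 i.2), fun i n hn => dec_sb_supp hWd 0 i.2 n hn, fun n hn => ?_⟩
  · dsimp only
    split_ifs
    · simpa using hK'
    · simp
  · rw [sum_product, Fin.sum_univ_two]
    simp only [if_true, one_mul, one_ne_zero, if_false, zero_mul, sum_const_zero, add_zero]
    rcases Nat.eq_zero_or_pos n with h | h
    · subst h
      simp
    · rw [dec_sb_sum hWd h (hn.trans hX)]
      simp [ArithmeticFunction.zeta_apply, h.ne']

lemma dec_P_lg (hWd : R_Wd) {X Z K0 : ℕ} (hK : 1 ≤ K0) (hX : X ≤ 2 ^ K0) :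
    dec_P lgC X Z K0 := by
  have hK' : (1 : ℝ) ≤ K0 := by exact_mod_cast hK
  refine ⟨fun i => if i.1 = 0 then (((i.2 : ℝ) * Real.log 2 : ℝ) : ℂ) else 1,
    fun i => dec_sb i.1 i.2, fun i => i.2, fun i hi => ?_,
    fun i => Or.inl (dec_sb_Sb i.1 i.2), fun i n hn => dec_sb_supp hWd i.1 i.2 n hn, fun n hn => ?_⟩
  · dsimp only
    split_ifs
    · rw [Complex.norm_real, Real.norm_of_nonneg (by positivity)]
      have h1 : (i.2 : ℝ) ≤ K0 := by exact_mod_cast hi
      have h2 : Real.log 2 ≤ 1 := by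
        have := Real.log_two_lt_d9
        linarith
      calc (i.2 : ℝ) * Real.log 2 ≤ i.2 * 1 := mul_le_mul_of_nonneg_left h2 (Nat.cast_nonneg _)
        _ ≤ K0 := by linarith
    · simpa using hK'
  · rw [sum_product, Fin.sum_univ_two]
    simp only [if_true, one_mul, one_ne_zero, if_false]
    rcases Nat.eq_zero_or_pos n with h | h
    · subst h
      simp
    · have hn0 : (0 : ℝ) < n := by exact_mod_cast h
      rw [← sum_add_distrib]
      have h1 : ∀ s ∈ range (K0 + 1), (((s : ℝ) * Real.log 2 : ℝ) : ℂ) * dec_sb 0 s n + dec_sb 1 s n =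
          ((Real.log n : ℝ) : ℂ) * dec_sb 0 s n := by
        intro s _
        simp only [dec_sb, ArithmeticFunction.coe_mk]
        rw [if_neg (by omega), if_neg (by omega)]
        have h2 : Vs 1 ((n : ℝ) / 2 ^ s) = Vs 0 ((n : ℝ) / 2 ^ s) * (Real.log n - s * Real.log 2) := by
          have h3 : Real.log ((n : ℝ) / 2 ^ s) = Real.log n - s * Real.log 2 := by
            rw [Real.log_div (by positivity) (by positivity), Real.log_pow]
          simp only [Vs, if_true, one_ne_zero, if_false, h3]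
        rw [h2]
        push_cast
        ring
      rw [sum_congr rfl h1, ← mul_sum, dec_sb_sum hWd h (hn.trans hX), mul_one]
      rfl

/-- the Moebius blocks -/
noncomputable def dec_mb (Z s : ℕ) : ArithmeticFunction ℂ :=
  ⟨fun n => if 2 ^ s / 2 < n ∧ n ≤ min (2 ^ s) Z then ((moebius n : ℤ) : ℂ) else 0, by simp⟩

lemma dec_mb_Mb (Z s : ℕ) : Mb (dec_mb Z s) (((2 ^ s : ℕ) : ℕ) : ℝ) := by
  refine ⟨?_, 2 ^ s / 2, min (2 ^ s) Z, ?_, ?_, fun n => rfl⟩
  · exact_mod_cast Nat.one_le_two_pow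
  · have : 2 ^ s ≤ 2 * (2 ^ s / 2 + 1) := by omega
    exact_mod_cast this
  · exact_mod_cast min_le_left _ _

lemma dec_P_mu {X Z K0 : ℕ} (hZ : 1 ≤ Z) (hK : 1 ≤ K0) (hX : X ≤ 2 ^ K0) :
    dec_P (muU Z) X Z K0 := by
  have hK' : (1 : ℝ) ≤ K0 := by exact_mod_cast hK
  have hZ' : (1 : ℝ) ≤ Z := by exact_mod_cast hZ
  refine ⟨fun i => if i.1 = 0 ∧ 2 ^ i.2 ≤ 2 * Z then 1 else 0,
    fun i => if 2 ^ i.2 ≤ 2 * Z then dec_mb Z i.2 else 1,
    fun i => if 2 ^ i.2 ≤ 2 * Z then i.2 else 0, fun i _ => ?_, fun i => ?_, fun i n hn => ?_,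
    fun n hn => ?_⟩
  · dsimp only
    split_ifs
    · simpa using hK'
    · simp
  · dsimp only
    split_ifs with h
    · exact Or.inr ⟨dec_mb_Mb Z i.2, by exact_mod_cast h⟩
    · refine Or.inr ⟨dec_Mb_one, ?_⟩
      push_cast
      linarith
  · dsimp only at hn ⊢
    split_ifs at hn ⊢ with h
    · simp only [dec_mb, ArithmeticFunction.coe_mk] at hn
      by_contra h1
      rw [if_neg (by omega)] at hn
      exact hn rfl
    · have : n = 1 := by
        by_contra h1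
        exact hn (ArithmeticFunction.one_apply_ne h1)
      simp [this]
  · rw [sum_product, Fin.sum_univ_two]
    simp only [true_and, one_ne_zero, false_and, if_false, zero_mul, sum_const_zero, add_zero]
    have e1 : ∀ s ∈ range (K0 + 1), ((if 2 ^ s ≤ 2 * Z then (1 : ℂ) else 0) *
        (if 2 ^ s ≤ 2 * Z then dec_mb Z s else 1) n) =
        if 2 ^ s ≤ 2 * Z ∧ 2 ^ s / 2 < n ∧ n ≤ min (2 ^ s) Z then ((moebius n : ℤ) : ℂ) else 0 := by
      intro s _
      by_cases h : 2 ^ s ≤ 2 * Z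
      · simp only [h, if_true, one_mul, true_and]
        rfl
      · simp only [h, if_false, zero_mul, false_and]
    rw [sum_congr rfl e1]
    rcases Nat.eq_zero_or_pos n with h | h
    · subst h
      simp
    · by_cases hnZ : n ≤ Z
      · have hs1 : n ≤ 2 ^ Nat.clog 2 n := Nat.le_pow_clog (by norm_num) n
        have hs2 : 2 ^ Nat.clog 2 n / 2 < n := by
          rcases Nat.eq_or_lt_of_le (show 1 ≤ n from h) with h1 | h1
          · subst h1
            simp
          · have h2 := Nat.pow_pred_clog_lt_self (b := 2) (by norm_num) h1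
            have h3 : 0 < Nat.clog 2 n := Nat.clog_pos (by norm_num) h1
            have h4 : 2 ^ Nat.clog 2 n = 2 * 2 ^ (Nat.clog 2 n).pred := by
              obtain ⟨t, ht⟩ : ∃ t, Nat.clog 2 n = t + 1 := ⟨Nat.clog 2 n - 1, by omega⟩
              rw [ht, Nat.pred_succ, pow_succ]
              ring
            omega
        rw [Finset.sum_eq_single (Nat.clog 2 n)]
        · have h5 : 2 ^ Nat.clog 2 n ≤ 2 * Z := by omega
          rw [if_pos ⟨h5, hs2, le_min hs1 hnZ⟩]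
          show (if n ≤ Z then ((moebius n : ℤ) : ℂ) else 0) = _
          rw [if_pos hnZ]
        · intro b _ hb
          rw [if_neg]
          rintro ⟨_, h6, h7⟩
          have h8 := le_min_iff.1 h7
          apply hb
          rcases lt_trichotomy b (Nat.clog 2 n) with h9 | h9 | h9
          · exfalso
            have : 2 ^ (b + 1) ≤ 2 ^ Nat.clog 2 n := Nat.pow_le_pow_right (by norm_num) h9
            rw [pow_succ] at this
            omega
          · exact h9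
          · exfalso
            have : 2 ^ (Nat.clog 2 n + 1) ≤ 2 ^ b := Nat.pow_le_pow_right (by norm_num) h9
            rw [pow_succ] at this
            omega
        · intro h6
          exfalso
          apply h6
          rw [mem_range, Nat.lt_succ_iff]
          exact Nat.clog_le_of_le_pow (hn.trans hX)
      · rw [sum_eq_zero]
        · show (if n ≤ Z then ((moebius n : ℤ) : ℂ) else 0) = _
          rw [if_neg hnZ]
        · intro s _
          rw [if_neg]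
          rintro ⟨_, _, h7⟩
          exact hnZ (le_min_iff.1 h7).2

/-- the factors of the `i`-th term, `k = i' + 1 + j` -/
noncomputable def dec_F (Z i' j : ℕ) (l : ℕ) : ArithmeticFunction ℂ :=
  if l < i' + 1 then muU Z else if l < i' + 1 + j then 1 else if l = i' + 1 + j then lgC
  else if l < i' + 1 + j + 1 + i' then (ArithmeticFunction.zeta : ArithmeticFunction ℂ) else 1

lemma dec_F_prod (Z i' j : ℕ) : ∏ l ∈ range (2 * (i' + 1 + j)), dec_F Z i' j l =
    lgC * (ArithmeticFunction.zeta : ArithmeticFunction ℂ) ^ i' * muU Z ^ (i' + 1) := by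
  have e : 2 * (i' + 1 + j) = (i' + 1) + (j + (1 + (i' + j))) := by ring
  rw [e]
  have h1 : ∏ l ∈ range (i' + 1), dec_F Z i' j l = muU Z ^ (i' + 1) := by
    rw [prod_congr rfl (g := fun _ => muU Z), prod_const, card_range]
    intro l hl
    rw [mem_range] at hl
    rw [dec_F, if_pos hl]
  have h2 : ∏ l ∈ range j, dec_F Z i' j (i' + 1 + l) = 1 := by
    apply prod_eq_one
    intro l hl
    rw [mem_range] at hl
    rw [dec_F, if_neg (by omega), if_pos (by omega)]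
  have h3 : ∏ l ∈ range 1, dec_F Z i' j (i' + 1 + (j + l)) = lgC := by
    rw [prod_range_one, dec_F, if_neg (by omega), if_neg (by omega), if_pos (by omega)]
  have h4 : ∏ l ∈ range i', dec_F Z i' j (i' + 1 + (j + (1 + l))) =
      (ArithmeticFunction.zeta : ArithmeticFunction ℂ) ^ i' := by
    rw [prod_congr rfl (g := fun _ => (ArithmeticFunction.zeta : ArithmeticFunction ℂ)), prod_const,
      card_range]
    intro l hl
    rw [mem_range] at hl
    rw [dec_F, if_neg (by omega), if_neg (by omega), if_neg (by omega), if_pos (by omega)]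
  have h5 : ∏ l ∈ range j, dec_F Z i' j (i' + 1 + (j + (1 + (i' + l)))) = 1 := by
    apply prod_eq_one
    intro l hl
    rw [mem_range] at hl
    rw [dec_F, if_neg (by omega), if_neg (by omega), if_neg (by omega), if_neg (by omega)]
  rw [prod_range_add _ (i' + 1), h1, prod_range_add _ j, h2, prod_range_add _ 1, h3,
    prod_range_add _ i', h4, h5]
  ring

lemma dec_F_P (hWd : R_Wd) {X Z K0 : ℕ} (hZ : 1 ≤ Z) (hK : 1 ≤ K0) (hX : X ≤ 2 ^ K0)
    (i' j l : ℕ) : dec_P (dec_F Z i' j l) X Z K0 := by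
  unfold dec_F
  split_ifs
  · exact dec_P_mu hZ hK hX
  · exact dec_P_one hZ hK
  · exact dec_P_lg hWd hK hX
  · exact dec_P_zeta hWd hK hX
  · exact dec_P_one hZ hK

theorem p_dec : S_dec := by
  intro hhbi hWd k hk
  refine ⟨9 * k, ?_⟩
  have hL : ∀ᶠ J : ℕ in atTop, 12 ≤ Real.log J :=
    (Real.tendsto_log_atTop.comp tendsto_natCast_atTop_atTop).eventually_ge_atTop 12
  filter_upwards [hL, eventually_ge_atTop 1] with J hL hJ ι P w K Z hK hZ hw hyp
  have hJ0 : (0 : ℝ) < J := by exact_mod_cast hJ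
  obtain ⟨K0, hK0⟩ : ∃ K0, K0 = ⌊5 * Real.log J⌋₊ := ⟨_, rfl⟩
  obtain ⟨X, hXd⟩ : ∃ X, X = 27 * J ^ 3 := ⟨_, rfl⟩
  have hK0a : (K0 : ℝ) ≤ 5 * Real.log J := by
    rw [hK0]
    exact Nat.floor_le (by linarith)
  have hK0b : 5 * Real.log J - 1 ≤ K0 := by
    rw [hK0]
    exact (Nat.sub_one_lt_floor _).le
  have hK01 : 1 ≤ K0 := by
    have : (1 : ℝ) ≤ K0 := by linarith
    exact_mod_cast this
  have hX : X ≤ 2 ^ K0 := by
    have h1 : (X : ℝ) ≤ 2 ^ K0 := by
      rw [hXd]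
      push_cast
      have h2 : (27 : ℝ) * (J : ℝ) ^ 3 ≤ 32 * (J : ℝ) ^ 3 := by
        have : (0 : ℝ) < (J : ℝ) ^ 3 := by positivity
        linarith
      refine h2.trans ?_
      rw [← Real.log_le_log_iff (by positivity) (by positivity),
        Real.log_mul (by norm_num) (by positivity), Real.log_pow, Real.log_pow,
        show (32 : ℝ) = 2 ^ 5 by norm_num, Real.log_pow]
      have h3 := Real.log_two_gt_d9
      push_cast
      have h4 : (5 * Real.log J - 1) * Real.log 2 ≤ K0 * Real.log 2 :=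
        mul_le_mul_of_nonneg_right hK0b (by linarith)
      nlinarith
    exact_mod_cast h1
  have hZ1 : 1 ≤ Z := by
    by_contra h
    have h1 : Z = 0 := by omega
    rw [h1, zero_pow (by omega)] at hZ
    have : 0 < J ^ 3 := by positivity
    omega
  rw [← hXd] at hZ
  have hX1 : ((X : ℕ) : ℝ) = 27 * (J : ℝ) ^ 3 := by
    rw [hXd]
    push_cast
    ring
  -- one term
  have hterm : ∀ i ∈ Icc 1 k, ∑ p ∈ P, ‖∑ n ∈ Icc 1 X,
      (∏ l : Fin (2 * k), dec_F Z (i - 1) (k - i) l) n * w p n‖ ≤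
      (2 * ((K0 : ℝ) + 1)) ^ (2 * k) * (K0 : ℝ) ^ (2 * k) * K := by
    intro i _
    refine dec_main (fun l : Fin (2 * k) => dec_F Z (i - 1) (k - i) l) X Z K0
      (fun l => dec_F_P hWd hZ1 hK01 hX _ _ _) ι P w K hK ?_
    intro f N h1 h2 h3
    rw [hXd]
    exact hyp f N h1 h2 (by rw [← hX1]; exact h3)
  have hprod : ∀ i ∈ Icc 1 k, ∏ l : Fin (2 * k), dec_F Z (i - 1) (k - i) l =
      lgC * (ArithmeticFunction.zeta : ArithmeticFunction ℂ) ^ (i - 1) * muU Z ^ i := by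
    intro i hi
    rw [mem_Icc] at hi
    rw [Fin.prod_univ_eq_prod_range (fun l => dec_F Z (i - 1) (k - i) l) (2 * k)]
    have e1 : 2 * k = 2 * ((i - 1) + 1 + (k - i)) := by omega
    have e2 : (i - 1) + 1 = i := by omega
    rw [e1, dec_F_prod, e2]
  have hLam : ∀ p, ∑ n ∈ Icc 1 X, ((vonMangoldt n : ℝ) : ℂ) * w p n =
      ∑ i ∈ Icc 1 k, ((-1 : ℂ) ^ (i - 1) * (k.choose i : ℂ)) * ∑ n ∈ Icc 1 X,
        (∏ l : Fin (2 * k), dec_F Z (i - 1) (k - i) l) n * w p n := by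
    intro p
    have h1 : ∀ n ∈ Icc 1 X, ((vonMangoldt n : ℝ) : ℂ) * w p n =
        ∑ i ∈ Icc 1 k, ((-1 : ℂ) ^ (i - 1) * (k.choose i : ℂ)) *
          ((∏ l : Fin (2 * k), dec_F Z (i - 1) (k - i) l) n * w p n) := by
      intro n hn
      rw [mem_Icc] at hn
      rw [hhbi k Z n hk hn.1 (hn.2.trans hZ), sum_mul]
      refine sum_congr rfl fun i hi => ?_
      rw [hprod i hi]
      ring
    rw [sum_congr rfl h1, sum_comm]
    exact sum_congr rfl fun i _ => by rw [mul_sum]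
  rw [← hXd]
  have hchoose : ∑ i ∈ Icc 1 k, (k.choose i : ℝ) ≤ 2 ^ k := by
    have h1 : ∑ i ∈ Icc 1 k, (k.choose i : ℝ) ≤ ∑ i ∈ range (k + 1), (k.choose i : ℝ) := by
      apply sum_le_sum_of_subset_of_nonneg
      · intro i hi
        rw [mem_Icc] at hi
        rw [mem_range]
        omega
      · intro i _ _
        positivity
    refine h1.trans (le_of_eq ?_)
    have := Nat.sum_range_choose k
    exact_mod_cast this
  have hfin : (2 : ℝ) ^ k * ((2 * ((K0 : ℝ) + 1)) ^ (2 * k) * (K0 : ℝ) ^ (2 * k)) ≤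
      (Real.log J) ^ (9 * k) := by
    set L := Real.log J with hLd
    have hL0 : 0 ≤ L := by linarith
    have a1 : 2 * ((K0 : ℝ) + 1) ≤ L ^ 2 := by nlinarith
    have a2 : (K0 : ℝ) ≤ L ^ 2 := by nlinarith
    have b1 : (2 * ((K0 : ℝ) + 1)) ^ (2 * k) ≤ (L ^ 2) ^ (2 * k) :=
      pow_le_pow_left₀ (by positivity) a1 _
    have b2 : (K0 : ℝ) ^ (2 * k) ≤ (L ^ 2) ^ (2 * k) := pow_le_pow_left₀ (by positivity) a2 _
    have b3 : (2 : ℝ) ^ k ≤ L ^ k := pow_le_pow_left₀ (by norm_num) (by linarith) _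
    calc (2 : ℝ) ^ k * ((2 * ((K0 : ℝ) + 1)) ^ (2 * k) * (K0 : ℝ) ^ (2 * k))
        ≤ L ^ k * ((L ^ 2) ^ (2 * k) * (L ^ 2) ^ (2 * k)) := by
          apply mul_le_mul b3 _ (by positivity) (by positivity)
          exact mul_le_mul b1 b2 (by positivity) (by positivity)
      _ = L ^ (9 * k) := by
          rw [← pow_mul, ← pow_add, ← pow_add]
          congr 1
          ring
  calc ∑ p ∈ P, ‖∑ n ∈ Icc 1 X, ((vonMangoldt n : ℝ) : ℂ) * w p n‖
      ≤ ∑ p ∈ P, ∑ i ∈ Icc 1 k, (k.choose i : ℝ) * ‖∑ n ∈ Icc 1 X,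
        (∏ l : Fin (2 * k), dec_F Z (i - 1) (k - i) l) n * w p n‖ := by
        refine sum_le_sum fun p _ => ?_
        rw [hLam p]
        refine (norm_sum_le _ _).trans (sum_le_sum fun i _ => ?_)
        rw [norm_mul, norm_mul, norm_pow, norm_neg, norm_one, one_pow, one_mul, Complex.norm_natCast]
    _ = ∑ i ∈ Icc 1 k, (k.choose i : ℝ) * ∑ p ∈ P, ‖∑ n ∈ Icc 1 X,
        (∏ l : Fin (2 * k), dec_F Z (i - 1) (k - i) l) n * w p n‖ := by
        rw [sum_comm]
        exact sum_congr rfl fun i _ => by rw [mul_sum]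
    _ ≤ ∑ i ∈ Icc 1 k, (k.choose i : ℝ) *
        ((2 * ((K0 : ℝ) + 1)) ^ (2 * k) * (K0 : ℝ) ^ (2 * k) * K) :=
        sum_le_sum fun i hi => mul_le_mul_of_nonneg_left (hterm i hi) (Nat.cast_nonneg _)
    _ = (∑ i ∈ Icc 1 k, (k.choose i : ℝ)) *
        ((2 * ((K0 : ℝ) + 1)) ^ (2 * k) * (K0 : ℝ) ^ (2 * k) * K) := by rw [sum_mul]
    _ ≤ 2 ^ k * ((2 * ((K0 : ℝ) + 1)) ^ (2 * k) * (K0 : ℝ) ^ (2 * k) * K) :=
        mul_le_mul_of_nonneg_right hchoose (by positivity)
    _ = 2 ^ k * ((2 * ((K0 : ℝ) + 1)) ^ (2 * k) * (K0 : ℝ) ^ (2 * k)) * K := by ring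
    _ ≤ (Real.log J) ^ (9 * k) * K := mul_le_mul_of_nonneg_right hfin hK

end Pool.Agent.CA.SC
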