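import Pool.Agent.Lib.MP_d610d0_nt.CA.SC.Stm2

set_option autoImplicit false

/-!
Piece dyb.
-/

namespace Pool.Agent.CA.SC

open Finset Filter

open Classical in
/-- the indicator of the primes of `[lo, hi]` -/
private noncomputable def dyb_I (lo hi : ℝ) (n : ℕ) : ℂ :=
  if n.Prime ∧ lo ≤ (n : ℝ) ∧ (n : ℝ) ≤ hi then 1 else 0

open Classical in
/-- the indicator of the primes of a dyadic piece of `[lo, hi]` -/
private noncomputable def dyb_c (lo hi : ℝ) (s n : ℕ) : ℂ :=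
  if n.Prime ∧ max (⌈lo⌉₊ - 1) (2 ^ s / 2) < n ∧ n ≤ min ⌊hi⌋₊ (2 ^ s) then 1 else 0

private theorem dyb_int {s n : ℕ} (hn : 2 ≤ n) (h1 : 2 ^ s / 2 < n) (h2 : n ≤ 2 ^ s) :
    s = Nat.clog 2 n := by
  cases s with
  | zero => rw [pow_zero] at h2; omega
  | succ s =>
    have h3 : 2 ^ s < n := by
      rw [pow_succ, Nat.mul_div_cancel _ (by norm_num)] at h1
      exact h1
    apply le_antisymm
    · have := (Nat.lt_clog_iff_pow_lt (by norm_num : 1 < 2)).2 h3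
      omega
    · exact (Nat.clog_le_iff_le_pow (by norm_num : 1 < 2)).2 h2

private theorem dyb_int' {n : ℕ} (hn : 2 ≤ n) :
    2 ^ (Nat.clog 2 n) / 2 < n ∧ n ≤ 2 ^ (Nat.clog 2 n) := by
  have h2 : n ≤ 2 ^ (Nat.clog 2 n) := Nat.le_pow_clog (by norm_num) n
  refine ⟨?_, h2⟩
  have hpos : 0 < Nat.clog 2 n := Nat.clog_pos (by norm_num) hn
  obtain ⟨s, hs⟩ : ∃ s, Nat.clog 2 n = s + 1 := ⟨Nat.clog 2 n - 1, by omega⟩
  rw [hs, pow_succ, Nat.mul_div_cancel _ (by norm_num)]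
  exact (Nat.lt_clog_iff_pow_lt (by norm_num : 1 < 2)).1 (by omega)

private theorem dyb_sum (lo hi : ℝ) (K n : ℕ) (hn : n ≤ 2 ^ K) :
    ∑ s ∈ range (K + 1), dyb_c lo hi s n = dyb_I lo hi n := by
  classical
  unfold dyb_c dyb_I
  by_cases hp : n.Prime
  · have hn2 := hp.two_le
    have hcond : ∀ s : ℕ, (n.Prime ∧ max (⌈lo⌉₊ - 1) (2 ^ s / 2) < n ∧ n ≤ min ⌊hi⌋₊ (2 ^ s)) ↔
        (s = Nat.clog 2 n ∧ (n.Prime ∧ lo ≤ (n : ℝ) ∧ (n : ℝ) ≤ hi)) := by
      intro s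
      rw [max_lt_iff, le_min_iff, Nat.le_floor_iff' (by omega)]
      have h1 : ⌈lo⌉₊ - 1 < n ↔ lo ≤ (n : ℝ) := by
        rw [← Nat.ceil_le]
        omega
      rw [h1]
      constructor
      · rintro ⟨h1, ⟨h2, h3⟩, h4, h5⟩
        exact ⟨dyb_int hn2 h3 h5, h1, h2, h4⟩
      · rintro ⟨rfl, h1, h2, h3⟩
        exact ⟨h1, ⟨h2, (dyb_int' hn2).1⟩, h3, (dyb_int' hn2).2⟩
    simp only [hcond]
    by_cases hI : n.Prime ∧ lo ≤ (n : ℝ) ∧ (n : ℝ) ≤ hi
    · simp only [hI, and_true, if_true]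
      rw [sum_ite_eq' (range (K + 1)) (Nat.clog 2 n) (fun _ => (1 : ℂ)), if_pos]
      rw [mem_range]
      have := (Nat.clog_le_iff_le_pow (by norm_num : 1 < 2)).2 hn
      omega
    · simp only [hI, and_false, if_false, sum_const_zero]
  · simp only [hp, false_and, if_false, sum_const_zero]

private theorem dyb_prod {k : ℕ} (t : Fin k → ℕ) (ht : ∀ i, 1 ≤ t i) (i : Fin k) :
    t i ≤ ∏ l, t l :=
  Nat.le_of_dvd (prod_pos fun l _ => ht l) (dvd_prod_of_mem t (mem_univ i))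

private theorem dyb_bx (k X K : ℕ) (lo hi : Fin k → ℝ) (hX : X ≤ 2 ^ K) (n : ℕ) (h1 : 1 ≤ n)
    (hn : n ≤ X) : (bx k lo hi n : ℂ) =
    ∑ t ∈ Fintype.piFinset (fun _ : Fin k => Icc 1 (2 ^ K)),
      (∏ l, dyb_I (lo l) (hi l) (t l)) * (if ∏ l, t l = n then 1 else 0) := by
  classical
  have e1 : ∀ t : Fin k → ℕ, (∏ l, dyb_I (lo l) (hi l) (t l)) * (if ∏ l, t l = n then 1 else 0) =
      if ((∀ l, (t l).Prime ∧ lo l ≤ (t l : ℝ) ∧ (t l : ℝ) ≤ hi l) ∧ ∏ l, t l = n) then (1 : ℂ)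
        else 0 := by
    intro t
    unfold dyb_I
    rw [Finset.prod_ite_zero]
    simp only [mem_univ, true_implies, prod_const_one]
    by_cases ha : ∀ l, (t l).Prime ∧ lo l ≤ (t l : ℝ) ∧ (t l : ℝ) ≤ hi l
    · by_cases hb : ∏ l, t l = n
      · rw [if_pos ha, if_pos hb, if_pos ⟨ha, hb⟩, mul_one]
      · have hab : ¬ ((∀ l, (t l).Prime ∧ lo l ≤ (t l : ℝ) ∧ (t l : ℝ) ≤ hi l) ∧
            ∏ l, t l = n) := fun h => hb h.2
        rw [if_neg hb, if_neg hab, mul_zero]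
    · have hab : ¬ ((∀ l, (t l).Prime ∧ lo l ≤ (t l : ℝ) ∧ (t l : ℝ) ≤ hi l) ∧
          ∏ l, t l = n) := fun h => ha h.1
      rw [if_neg ha, if_neg hab, zero_mul]
  rw [sum_congr rfl (fun t _ => e1 t), ← sum_filter, sum_const, nsmul_eq_mul, mul_one]
  unfold bx
  rw [Complex.ofReal_natCast]
  congr 1
  apply congrArg Finset.card
  ext t
  simp only [mem_filter, Fintype.mem_piFinset, mem_range, mem_Icc]
  constructor
  · rintro ⟨h2, h3⟩
    refine ⟨fun i => ⟨(h2 i).2.1.one_le, ?_⟩, fun i => (h2 i).2, h3⟩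
    have := (h2 i).1
    omega
  · rintro ⟨h2, h3, h4⟩
    refine ⟨fun i => ⟨?_, h3 i⟩, h4⟩
    have := dyb_prod t (fun i => (h2 i).1) i
    omega

theorem p_dyb : S_dyb := by
  classical
  intro k X K lo hi w hX hw
  set T := Fintype.piFinset (fun _ : Fin k => Icc 1 (2 ^ K)) with hT
  -- left hand side
  have hL : ∑ n ∈ Icc 1 X, (bx k lo hi n : ℂ) * w n =
      ∑ t ∈ T, (∏ l, dyb_I (lo l) (hi l) (t l)) * w (∏ l, t l) := by
    have e1 : ∀ n ∈ Icc 1 X, (bx k lo hi n : ℂ) * w n =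
        ∑ t ∈ T, (∏ l, dyb_I (lo l) (hi l) (t l)) * (if ∏ l, t l = n then w n else 0) := by
      intro n hn
      rw [mem_Icc] at hn
      rw [dyb_bx k X K lo hi hX n hn.1 hn.2, sum_mul]
      apply sum_congr rfl
      intro t _
      rw [mul_assoc, ite_mul, one_mul, zero_mul]
    rw [sum_congr rfl e1, sum_comm]
    apply sum_congr rfl
    intro t ht
    rw [← mul_sum, sum_ite_eq]
    split_ifs with h
    · rfl
    · have h1 : 1 ≤ ∏ l, t l := by
        apply Nat.one_le_iff_ne_zero.2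
        rw [prod_ne_zero_iff]
        intro l _
        have := (mem_Icc.1 (Fintype.mem_piFinset.1 ht l)).1
        omega
      rw [hw]
      rw [mem_Icc] at h
      omega
  -- right hand side
  have hR : ∀ s ∈ Fintype.piFinset (fun _ : Fin k => range (K + 1)),
      TS (fun l n => if n.Prime ∧ max (⌈lo l⌉₊ - 1) (2 ^ s l / 2) < n ∧
        n ≤ min ⌊hi l⌋₊ (2 ^ s l) then 1 else 0) (fun l => 2 * 2 ^ s l) w =
      ∑ t ∈ T, (∏ l, dyb_c (lo l) (hi l) (s l) (t l)) * w (∏ l, t l) := by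
    intro s hs
    unfold TS
    have hc : ∀ t : Fin k → ℕ, (∏ l, (if (t l).Prime ∧ max (⌈lo l⌉₊ - 1) (2 ^ s l / 2) < t l ∧
        t l ≤ min ⌊hi l⌋₊ (2 ^ s l) then (1 : ℂ) else 0)) =
        ∏ l, dyb_c (lo l) (hi l) (s l) (t l) := by
      intro t
      apply prod_congr rfl
      intro l _
      unfold dyb_c
      congr
    have hz : ∀ t : Fin k → ℕ, (¬ ∀ l, 1 ≤ t l ∧ t l ≤ 2 ^ s l) →
        (∏ l, dyb_c (lo l) (hi l) (s l) (t l)) * w (∏ l, t l) = 0 := by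
      intro t ht
      rw [not_forall] at ht
      obtain ⟨l, hl⟩ := ht
      rw [prod_eq_zero (mem_univ l), zero_mul]
      unfold dyb_c
      rw [if_neg]
      rintro ⟨h1, h2, h3⟩
      exact hl ⟨h1.one_le, h3.trans (min_le_right _ _)⟩
    simp only [hc]
    have hA : ∀ U : Finset (Fin k → ℕ),
        (∀ t, (∀ l, 1 ≤ t l ∧ t l ≤ 2 ^ s l) → t ∈ U) →
        ∑ t ∈ U, (∏ l, dyb_c (lo l) (hi l) (s l) (t l)) * w (∏ l, t l) =
        ∑ t ∈ Fintype.piFinset (fun l : Fin k => Icc 1 (2 ^ s l)),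
          (∏ l, dyb_c (lo l) (hi l) (s l) (t l)) * w (∏ l, t l) := by
      intro U hU
      symm
      apply sum_subset
      · intro t ht
        apply hU
        intro l
        exact mem_Icc.1 (Fintype.mem_piFinset.1 ht l)
      · intro t _ ht
        apply hz
        intro h
        apply ht
        rw [Fintype.mem_piFinset]
        intro l
        exact mem_Icc.2 (h l)
    rw [hA (Fintype.piFinset fun l => Icc 1 (2 * 2 ^ s l)), hA T]
    · intro t ht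
      rw [hT, Fintype.mem_piFinset]
      intro l
      have h1 := Fintype.mem_piFinset.1 hs l
      rw [mem_range] at h1
      have h2 : 2 ^ s l ≤ 2 ^ K := Nat.pow_le_pow_right (by norm_num) (by omega)
      exact mem_Icc.2 ⟨(ht l).1, (ht l).2.trans h2⟩
    · intro t ht
      rw [Fintype.mem_piFinset]
      intro l
      have := (ht l).2
      exact mem_Icc.2 ⟨(ht l).1, by omega⟩
  rw [hL, sum_congr rfl hR, sum_comm]
  apply sum_congr rfl
  intro t ht
  rw [← sum_mul]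
  congr 1
  have h1 := Finset.prod_univ_sum (fun _ : Fin k => range (K + 1))
    (fun l s => dyb_c (lo l) (hi l) s (t l))
  rw [← h1]
  apply prod_congr rfl
  intro l _
  rw [dyb_sum]
  exact (mem_Icc.1 (Fintype.mem_piFinset.1 ht l)).2

end Pool.Agent.CA.SC
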