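import Pool.Agent.Lib.MP_d610d0_nt.CA.SC.Stm

set_option autoImplicit false

/-!
Piece grd.
-/

namespace Pool.Agent.CA.SC

open Finset Filter

theorem p_grd : S_grd := by
  intro m S x b hb hx
  induction S using Finset.induction_on with
  | empty => exact ⟨∅, ∅, by simp, by simp, by simpa using hb, by simpa using hb⟩
  | insert e S he ih =>
    obtain ⟨S1, S2, hd, hu, h1, h2⟩ := ih (fun l hl => hx l (mem_insert_of_mem hl))
    obtain ⟨e1, e2⟩ := hx e (mem_insert_self e S)
    have hS1 : ∀ l ∈ S1, 1 ≤ x l := fun l hl =>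
      (hx l (mem_insert_of_mem (by rw [← hu]; exact mem_union_left _ hl))).1
    have hS2 : ∀ l ∈ S2, 1 ≤ x l := fun l hl =>
      (hx l (mem_insert_of_mem (by rw [← hu]; exact mem_union_right _ hl))).1
    have p1 : 0 < ∏ l ∈ S1, x l := prod_pos fun l hl => lt_of_lt_of_le one_pos (hS1 l hl)
    have p2 : 0 < ∏ l ∈ S2, x l := prod_pos fun l hl => lt_of_lt_of_le one_pos (hS2 l hl)
    have n1 : e ∉ S1 := fun h => he (by rw [← hu]; exact mem_union_left _ h)
    have n2 : e ∉ S2 := fun h => he (by rw [← hu]; exact mem_union_right _ h)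
    have key : ∀ P Q : ℝ, 0 < P → 0 < Q → P ≤ Q → Q ≤ b * P →
        x e * P ≤ b * Q ∧ Q ≤ b * (x e * P) := by
      intro P Q hP hQ hPQ hQP
      constructor
      · exact mul_le_mul e2 hPQ hP.le (by linarith only [hb])
      · refine hQP.trans ?_
        apply mul_le_mul_of_nonneg_left _ (by linarith only [hb])
        nlinarith only [e1, hP]
    rcases le_total (∏ l ∈ S1, x l) (∏ l ∈ S2, x l) with h | h
    · refine ⟨insert e S1, S2, ?_, ?_, ?_, ?_⟩
      · rw [disjoint_insert_left]
        exact ⟨n2, hd⟩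
      · rw [insert_union, hu]
      · rw [prod_insert n1]
        exact (key _ _ p1 p2 h h2).1
      · rw [prod_insert n1]
        exact (key _ _ p1 p2 h h2).2
    · refine ⟨S1, insert e S2, ?_, ?_, ?_, ?_⟩
      · rw [disjoint_insert_right]
        exact ⟨n1, hd⟩
      · rw [union_insert, hu]
      · rw [prod_insert n2]
        exact (key _ _ p2 p1 h h1).2
      · rw [prod_insert n2]
        exact (key _ _ p2 p1 h h1).1

end Pool.Agent.CA.SC
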