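import Pool.Agent.Lib.MP_d610d0_nt.CA.SC.Stm2

set_option autoImplicit false

/-!
Project CA, section SC, piece hbi: Heath-Brown's identity.
-/

namespace Pool.Agent.CA.SC

open Finset Filter
open ArithmeticFunction (vonMangoldt moebius)

/-- the von Mangoldt function with values in `ℂ` -/
private noncomputable def hbi_L : ArithmeticFunction ℂ where
  toFun n := ((vonMangoldt n : ℝ) : ℂ)
  map_zero' := by simp

private noncomputable def hbi_Z : ArithmeticFunction ℂ := (ArithmeticFunction.zeta : ArithmeticFunction ℂ)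

private theorem hbi_LZ : hbi_L * hbi_Z = lgC := by
  ext n
  unfold hbi_Z
  rw [ArithmeticFunction.coe_mul_zeta_apply]
  show ∑ i ∈ n.divisors, ((vonMangoldt i : ℝ) : ℂ) = ((Real.log n : ℝ) : ℂ)
  rw [← ArithmeticFunction.vonMangoldt_sum, Complex.ofReal_sum]

/-- `1 - ζ * μ_U` vanishes up to `U`. -/
private theorem hbi_D (U n : ℕ) (hn : n ≤ U) :
    ((1 : ArithmeticFunction ℂ) - hbi_Z * muU U) n = 0 := by
  have h1 : (hbi_Z * muU U) n = (1 : ArithmeticFunction ℂ) n := by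
    unfold hbi_Z
    rw [ArithmeticFunction.coe_zeta_mul_apply]
    have h2 : ∑ i ∈ n.divisors, (muU U) i = ∑ i ∈ n.divisors, ((moebius i : ℤ) : ℂ) := by
      refine Finset.sum_congr rfl fun i hi => ?_
      show (if i ≤ U then ((moebius i : ℤ) : ℂ) else 0) = _
      rw [if_pos ((Nat.divisor_le hi).trans hn)]
    rw [h2]
    have h3 : ((∑ i ∈ n.divisors, moebius i : ℤ) : ℂ) = (1 : ArithmeticFunction ℂ) n := by
      rw [← ArithmeticFunction.coe_mul_zeta_apply, ArithmeticFunction.moebius_mul_coe_zeta]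
      rw [ArithmeticFunction.one_apply, ArithmeticFunction.one_apply]
      split_ifs <;> simp
    rw [← h3, Int.cast_sum]
  rw [sub_eq_add_neg, ArithmeticFunction.add_apply]
  have h4 : (-(hbi_Z * muU U)) n = -((hbi_Z * muU U) n) := rfl
  rw [h4, h1, add_neg_cancel]

private theorem hbi_Dk (U k : ℕ) (hk : 1 ≤ k) : ∀ n : ℕ, n ≤ U ^ k →
    (((1 : ArithmeticFunction ℂ) - hbi_Z * muU U) ^ k) n = 0 := by
  induction k, hk using Nat.le_induction with
  | base =>
    intro n hn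
    rw [pow_one] at hn ⊢
    exact hbi_D U n hn
  | succ k hk ih =>
    intro n hn
    rw [pow_succ, ArithmeticFunction.mul_apply]
    refine Finset.sum_eq_zero fun x hx => ?_
    rcases Nat.lt_or_ge U x.2 with h | h
    · rw [ih x.1 (by
        by_contra hcon
        push Not at hcon
        have h1 := (Nat.mem_divisorsAntidiagonal.1 hx).1
        have h2 : U ^ k * U < x.1 * x.2 := Nat.mul_lt_mul'' hcon h
        rw [h1, ← pow_succ] at h2
        omega), zero_mul]
    · rw [hbi_D U x.2 h, mul_zero]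

/-- evaluation at `n` -/
private def hbi_ev (n : ℕ) : ArithmeticFunction ℂ →+ ℂ where
  toFun f := f n
  map_zero' := rfl
  map_add' _ _ := rfl

private theorem hbi_bin (X : ArithmeticFunction ℂ) (k : ℕ) :
    (1 - X) ^ k = ∑ i ∈ range (k + 1), ((-1 : ℤ) ^ i * (k.choose i : ℤ)) • X ^ i := by
  rw [sub_eq_neg_add, add_pow]
  refine Finset.sum_congr rfl fun i _ => ?_
  rw [one_pow, mul_one, zsmul_eq_mul]
  push_cast
  have h : -X = (-1) * X := by ring
  rw [h, mul_pow]
  ring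

theorem p_hbi : S_hbi := by
  intro k U n hk hn hnU
  have h0 : hbi_ev n (hbi_L * ((1 : ArithmeticFunction ℂ) - hbi_Z * muU U) ^ k) = 0 := by
    show (hbi_L * ((1 : ArithmeticFunction ℂ) - hbi_Z * muU U) ^ k) n = 0
    rw [ArithmeticFunction.mul_apply]
    refine Finset.sum_eq_zero fun x hx => ?_
    have h1 := Nat.mem_divisorsAntidiagonal.1 hx
    have h2 : x.2 ≤ n := by
      rw [← h1.1]
      refine Nat.le_mul_of_pos_left _ (Nat.pos_of_ne_zero ?_)
      intro h
      rw [h, zero_mul] at h1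
      exact h1.2 h1.1.symm
    rw [hbi_Dk U k hk x.2 (h2.trans hnU), mul_zero]
  rw [hbi_bin, Finset.mul_sum, map_sum, Finset.sum_range_succ'] at h0
  have h1 : ∀ i : ℕ, hbi_ev n (hbi_L * (((-1 : ℤ) ^ i * (k.choose i : ℤ)) • (hbi_Z * muU U) ^ i)) =
      (-1 : ℂ) ^ i * (k.choose i : ℂ) * hbi_ev n (hbi_L * (hbi_Z * muU U) ^ i) := by
    intro i
    rw [mul_smul_comm, map_zsmul, zsmul_eq_mul]
    push_cast
    ring
  simp only [h1] at h0
  rw [pow_zero, pow_zero, Nat.choose_zero_right, Nat.cast_one, mul_one, one_mul, mul_one] at h0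
  have h2 : ∀ i : ℕ, hbi_L * (hbi_Z * muU U) ^ (i + 1) =
      lgC * (ArithmeticFunction.zeta : ArithmeticFunction ℂ) ^ i * muU U ^ (i + 1) := by
    intro i
    rw [← hbi_LZ]
    show hbi_L * (hbi_Z * muU U) ^ (i + 1) = hbi_L * hbi_Z * hbi_Z ^ i * muU U ^ (i + 1)
    rw [mul_pow, pow_succ hbi_Z]
    ring
  have h3 : Icc 1 k = Ico 1 (k + 1) := rfl
  rw [h3, Finset.sum_Ico_eq_sum_range, Nat.add_sub_cancel]
  have h4 : hbi_ev n hbi_L = ((vonMangoldt n : ℝ) : ℂ) := rfl
  rw [h4] at h0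
  have h5 : ∑ i ∈ range k, (-1 : ℂ) ^ (1 + i - 1) * (k.choose (1 + i) : ℂ) *
      ((lgC * (ArithmeticFunction.zeta : ArithmeticFunction ℂ) ^ (1 + i - 1) * muU U ^ (1 + i)) n) =
      -∑ i ∈ range k, (-1 : ℂ) ^ (i + 1) * (k.choose (i + 1) : ℂ) *
        hbi_ev n (hbi_L * (hbi_Z * muU U) ^ (i + 1)) := by
    rw [← Finset.sum_neg_distrib]
    refine Finset.sum_congr rfl fun i _ => ?_
    rw [h2 i, Nat.add_comm 1 i, Nat.add_sub_cancel]
    show (-1 : ℂ) ^ i * (k.choose (i + 1) : ℂ) * _ = -((-1 : ℂ) ^ (i + 1) * (k.choose (i + 1) : ℂ) *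
      ((lgC * (ArithmeticFunction.zeta : ArithmeticFunction ℂ) ^ i * muU U ^ (i + 1)) n))
    ring
  rw [h5]
  linear_combination h0

end Pool.Agent.CA.SC
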