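import Pool.Agent.Lib.MP_d610d0_nt.CA.SC.Stm2

set_option autoImplicit false

/-!
Piece lwB.
-/

namespace Pool.Agent.CA.SC

open Finset Filter
open Pool.Agent.MP89da58 (tri)
open Pool.Agent.CH (wJ wL)
open Pool.Agent.CH.V (pz)
open Pool.Agent.CH.D (R_pwp)

/-- clamped identity -/
private noncomputable def lwB_W (s : ℝ) : ℝ := max 0 (min 2 (1 + s))

private theorem lwB_W_mono {s s' : ℝ} (h : s ≤ s') : lwB_W s ≤ lwB_W s' := by
  unfold lwB_W
  exact max_le_max_left _ (min_le_min_left _ (by linarith only [h]))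

private theorem lwB_W_nonneg (s : ℝ) : 0 ≤ lwB_W s := le_max_left _ _

private theorem lwB_W_le (s : ℝ) : lwB_W s ≤ 2 := max_le (by norm_num) (min_le_left _ _)

private theorem lwB_tri_eq (s : ℝ) : tri s = 1 - |lwB_W s - 1| := by
  unfold tri lwB_W
  rcases le_total s (-1) with h | h
  · rw [abs_of_nonpos (by linarith only [h] : s ≤ 0), max_eq_left (by linarith only [h]),
      min_eq_right (by linarith only [h]), max_eq_left (by linarith only [h])]
    norm_num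
  rcases le_total s 1 with h' | h'
  · rw [min_eq_right (by linarith only [h']), max_eq_right (a := 0) (b := 1 + s)
      (by linarith only [h]), add_sub_cancel_left]
    exact max_eq_right (by linarith only [abs_le.2 ⟨h, h'⟩])
  · rw [abs_of_nonneg (by linarith only [h'] : 0 ≤ s), max_eq_left (by linarith only [h']),
      min_eq_left (by linarith only [h']), max_eq_right (by norm_num)]
    norm_num

private theorem lwB_tri_sub {s s' : ℝ} (h : s ≤ s') :
    |tri s - tri s'| ≤ lwB_W s' - lwB_W s := by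
  rw [lwB_tri_eq, lwB_tri_eq]
  have h1 := abs_abs_sub_abs_le_abs_sub (lwB_W s' - 1) (lwB_W s - 1)
  have h2 := lwB_W_mono h
  rw [show 1 - |lwB_W s - 1| - (1 - |lwB_W s' - 1|) = |lwB_W s' - 1| - |lwB_W s - 1| by ring]
  refine h1.trans ?_
  rw [show lwB_W s' - 1 - (lwB_W s - 1) = lwB_W s' - lwB_W s by ring,
    abs_of_nonneg (by linarith only [h2])]

private theorem lwB_tri_01 (v : ℝ) : 0 ≤ tri v ∧ tri v ≤ 1 := by
  unfold tri
  exact ⟨le_max_left _ _, max_le zero_le_one (by linarith only [abs_nonneg v])⟩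

private theorem lwB_parts (c g : ℕ → ℂ) (M : ℕ) :
    ∑ n ∈ Icc 1 M, c n * g n = (∑ n ∈ Icc 1 M, c n) * g M +
      ∑ n ∈ range M, (∑ i ∈ Icc 1 n, c i) * (g n - g (n + 1)) := by
  induction M with
  | zero => simp
  | succ M ih =>
    rw [sum_Icc_succ_top (by omega), sum_Icc_succ_top (by omega), sum_range_succ, ih]
    ring

private theorem lwB_abel (c : ℕ → ℂ) (lam y d T : ℝ) (hlam : 0 < lam) (hy : 0 < y) (hd : 0 < d)
    (M : ℕ) (hT : ∀ m ≤ M, ‖∑ n ∈ Icc 1 m, c n‖ ≤ T) :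
    ‖∑ n ∈ Icc 1 M, c n * ((tri (lam * Real.log (d * n / y)) : ℝ) : ℂ)‖ ≤ 3 * T := by
  have hT0 : 0 ≤ T := (norm_nonneg _).trans (hT 0 (Nat.zero_le _))
  set g : ℕ → ℂ := fun n => ((tri (lam * Real.log (d * n / y)) : ℝ) : ℂ) with hg
  set U : ℕ → ℝ := fun n => if n = 0 then 0 else lwB_W (lam * Real.log (d * n / y)) with hU
  have e := lwB_parts c g M
  rw [show (∑ n ∈ Icc 1 M, c n * ((tri (lam * Real.log (d * n / y)) : ℝ) : ℂ)) =
    ∑ n ∈ Icc 1 M, c n * g n from rfl, e]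
  refine (norm_add_le _ _).trans ?_
  have h1 : ‖(∑ n ∈ Icc 1 M, c n) * g M‖ ≤ T := by
    rw [norm_mul]
    have h2 : ‖g M‖ ≤ 1 := by
      simp only [hg]
      rw [Complex.norm_real, Real.norm_eq_abs, abs_of_nonneg (lwB_tri_01 _).1]
      exact (lwB_tri_01 _).2
    calc ‖∑ n ∈ Icc 1 M, c n‖ * ‖g M‖ ≤ T * 1 := mul_le_mul (hT M le_rfl) h2 (norm_nonneg _) hT0
      _ = T := mul_one T
  have h2 : ‖∑ n ∈ range M, (∑ i ∈ Icc 1 n, c i) * (g n - g (n + 1))‖ ≤
      ∑ n ∈ range M, T * (U (n + 1) - U n) := by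
    refine (norm_sum_le _ _).trans (sum_le_sum fun n hn => ?_)
    rw [mem_range] at hn
    rw [norm_mul]
    have hU1 : U (n + 1) = lwB_W (lam * Real.log (d * ((n + 1 : ℕ) : ℝ) / y)) := by
      simp only [hU]
      rw [if_neg (by omega)]
    by_cases h0 : n = 0
    · subst h0
      have hU0 : U 0 = 0 := by simp only [hU]; rw [if_pos trivial]
      rw [show Icc 1 0 = (∅ : Finset ℕ) from rfl, sum_empty, norm_zero, zero_mul, hU0, sub_zero,
        hU1]
      exact mul_nonneg hT0 (lwB_W_nonneg _)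
    · have hUn : U n = lwB_W (lam * Real.log (d * (n : ℝ) / y)) := by
        simp only [hU]
        rw [if_neg h0]
      have hn0 : (0 : ℝ) < n := by
        have : 0 < n := Nat.pos_of_ne_zero h0
        exact_mod_cast this
      have hle : lam * Real.log (d * (n : ℝ) / y) ≤ lam * Real.log (d * ((n + 1 : ℕ) : ℝ) / y) := by
        apply mul_le_mul_of_nonneg_left _ hlam.le
        apply Real.log_le_log (by positivity)
        apply div_le_div_of_nonneg_right _ hy.le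
        apply mul_le_mul_of_nonneg_left _ hd.le
        push_cast
        linarith only []
      have h3 := lwB_tri_sub hle
      rw [hU1, hUn]
      apply mul_le_mul (hT n hn.le) _ (norm_nonneg _) hT0
      simp only [hg]
      rw [← Complex.ofReal_sub, Complex.norm_real, Real.norm_eq_abs]
      exact h3
  have h3 : ∑ n ∈ range M, T * (U (n + 1) - U n) ≤ 2 * T := by
    rw [← mul_sum, sum_range_sub]
    have h0 : U 0 = 0 := by simp only [hU]; rw [if_pos trivial]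
    have h1 : U M ≤ 2 := by
      simp only [hU]
      split_ifs
      · norm_num
      · exact lwB_W_le _
    rw [h0, sub_zero]
    nlinarith only [h1, hT0]
  linarith only [h1, h2, h3]

open Classical in
/-- the indicator of the primes of `[lo, hi]` -/
private noncomputable def lwB_I (lo hi : ℝ) (n : ℕ) : ℂ :=
  if n.Prime ∧ lo ≤ (n : ℝ) ∧ (n : ℝ) ≤ hi then 1 else 0

private theorem lwB_I_norm (lo hi : ℝ) (n : ℕ) : ‖lwB_I lo hi n‖ ≤ 1 := by
  unfold lwB_I
  split_ifs <;> simp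

private theorem lwB_prod {k : ℕ} (t : Fin k → ℕ) (ht : ∀ i, 1 ≤ t i) (i : Fin k) :
    t i ≤ ∏ l, t l :=
  Nat.le_of_dvd (prod_pos fun l _ => ht l) (dvd_prod_of_mem t (mem_univ i))

private theorem lwB_prod1 {k : ℕ} (t : Fin k → ℕ) (ht : ∀ i, 1 ≤ t i) : 1 ≤ ∏ l, t l := by
  have h : 0 < ∏ l, t l := prod_pos fun l _ => ht l
  exact h

private theorem lwB_bx (k X : ℕ) (lo hi : Fin k → ℝ) (n : ℕ) (hn : n ≤ X) :
    (bx k lo hi n : ℂ) =
    ∑ t ∈ Fintype.piFinset (fun _ : Fin k => Icc 1 X),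
      (∏ l, lwB_I (lo l) (hi l) (t l)) * (if ∏ l, t l = n then 1 else 0) := by
  classical
  have e1 : ∀ t : Fin k → ℕ, (∏ l, lwB_I (lo l) (hi l) (t l)) * (if ∏ l, t l = n then 1 else 0) =
      if ((∀ l, (t l).Prime ∧ lo l ≤ (t l : ℝ) ∧ (t l : ℝ) ≤ hi l) ∧ ∏ l, t l = n) then (1 : ℂ)
        else 0 := by
    intro t
    unfold lwB_I
    rw [Finset.prod_ite_zero]
    simp only [mem_univ, true_implies, prod_const_one]
    by_cases ha : ∀ l, (t l).Prime ∧ lo l ≤ (t l : ℝ) ∧ (t l : ℝ) ≤ hi l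
    · by_cases hb : ∏ l, t l = n
      · rw [if_pos ha, if_pos hb, if_pos ⟨ha, hb⟩, mul_one]
      · have hab : ¬ ((∀ l, (t l).Prime ∧ lo l ≤ (t l : ℝ) ∧ (t l : ℝ) ≤ hi l) ∧
            ∏ l, t l = n) := fun h => hb h.2
        rw [if_neg hb, if_neg hab, mul_zero]
    · have hab : ¬ ((∀ l, (t l).Prime ∧ lo l ≤ (t l : ℝ) ∧ (t l : ℝ) ≤ hi l) ∧
          ∏ l, t l = n) := fun h => ha h.1
      rw [if_neg ha, if_neg hab, zero_mul]
  rw [sum_congr rfl (fun t _ => e1 t), ← sum_filter, sum_const, nsmul_eq_mul, mul_one]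
  unfold bx
  rw [Complex.ofReal_natCast]
  congr 1
  apply congrArg Finset.card
  ext t
  simp only [mem_filter, Fintype.mem_piFinset, mem_range, mem_Icc]
  constructor
  · rintro ⟨h2, h3⟩
    refine ⟨fun i => ⟨(h2 i).2.1.one_le, ?_⟩, fun i => (h2 i).2, h3⟩
    have := (h2 i).1
    omega
  · rintro ⟨h2, h3, h4⟩
    refine ⟨fun i => ⟨?_, h3 i⟩, h4⟩
    have := lwB_prod t (fun i => (h2 i).1) i
    omega

private theorem lwB_exp (k X : ℕ) (lo hi : Fin k → ℝ) (v : ℕ → ℂ) :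
    ∑ n ∈ Icc 1 X, (bx k lo hi n : ℂ) * v n =
      ∑ t ∈ Fintype.piFinset (fun _ : Fin k => Icc 1 X), (∏ l, lwB_I (lo l) (hi l) (t l)) *
        (if ∏ l, t l ≤ X then v (∏ l, t l) else 0) := by
  classical
  have e1 : ∀ n ∈ Icc 1 X, (bx k lo hi n : ℂ) * v n =
      ∑ t ∈ Fintype.piFinset (fun _ : Fin k => Icc 1 X),
        (∏ l, lwB_I (lo l) (hi l) (t l)) * (if ∏ l, t l = n then v n else 0) := by
    intro n hn
    rw [mem_Icc] at hn
    rw [lwB_bx k X lo hi n hn.2, sum_mul]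
    apply sum_congr rfl
    intro t _
    rw [mul_assoc, ite_mul, one_mul, zero_mul]
  rw [sum_congr rfl e1, sum_comm]
  apply sum_congr rfl
  intro t ht
  have h1 : 1 ≤ ∏ l, t l :=
    lwB_prod1 t fun l => (mem_Icc.1 (Fintype.mem_piFinset.1 ht l)).1
  rw [← mul_sum, sum_ite_eq]
  congr 1
  simp only [mem_Icc, h1, true_and]

private theorem lwB_split (m X : ℕ) (f : Fin (m + 1) → ℕ → ℂ) (v : ℕ → ℂ) :
    ∑ t ∈ Fintype.piFinset (fun _ : Fin (m + 1) => Icc 1 X), (∏ l, f l (t l)) * v (∏ l, t l) =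
      ∑ q ∈ Fintype.piFinset (fun _ : Fin m => Icc 1 X), (∏ l, f (Fin.succ l) (q l)) *
        ∑ p ∈ Icc 1 X, f 0 p * v (p * ∏ l, q l) := by
  have h1 : ∀ q : Fin m → ℕ, (∏ l, f (Fin.succ l) (q l)) *
      ∑ p ∈ Icc 1 X, f 0 p * v (p * ∏ l, q l) =
      ∑ p ∈ Icc 1 X, (∏ l, f (Fin.succ l) (q l)) * (f 0 p * v (p * ∏ l, q l)) :=
    fun q => mul_sum _ _ _
  rw [sum_congr rfl (fun q _ => h1 q), ← sum_product']
  refine sum_nbij' (fun t => (Fin.tail t, t 0)) (fun z => Fin.cons z.2 z.1) ?_ ?_ ?_ ?_ ?_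
  · intro t ht
    rw [mem_product]
    exact ⟨Fintype.mem_piFinset.2 fun l => Fintype.mem_piFinset.1 ht (Fin.succ l),
      Fintype.mem_piFinset.1 ht 0⟩
  · intro z hz
    rw [mem_product] at hz
    rw [Fintype.mem_piFinset]
    intro l
    refine Fin.cases ?_ (fun i => ?_) l
    · rw [Fin.cons_zero]
      exact hz.2
    · rw [Fin.cons_succ]
      exact Fintype.mem_piFinset.1 hz.1 i
  · intro t _
    exact Fin.cons_self_tail t
  · intro z _
    simp
  · intro t _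
    simp only [Fin.prod_univ_succ, Fin.tail]
    ring

private theorem lwB_inner {r J j A' B : ℕ} (χ : DirichletCharacter ℂ r) (lo hi : ℝ) (X d : ℕ)
    (lam M0 T : ℝ) (hd : 1 ≤ d) (hlam : 0 < lam) (hT : 0 ≤ T)
    (hM0 : ∀ M : ℝ, M0 ≤ M → (r : ℝ) ≤ Real.log M ^ B → ∀ M1 M2 : ℕ, (M2 : ℝ) ≤ M →
      ‖∑ n ∈ (Ioc M1 M2).filter Nat.Prime, χ (n : ZMod r) * pz (-0) n‖ ≤
        M / Real.log M ^ A')
    (hlo : (J : ℝ) ^ (1 / 12 : ℝ) ≤ lo) (hJM : M0 ≤ (J : ℝ) ^ (1 / 12 : ℝ))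
    (hcond : ∀ M : ℝ, (J : ℝ) ^ (1 / 12 : ℝ) ≤ M → (r : ℝ) ≤ Real.log M ^ B ∧
      M / Real.log M ^ A' ≤ M * T) :
    ‖∑ p ∈ Icc 1 X, lwB_I lo hi p * (if p * d ≤ X then χ ((p * d : ℕ) : ZMod r) *
      ((wL lam j (p * d) : ℝ) : ℂ) else 0)‖ ≤ 3 * ((X : ℝ) / d * T) := by
  classical
  have hd0 : (0 : ℝ) < d := by exact_mod_cast hd
  -- rewrite the sum
  have e1 : ∑ p ∈ Icc 1 X, lwB_I lo hi p * (if p * d ≤ X then χ ((p * d : ℕ) : ZMod r) *
      ((wL lam j (p * d) : ℝ) : ℂ) else 0) =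
      χ (d : ZMod r) * ∑ p ∈ Icc 1 (X / d), (lwB_I lo hi p * χ (p : ZMod r)) *
        ((tri (lam * Real.log ((d : ℝ) * p / ((j : ℝ) + 1 / 2) ^ 3)) : ℝ) : ℂ) := by
    have h1 : ∑ p ∈ Icc 1 X, lwB_I lo hi p * (if p * d ≤ X then χ ((p * d : ℕ) : ZMod r) *
        ((wL lam j (p * d) : ℝ) : ℂ) else 0) =
        ∑ p ∈ Icc 1 (X / d), lwB_I lo hi p * (if p * d ≤ X then χ ((p * d : ℕ) : ZMod r) *
        ((wL lam j (p * d) : ℝ) : ℂ) else 0) := by
      symm
      apply sum_subset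
      · intro p hp
        rw [mem_Icc] at hp ⊢
        exact ⟨hp.1, hp.2.trans (Nat.div_le_self _ _)⟩
      · intro p hp hp2
        rw [mem_Icc] at hp hp2
        rw [if_neg, mul_zero]
        intro h
        exact hp2 ⟨hp.1, (Nat.le_div_iff_mul_le (by omega)).2 h⟩
    rw [h1, mul_sum]
    apply sum_congr rfl
    intro p hp
    rw [mem_Icc] at hp
    rw [if_pos ((Nat.le_div_iff_mul_le (by omega)).1 hp.2)]
    unfold wL
    rw [Nat.cast_mul, map_mul, Nat.cast_mul, mul_comm (p : ℝ) (d : ℝ)]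
    ring
  rw [e1, norm_mul]
  have h2 : ‖χ (d : ZMod r)‖ ≤ 1 := DirichletCharacter.norm_le_one χ _
  have h3 : ‖∑ p ∈ Icc 1 (X / d), (lwB_I lo hi p * χ (p : ZMod r)) *
      ((tri (lam * Real.log ((d : ℝ) * p / ((j : ℝ) + 1 / 2) ^ 3)) : ℝ) : ℂ)‖ ≤
      3 * ((X : ℝ) / d * T) := by
    apply lwB_abel (fun p => lwB_I lo hi p * χ (p : ZMod r)) lam _ _ _ hlam (by positivity) hd0
    intro m hm
    have hmX : (m : ℝ) ≤ (X : ℝ) / d := by
      rw [le_div_iff₀ hd0]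
      have := (Nat.le_div_iff_mul_le (by omega)).1 hm
      exact_mod_cast this
    by_cases hJ : (J : ℝ) ^ (1 / 12 : ℝ) ≤ (X : ℝ) / d
    · obtain ⟨c1, c2⟩ := hcond _ hJ
      have h4 := hM0 _ (hJM.trans hJ) c1 (⌈lo⌉₊ - 1) (min ⌊hi⌋₊ m)
        ((Nat.cast_le.2 (min_le_right _ _)).trans hmX)
      have h5 : ∑ n ∈ Icc 1 m, lwB_I lo hi n * χ (n : ZMod r) =
          ∑ n ∈ (Ioc (⌈lo⌉₊ - 1) (min ⌊hi⌋₊ m)).filter Nat.Prime,
            χ (n : ZMod r) * pz (-0) n := by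
        have h6 : ∀ n ∈ Icc 1 m, lwB_I lo hi n * χ (n : ZMod r) =
            if (n.Prime ∧ lo ≤ (n : ℝ) ∧ (n : ℝ) ≤ hi) then χ (n : ZMod r) else 0 := by
          intro n _
          unfold lwB_I
          rw [ite_mul, one_mul, zero_mul]
        rw [sum_congr rfl h6, ← sum_filter]
        apply sum_congr
        · ext n
          simp only [mem_filter, mem_Icc, mem_Ioc, le_min_iff]
          constructor
          · rintro ⟨⟨g1, g2⟩, g3, g4, g5⟩
            refine ⟨⟨?_, ?_, g2⟩, g3⟩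
            · have := Nat.ceil_le.2 g4
              omega
            · exact Nat.le_floor g5
          · rintro ⟨⟨g1, g2, g3⟩, g4⟩
            refine ⟨⟨g4.one_le, g3⟩, g4, ?_, ?_⟩
            · rw [← Nat.ceil_le]
              have := g4.one_le
              omega
            · exact (Nat.le_floor_iff' g4.ne_zero).1 g2
        · intro n _
          unfold pz
          simp
      rw [h5]
      exact h4.trans c2
    · rw [not_le] at hJ
      have h5 : ∑ n ∈ Icc 1 m, lwB_I lo hi n * χ (n : ZMod r) = 0 := by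
        apply sum_eq_zero
        intro n hn
        rw [mem_Icc] at hn
        unfold lwB_I
        rw [if_neg, zero_mul]
        rintro ⟨-, h6, -⟩
        have h7 : (n : ℝ) ≤ m := by exact_mod_cast hn.2
        linarith only [h6, h7, hmX, hJ, hlo]
      rw [h5, norm_zero]
      positivity
  calc ‖χ (d : ZMod r)‖ * _ ≤ 1 * (3 * ((X : ℝ) / d * T)) :=
        mul_le_mul h2 h3 (norm_nonneg _) zero_le_one
    _ = 3 * ((X : ℝ) / d * T) := one_mul _

private theorem lwB_harm (m X : ℕ) (H : ℝ) (hH : ∑ n ∈ Icc 1 X, (1 : ℝ) / n ≤ H) :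
    ∑ q ∈ Fintype.piFinset (fun _ : Fin m => Icc 1 X), (1 : ℝ) / ((∏ l, q l : ℕ) : ℝ) ≤ H ^ m := by
  have h1 := Finset.prod_univ_sum (fun _ : Fin m => Icc 1 X) (fun _ n => (1 : ℝ) / (n : ℝ))
  have h2 : ∑ q ∈ Fintype.piFinset (fun _ : Fin m => Icc 1 X), (1 : ℝ) / ((∏ l, q l : ℕ) : ℝ) =
      ∏ _l : Fin m, ∑ n ∈ Icc 1 X, (1 : ℝ) / n := by
    rw [h1]
    apply sum_congr rfl
    intro q _
    rw [Nat.cast_prod, prod_div_distrib, prod_const_one]
  rw [h2, prod_const, card_univ, Fintype.card_fin]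
  apply pow_le_pow_left₀ _ hH
  exact sum_nonneg fun n _ => by positivity

private theorem lwB_H {J : ℕ} (hJ : 1 ≤ J) (hL : 5 ≤ Real.log J) :
    ∑ n ∈ Icc 1 (27 * J ^ 3), (1 : ℝ) / (n : ℕ) ≤ 5 * Real.log J := by
  have hJ0 : (0 : ℝ) < J := by exact_mod_cast hJ
  have h1 := harmonic_le_one_add_log (27 * J ^ 3)
  have h2 : ((harmonic (27 * J ^ 3) : ℚ) : ℝ) = ∑ n ∈ Icc 1 (27 * J ^ 3), (1 : ℝ) / (n : ℕ) := by
    rw [harmonic_eq_sum_Icc]
    push_cast
    apply sum_congr rfl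
    intro n _
    rw [one_div]
  rw [h2] at h1
  refine h1.trans ?_
  push_cast
  rw [Real.log_mul (by norm_num) (by positivity), Real.log_pow]
  have h4 : Real.log 27 ≤ 4 := by
    rw [Real.log_le_iff_le_exp (by norm_num)]
    have h5 : Real.exp 4 = Real.exp 1 ^ 4 := by rw [← Real.exp_nat_mul]; norm_num
    rw [h5]
    have h6 : (2.7 : ℝ) ≤ Real.exp 1 := by
      have := Real.exp_one_gt_d9
      linarith only [this]
    calc (27 : ℝ) ≤ 2.7 ^ 4 := by norm_num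
      _ ≤ Real.exp 1 ^ 4 := pow_le_pow_left₀ (by norm_num) h6 4
  push_cast
  linarith only [h4, hL]

theorem p_lwB : S_lwB := by
  classical
  intro hpwp k lo hi hbox A B E
  obtain ⟨m, rfl⟩ : ∃ m, k = m + 1 := ⟨k - 1, by have := hbox.k5; omega⟩
  obtain ⟨C0, hC0⟩ := hpwp (A + m + 2) (B + 1) 1 le_rfl
  obtain ⟨M0, hM0⟩ := eventually_atTop.1 hC0
  have hlog : Tendsto (fun J : ℕ => Real.log J) atTop atTop :=
    Real.tendsto_log_atTop.comp tendsto_natCast_atTop_atTop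
  have hpow : Tendsto (fun J : ℕ => (J : ℝ) ^ (1 / 12 : ℝ)) atTop atTop :=
    (tendsto_rpow_atTop (by norm_num)).comp tendsto_natCast_atTop_atTop
  filter_upwards [hbox.lo, hbox.hi, eventually_ge_atTop 1,
    hlog.eventually_ge_atTop 5, hlog.eventually_ge_atTop (12 ^ (B + 1) : ℝ),
    hlog.eventually_ge_atTop (81 * 12 ^ (A + m + 2) * 5 ^ m : ℝ),
    hpow.eventually_ge_atTop (max M0 1)]
    with J hlo hhi hJ1 hL5 hLB hLA hM j r χ hj hr hrB hχ
  have hJ0 : (0 : ℝ) < J := by exact_mod_cast hJ1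
  have hL0 : 0 < Real.log J := by linarith only [hL5]
  have hM0J : M0 ≤ (J : ℝ) ^ (1 / 12 : ℝ) := (le_max_left _ _).trans hM
  set X := 27 * J ^ 3 with hX
  set L := Real.log J with hL
  set lam : ℝ := L ^ E with hlam
  have hlam0 : 0 < lam := by positivity
  set T : ℝ := 12 ^ (A + m + 2) / L ^ (A + m + 2) with hT
  have hT0 : 0 ≤ T := by positivity
  have hlogM : ∀ M : ℝ, (J : ℝ) ^ (1 / 12 : ℝ) ≤ M → L / 12 ≤ Real.log M := by
    intro M hJM
    have h1 := Real.log_le_log (by positivity) hJM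
    rw [Real.log_rpow hJ0] at h1
    linarith only [h1]
  have hcond : ∀ M : ℝ, (J : ℝ) ^ (1 / 12 : ℝ) ≤ M → (r : ℝ) ≤ Real.log M ^ (B + 1) ∧
      M / Real.log M ^ (A + m + 2) ≤ M * T := by
    intro M hJM
    have h1 := hlogM M hJM
    have hMpos : 0 < M := lt_of_lt_of_le (by positivity) hJM
    constructor
    · have h2 : L ^ B ≤ (L / 12) ^ (B + 1) := by
        rw [div_pow, le_div_iff₀ (by positivity), pow_succ L B]
        exact mul_le_mul_of_nonneg_left hLB (by positivity)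
      exact hrB.trans (h2.trans (pow_le_pow_left₀ (by positivity) h1 _))
    · rw [div_eq_mul_inv]
      apply mul_le_mul_of_nonneg_left _ hMpos.le
      have h3 : (L / 12) ^ (A + m + 2) ≤ Real.log M ^ (A + m + 2) :=
        pow_le_pow_left₀ (by positivity) h1 _
      have h4 : (Real.log M ^ (A + m + 2))⁻¹ ≤ ((L / 12) ^ (A + m + 2))⁻¹ :=
        inv_anti₀ (by positivity) h3
      refine h4.trans (le_of_eq ?_)
      rw [hT, div_pow, inv_div]
  have hsum := lwB_exp (m + 1) X (lo J) (hi J)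
    (fun n => χ (n : ZMod r) * ((wL lam j n : ℝ) : ℂ))
  rw [hsum, lwB_split m X (fun l n => lwB_I (lo J l) (hi J l) n)
    (fun n => if n ≤ X then χ (n : ZMod r) * ((wL lam j n : ℝ) : ℂ) else 0)]
  have hterm : ∀ q ∈ Fintype.piFinset (fun _ : Fin m => Icc 1 X),
      ‖(∏ l : Fin m, lwB_I (lo J (Fin.succ l)) (hi J (Fin.succ l)) (q l)) *
        ∑ p ∈ Icc 1 X, lwB_I (lo J 0) (hi J 0) p *
          (if p * ∏ l, q l ≤ X then χ ((p * ∏ l, q l : ℕ) : ZMod r) *
            ((wL lam j (p * ∏ l, q l) : ℝ) : ℂ) else 0)‖ ≤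
        3 * (X * T) * (1 / ((∏ l, q l : ℕ) : ℝ)) := by
    intro q hq
    have hd : 1 ≤ ∏ l, q l := lwB_prod1 q fun l => (mem_Icc.1 (Fintype.mem_piFinset.1 hq l)).1
    rw [norm_mul]
    have h1 : ‖∏ l : Fin m, lwB_I (lo J (Fin.succ l)) (hi J (Fin.succ l)) (q l)‖ ≤ 1 := by
      rw [norm_prod]
      apply prod_le_one
      · intro l _
        exact norm_nonneg _
      · intro l _
        exact lwB_I_norm _ _ _
    have h2 := lwB_inner (J := J) (j := j) (A' := A + m + 2) (B := B + 1) χ (lo J 0) (hi J 0) X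
      (∏ l, q l) lam M0 T hd hlam0 hT0 (by
        intro M hMM hrM M1 M2 hM2
        by_cases hM1 : 0 < M
        · exact hM0 M hMM r χ (by omega) hrM hχ 0 (by rw [abs_zero]; positivity) (Or.inl hr)
            M1 M2 hM2
        · have hM2' : M2 = 0 := by
            have h3 : (M2 : ℝ) ≤ 0 := hM2.trans (not_lt.1 hM1)
            have h4 : (M2 : ℝ) = 0 := le_antisymm h3 (Nat.cast_nonneg _)
            exact_mod_cast h4
          have h0 : M = 0 := le_antisymm (not_lt.1 hM1) ((Nat.cast_nonneg _).trans hM2)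
          rw [hM2', h0]
          simp) (hlo 0) hM0J hcond
    calc _ ≤ 1 * (3 * ((X : ℝ) / ((∏ l, q l : ℕ) : ℝ) * T)) :=
          mul_le_mul h1 h2 (norm_nonneg _) zero_le_one
      _ = 3 * (X * T) * (1 / ((∏ l, q l : ℕ) : ℝ)) := by ring
  refine (norm_sum_le _ _).trans ((sum_le_sum hterm).trans ?_)
  rw [← mul_sum]
  have h5 := lwB_harm m X (5 * L) (lwB_H hJ1 hL5)
  calc 3 * (X * T) * ∑ q ∈ Fintype.piFinset (fun _ : Fin m => Icc 1 X),
        (1 : ℝ) / ((∏ l, q l : ℕ) : ℝ) ≤ 3 * (X * T) * (5 * L) ^ m :=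
        mul_le_mul_of_nonneg_left h5 (by positivity)
    _ = (81 * 12 ^ (A + m + 2) * 5 ^ m) * ((J : ℝ) ^ 3 * L ^ m / L ^ (A + m + 2)) := by
        rw [hX, hT, mul_pow]
        push_cast
        ring
    _ ≤ L * ((J : ℝ) ^ 3 * L ^ m / L ^ (A + m + 2)) :=
        mul_le_mul_of_nonneg_right hLA (by positivity)
    _ = (J : ℝ) ^ 3 / L ^ (A + 1) := by
        rw [show A + m + 2 = (m + 1) + (A + 1) by ring, pow_add L (m + 1) (A + 1), pow_succ L m]
        field_simp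
    _ ≤ (J : ℝ) ^ 3 / L ^ A := by
        apply div_le_div_of_nonneg_left (by positivity) (by positivity)
        exact pow_le_pow_right₀ (by linarith only [hL5]) (by omega)

end Pool.Agent.CA.SC
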