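import Pool.Agent.Lib.MP_d610d0_nt.CA.SC.Stm2

set_option autoImplicit false

/-!
[CA SC lwL] Long windows for `Λ` twisted by `χ`.
-/

namespace Pool.Agent.CA.SC

open Finset Filter
open ArithmeticFunction (vonMangoldt moebius)
open Pool.Agent.MP89da58 (tri)
open Pool.Agent.CH (wJ wL)
open Pool.Agent.CH.V (pz ex)
open Pool.Agent.CH.P (R_PW)

private theorem lwL_mono {a b : ℝ} (h : |b| ≤ |a|) : tri a ≤ tri b := by
  unfold tri
  exact max_le_max le_rfl (by linarith)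

private theorem lwL_nonneg (a : ℝ) : 0 ≤ tri a := le_max_left _ _

private theorem lwL_le_one (a : ℝ) : tri a ≤ 1 := by
  unfold tri
  exact max_le (by norm_num) (by linarith [abs_nonneg a])

private theorem lwL_up (c X : ℝ) (hc : 0 ≤ c) (n : ℕ) (hn : 1 ≤ n)
    (h : ((n + 1 : ℕ) : ℝ) ≤ X) :
    tri (c * Real.log ((n : ℝ) / X)) ≤ tri (c * Real.log (((n + 1 : ℕ) : ℝ) / X)) := by
  have h0 : (0 : ℝ) < (n : ℝ) := by exact_mod_cast hn
  have h1 : (n : ℝ) ≤ ((n + 1 : ℕ) : ℝ) := by exact_mod_cast Nat.le_succ n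
  have hX : 0 < X := lt_of_lt_of_le (lt_of_lt_of_le h0 h1) h
  have e1 : Real.log ((n : ℝ) / X) ≤ Real.log (((n + 1 : ℕ) : ℝ) / X) :=
    Real.log_le_log (div_pos h0 hX) (div_le_div_of_nonneg_right h1 hX.le)
  have e2 : Real.log (((n + 1 : ℕ) : ℝ) / X) ≤ 0 :=
    Real.log_nonpos (div_nonneg (h0.le.trans h1) hX.le) ((div_le_one hX).2 h)
  apply lwL_mono
  rw [abs_mul, abs_mul, abs_of_nonneg hc, abs_of_nonpos e2, abs_of_nonpos (e1.trans e2)]
  exact mul_le_mul_of_nonneg_left (by linarith) hc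

private theorem lwL_down (c X : ℝ) (hc : 0 ≤ c) (hX : 0 < X) (n : ℕ)
    (h : X < (n : ℝ)) :
    tri (c * Real.log (((n + 1 : ℕ) : ℝ) / X)) ≤ tri (c * Real.log ((n : ℝ) / X)) := by
  have h0 : (0 : ℝ) < (n : ℝ) := hX.trans h
  have h1 : (n : ℝ) ≤ ((n + 1 : ℕ) : ℝ) := by exact_mod_cast Nat.le_succ n
  have e1 : Real.log ((n : ℝ) / X) ≤ Real.log (((n + 1 : ℕ) : ℝ) / X) :=
    Real.log_le_log (div_pos h0 hX) (div_le_div_of_nonneg_right h1 hX.le)
  have e2 : 0 ≤ Real.log ((n : ℝ) / X) := Real.log_nonneg ((one_le_div hX).2 h.le)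
  apply lwL_mono
  rw [abs_mul, abs_mul, abs_of_nonneg hc, abs_of_nonneg e2, abs_of_nonneg (e2.trans e1)]
  exact mul_le_mul_of_nonneg_left e1 hc

/-- the variation of the window -/
private theorem lwL_var (c X : ℝ) (hc : 0 ≤ c) (hX : 0 < X) (g : ℕ → ℝ)
    (hg : ∀ n : ℕ, g n = tri (c * Real.log ((n : ℝ) / X))) (N : ℕ) (hN : 1 ≤ N) :
    ((N : ℝ) ≤ X → ∑ n ∈ Ico 1 N, |g n - g (n + 1)| ≤ g N) ∧
      (X < (N : ℝ) → ∑ n ∈ Ico 1 N, |g n - g (n + 1)| + g N ≤ 3) := by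
  have g0 : ∀ n, 0 ≤ g n := fun n => by rw [hg]; exact lwL_nonneg _
  have g1 : ∀ n, g n ≤ 1 := fun n => by rw [hg]; exact lwL_le_one _
  induction N, hN using Nat.le_induction with
  | base =>
    rw [Ico_self, sum_empty]
    exact ⟨fun _ => g0 1, fun _ => by linarith [g1 1]⟩
  | succ N hN ih =>
    rw [sum_Ico_succ_top hN]
    have hle : (N : ℝ) ≤ ((N + 1 : ℕ) : ℝ) := by exact_mod_cast Nat.le_succ N
    refine ⟨fun h => ?_, fun h => ?_⟩
    · have hm : g N ≤ g (N + 1) := by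
        rw [hg, hg]
        exact lwL_up c X hc N hN h
      have := ih.1 (hle.trans h)
      rw [abs_of_nonpos (by linarith)]
      linarith
    · rcases le_or_gt (N : ℝ) X with h2 | h2
      · have h3 := ih.1 h2
        have h4 : |g N - g (N + 1)| ≤ 1 := by
          rw [abs_le]
          constructor
          · linarith [g0 N, g1 (N + 1)]
          · linarith [g1 N, g0 (N + 1)]
        linarith [g1 N, g1 (N + 1)]
      · have hm : g (N + 1) ≤ g N := by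
          rw [hg, hg]
          exact lwL_down c X hc hX N h2
        have := ih.2 h2
        rw [abs_of_nonneg (by linarith)]
        linarith

private theorem lwL_var' (c X : ℝ) (hc : 0 ≤ c) (hX : 0 < X) (g : ℕ → ℝ)
    (hg : ∀ n : ℕ, g n = tri (c * Real.log ((n : ℝ) / X))) (N : ℕ) (hN : 1 ≤ N) :
    ∑ n ∈ Ico 1 N, |g n - g (n + 1)| + g N ≤ 3 := by
  have h := lwL_var c X hc hX g hg N hN
  have g1 : g N ≤ 1 := by rw [hg]; exact lwL_le_one _
  rcases le_or_gt (N : ℝ) X with h2 | h2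
  · linarith [h.1 h2]
  · exact h.2 h2

/-- Abel summation -/
private theorem lwL_abel (x : ℕ → ℂ) (g : ℕ → ℝ) (N : ℕ) :
    ∑ n ∈ Icc 1 N, x n * (g n : ℂ) =
      (∑ m ∈ Icc 1 N, x m) * (g N : ℂ) +
        ∑ n ∈ range N, (∑ m ∈ Icc 1 n, x m) * ((g n - g (n + 1) : ℝ) : ℂ) := by
  induction N with
  | zero => simp
  | succ N ih =>
    rw [sum_Icc_succ_top (by omega), ih, sum_Icc_succ_top (by omega), sum_range_succ]
    push_cast
    ring

private theorem lwL_abel_le (x : ℕ → ℂ) (g : ℕ → ℝ) (r : ℝ) (N : ℕ) (hN : 1 ≤ N)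
    (hx : ∀ N' ≤ N, ‖∑ m ∈ Icc 1 N', x m‖ ≤ r) :
    ‖∑ n ∈ Icc 1 N, x n * (g n : ℂ)‖ ≤
      r * (∑ n ∈ Ico 1 N, |g n - g (n + 1)| + |g N|) := by
  rw [lwL_abel]
  refine (norm_add_le _ _).trans ?_
  have h1 : ‖(∑ m ∈ Icc 1 N, x m) * (g N : ℂ)‖ ≤ r * |g N| := by
    rw [norm_mul, Complex.norm_real, Real.norm_eq_abs]
    exact mul_le_mul_of_nonneg_right (hx N le_rfl) (abs_nonneg _)
  have h2 : ‖∑ n ∈ range N, (∑ m ∈ Icc 1 n, x m) * ((g n - g (n + 1) : ℝ) : ℂ)‖ ≤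
      r * ∑ n ∈ Ico 1 N, |g n - g (n + 1)| := by
    rw [range_eq_Ico, sum_eq_sum_Ico_succ_bot (by omega), mul_sum]
    simp only [Icc_eq_empty_of_lt Nat.zero_lt_one, sum_empty, zero_mul, zero_add]
    refine (norm_sum_le _ _).trans (sum_le_sum fun n hn => ?_)
    rw [mem_Ico] at hn
    rw [norm_mul, Complex.norm_real, Real.norm_eq_abs]
    exact mul_le_mul_of_nonneg_right (hx n (by omega)) (abs_nonneg _)
  linarith

private theorem lwL_Icc (x : ℕ → ℂ) (N : ℕ) : ∑ m ∈ Icc 1 N, x m = ∑ m ∈ Ioc 0 N, x m := rfl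

theorem p_lwL : S_lwL := by
  intro hPW A B E
  obtain ⟨C0, hC0⟩ := hPW (A + 1) B 1 le_rfl
  have hM : Tendsto (fun J : ℕ => 27 * (J : ℝ) ^ 3) atTop atTop :=
    ((tendsto_pow_atTop (by norm_num)).comp tendsto_natCast_atTop_atTop).const_mul_atTop
      (by norm_num)
  have hL : Tendsto (fun J : ℕ => Real.log (J : ℝ)) atTop atTop :=
    Real.tendsto_log_atTop.comp tendsto_natCast_atTop_atTop
  filter_upwards [hM.eventually hC0, hL.eventually_ge_atTop 81, eventually_ge_atTop 1]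
    with J hJ hLJ hJ1 j r χ hj hr hrB hχ
  have hJ0 : (1 : ℝ) ≤ J := by exact_mod_cast hJ1
  have hlog : Real.log (J : ℝ) ≤ Real.log (27 * (J : ℝ) ^ 3) := by
    apply Real.log_le_log (by linarith)
    have h1 : (J : ℝ) ≤ (J : ℝ) ^ 3 := le_self_pow₀ hJ0 (by norm_num)
    have h2 : 0 ≤ (J : ℝ) ^ 3 := by positivity
    linarith
  have hL0 : 0 < Real.log (J : ℝ) := by linarith
  have hX : (0 : ℝ) < ((j : ℝ) + 1 / 2) ^ 3 := by positivity
  have hN : 1 ≤ 27 * J ^ 3 := by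
    have : 0 < J ^ 3 := by positivity
    omega
  -- sums over initial segments
  have hx : ∀ N' ≤ 27 * J ^ 3, ‖∑ m ∈ Icc 1 N', ((vonMangoldt m : ℝ) : ℂ) * χ (m : ZMod r)‖ ≤
      27 * (J : ℝ) ^ 3 / (Real.log J) ^ (A + 1) := by
    intro N' hN'
    have h1 := hJ r χ (by omega)
      (hrB.trans (pow_le_pow_left₀ hL0.le hlog B)) hχ 0 (by
        rw [abs_zero, Real.rpow_one]; positivity) (Or.inl hr) 0 N' (by exact_mod_cast hN')
    have h2 : ∀ n ∈ Ioc 0 N', (vonMangoldt n : ℂ) * χ (n : ZMod r) * pz (-0) n =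
        ((vonMangoldt n : ℝ) : ℂ) * χ (n : ZMod r) := by
      intro n _
      have : pz (-0) n = 1 := by simp [pz]
      rw [this, mul_one]
    rw [Finset.sum_congr rfl h2] at h1
    rw [lwL_Icc]
    refine h1.trans ?_
    apply div_le_div_of_nonneg_left (by positivity) (by positivity)
    exact pow_le_pow_left₀ hL0.le hlog _
  have hg : ∀ n : ℕ, wL ((Real.log J) ^ E) j n =
      tri ((Real.log J) ^ E * Real.log ((n : ℝ) / ((j : ℝ) + 1 / 2) ^ 3)) := fun n => rfl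
  have hV := lwL_var' ((Real.log J) ^ E) _ (by positivity) hX
    (fun n => wL ((Real.log J) ^ E) j n) hg (27 * J ^ 3) hN
  have h := lwL_abel_le (fun m => ((vonMangoldt m : ℝ) : ℂ) * χ (m : ZMod r))
    (fun n => wL ((Real.log J) ^ E) j n) _ (27 * J ^ 3) hN hx
  have e : ∑ n ∈ Icc 1 (27 * J ^ 3), ((vonMangoldt n : ℝ) : ℂ) *
      (χ (n : ZMod r) * (wL ((Real.log J) ^ E) j n : ℂ)) =
      ∑ n ∈ Icc 1 (27 * J ^ 3), ((vonMangoldt n : ℝ) : ℂ) * χ (n : ZMod r) *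
        (wL ((Real.log J) ^ E) j n : ℂ) := Finset.sum_congr rfl fun n _ => (mul_assoc _ _ _).symm
  rw [e]
  refine h.trans ?_
  have g0 : 0 ≤ wL ((Real.log J) ^ E) j (27 * J ^ 3) := by rw [hg]; exact lwL_nonneg _
  rw [abs_of_nonneg g0]
  have h0 : 0 ≤ 27 * (J : ℝ) ^ 3 / (Real.log J) ^ (A + 1) := by positivity
  refine (mul_le_mul_of_nonneg_left hV h0).trans ?_
  rw [div_mul_eq_mul_div, div_le_div_iff₀ (by positivity) (by positivity),
    pow_succ (Real.log (J : ℝ)) A]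
  have h3 : 0 ≤ (J : ℝ) ^ 3 * (Real.log J) ^ A := by positivity
  nlinarith

end Pool.Agent.CA.SC
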