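import Pool.Agent.Lib.MP_d610d0_nt.CA.SC.Stm

set_option autoImplicit false

/-!
Piece mEu: the small primes.
-/

namespace Pool.Agent.CA.SC

open Finset Filter
open ArithmeticFunction (vonMangoldt moebius)
open Pool.Agent.MP89da58.S (Lj)
open Pool.Agent.CH.P (R_mer2 PP sp)

/-- The arithmetic function `n ↦ n^a`. -/
private noncomputable def mEu_f (a : ℝ) : ArithmeticFunction ℝ :=
  ⟨fun n => if n = 0 then 0 else (n : ℝ) ^ a, by simp⟩

private theorem mEu_f_mult (a : ℝ) : (mEu_f a).IsMultiplicative := by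
  refine ⟨by simp [mEu_f], ?_⟩
  intro m n _
  by_cases hm : m = 0
  · simp [mEu_f, hm]
  by_cases hn : n = 0
  · simp [mEu_f, hn]
  · simp only [mEu_f, ArithmeticFunction.coe_mk, hm, hn, mul_eq_zero, or_self, if_false]
    push_cast
    exact Real.mul_rpow (Nat.cast_nonneg _) (Nat.cast_nonneg _)

private theorem mEu_prod (a : ℝ) (N : ℕ) :
    ∑ d ∈ (primorial N).divisors, (d : ℝ) ^ a = ∏ p ∈ Nat.primesLE N, (1 + (p : ℝ) ^ a) := by
  have h := (mEu_f_mult a).prodPrimeFactors_one_add_of_squarefree (squarefree_primorial N)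
  rw [primeFactors_primorial] at h
  have h1 : ∏ p ∈ Nat.primesLE N, (1 + mEu_f a p) = ∏ p ∈ Nat.primesLE N, (1 + (p : ℝ) ^ a) := by
    refine Finset.prod_congr rfl fun p hp => ?_
    have : p ≠ 0 := by
      have := (Nat.mem_primesLE.1 hp).2.ne_zero
      exact this
    simp [mEu_f, this]
  have h2 : ∑ d ∈ (primorial N).divisors, mEu_f a d = ∑ d ∈ (primorial N).divisors, (d : ℝ) ^ a := by
    refine Finset.sum_congr rfl fun p hp => ?_
    have : p ≠ 0 := (Nat.pos_of_mem_divisors hp).ne'
    simp [mEu_f, this]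
  rw [← h1, ← h2, h]

/-- Rankin's bound. -/
private theorem mEu_rankin (h : R_mer2) : ∃ C : ℝ, 1 ≤ C ∧ ∀ l : ℝ, 1 ≤ l →
    ∑ d ∈ (PP l).divisors, (d : ℝ) ^ (1 / l ^ (9 / 10 : ℝ) - 1) ≤ C * (l ^ (9 / 10 : ℝ)) ^ 3 := by
  obtain ⟨C0, hC0⟩ := h
  have hl2 : (0 : ℝ) < Real.log 2 := Real.log_pos one_lt_two
  set C1 : ℝ := 1 / 2 + (-Real.log (Real.log 2)) + |C0| / Real.log 2 with hC1
  refine ⟨Real.exp (Real.exp 1 * |C1|), Real.one_le_exp (by positivity), ?_⟩
  intro l hl
  have hl0 : (0 : ℝ) < l := by linarith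
  set M : ℝ := l ^ (9 / 10 : ℝ) with hM
  have hM1 : 1 ≤ M := Real.one_le_rpow hl (by norm_num)
  have hM0 : 0 < M := by linarith
  set N : ℕ := ⌊Real.exp M⌋₊ with hN
  -- the product
  have step2 : ∑ d ∈ (PP l).divisors, (d : ℝ) ^ (1 / M - 1)
      ≤ Real.exp (Real.exp 1 * ∑ p ∈ Nat.primesLE N, (1 : ℝ) / p) := by
    have e0 : PP l = primorial N := rfl
    rw [e0, mEu_prod, Finset.mul_sum, Real.exp_sum]
    refine Finset.prod_le_prod (fun p _ => by positivity) fun p hp => ?_
    have hp' := Nat.mem_primesLE.1 hp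
    have hp0 : (0 : ℝ) < p := by exact_mod_cast hp'.2.pos
    have hpN : (p : ℝ) ≤ Real.exp M := by
      have h1 : (p : ℝ) ≤ N := by exact_mod_cast hp'.1
      exact h1.trans (Nat.floor_le (Real.exp_pos _).le)
    have e1 : (p : ℝ) ^ (1 / M - 1) = Real.exp (Real.log p / M) * (1 / p) := by
      rw [Real.rpow_sub hp0, Real.rpow_one, Real.rpow_def_of_pos hp0]
      rw [mul_one_div, div_eq_mul_one_div]
    have h2 : Real.log p / M ≤ 1 := by
      rw [div_le_one hM0]
      exact (Real.log_le_iff_le_exp hp0).2 hpN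
    have h3 : Real.exp (Real.log p / M) ≤ Real.exp 1 := Real.exp_le_exp.2 h2
    have h4 : (0 : ℝ) ≤ 1 / p := by positivity
    calc 1 + (p : ℝ) ^ (1 / M - 1) ≤ 1 + Real.exp 1 * (1 / p) := by
          rw [e1]; gcongr
      _ ≤ Real.exp (Real.exp 1 * (1 / p)) := by
          have := Real.add_one_le_exp (Real.exp 1 * (1 / p))
          linarith
  -- Mertens
  have hN2 : 2 ≤ N := by
    rw [hN]
    apply Nat.le_floor
    have : (2 : ℝ) ≤ Real.exp 1 := by
      have := Real.exp_one_gt_d9
      linarith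
    calc ((2 : ℕ) : ℝ) = 2 := by norm_num
      _ ≤ Real.exp 1 := this
      _ ≤ Real.exp M := Real.exp_le_exp.2 hM1
  have step3 : ∑ p ∈ Nat.primesLE N, (1 : ℝ) / p ≤ Real.log M + C1 := by
    have hsplit : Nat.primesLE N = insert 2 ((Ioc 2 N).filter Nat.Prime) := by
      ext p
      simp only [Nat.mem_primesLE, Finset.mem_insert, Finset.mem_filter, Finset.mem_Ioc]
      constructor
      · rintro ⟨h1, h2⟩
        rcases h2.two_le.eq_or_lt with h | h
        · exact Or.inl h.symm
        · exact Or.inr ⟨⟨h, h1⟩, h2⟩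
      · rintro (h | ⟨⟨_, h1⟩, h2⟩)
        · subst h; exact ⟨hN2, Nat.prime_two⟩
        · exact ⟨h1, h2⟩
    rw [hsplit, Finset.sum_insert (by simp)]
    have h1 := hC0 2 N le_rfl hN2
    have h2 : ∑ p ∈ (Ioc 2 N).filter Nat.Prime, (1 : ℝ) / p
        ≤ Real.log (Real.log N / Real.log 2) + C0 / Real.log 2 := by
      have := (abs_le.1 h1).2
      push_cast at this
      linarith
    have hNpos : (0 : ℝ) < N := by
      have : (2 : ℝ) ≤ N := by exact_mod_cast hN2
      linarith
    have hlogN : Real.log N ≤ M := by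
      rw [Real.log_le_iff_le_exp hNpos]
      exact Nat.floor_le (Real.exp_pos _).le
    have hlogN0 : 0 < Real.log N := Real.log_pos (by
      have : (2 : ℝ) ≤ N := by exact_mod_cast hN2
      linarith)
    have h3 : Real.log (Real.log N / Real.log 2) ≤ Real.log M - Real.log (Real.log 2) := by
      rw [Real.log_div hlogN0.ne' hl2.ne']
      have := Real.log_le_log hlogN0 hlogN
      linarith
    have h4 : C0 / Real.log 2 ≤ |C0| / Real.log 2 := by
      gcongr
      exact le_abs_self _
    rw [hC1]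
    push_cast
    linarith
  -- assemble
  have step4 : Real.exp (Real.exp 1 * ∑ p ∈ Nat.primesLE N, (1 : ℝ) / p)
      ≤ Real.exp (Real.exp 1 * |C1|) * M ^ 3 := by
    have e3 : (M : ℝ) ^ 3 = Real.exp (3 * Real.log M) := by
      rw [mul_comm, Real.exp_mul, Real.exp_log hM0]
      norm_cast
    rw [e3, ← Real.exp_add]
    apply Real.exp_le_exp.2
    have h1 : Real.exp 1 * ∑ p ∈ Nat.primesLE N, (1 : ℝ) / p ≤ Real.exp 1 * (Real.log M + C1) := by
      gcongr
    have h3 : 0 ≤ Real.log M := Real.log_nonneg hM1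
    have h4 : Real.exp 1 ≤ 3 := by
      have := Real.exp_one_lt_d9
      linarith
    have h5 : Real.exp 1 * Real.log M ≤ 3 * Real.log M := by
      nlinarith
    have h6 : Real.exp 1 * C1 ≤ Real.exp 1 * |C1| := by
      gcongr
      exact le_abs_self _
    nlinarith
  exact step2.trans step4

theorem p_mEu : S_mEu := by
  intro hmer k
  obtain ⟨C1, hC1, hR⟩ := mEu_rankin hmer
  have hfac : (1 : ℝ) ≤ (k.factorial : ℝ) := by exact_mod_cast Nat.one_le_iff_ne_zero.2 (Nat.factorial_ne_zero k)
  refine ⟨(k.factorial : ℝ) * C1, by nlinarith, ?_⟩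
  filter_upwards [eventually_ge_atTop (1 : ℝ)] with l hl r χ t j hj
  have hl0 : (0 : ℝ) < l := by linarith
  set M : ℝ := l ^ (9 / 10 : ℝ) with hM
  have hM1 : 1 ≤ M := Real.one_le_rpow hl (by norm_num)
  have hM0 : 0 < M := by linarith
  have hPP : PP l ≠ 0 := (primorial_pos _).ne'
  have hre : (sp l t).re = 1 + 1 / l := by
    unfold sp
    rw [Complex.add_re, Complex.ofReal_re]
    simp
  unfold Lj LSeries
  rw [tsum_eq_sum (s := (PP l).divisors)]
  · calc _ ≤ ∑ d ∈ (PP l).divisors, (k.factorial : ℝ) * M ^ j * (d : ℝ) ^ (1 / M - 1) := by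
          refine (norm_sum_le _ _).trans (Finset.sum_le_sum ?_)
          intro d hd
          have hd' := Nat.dvd_of_mem_divisors hd
          have hd0 : d ≠ 0 := (Nat.pos_of_mem_divisors hd).ne'
          have hd1 : (1 : ℝ) ≤ d := by exact_mod_cast Nat.one_le_iff_ne_zero.2 hd0
          have hdp : (0 : ℝ) < d := by linarith
          have hlog : 0 ≤ Real.log d := Real.log_nonneg hd1
          rw [LSeries.term_of_ne_zero hd0]
          beta_reduce
          rw [if_pos hd', norm_div, norm_mul, norm_mul, norm_pow,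
            Complex.norm_real, Real.norm_of_nonneg hlog,
            Complex.norm_natCast_cpow_of_pos (Nat.pos_of_ne_zero hd0), hre]
          have hmu : ‖((moebius d : ℤ) : ℂ)‖ ≤ 1 := by
            rw [Complex.norm_intCast]
            exact_mod_cast ArithmeticFunction.abs_moebius_le_one
          have hchi : ‖χ d‖ ≤ 1 := χ.norm_le_one _
          have h1 : ‖((moebius d : ℤ) : ℂ)‖ * ‖χ d‖ ≤ 1 := by
            calc _ ≤ 1 * 1 := mul_le_mul hmu hchi (norm_nonneg _) (by norm_num)
              _ = 1 := one_mul 1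
          have h2 : (Real.log d) ^ j ≤ (k.factorial : ℝ) * M ^ j * Real.exp (Real.log d / M) := by
            have h3 := Real.pow_div_factorial_le_exp (Real.log d / M) (by positivity) j
            rw [div_pow, div_div, div_le_iff₀ (by positivity)] at h3
            have h4 : (j.factorial : ℝ) ≤ k.factorial := by
              exact_mod_cast Nat.factorial_le hj
            calc _ ≤ Real.exp (Real.log d / M) * (M ^ j * j.factorial) := h3
              _ ≤ Real.exp (Real.log d / M) * (M ^ j * k.factorial) := by gcongr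
              _ = _ := by ring
          have h5 : (d : ℝ) ≤ (d : ℝ) ^ (1 + 1 / l) := by
            calc (d : ℝ) = (d : ℝ) ^ (1 : ℝ) := (Real.rpow_one _).symm
              _ ≤ (d : ℝ) ^ (1 + 1 / l) := by
                apply Real.rpow_le_rpow_of_exponent_le hd1
                have : 0 ≤ 1 / l := by positivity
                linarith
          have e1 : (d : ℝ) ^ (1 / M - 1) = Real.exp (Real.log d / M) * (1 / d) := by
            rw [Real.rpow_sub hdp, Real.rpow_one, Real.rpow_def_of_pos hdp]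
            rw [mul_one_div, div_eq_mul_one_div]
          rw [e1]
          calc (Real.log d) ^ j * (‖((moebius d : ℤ) : ℂ)‖ * ‖χ d‖) / (d : ℝ) ^ (1 + 1 / l)
              ≤ (Real.log d) ^ j * 1 / (d : ℝ) := by
                gcongr
            _ = (Real.log d) ^ j * (1 / d) := by ring
            _ ≤ ((k.factorial : ℝ) * M ^ j * Real.exp (Real.log d / M)) * (1 / d) := by
                gcongr
            _ = _ := by ring
      _ = (k.factorial : ℝ) * M ^ j * ∑ d ∈ (PP l).divisors, (d : ℝ) ^ (1 / M - 1) := by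
          rw [Finset.mul_sum]
      _ ≤ (k.factorial : ℝ) * M ^ j * (C1 * M ^ 3) := by
          apply mul_le_mul_of_nonneg_left (hR l hl) (by positivity)
      _ = _ := by ring
  · intro d hd
    rcases eq_or_ne d 0 with rfl | hd0
    · simp
    have hd' : ¬ d ∣ PP l := fun h => hd (Nat.mem_divisors.2 ⟨h, hPP⟩)
    rw [LSeries.term_of_ne_zero hd0]
    beta_reduce
    rw [if_neg hd']
    simp

end Pool.Agent.CA.SC
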