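import Pool.Agent.Lib.MP_d610d0_nt.CA.SC.Stm

set_option autoImplicit false

/-!
Piece mI of project CA, section SC: derivatives of `1/L(s, χ)` near the line `1`.
-/

namespace Pool.Agent.CA.SC

open Finset Filter
open ArithmeticFunction (vonMangoldt moebius)
open Pool.Agent.MP89da58.S (Lj)
open Pool.Agent.CH.P (R_Lb R_low R_mer2 PP sp chy)

theorem mI_ev (c e : ℝ) (he : 0 < e) : ∀ᶠ l : ℝ in atTop, c ≤ l ^ e :=
  (tendsto_rpow_atTop he).eventually_ge_atTop c

theorem mI_chy {r : ℕ} (χ : DirichletCharacter ℂ r) (P n : ℕ) :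
    chy χ P (n : ZMod (r * P)) = if n.Coprime P then χ (n : ZMod r) else 0 := by
  by_cases h : n.Coprime (r * P)
  · have h1 : n.Coprime P := Nat.Coprime.coprime_mul_left_right h
    rw [if_pos h1]
    have := DirichletCharacter.changeLevel_eq_cast_of_dvd' χ (dvd_mul_right r P) (a := (n : ℤ))
      (Nat.isCoprime_iff_coprime.2 h)
    simpa [chy] using this
  · have h0 : ¬ IsUnit ((n : ℕ) : ZMod (r * P)) := by rwa [ZMod.isUnit_iff_coprime]
    rw [chy, MulChar.map_nonunit _ h0]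
    split_ifs with h1
    · have h2 : ¬ n.Coprime r := fun h2 => h (Nat.Coprime.mul_right h2 h1)
      rw [MulChar.map_nonunit]
      rwa [ZMod.isUnit_iff_coprime]
    · rfl

theorem mI_conv {r : ℕ} (χ : DirichletCharacter ℂ r) (P n : ℕ) (hn : n ≠ 0) :
    ∑ p ∈ n.divisorsAntidiagonal,
      (if p.1 ∣ P then ((moebius p.1 : ℤ) : ℂ) * χ (p.1 : ZMod r) else 0) *
      (((moebius p.2 : ℤ) : ℂ) * chy χ P (p.2 : ZMod (r * P))) =
    ((moebius n : ℤ) : ℂ) * χ (n : ZMod r) := by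
  obtain ⟨e, he⟩ := Nat.gcd_dvd_left n P
  have hg0 : 0 < Nat.gcd n P := Nat.gcd_pos_of_pos_left _ (Nat.pos_of_ne_zero hn)
  have hgP : Nat.gcd n P ∣ P := Nat.gcd_dvd_right n P
  rw [Finset.sum_eq_single (Nat.gcd n P, e)]
  · change (if Nat.gcd n P ∣ P then ((moebius (Nat.gcd n P) : ℤ) : ℂ) *
      χ ((Nat.gcd n P : ℕ) : ZMod r) else 0) *
      (((moebius e : ℤ) : ℂ) * chy χ P (e : ZMod (r * P))) = ((moebius n : ℤ) : ℂ) * χ (n : ZMod r)
    rw [if_pos hgP, mI_chy]
    by_cases hco : e.Coprime P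
    · rw [if_pos hco]
      have hge : (Nat.gcd n P).Coprime e := (Nat.Coprime.coprime_dvd_right hgP hco).symm
      have hmu : moebius n = moebius (Nat.gcd n P) * moebius e := by
        conv_lhs => rw [he]
        exact ArithmeticFunction.isMultiplicative_moebius.map_mul_of_coprime hge
      have hchi : χ (n : ZMod r) = χ ((Nat.gcd n P : ℕ) : ZMod r) * χ (e : ZMod r) := by
        conv_lhs => rw [he]
        rw [Nat.cast_mul, map_mul]
      rw [hmu, hchi]
      push_cast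
      ring
    · rw [if_neg hco]
      obtain ⟨p, hp, hpe, hpP⟩ := Nat.Prime.not_coprime_iff_dvd.1 hco
      have hpn : p ∣ n := by
        rw [he]
        exact Dvd.dvd.mul_left hpe _
      have hpg : p ∣ Nat.gcd n P := Nat.dvd_gcd hpn hpP
      have hpp : p * p ∣ n := by
        rw [he]
        exact mul_dvd_mul hpg hpe
      have hsq : ¬ Squarefree n := by
        intro hs
        have := hs p hpp
        rw [Nat.isUnit_iff] at this
        exact hp.one_lt.ne' this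
      rw [ArithmeticFunction.moebius_eq_zero_of_not_squarefree hsq]
      simp
  · intro p hp hne
    obtain ⟨hpn, -⟩ := Nat.mem_divisorsAntidiagonal.1 hp
    by_cases h1 : p.1 ∣ P
    · by_cases h2 : p.2.Coprime P
      · exfalso
        apply hne
        have hg : Nat.gcd n P = p.1 := by
          rw [← hpn, Nat.Coprime.gcd_mul_right_cancel _ h2]
          exact Nat.gcd_eq_left h1
        have he2 : e = p.2 := by
          rw [hg] at he hg0
          rw [he] at hpn
          exact (Nat.eq_of_mul_eq_mul_left hg0 hpn).symm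
        exact Prod.ext hg.symm he2.symm
      · rw [mI_chy, if_neg h2, mul_zero, mul_zero]
    · rw [if_neg h1, zero_mul]
  · intro h
    exact absurd (Nat.mem_divisorsAntidiagonal.2 ⟨he.symm, hn⟩) h

theorem mI_leib (a b c : ℕ → ℂ) (ha : ∀ n, ‖a n‖ ≤ 1) (hb : ∀ n, ‖b n‖ ≤ 1)
    (hc : ∀ n, ‖c n‖ ≤ 1)
    (hconv : ∀ n : ℕ, n ≠ 0 → ∑ p ∈ n.divisorsAntidiagonal, a p.1 * b p.2 = c n) (j : ℕ) {s : ℂ}
    (hs : 1 < s.re) :
    Lj c j s = ∑ i ∈ range (j + 1), (j.choose i : ℂ) * (Lj a i s * Lj b (j - i) s) := by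
  have hf : ∀ i, LSeriesHasSum (fun n => ((Real.log n : ℝ) : ℂ) ^ i * a n) s (Lj a i s) :=
    fun i => (Pool.Agent.MP89da58.S.summable_Lj ha i hs).LSeriesHasSum
  have hg : ∀ i, LSeriesHasSum (fun n => ((Real.log n : ℝ) : ℂ) ^ i * b n) s (Lj b i s) :=
    fun i => (Pool.Agent.MP89da58.S.summable_Lj hb i hs).LSeriesHasSum
  have hfg : ∀ i, HasSum (fun n => (j.choose i : ℂ) *
      LSeries.term (LSeries.convolution (fun n => ((Real.log n : ℝ) : ℂ) ^ i * a n)
        (fun n => ((Real.log n : ℝ) : ℂ) ^ (j - i) * b n)) s n)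
      ((j.choose i : ℂ) * (Lj a i s * Lj b (j - i) s)) := fun i =>
    ((hf i).convolution (hg (j - i))).mul_left _
  have hsum := hasSum_sum (fun i (_ : i ∈ range (j + 1)) => hfg i)
  have hgoal : HasSum (LSeries.term (fun n => ((Real.log n : ℝ) : ℂ) ^ j * c n) s) (Lj c j s) :=
    (Pool.Agent.MP89da58.S.summable_Lj hc j hs).LSeriesHasSum
  have hfun : (LSeries.term (fun n => ((Real.log n : ℝ) : ℂ) ^ j * c n) s) =
      fun n => ∑ i ∈ range (j + 1), (j.choose i : ℂ) *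
        LSeries.term (LSeries.convolution (fun n => ((Real.log n : ℝ) : ℂ) ^ i * a n)
        (fun n => ((Real.log n : ℝ) : ℂ) ^ (j - i) * b n)) s n := by
    funext n
    rcases eq_or_ne n 0 with rfl | hn
    · simp
    simp only [LSeries.term_of_ne_zero hn]
    rw [← Finset.sum_congr rfl (fun i _ => mul_div_assoc _ _ _), ← Finset.sum_div]
    congr 1
    simp only [LSeries.convolution_def, Finset.mul_sum]
    rw [Finset.sum_comm, ← hconv n hn, Finset.mul_sum]
    refine Finset.sum_congr rfl ?_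
    intro p hp
    obtain ⟨hp1, _⟩ := Nat.mem_divisorsAntidiagonal.1 hp
    have hp1' : p.1 ≠ 0 := by rintro h; rw [h, zero_mul] at hp1; exact hn hp1.symm
    have hp2' : p.2 ≠ 0 := by rintro h; rw [h, mul_zero] at hp1; exact hn hp1.symm
    have hlog : ((Real.log n : ℝ) : ℂ) = ((Real.log p.1 : ℝ) : ℂ) + ((Real.log p.2 : ℝ) : ℂ) := by
      rw [← hp1]
      push_cast [Real.log_mul (show ((p.1 : ℕ) : ℝ) ≠ 0 by exact_mod_cast hp1')
        (show ((p.2 : ℕ) : ℝ) ≠ 0 by exact_mod_cast hp2')]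
      ring
    rw [hlog, add_pow, Finset.sum_mul]
    refine Finset.sum_congr rfl ?_
    intro i _
    ring
  rw [hfun] at hgoal
  exact hgoal.unique hsum

theorem p_mI : S_mI := by
  intro hLb hlow hmrc hmEu B k κ hκ
  obtain ⟨C1, h1⟩ := hLb B k κ hκ
  obtain ⟨C2, h2⟩ := hlow B κ hκ
  obtain ⟨C, hC1, h3⟩ := hmEu k
  refine ⟨max C1 C2, ?_⟩
  filter_upwards [h1, h2, h3, mI_ev (2 ^ k) (1 / 2000) (by norm_num),
    mI_ev (2 ^ k * C) (222 / 1000) (by norm_num), eventually_ge_atTop (1 : ℝ)]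
    with l e1 e2 e3 e4 e5 hl1
  intro r χ hr hrl t ht1 ht2 j hj
  have hl0 : 0 < l := by linarith
  have t1 : l ^ C1 ≤ |t| := (pow_le_pow_right₀ hl1 (le_max_left _ _)).trans ht1
  have t2 : l ^ C2 ≤ |t| := (pow_le_pow_right₀ hl1 (le_max_right _ _)).trans ht1
  have hre : 1 < (sp l t).re := by
    have h : (sp l t).re = 1 + 1 / l := by
      unfold sp
      simp
    rw [h]
    have : 0 < 1 / l := by positivity
    linarith
  have hW : ∀ e : ℝ, 0 ≤ e → 1 ≤ l ^ e := fun e he => Real.one_le_rpow hl1 he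
  have hb : ∀ i ≤ k, ‖Lj (fun n => ((moebius n : ℤ) : ℂ) * chy χ (PP l) n) i (sp l t)‖ ≤
      l ^ (78 / 1000 : ℝ) * (l ^ (9895 / 10000 : ℝ)) ^ i := by
    refine hmrc (r * PP l) (chy χ (PP l)) (sp l t) k (l ^ (6 / 1000 : ℝ)) (l ^ (905 / 1000 : ℝ))
      (l ^ (78 / 1000 : ℝ)) (l ^ (9895 / 10000 : ℝ)) hre (hW _ (by norm_num)) (hW _ (by norm_num))
      (hW _ (by norm_num)) ?_ ?_ ?_ ?_
    · exact Real.rpow_le_rpow_of_exponent_le hl1 (by norm_num)
    · rw [← Real.rpow_add hl0, ← Real.rpow_add hl0]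
      calc l ^ (78 / 1000 + 6 / 1000 + 905 / 1000 : ℝ) * 2 ^ k
          ≤ l ^ (78 / 1000 + 6 / 1000 + 905 / 1000 : ℝ) * l ^ (1 / 2000 : ℝ) :=
            mul_le_mul_of_nonneg_left e4 (by positivity)
        _ = l ^ (9895 / 10000 : ℝ) := by
            rw [← Real.rpow_add hl0]
            norm_num
    · intro i hi
      exact e1 r χ hr hrl t t1 ht2 i hi
    · rw [one_div]
      exact e2 r χ hr hrl t t2 ht2
  have ha : ∀ i ≤ k, ‖Lj (fun n => if n ∣ PP l then ((moebius n : ℤ) : ℂ) * χ n else 0) i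
      (sp l t)‖ ≤ C * (l ^ (9 / 10 : ℝ)) ^ (i + 3) := fun i hi => e3 r χ t i hi
  have hmu : ∀ n : ℕ, ‖((moebius n : ℤ) : ℂ)‖ ≤ 1 := by
    intro n
    rw [Complex.norm_intCast]
    exact_mod_cast ArithmeticFunction.abs_moebius_le_one
  have hmc : ∀ (q : ℕ) (ψ : DirichletCharacter ℂ q) (n : ℕ),
      ‖((moebius n : ℤ) : ℂ) * ψ (n : ZMod q)‖ ≤ 1 := by
    intro q ψ n
    rw [norm_mul]
    exact mul_le_one₀ (hmu n) (norm_nonneg _) (ψ.norm_le_one _)
  have hleib := mI_leib (fun n => if n ∣ PP l then ((moebius n : ℤ) : ℂ) * χ n else 0)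
    (fun n => ((moebius n : ℤ) : ℂ) * chy χ (PP l) n) (fun n => ((moebius n : ℤ) : ℂ) * χ n)
    (fun n => by
      split_ifs
      · exact hmc r χ n
      · simp)
    (fun n => hmc _ _ n) (fun n => hmc r χ n) (fun n hn => mI_conv χ (PP l) n hn) j hre
  rw [hleib]
  set W : ℝ := l ^ (9895 / 10000 : ℝ) with hWdef
  set V : ℝ := l ^ (78 / 1000 : ℝ) with hVdef
  have hV0 : 0 ≤ V := by positivity
  have hW0 : 0 ≤ W := by positivity
  have h9W : l ^ (9 / 10 : ℝ) ≤ W := Real.rpow_le_rpow_of_exponent_le hl1 (by norm_num)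
  have h9 : (0 : ℝ) ≤ l ^ (9 / 10 : ℝ) := by positivity
  calc ‖∑ i ∈ range (j + 1), (j.choose i : ℂ) *
        (Lj (fun n => if n ∣ PP l then ((moebius n : ℤ) : ℂ) * χ n else 0) i (sp l t) *
          Lj (fun n => ((moebius n : ℤ) : ℂ) * chy χ (PP l) n) (j - i) (sp l t))‖
      ≤ ∑ i ∈ range (j + 1), (j.choose i : ℝ) * (C * (l ^ (9 / 10 : ℝ)) ^ 3 * V * W ^ j) := by
        refine norm_sum_le_of_le _ ?_
        intro i hi
        have hij : i ≤ j := Nat.lt_succ_iff.1 (mem_range.1 hi)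
        rw [norm_mul, Complex.norm_natCast]
        refine mul_le_mul_of_nonneg_left ?_ (Nat.cast_nonneg _)
        rw [norm_mul]
        calc ‖Lj (fun n => if n ∣ PP l then ((moebius n : ℤ) : ℂ) * χ n else 0) i (sp l t)‖ *
              ‖Lj (fun n => ((moebius n : ℤ) : ℂ) * chy χ (PP l) n) (j - i) (sp l t)‖
            ≤ (C * (l ^ (9 / 10 : ℝ)) ^ (i + 3)) * (V * W ^ (j - i)) :=
              mul_le_mul (ha i (hij.trans hj)) (hb (j - i) ((Nat.sub_le _ _).trans hj))
                (norm_nonneg _) (by positivity)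
          _ = C * (l ^ (9 / 10 : ℝ)) ^ 3 * V * ((l ^ (9 / 10 : ℝ)) ^ i * W ^ (j - i)) := by
              rw [pow_add]
              ring
          _ ≤ C * (l ^ (9 / 10 : ℝ)) ^ 3 * V * (W ^ i * W ^ (j - i)) := by
              refine mul_le_mul_of_nonneg_left ?_ (by positivity)
              exact mul_le_mul_of_nonneg_right (pow_le_pow_left₀ h9 h9W i) (by positivity)
          _ = C * (l ^ (9 / 10 : ℝ)) ^ 3 * V * W ^ j := by
              rw [← pow_add, Nat.add_sub_cancel' hij]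
    _ = 2 ^ j * (C * (l ^ (9 / 10 : ℝ)) ^ 3 * V * W ^ j) := by
        rw [← Finset.sum_mul]
        congr 1
        exact_mod_cast Nat.sum_range_choose j
    _ ≤ 2 ^ k * (C * (l ^ (9 / 10 : ℝ)) ^ 3 * V * W ^ j) := by
        refine mul_le_mul_of_nonneg_right ?_ (by positivity)
        exact pow_le_pow_right₀ (by norm_num) hj
    _ = 2 ^ k * C * (l ^ (9 / 10 : ℝ)) ^ 3 * V * W ^ j := by ring
    _ ≤ l ^ (222 / 1000 : ℝ) * (l ^ (9 / 10 : ℝ)) ^ 3 * V * W ^ j := by
        refine mul_le_mul_of_nonneg_right ?_ (by positivity)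
        refine mul_le_mul_of_nonneg_right ?_ hV0
        exact mul_le_mul_of_nonneg_right e5 (by positivity)
    _ = l ^ 3 * W ^ j := by
        congr 1
        rw [hVdef, ← Real.rpow_natCast (l ^ (9 / 10 : ℝ)) 3, ← Real.rpow_mul hl0.le,
          ← Real.rpow_add hl0, ← Real.rpow_add hl0, ← Real.rpow_natCast l 3]
        norm_num

end Pool.Agent.CA.SC
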