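import Pool.Agent.Lib.MP_d610d0_nt.CA.SC.Stm

set_option autoImplicit false

/-!
Project CA, section SC, piece mPW.
-/

namespace Pool.Agent.CA.SC

open Finset Filter
open ArithmeticFunction (vonMangoldt moebius)
open Pool.Agent.MP89da58 (tri)
open Pool.Agent.BVall (OmL)
open Pool.Agent.CH.V (pz)
open Pool.Agent.CH.P (R_shp)

private theorem mPW_norm (t x : ℝ) : ‖pz t x‖ = 1 := by
  unfold pz
  rw [Complex.norm_exp]
  simp

/-- Abel's inequality -/
private theorem mPW_abel (w : ℕ → ℝ) (c : ℕ → ℂ) (a : ℕ) (T : ℝ) (hT : 0 ≤ T)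
    (hw : Antitone w) (hw0 : ∀ n, 0 ≤ w n) (hw1 : ∀ n, w n ≤ 1)
    (b : ℕ) (hb : ∀ m ≤ b, ‖∑ n ∈ Ioc a m, c n‖ ≤ T) :
    ‖∑ n ∈ Ioc a b, (w n : ℂ) * c n‖ ≤ T := by
  rcases lt_or_ge b a with hlt | hge
  · rw [Finset.Ioc_eq_empty (by omega)]
    simpa using hT
  have key : ∀ b, a ≤ b → (∀ m ≤ b, ‖∑ n ∈ Ioc a m, c n‖ ≤ T) →
      ‖∑ n ∈ Ioc a b, (w n : ℂ) * c n - (w b : ℂ) * ∑ n ∈ Ioc a b, c n‖ ≤ (w a - w b) * T := by
    intro b hab
    induction b, hab using Nat.le_induction with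
    | base =>
      intro _
      simp
    | succ k hk ih =>
      intro hm
      have ih' := ih fun m hmk => hm m (hmk.trans (Nat.le_succ k))
      have h1 : ∑ n ∈ Ioc a (k + 1), (w n : ℂ) * c n =
          ∑ n ∈ Ioc a k, (w n : ℂ) * c n + (w (k + 1) : ℂ) * c (k + 1) := by
        rw [Finset.sum_Ioc_succ_top hk]
      have h2 : ∑ n ∈ Ioc a (k + 1), c n = ∑ n ∈ Ioc a k, c n + c (k + 1) := by
        rw [Finset.sum_Ioc_succ_top hk]
      rw [h1, h2]
      have h3 : ∑ n ∈ Ioc a k, (w n : ℂ) * c n + (w (k + 1) : ℂ) * c (k + 1) -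
          (w (k + 1) : ℂ) * (∑ n ∈ Ioc a k, c n + c (k + 1)) =
          (∑ n ∈ Ioc a k, (w n : ℂ) * c n - (w k : ℂ) * ∑ n ∈ Ioc a k, c n) +
          ((w k - w (k + 1) : ℝ) : ℂ) * ∑ n ∈ Ioc a k, c n := by
        push_cast
        ring
      rw [h3]
      have h4 : ‖((w k - w (k + 1) : ℝ) : ℂ) * ∑ n ∈ Ioc a k, c n‖ ≤ (w k - w (k + 1)) * T := by
        have h5 : 0 ≤ w k - w (k + 1) := sub_nonneg.2 (hw (Nat.le_succ k))
        rw [norm_mul, Complex.norm_real, Real.norm_of_nonneg h5]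
        exact mul_le_mul_of_nonneg_left (hm k (Nat.le_succ k)) h5
      refine (norm_add_le _ _).trans ((add_le_add ih' h4).trans (le_of_eq ?_))
      ring
  have h1 := key b hge hb
  have h2 : ‖(w b : ℂ) * ∑ n ∈ Ioc a b, c n‖ ≤ w b * T := by
    rw [norm_mul, Complex.norm_real, Real.norm_of_nonneg (hw0 b)]
    exact mul_le_mul_of_nonneg_left (hb b le_rfl) (hw0 b)
  have h3 : ∑ n ∈ Ioc a b, (w n : ℂ) * c n =
      (∑ n ∈ Ioc a b, (w n : ℂ) * c n - (w b : ℂ) * ∑ n ∈ Ioc a b, c n) +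
      (w b : ℂ) * ∑ n ∈ Ioc a b, c n := by ring
  rw [h3]
  calc _ ≤ (w a - w b) * T + w b * T := (norm_add_le _ _).trans (add_le_add h1 h2)
    _ = w a * T := by ring
    _ ≤ 1 * T := mul_le_mul_of_nonneg_right (hw1 a) hT
    _ = T := one_mul T

/-- the weight `1 / log n` -/
private noncomputable def mPW_w (n : ℕ) : ℝ := 1 / Real.log ((max n 3 : ℕ) : ℝ)

private theorem mPW_log3 : 1 ≤ Real.log 3 := by
  rw [Real.le_log_iff_exp_le (by norm_num)]
  linarith [Real.exp_one_lt_d9]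

private theorem mPW_wlog (n : ℕ) : 1 ≤ Real.log ((max n 3 : ℕ) : ℝ) := by
  refine mPW_log3.trans (Real.log_le_log (by norm_num) ?_)
  exact_mod_cast le_max_right n 3

private theorem mPW_anti : Antitone mPW_w := by
  intro m n hmn
  unfold mPW_w
  apply one_div_le_one_div_of_le (by linarith [mPW_wlog m])
  apply Real.log_le_log
  · have : 3 ≤ max m 3 := le_max_right _ _
    have : (3 : ℝ) ≤ ((max m 3 : ℕ) : ℝ) := by exact_mod_cast this
    linarith
  · exact_mod_cast max_le_max hmn le_rfl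

private theorem mPW_w0 (n : ℕ) : 0 ≤ mPW_w n := by
  unfold mPW_w
  have := mPW_wlog n
  positivity

private theorem mPW_w1 (n : ℕ) : mPW_w n ≤ 1 := by
  unfold mPW_w
  rw [div_le_one (by linarith [mPW_wlog n])]
  exact mPW_wlog n

/-- the asymptotic inequality -/
private theorem mPW_ev (A : ℕ) : ∀ᶠ M : ℝ in atTop, 3 ≤ M ∧
    M / (Real.log M) ^ (A + 1) + (1 + 2 * Real.sqrt M * Real.log M) ≤ M / (Real.log M) ^ A := by
  have h1 : ∀ᶠ x : ℝ in atTop, (Real.log x) ^ ((A + 1 : ℕ) : ℝ) ≤ (1 / 6) * x ^ (1 / 2 : ℝ) := by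
    have h := (isLittleO_log_rpow_rpow_atTop ((A + 1 : ℕ) : ℝ) (s := 1 / 2) (by norm_num)).def
      (c := 1 / 6) (by norm_num)
    filter_upwards [h, eventually_ge_atTop 1] with x hx hx1
    rw [Real.norm_of_nonneg (Real.rpow_nonneg (Real.log_nonneg hx1) _),
      Real.norm_of_nonneg (Real.rpow_nonneg (by linarith) _)] at hx
    exact hx
  have h2 : ∀ᶠ x : ℝ in atTop, 2 ≤ Real.log x := Real.tendsto_log_atTop.eventually_ge_atTop _
  filter_upwards [h1, h2, eventually_ge_atTop 3] with M hM1 hM2 hM3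
  refine ⟨hM3, ?_⟩
  have hL : 0 < Real.log M := by linarith
  have hs : 0 < Real.sqrt M := Real.sqrt_pos.2 (by linarith)
  have hs1 : 1 ≤ Real.sqrt M := by
    rw [Real.one_le_sqrt]
    linarith
  have hss : Real.sqrt M * Real.sqrt M = M := Real.mul_self_sqrt (by linarith)
  rw [Real.rpow_natCast, ← Real.sqrt_eq_rpow] at hM1
  have h3 : 1 + 2 * Real.sqrt M * Real.log M ≤ 3 * Real.sqrt M * Real.log M := by nlinarith
  have h4 : (1 + 2 * Real.sqrt M * Real.log M) * (Real.log M) ^ A ≤ M / 2 := by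
    calc _ ≤ 3 * Real.sqrt M * Real.log M * (Real.log M) ^ A :=
          mul_le_mul_of_nonneg_right h3 (by positivity)
      _ = 3 * Real.sqrt M * (Real.log M) ^ (A + 1) := by
          rw [pow_succ]
          ring
      _ ≤ 3 * Real.sqrt M * (1 / 6 * Real.sqrt M) := mul_le_mul_of_nonneg_left hM1 (by positivity)
      _ = (Real.sqrt M * Real.sqrt M) / 2 := by ring
      _ = M / 2 := by rw [hss]
  rw [le_div_iff₀ (by positivity), add_mul]
  have h5 : M / (Real.log M) ^ (A + 1) * (Real.log M) ^ A ≤ M / 2 := by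
    rw [pow_succ]
    have : M / ((Real.log M) ^ A * Real.log M) * (Real.log M) ^ A = M / Real.log M := by
      field_simp
    rw [this]
    apply div_le_div_of_nonneg_left (by linarith) (by norm_num) hM2
  linarith

private theorem mPW_pow {a b : ℝ} (n : ℕ) (h2 : (2 : ℝ) ^ (n + 1) ≤ a) (hb : a / 2 ≤ b) :
    a ^ n ≤ b ^ (n + 1) := by
  have h0 : (0 : ℝ) < 2 ^ (n + 1) := by positivity
  have ha : 0 < a := lt_of_lt_of_le h0 h2
  have h1 : a ^ n ≤ (a / 2) ^ (n + 1) := by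
    rw [div_pow, le_div_iff₀ h0, pow_succ a n]
    exact mul_le_mul_of_nonneg_left h2 (by positivity)
  exact h1.trans (pow_le_pow_left₀ (by positivity) hb _)


private theorem mPW_c {r : ℕ} (χ : DirichletCharacter ℂ r) (τ : ℝ) (n : ℕ) :
    ‖((moebius n : ℤ) : ℂ) * χ (n : ZMod r) * pz (-τ) n‖ ≤ 1 := by
  rw [norm_mul, norm_mul, mPW_norm, mul_one]
  have h1 : ‖((moebius n : ℤ) : ℂ)‖ ≤ 1 := by
    rw [Complex.norm_intCast]
    exact_mod_cast ArithmeticFunction.abs_moebius_le_one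
  calc ‖((moebius n : ℤ) : ℂ)‖ * ‖χ (n : ZMod r)‖ ≤ 1 * 1 :=
        mul_le_mul h1 (DirichletCharacter.norm_le_one χ _) (norm_nonneg _) zero_le_one
    _ = 1 := one_mul 1

/-- the sums with the logarithm -/
private theorem mPW_log (hwin : R_mwin) (hshp : R_shp) : ∀ (A B : ℕ) (κ : ℝ), 1 ≤ κ → ∃ C0 : ℕ,
    ∀ᶠ M : ℝ in atTop, ∀ (r : ℕ) (χ : DirichletCharacter ℂ r), 1 ≤ r →
    (r : ℝ) ≤ (Real.log M) ^ B → ∀ τ : ℝ, (Real.log M) ^ C0 ≤ |τ| → |τ| ≤ M ^ κ →
    ∀ M1 M2 : ℕ, (M2 : ℝ) ≤ M → ‖∑ n ∈ Ioc M1 M2, (Real.log n : ℂ) *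
      (((moebius n : ℤ) : ℂ) * χ (n : ZMod r) * pz (-τ) n)‖ ≤ M / (Real.log M) ^ A := by
  intro A B κ hκ
  obtain ⟨C0, hC0⟩ := hwin (2 * A + 7) (B + 1) (A + 4) (2 * κ) (by linarith)
  obtain ⟨X0, hX0⟩ := eventually_atTop.1 hC0
  refine ⟨C0, ?_⟩
  have hlog : ∀ᶠ M : ℝ in atTop, (2 : ℝ) ^ (2 * A + B + 10) ≤ Real.log M :=
    Real.tendsto_log_atTop.eventually_ge_atTop _
  have hsq : ∀ᶠ M : ℝ in atTop, (Real.log M) ^ (A + 3) ≤ M ^ (1 / 2 : ℝ) := by
    have h := (isLittleO_log_rpow_rpow_atTop ((A + 3 : ℕ) : ℝ)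
      (show (0 : ℝ) < 1 / 2 by norm_num)).bound (show (0 : ℝ) < 1 by norm_num)
    filter_upwards [h, eventually_ge_atTop (1 : ℝ)] with M hM h1
    rw [Real.rpow_natCast, one_mul, Real.norm_of_nonneg (pow_nonneg (Real.log_nonneg h1) _),
      Real.norm_of_nonneg (Real.rpow_nonneg (by linarith) _)] at hM
    exact hM
  filter_upwards [hshp A, hlog, hsq, eventually_ge_atTop (1 : ℝ),
    eventually_ge_atTop ((max X0 0) ^ 2)] with M hM hLM hsM hM1 hMX
  intro r χ hr hrB τ hτ' hτ M1 M2 hM2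
  refine hM (fun n => (Real.log n : ℂ) * (((moebius n : ℤ) : ℂ) * χ (n : ZMod r) * pz (-τ) n))
    ?_ ?_ M1 M2 hM2
  · intro n hn
    have h5 : 0 ≤ Real.log n := Real.log_natCast_nonneg n
    show ‖(Real.log n : ℂ) * (((moebius n : ℤ) : ℂ) * χ (n : ZMod r) * pz (-τ) n)‖ ≤ _
    rw [norm_mul, Complex.norm_real, Real.norm_of_nonneg h5]
    calc Real.log n * ‖((moebius n : ℤ) : ℂ) * χ (n : ZMod r) * pz (-τ) n‖ ≤ Real.log n * 1 :=
          mul_le_mul_of_nonneg_left (mPW_c χ τ n) h5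
      _ ≤ Real.log n + 1 := by linarith
  intro X hX1 hX2
  have hM0 : 0 < M := by linarith
  set s : ℝ := M ^ (1 / 2 : ℝ) with hs
  have hs0 : 0 < s := Real.rpow_pos_of_pos hM0 _
  have hss : s * s = M := by
    rw [hs, ← Real.rpow_add hM0]
    norm_num
  have hLM1 : 1 ≤ Real.log M := le_trans (one_le_pow₀ (by norm_num)) hLM
  have hLM0 : 0 < Real.log M := by linarith
  have hsX : s ≤ X := by
    refine le_trans ?_ hX1
    rw [le_div_iff₀ (pow_pos hLM0 _)]
    calc s * Real.log M ^ (A + 3) ≤ s * s := mul_le_mul_of_nonneg_left hsM hs0.le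
      _ = M := hss
  have hX0' : 0 < X := lt_of_lt_of_le hs0 hsX
  have hXX0 : X0 ≤ X := by
    have h1 : max X0 0 ≤ s := by
      by_contra hcon
      have hcon' : s < max X0 0 := lt_of_not_ge hcon
      nlinarith
    exact (le_max_left _ _).trans (h1.trans hsX)
  have hlX : Real.log M / 2 ≤ Real.log X := by
    have h1 : Real.log s = Real.log M / 2 := by
      rw [hs, Real.log_rpow hM0]
      ring
    rw [← h1]
    exact Real.log_le_log hs0 hsX
  have hlXM : Real.log X ≤ Real.log M := Real.log_le_log hX0' hX2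
  have hlX0 : 0 < Real.log X := by linarith
  have hp : ∀ n : ℕ, n + 1 ≤ 2 * A + B + 10 → Real.log M ^ n ≤ Real.log X ^ (n + 1) := by
    intro n hn
    exact mPW_pow n ((pow_le_pow_right₀ (by norm_num) hn).trans hLM) hlX
  have key := hX0 X hXX0 ((Real.log M) ^ (A + 3)) (one_le_pow₀ hLM1) (hp (A + 3) (by omega)) r χ hr
    (hrB.trans (hp B (by omega))) τ ((pow_le_pow_left₀ hlX0.le hlXM _).trans hτ') ?_
  · refine key.trans ?_
    exact div_le_div_of_nonneg_left hX0'.le (pow_pos hLM0 _) (hp (2 * A + 6) (by omega))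
  · refine hτ.trans ?_
    have h1 : M ≤ X ^ (2 : ℝ) := by
      rw [Real.rpow_two, ← hss]
      nlinarith
    rw [Real.rpow_mul hX0'.le]
    exact Real.rpow_le_rpow hM0.le h1 (by linarith)

/-- removal of the weight -/
private theorem mPW_rem (c : ℕ → ℂ) (hc : ∀ n, ‖c n‖ ≤ 1) (M1 M2 : ℕ) :
    ‖∑ n ∈ Ioc M1 M2, c n‖ ≤ ‖∑ n ∈ Ioc M1 M2, (mPW_w n : ℂ) * ((Real.log n : ℂ) * c n)‖ + 2 := by
  have h1 : ∑ n ∈ Ioc M1 M2, c n =
      ∑ n ∈ Ioc M1 M2, (mPW_w n : ℂ) * ((Real.log n : ℂ) * c n) +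
      ∑ n ∈ Ioc M1 M2, ((1 - mPW_w n * Real.log n : ℝ) : ℂ) * c n := by
    rw [← Finset.sum_add_distrib]
    apply Finset.sum_congr rfl
    intro n _
    push_cast
    ring
  have h2 : ‖∑ n ∈ Ioc M1 M2, ((1 - mPW_w n * Real.log n : ℝ) : ℂ) * c n‖ ≤ 2 := by
    calc _ ≤ ∑ n ∈ Ioc M1 M2, ‖((1 - mPW_w n * Real.log n : ℝ) : ℂ) * c n‖ := norm_sum_le _ _
      _ ≤ ∑ n ∈ Ioc M1 M2, (if n ∈ Icc 1 2 then (1 : ℝ) else 0) := by
          apply Finset.sum_le_sum
          intro n hn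
          have hn1 : 1 ≤ n := by
            have := (Finset.mem_Ioc.1 hn).1
            omega
          have h0 : 0 ≤ Real.log n := Real.log_natCast_nonneg n
          rw [norm_mul, Complex.norm_real, Real.norm_eq_abs]
          by_cases h3 : n ∈ Icc 1 2
          · rw [if_pos h3]
            have h4 : mPW_w n * Real.log n ≤ 1 := by
              have h5 : Real.log n ≤ 1 := by
                have h6 : (n : ℝ) ≤ 2 := by exact_mod_cast (Finset.mem_Icc.1 h3).2
                have h7 : Real.log n ≤ Real.log 2 :=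
                  Real.log_le_log (by exact_mod_cast hn1) h6
                linarith [Real.log_two_lt_d9]
              calc mPW_w n * Real.log n ≤ 1 * 1 := mul_le_mul (mPW_w1 n) h5 h0 zero_le_one
                _ = 1 := one_mul 1
            have h5 : 0 ≤ mPW_w n * Real.log n := mul_nonneg (mPW_w0 n) h0
            have h6 : |1 - mPW_w n * Real.log n| ≤ 1 := by
              rw [abs_le]
              constructor <;> linarith
            calc |1 - mPW_w n * Real.log n| * ‖c n‖ ≤ 1 * 1 :=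
                  mul_le_mul h6 (hc n) (norm_nonneg _) zero_le_one
              _ = 1 := one_mul 1
          · rw [if_neg h3]
            have h4 : 3 ≤ n := by
              rw [Finset.mem_Icc] at h3
              omega
            have h5 : mPW_w n * Real.log n = 1 := by
              have h6 := mPW_wlog n
              unfold mPW_w
              rw [max_eq_left h4] at h6 ⊢
              exact one_div_mul_cancel (by linarith)
            rw [h5, sub_self, abs_zero, zero_mul]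
      _ ≤ ∑ n ∈ Icc 1 2, (1 : ℝ) := by
          rw [← Finset.sum_filter]
          apply Finset.sum_le_sum_of_subset_of_nonneg
          · intro n hn
            exact (Finset.mem_filter.1 hn).2
          · intro _ _ _
            exact zero_le_one
      _ = 2 := by simp
  rw [h1]
  exact (norm_add_le _ _).trans (by linarith)

theorem p_mPW : S_mPW := by
  intro hwin hshp A B κ hκ
  obtain ⟨C0, hC0⟩ := mPW_log hwin hshp (A + 1) B κ hκ
  refine ⟨C0, ?_⟩
  filter_upwards [hC0, mPW_ev A] with M hM1 hM2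
  obtain ⟨hM3, hM4⟩ := hM2
  intro r χ hr hrB τ hτ hτ' M1 M2 hM2M
  have hT := hM1 r χ hr hrB τ hτ hτ' M1
  have hLM1 : 1 ≤ Real.log M := mPW_log3.trans (Real.log_le_log (by norm_num) hM3)
  have hT0 : 0 ≤ M / (Real.log M) ^ (A + 1) := by positivity
  have hA := mPW_abel mPW_w (fun n => (Real.log n : ℂ) *
    (((moebius n : ℤ) : ℂ) * χ (n : ZMod r) * pz (-τ) n)) M1 _ hT0 mPW_anti mPW_w0 mPW_w1 M2
    (fun m hm => hT m (le_trans (by exact_mod_cast hm) hM2M))
  have hR := mPW_rem (fun n => ((moebius n : ℤ) : ℂ) * χ (n : ZMod r) * pz (-τ) n)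
    (fun n => mPW_c χ τ n) M1 M2
  have hs1 : 1 ≤ Real.sqrt M := by
    rw [Real.one_le_sqrt]
    linarith
  have h2 : (2 : ℝ) ≤ 1 + 2 * Real.sqrt M * Real.log M := by nlinarith
  linarith

end Pool.Agent.CA.SC
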