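import Pool.Agent.Lib.MP_d610d0_nt.CA.SC.Stm

set_option autoImplicit false

/-!
Project CA, section SC, piece muk.
-/

namespace Pool.Agent.CA.SC

open Finset Filter
open ArithmeticFunction (vonMangoldt moebius)
open Pool.Agent.CH.V (pz)
open Pool.Agent.CH.D (dp R_pwp)

theorem muk_sum (c f : ℕ → ℂ) (a b N : ℕ) (θ : ℝ) (hb : b ≤ N)
    (hf : ∀ n, f n = if a < n ∧ n ≤ b then c n else 0) :
    dp f (2 * N) θ = ∑ n ∈ Ioc a b, c n * pz (-θ) n := by
  unfold dp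
  symm
  have h1 : ∀ n ∈ Ioc a b, c n * pz (-θ) n = f n * pz (-θ) n := by
    intro n hn
    rw [mem_Ioc] at hn
    rw [hf, if_pos hn]
  rw [Finset.sum_congr rfl h1]
  apply Finset.sum_subset
  · intro n hn
    rw [mem_Ioc] at hn
    rw [mem_Icc]
    omega
  · intro n _ hn
    rw [mem_Ioc] at hn
    rw [hf, if_neg hn, zero_mul]

theorem muk_ev (A B C1 : ℕ) (M0 : ℝ) : ∀ᶠ J : ℕ in atTop, ∀ N : ℕ,
    Real.log J / 20 ≤ Real.log N → Real.log N ≤ 4 * Real.log J →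
    M0 ≤ (N : ℝ) ∧ (Real.log J) ^ B ≤ (Real.log N) ^ (B + 1) ∧
      (Real.log N) ^ C1 ≤ (Real.log J) ^ (C1 + 1) ∧ (J : ℝ) ^ 2 ≤ (N : ℝ) ^ (40 : ℝ) ∧
      (N : ℝ) / (Real.log N) ^ (A + 1) ≤ N / (Real.log J) ^ A := by
  have hl : Tendsto (fun J : ℕ => Real.log (J : ℝ)) atTop atTop :=
    Real.tendsto_log_atTop.comp tendsto_natCast_atTop_atTop
  filter_upwards [hl.eventually_ge_atTop 1, hl.eventually_ge_atTop (20 * M0),
    hl.eventually_ge_atTop ((20 : ℝ) ^ (B + 1)), hl.eventually_ge_atTop ((4 : ℝ) ^ C1),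
    hl.eventually_ge_atTop ((20 : ℝ) ^ (A + 1)), eventually_ge_atTop 1] with J h1 h2 h3 h4 h5 h6 N hN1 hN2
  have hN0 : 0 < Real.log N := by linarith
  have hNpos : (0 : ℝ) < N := by
    rcases Nat.eq_zero_or_pos N with h | h
    · rw [h, Nat.cast_zero, Real.log_zero] at hN0
      exact absurd hN0 (lt_irrefl _)
    · exact_mod_cast h
  have hJpos : (0 : ℝ) < J := by exact_mod_cast h6
  have key : ∀ k : ℕ, (20 : ℝ) ^ (k + 1) ≤ Real.log J → (Real.log J) ^ k ≤ (Real.log N) ^ (k + 1) := by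
    intro k hk
    have e1 : (Real.log J / 20) ^ (k + 1) ≤ (Real.log N) ^ (k + 1) :=
      pow_le_pow_left₀ (by linarith) hN1 _
    refine le_trans ?_ e1
    rw [div_pow, le_div_iff₀ (by positivity), pow_succ (Real.log J) k]
    exact mul_le_mul_of_nonneg_left hk (by positivity)
  refine ⟨?_, key B h3, ?_, ?_, ?_⟩
  · have e1 : Real.log N ≤ N := Real.log_le_self hNpos.le
    linarith
  · calc (Real.log N) ^ C1 ≤ (4 * Real.log J) ^ C1 := pow_le_pow_left₀ hN0.le hN2 _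
      _ = (4 : ℝ) ^ C1 * (Real.log J) ^ C1 := mul_pow _ _ _
      _ ≤ Real.log J * (Real.log J) ^ C1 := mul_le_mul_of_nonneg_right h4 (by positivity)
      _ = (Real.log J) ^ (C1 + 1) := by rw [pow_succ]; ring
  · rw [← Real.log_le_log_iff (by positivity) (by positivity), Real.log_pow, Real.log_rpow hNpos]
    push_cast
    linarith
  · exact div_le_div_of_nonneg_left hNpos.le (by positivity) (key A h5)

theorem p_muk : S_muk := by
  intro h A B
  obtain ⟨C1, hC⟩ := h (A + 1) (B + 1) 40 (by norm_num)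
  refine ⟨C1 + 1, ?_⟩
  obtain ⟨M0, hM⟩ := Filter.eventually_atTop.mp hC
  filter_upwards [muk_ev A B C1 M0] with J hJ r χ N a b θ hr1 hr2 hb hN1 hN2 hθ1 hθ2
  obtain ⟨e1, e2, e3, e4, e5⟩ := hJ N hN1 hN2
  have h1 := hM N e1 r χ hr1 (hr2.trans e2) θ (e3.trans hθ1) (hθ2.trans e4) a b
    (by exact_mod_cast hb)
  rw [muk_sum (fun n => ((moebius n : ℤ) : ℂ) * χ (n : ZMod r)) (mf χ a b) a b N θ hb
    (fun n => rfl)]
  exact h1.trans e5

end Pool.Agent.CA.SC
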