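import Pool.Agent.Lib.MP_d610d0_nt.CA.SC.Stm

set_option autoImplicit false

/-!
Piece mwin.
-/

namespace Pool.Agent.CA.SC

open Finset Filter
open ArithmeticFunction (vonMangoldt moebius)
open Pool.Agent.MP89da58 (tri)
open Pool.Agent.MP89da58.S (Lj)
open Pool.Agent.BVall (OmL psiG)
open Pool.Agent.CH.V (pz)
open Pool.Agent.CH.P (R_psi sp)

theorem mwin_norm_pz (t x : ℝ) : ‖pz t x‖ = 1 := by
  unfold pz
  rw [Complex.norm_exp]
  have h : (-(Complex.I * ((t * Real.log x : ℝ) : ℂ))).re = 0 := by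
    rw [Complex.neg_re, Complex.mul_re, Complex.I_re, Complex.I_im, Complex.ofReal_re,
      Complex.ofReal_im]
    ring
  rw [h, Real.exp_zero]

theorem mwin_shift (b : ℕ → ℂ) (j : ℕ) (L t τ : ℝ) :
    Lj (fun n => b n * pz (-τ) n) j (sp L t) = Lj b j (sp L (t - τ)) := by
  unfold Lj LSeries
  apply tsum_congr
  intro n
  rcases eq_or_ne n 0 with rfl | hn
  · rw [LSeries.term_zero, LSeries.term_zero]
  · rw [LSeries.term_of_ne_zero hn, LSeries.term_of_ne_zero hn]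
    have hn0 : (n : ℂ) ≠ 0 := by exact_mod_cast hn
    have h1 : sp L t = sp L (t - τ) + Complex.I * (τ : ℂ) := by
      unfold sp
      rw [Complex.ofReal_sub]
      ring
    have h2 : (n : ℂ) ^ (Complex.I * (τ : ℂ)) = pz (-τ) n := by
      rw [Complex.cpow_def_of_ne_zero hn0]
      unfold pz
      congr 1
      rw [← Complex.natCast_log]
      push_cast
      ring
    have h3 : pz (-τ) n ≠ 0 := by
      unfold pz
      exact Complex.exp_ne_zero _
    rw [h1, Complex.cpow_add _ _ hn0, h2, ← mul_assoc, mul_div_mul_right _ _ h3]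

theorem mwin_ev (D : ℕ) : ∀ᶠ L : ℝ in atTop, L ^ D + 1 ≤ Real.exp L := by
  filter_upwards [Pool.Agent.BVall.ev_poly 2 D (show (0 : ℝ) < 1 by norm_num),
    eventually_ge_atTop (1 : ℝ)] with L h h'
  rw [one_mul] at h
  have h1 : 1 ≤ L ^ D := one_le_pow₀ h'
  linarith

theorem mwin_mu (n : ℕ) : ‖((moebius n : ℤ) : ℂ)‖ ≤ 1 := by
  rw [Complex.norm_intCast]
  have h := ArithmeticFunction.abs_moebius_le_one (n := n)
  exact_mod_cast h

theorem mwin_pow (k : ℕ) (hk : 6000 ≤ k) (L : ℝ) (hL : 1 ≤ L) :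
    L ^ 3 * (L ^ (9895 / 10000 : ℝ)) ^ k ≤ (L ^ (99 / 100 : ℝ)) ^ k := by
  have hL0 : 0 < L := by linarith
  have h1 : L ^ (99 / 100 : ℝ) = L ^ (5 / 10000 : ℝ) * L ^ (9895 / 10000 : ℝ) := by
    rw [← Real.rpow_add hL0]
    norm_num
  rw [h1, mul_pow]
  apply mul_le_mul_of_nonneg_right _ (by positivity)
  rw [← Real.rpow_natCast (L ^ (5 / 10000 : ℝ)) k, ← Real.rpow_mul hL0.le,
    ← Real.rpow_natCast L 3]
  apply Real.rpow_le_rpow_of_exponent_le hL
  have hk' : (6000 : ℝ) ≤ (k : ℝ) := by exact_mod_cast hk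
  push_cast
  linarith

theorem p_mwin : S_mwin := by
  intro hpsi hmI A B E κ hκ
  obtain ⟨k, hk⟩ : ∃ k, k = 100 * (A + 60 + 3) := ⟨_, rfl⟩
  obtain ⟨D, hD⟩ := hpsi (A + 60) E
  obtain ⟨C1, hC1⟩ := hmI B (k + 1) (κ + 1) (by linarith)
  obtain ⟨C2, hC2⟩ : ∃ C2, C2 = max C1 D := ⟨_, rfl⟩
  refine ⟨C2 + 1, ?_⟩
  have hall := ((hD.and hC1).and (mwin_ev D)).and (eventually_ge_atTop (3 : ℝ))
  have hall2 := Real.tendsto_log_atTop.eventually hall
  filter_upwards [hall2, eventually_gt_atTop (0 : ℝ)] with X hX hX0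
  obtain ⟨L, hL⟩ : ∃ L, L = Real.log X := ⟨_, rfl⟩
  rw [← hL] at hX
  rw [← hL]
  obtain ⟨⟨⟨hp, hf⟩, he⟩, hL3⟩ := hX
  have hLX : Real.exp L = X := by rw [hL, Real.exp_log hX0]
  have hL0 : 0 < L := by linarith
  have hL1 : 1 ≤ L := by linarith
  intro lam hlam1 hlamE r χ hr hrB τ hcase hτ
  have hsum : ∑ n ∈ Icc 1 ⌊3 * X⌋₊,
      (Real.log n : ℂ) * (((moebius n : ℤ) : ℂ) * χ (n : ZMod r) * pz (-τ) n) *
        (OmL lam X n : ℂ) =
      psiG lam X (fun n => ((moebius n : ℤ) : ℂ) * χ n * pz (-τ) n) := by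
    unfold psiG
    apply Finset.sum_congr rfl
    intro n _
    rfl
  rw [hsum]
  have h1 := hp lam hlam1 hlamE (fun n => ((moebius n : ℤ) : ℂ) * χ n * pz (-τ) n) (fun n => by
    rw [norm_mul, mwin_norm_pz, mul_one, norm_mul]
    calc ‖((moebius n : ℤ) : ℂ)‖ * ‖χ n‖ ≤ 1 * 1 :=
          mul_le_mul (mwin_mu n) (χ.norm_le_one _) (norm_nonneg _) zero_le_one
      _ = 1 := one_mul 1)
  rw [hLX] at h1
  have hfin : X / L ^ (A + 60) ≤ X / L ^ A := by
    apply div_le_div_of_nonneg_left hX0.le (by positivity)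
    exact pow_le_pow_right₀ hL1 (by omega)
  refine le_trans (h1 ?_) hfin
  intro t ht
  rw [mwin_shift (fun n => ((moebius n : ℤ) : ℂ) * χ n), ← hk]
  have hLD : L ^ D ≤ L ^ C2 := pow_le_pow_right₀ hL1 (by rw [hC2]; exact le_max_right _ _)
  have hLC : L ^ C1 ≤ L ^ C2 := pow_le_pow_right₀ hL1 (by rw [hC2]; exact le_max_left _ _)
  have hLC2 : 0 < L ^ C2 := by positivity
  have hτ2 : 2 * L ^ C2 ≤ |τ| := by
    refine le_trans ?_ hcase
    rw [pow_succ]
    nlinarith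
  have h3 := hf r χ hr hrB (t - τ) (by
    have h2 : |τ| - |t| ≤ |t - τ| := by
      rw [abs_sub_comm]
      exact abs_sub_abs_le_abs_sub τ t
    linarith) (by
    have h2 : |t - τ| ≤ |t| + |τ| := abs_sub t τ
    have h3 : X ^ κ = Real.exp (κ * L) := by
      rw [← hLX, ← Real.exp_mul, mul_comm]
    rw [h3] at hτ
    have h4 : Real.exp ((κ + 1) * L) = Real.exp (κ * L) * Real.exp L := by
      rw [← Real.exp_add]
      congr 1
      ring
    have h5 : 1 ≤ Real.exp (κ * L) := by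
      apply Real.one_le_exp
      positivity
    rw [h4]
    have h6 : 0 < L ^ D := by positivity
    nlinarith) (k + 1) le_rfl
  have h4 := mwin_pow (k + 1) (by omega) L hL1
  have h5 : 0 ≤ (L ^ (99 / 100 : ℝ)) ^ (k + 1) := by positivity
  linarith

end Pool.Agent.CA.SC
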