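import Pool.Agent.Lib.MP_d610d0_nt.CA.SC.Stm

set_option autoImplicit false

/-!
Project CA, section SC, piece smk: the smooth factor, Vinogradov.
-/

namespace Pool.Agent.CA.SC

open Finset Filter
open Pool.Agent.CH.V (pz ex)
open Pool.Agent.CH.D (dp)
open Pool.Agent.CH.P (R_cls)

/-- Abel summation. -/
private theorem smk_abel (z : ℕ → ℂ) (h : ℕ → ℝ) (k1 : ℕ) : ∀ K : ℕ, k1 ≤ K →
    ∑ k ∈ Ioc k1 K, (h k : ℂ) * z k = (h K : ℂ) * ∑ i ∈ Ioc k1 K, z i -
      ∑ k ∈ Ico k1 K, ((h (k + 1) - h k : ℝ) : ℂ) * ∑ i ∈ Ioc k1 k, z i := by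
  intro K hK
  induction K, hK using Nat.le_induction with
  | base => simp
  | succ K hK ih =>
    rw [Finset.sum_Ioc_succ_top hK, ih, Finset.sum_Ioc_succ_top hK, Finset.sum_Ico_succ_top hK]
    push_cast
    ring

private theorem smk_abel_le (z : ℕ → ℂ) (h : ℕ → ℝ) (k1 K : ℕ) (hK : k1 ≤ K) (B G η : ℝ)
    (hB : 0 ≤ B) (hη : 0 ≤ η) (hG : 0 ≤ G)
    (hP : ∀ k, k1 ≤ k → k ≤ K → ‖∑ i ∈ Ioc k1 k, z i‖ ≤ B) (hh : |h K| ≤ G)
    (hd : ∀ k, |h (k + 1) - h k| ≤ η) :
    ‖∑ k ∈ Ioc k1 K, (h k : ℂ) * z k‖ ≤ (G + K * η) * B := by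
  rw [smk_abel z h k1 K hK]
  refine (norm_sub_le _ _).trans ?_
  have h1 : ‖(h K : ℂ) * ∑ i ∈ Ioc k1 K, z i‖ ≤ G * B := by
    rw [norm_mul, Complex.norm_real, Real.norm_eq_abs]
    exact mul_le_mul hh (hP K hK le_rfl) (norm_nonneg _) hG
  have h2 : ‖∑ k ∈ Ico k1 K, ((h (k + 1) - h k : ℝ) : ℂ) * ∑ i ∈ Ioc k1 k, z i‖ ≤ K * (η * B) := by
    calc ‖∑ k ∈ Ico k1 K, ((h (k + 1) - h k : ℝ) : ℂ) * ∑ i ∈ Ioc k1 k, z i‖
        ≤ ∑ k ∈ Ico k1 K, η * B := by
          refine (norm_sum_le _ _).trans (Finset.sum_le_sum fun k hk => ?_)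
          obtain ⟨hk1, hk2⟩ := Finset.mem_Ico.1 hk
          rw [norm_mul, Complex.norm_real, Real.norm_eq_abs]
          exact mul_le_mul (hd k) (hP k hk1 hk2.le) (norm_nonneg _) hη
      _ = ((K - k1 : ℕ) : ℝ) * (η * B) := by
          rw [Finset.sum_const, nsmul_eq_mul, Nat.card_Ico]
      _ ≤ K * (η * B) := by
          apply mul_le_mul_of_nonneg_right _ (mul_nonneg hη hB)
          exact_mod_cast Nat.sub_le _ _
  linarith

/-- The powers of `l`. -/
private theorem smk_pow : ∀ᶠ l : ℝ in atTop, l ^ (451 / 500 : ℝ) + 3 ≤ l ^ (19 / 20 : ℝ) := by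
  have h1 : Tendsto (fun l : ℝ => l ^ (24 / 500 : ℝ)) atTop atTop :=
    tendsto_rpow_atTop (by norm_num)
  filter_upwards [h1.eventually_ge_atTop 4, eventually_ge_atTop (1 : ℝ)] with l h2 h3
  have h4 : l ^ (19 / 20 : ℝ) = l ^ (451 / 500 : ℝ) * l ^ (24 / 500 : ℝ) := by
    rw [← Real.rpow_add (by linarith)]
    norm_num
  have h5 : (1 : ℝ) ≤ l ^ (451 / 500 : ℝ) := Real.one_le_rpow h3 (by norm_num)
  rw [h4]
  nlinarith

theorem p_smk : S_smk := by
  intro hcls A B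
  have hlog : Tendsto (fun J : ℕ => Real.log (J : ℝ)) atTop atTop :=
    Real.tendsto_log_atTop.comp tendsto_natCast_atTop_atTop
  filter_upwards [hlog.eventually (hcls (A + 1) B 2 (by norm_num)), hlog.eventually smk_pow,
    hlog.eventually (eventually_ge_atTop (9 : ℝ)), eventually_ge_atTop 1] with J h1 h2 h3 hJ1
  intro r χ N G θ V hr hrB hV hN ht1 ht2
  set l : ℝ := Real.log J with hl
  have hJ0 : (0 : ℝ) < J := by exact_mod_cast hJ1
  have hl0 : 0 < l := by linarith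
  have hG : 0 ≤ G := (abs_nonneg _).trans (hV.bd 0)
  have hNN : 3 ≤ Real.log N := by
    have : 0 ≤ l ^ (451 / 500 : ℝ) := by positivity
    linarith
  have hN0 : (0 : ℝ) < N := by
    rcases Nat.eq_zero_or_pos N with h | h
    · exfalso
      rw [h] at hNN
      norm_num at hNN
    · exact_mod_cast h
  have hN8 : (8 : ℝ) ≤ N := by
    have h4 : Real.exp 3 ≤ N := by
      rw [← Real.exp_log hN0]
      exact Real.exp_le_exp.2 hNN
    have h5 : (2.7 : ℝ) ≤ Real.exp 1 := by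
      have := Real.exp_one_gt_d9
      linarith
    have h6 : Real.exp 3 = Real.exp 1 ^ 3 := by
      rw [← Real.exp_nat_mul]
      norm_num
    have h7 : (2.7 : ℝ) ^ 3 ≤ Real.exp 1 ^ 3 := pow_le_pow_left₀ (by norm_num) h5 3
    rw [h6] at h4
    norm_num at h7
    linarith
  have hN8' : 8 ≤ N := by exact_mod_cast hN8
  have hlA : 0 < l ^ (A + 1) := by positivity
  -- the partial sums
  have hpart : ∀ M : ℕ, N / 4 ≤ M → ‖∑ n ∈ Icc 1 M, χ (n : ZMod r) * pz (-θ) n‖ ≤ M / l ^ (A + 1) := by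
    intro M hM
    apply h1 r χ hr hrB (-θ) M
    · rw [abs_neg]
      refine le_trans ?_ ht1
      exact pow_le_pow_right₀ (by linarith) (by omega)
    · rw [abs_neg]
      refine ht2.trans (le_of_eq ?_)
      rw [hl, two_mul, Real.exp_add, Real.exp_log hJ0]
      ring
    · have h4 : (N : ℝ) / 8 ≤ M := by
        have h5 : N ≤ 8 * M := by omega
        have h6 : (N : ℝ) ≤ 8 * M := by exact_mod_cast h5
        linarith
      have h5 : Real.log ((N : ℝ) / 8) ≤ Real.log M := Real.log_le_log (by positivity) h4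
      rw [Real.log_div hN0.ne' (by norm_num)] at h5
      have h6 : Real.log 8 ≤ 3 := by
        have h7 : Real.log 8 = 3 * Real.log 2 := by
          rw [show (8 : ℝ) = 2 ^ 3 by norm_num, Real.log_pow]
          norm_num
        have h8 := Real.log_two_lt_d9
        rw [h7]
        linarith
      linarith
  set k1 : ℕ := N / 4 with hk1
  have hk1N : 4 * k1 ≤ N := by
    have := Nat.mul_div_le N 4
    rwa [← hk1] at this
  have hk1K : k1 ≤ 2 * N := by omega
  let z : ℕ → ℂ := fun n => χ (n : ZMod r) * pz (-θ) n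
  let h : ℕ → ℝ := fun n => V ((n : ℝ) / N)
  have hsum : dp (sf χ V N) (2 * N) θ = ∑ n ∈ Ioc k1 (2 * N), (h n : ℂ) * z n := by
    unfold Pool.Agent.CH.D.dp
    have hsub : Ioc k1 (2 * N) ⊆ Icc 1 (2 * N) := by
      intro n hn
      have := Finset.mem_Ioc.1 hn
      exact Finset.mem_Icc.2 ⟨by omega, this.2⟩
    rw [← Finset.sum_subset hsub]
    · refine Finset.sum_congr rfl fun n _ => ?_
      unfold sf
      show χ (n : ZMod r) * (V ((n : ℝ) / N) : ℂ) * pz (-θ) n =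
        (V ((n : ℝ) / N) : ℂ) * (χ (n : ZMod r) * pz (-θ) n)
      ring
    · intro n hn1 hn2
      have h4 : n ≤ k1 := by
        by_contra hcon
        exact hn2 (Finset.mem_Ioc.2 ⟨by omega, (Finset.mem_Icc.1 hn1).2⟩)
      have h5 : V ((n : ℝ) / N) = 0 := by
        by_contra hne
        have h6 := (hV.supp _ hne).1
        rw [div_le_div_iff₀ (by norm_num) hN0] at h6
        have h7 : 4 * n ≤ N := by omega
        have h8 : 4 * (n : ℝ) ≤ N := by exact_mod_cast h7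
        linarith
      unfold sf
      rw [h5]
      simp
  have hP : ∀ k, k1 ≤ k → k ≤ 2 * N → ‖∑ i ∈ Ioc k1 k, z i‖ ≤ 3 * N / l ^ (A + 1) := by
    intro k hk hk2
    have h4 : ∑ i ∈ Ioc k1 k, z i = ∑ i ∈ Icc 1 k, z i - ∑ i ∈ Icc 1 k1, z i := by
      have h5 : ∑ i ∈ Icc 1 k, z i = ∑ i ∈ Icc 1 k1, z i + ∑ i ∈ Ioc k1 k, z i := by
        have e1 : Icc 1 k = Ioc 0 k := by ext n; simp [Nat.succ_le_iff]
        have e2 : Icc 1 k1 = Ioc 0 k1 := by ext n; simp [Nat.succ_le_iff]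
        rw [e1, e2, Finset.sum_Ioc_consecutive _ (Nat.zero_le _) hk]
      rw [h5]
      ring
    rw [h4]
    refine (norm_sub_le _ _).trans ?_
    have h5 := hpart k hk
    have h6 := hpart k1 le_rfl
    have h7 : (k : ℝ) ≤ 2 * N := by exact_mod_cast hk2
    have h8 : (k1 : ℝ) ≤ N := by
      have : k1 ≤ N := by omega
      exact_mod_cast this
    calc ‖∑ i ∈ Icc 1 k, z i‖ + ‖∑ i ∈ Icc 1 k1, z i‖
        ≤ k / l ^ (A + 1) + k1 / l ^ (A + 1) := add_le_add h5 h6
      _ = (k + k1) / l ^ (A + 1) := by ring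
      _ ≤ 3 * N / l ^ (A + 1) := by
          apply div_le_div_of_nonneg_right _ hlA.le
          linarith
  have hd : ∀ k, |h (k + 1) - h k| ≤ G / N := by
    intro k
    refine (hV.lip _ _).trans (le_of_eq ?_)
    rw [← sub_div]
    have e : (((k + 1 : ℕ) : ℝ) - (k : ℝ)) = 1 := by push_cast; ring
    rw [e, abs_of_pos (by positivity)]
    ring
  have hab := smk_abel_le z h k1 (2 * N) hk1K (3 * N / l ^ (A + 1)) G (G / N) (by positivity)
    (by positivity) hG hP (hV.bd _) hd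
  rw [hsum]
  refine hab.trans ?_
  have e1 : ((2 * N : ℕ) : ℝ) * (G / N) = 2 * G := by
    push_cast
    field_simp
  rw [e1]
  have e2 : (G + 2 * G) * (3 * N / l ^ (A + 1)) = G * N / l ^ A * (9 / l) := by
    rw [pow_succ]
    field_simp
    ring
  rw [e2]
  have h9 : 9 / l ≤ 1 := by rw [div_le_one hl0]; exact h3
  have h10 : 0 ≤ G * N / l ^ A := by positivity
  calc G * N / l ^ A * (9 / l) ≤ G * N / l ^ A * 1 := mul_le_mul_of_nonneg_left h9 h10
    _ = G * N / l ^ A := mul_one _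

end Pool.Agent.CA.SC
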