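import Pool.Agent.Lib.MP_d610d0_nt.CA.SC.Stm

set_option autoImplicit false

/-!
Project CA, section SC, piece smo: the smooth factor, van der Corput.
-/

namespace Pool.Agent.CA.SC

open Finset Filter
open Pool.Agent.CH.V (pz ex)
open Pool.Agent.CH.D (dp)

private theorem smo_pz_mul (t x y : ℝ) (hx : 0 < x) (hy : 0 < y) : pz t (x * y) = pz t x * pz t y := by
  unfold pz
  rw [← Complex.exp_add, Real.log_mul hx.ne' hy.ne']
  congr 1
  push_cast
  ring

private theorem smo_pz_norm (t x : ℝ) : ‖pz t x‖ = 1 := by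
  unfold pz
  rw [Complex.norm_exp]
  simp

/-- Splitting into residue classes. -/
private theorem smo_reindex (r : ℕ) (hr : 1 ≤ r) (N : ℕ) (hrN : r ≤ N) (f : ℕ → ℂ) :
    ∑ n ∈ Icc 1 N, f n = ∑ b ∈ Icc 1 r, ∑ k ∈ range ((N - b) / r + 1), f (b + r * k) := by
  have hmap : ∀ n ∈ Icc 1 N, (n - 1) % r + 1 ∈ Icc 1 r := by
    intro n _
    rw [Finset.mem_Icc]
    have := Nat.mod_lt (n - 1) (show 0 < r by omega)
    omega
  rw [← Finset.sum_fiberwise_of_maps_to hmap]
  refine Finset.sum_congr rfl fun b hb => ?_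
  rw [Finset.mem_Icc] at hb
  symm
  refine Finset.sum_nbij' (fun k => b + r * k) (fun n => (n - 1) / r) ?_ ?_ ?_ ?_ ?_
  · intro k hk
    rw [Finset.mem_range] at hk
    have h1 : k ≤ (N - b) / r := by omega
    have h2 : r * k ≤ N - b := by
      have := (Nat.le_div_iff_mul_le (show 0 < r by omega)).1 h1
      rw [mul_comm]; exact this
    rw [Finset.mem_filter, Finset.mem_Icc]
    refine ⟨⟨by omega, by omega⟩, ?_⟩
    have h3 : b + r * k - 1 = (b - 1) + r * k := by omega
    rw [h3, Nat.add_mul_mod_self_left, Nat.mod_eq_of_lt (by omega)]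
    omega
  · intro n hn
    rw [Finset.mem_filter, Finset.mem_Icc] at hn
    rw [Finset.mem_range]
    have h0 := Nat.div_add_mod (n - 1) r
    have : (n - 1) / r ≤ (N - b) / r := by
      rw [Nat.le_div_iff_mul_le (show 0 < r by omega)]
      have h1 : (n - 1) / r * r = r * ((n - 1) / r) := mul_comm _ _
      omega
    omega
  · intro k hk
    have h3 : b + r * k - 1 = (b - 1) + r * k := by omega
    show (b + r * k - 1) / r = k
    rw [h3, Nat.add_mul_div_left _ _ (show 0 < r by omega), Nat.div_eq_of_lt (by omega)]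
    omega
  · intro n hn
    rw [Finset.mem_filter, Finset.mem_Icc] at hn
    have h0 := Nat.div_add_mod (n - 1) r
    show b + r * ((n - 1) / r) = n
    omega
  · intro k _
    rfl

/-- Covering by dyadic blocks. -/
private theorem smo_cover (z : ℕ → ℂ) (B : ℝ) (k1 Kx : ℕ) (hB : 0 ≤ B)
    (h : ∀ M M' : ℕ, k1 ≤ M → M ≤ M' → M' ≤ 2 * M → M ≤ Kx → ‖∑ n ∈ Ioc M M', z n‖ ≤ B) :
    ∀ (j K : ℕ), k1 ≤ K → K ≤ Kx → K ≤ 2 ^ j * k1 → ‖∑ n ∈ Ioc k1 K, z n‖ ≤ j * B := by
  intro j
  induction j with
  | zero =>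
    intro K h1 _ h2
    have h3 : K = k1 := by
      rw [pow_zero, one_mul] at h2
      omega
    rw [h3, Finset.Ioc_self, Finset.sum_empty, norm_zero]
    simp
  | succ j ih =>
    intro K h1 h2 h3
    by_cases h4 : K ≤ 2 ^ j * k1
    · have h5 := ih K h1 h2 h4
      push_cast
      linarith
    · push Not at h4
      have h5 : k1 ≤ 2 ^ j * k1 := Nat.le_mul_of_pos_left _ (by positivity)
      have e1 := ih (2 ^ j * k1) h5 (by omega) le_rfl
      have e2 := h (2 ^ j * k1) K h5 h4.le (by rw [pow_succ] at h3; linarith) (by omega)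
      have hsplit : ∑ n ∈ Ioc k1 K, z n = ∑ n ∈ Ioc k1 (2 ^ j * k1), z n + ∑ n ∈ Ioc (2 ^ j * k1) K, z n := by
        rw [Finset.sum_Ioc_consecutive _ h5 h4.le]
      rw [hsplit]
      refine (norm_add_le _ _).trans ?_
      push_cast
      linarith

/-- Abel summation. -/
private theorem smo_abel (z : ℕ → ℂ) (h : ℕ → ℝ) (k1 : ℕ) : ∀ K : ℕ, k1 ≤ K →
    ∑ k ∈ Ioc k1 K, (h k : ℂ) * z k = (h K : ℂ) * ∑ i ∈ Ioc k1 K, z i -
      ∑ k ∈ Ico k1 K, ((h (k + 1) - h k : ℝ) : ℂ) * ∑ i ∈ Ioc k1 k, z i := by
  intro K hK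
  induction K, hK using Nat.le_induction with
  | base => simp
  | succ K hK ih =>
    rw [Finset.sum_Ioc_succ_top hK, ih, Finset.sum_Ioc_succ_top hK, Finset.sum_Ico_succ_top hK]
    push_cast
    ring

private theorem smo_abel_le (z : ℕ → ℂ) (h : ℕ → ℝ) (k1 K : ℕ) (hK : k1 ≤ K) (B G η : ℝ)
    (hB : 0 ≤ B) (hη : 0 ≤ η) (hG : 0 ≤ G)
    (hP : ∀ k, k1 ≤ k → k ≤ K → ‖∑ i ∈ Ioc k1 k, z i‖ ≤ B) (hh : |h K| ≤ G)
    (hd : ∀ k, |h (k + 1) - h k| ≤ η) :
    ‖∑ k ∈ Ioc k1 K, (h k : ℂ) * z k‖ ≤ (G + K * η) * B := by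
  rw [smo_abel z h k1 K hK]
  refine (norm_sub_le _ _).trans ?_
  have h1 : ‖(h K : ℂ) * ∑ i ∈ Ioc k1 K, z i‖ ≤ G * B := by
    rw [norm_mul, Complex.norm_real, Real.norm_eq_abs]
    exact mul_le_mul hh (hP K hK le_rfl) (norm_nonneg _) hG
  have h2 : ‖∑ k ∈ Ico k1 K, ((h (k + 1) - h k : ℝ) : ℂ) * ∑ i ∈ Ioc k1 k, z i‖ ≤ K * (η * B) := by
    calc ‖∑ k ∈ Ico k1 K, ((h (k + 1) - h k : ℝ) : ℂ) * ∑ i ∈ Ioc k1 k, z i‖
        ≤ ∑ k ∈ Ico k1 K, η * B := by
          refine (norm_sum_le _ _).trans (Finset.sum_le_sum fun k hk => ?_)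
          obtain ⟨hk1, hk2⟩ := Finset.mem_Ico.1 hk
          rw [norm_mul, Complex.norm_real, Real.norm_eq_abs]
          exact mul_le_mul (hd k) (hP k hk1 hk2.le) (norm_nonneg _) hη
      _ = ((K - k1 : ℕ) : ℝ) * (η * B) := by
          rw [Finset.sum_const, nsmul_eq_mul, Nat.card_Ico]
      _ ≤ K * (η * B) := by
          apply mul_le_mul_of_nonneg_right _ (mul_nonneg hη hB)
          exact_mod_cast Nat.sub_le _ _
  linarith

theorem p_smo : S_smo := by
  rintro ⟨C, hC1, hvdc⟩
  refine ⟨48 * C, by linarith, ?_⟩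
  intro r χ N G θ V hr hN hV hθ
  have hG : 0 ≤ G := (abs_nonneg _).trans (hV.bd 0)
  have hr0 : (0 : ℝ) < r := by exact_mod_cast hr
  have hr1 : (1 : ℝ) ≤ r := by exact_mod_cast hr
  have hN0 : (0 : ℝ) < N := by exact_mod_cast hN
  have hN1 : (1 : ℝ) ≤ N := by exact_mod_cast hN
  set R : ℝ := Real.sqrt |θ| with hRdef
  have hR1 : 1 ≤ R := Real.one_le_sqrt.2 hθ
  have hR0 : 0 < R := by linarith
  have hlog : 0 ≤ Real.log N := Real.log_nonneg hN1
  have hNR : 0 ≤ (N : ℝ) / R := by positivity
  rcases le_or_gt N (8 * r) with hcase | hcase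
  · -- trivial bound
    have h1 : ‖dp (sf χ V N) (2 * N) θ‖ ≤ 2 * N * G := by
      unfold Pool.Agent.CH.D.dp
      calc ‖∑ n ∈ Icc 1 (2 * N), sf χ V N n * pz (-θ) n‖ ≤ ∑ n ∈ Icc 1 (2 * N), G := by
            refine (norm_sum_le _ _).trans (Finset.sum_le_sum fun n _ => ?_)
            rw [norm_mul, smo_pz_norm, mul_one]
            unfold sf
            rw [norm_mul, Complex.norm_real, Real.norm_eq_abs]
            calc ‖χ (n : ZMod r)‖ * |V ((n : ℝ) / N)| ≤ 1 * G :=
                  mul_le_mul (DirichletCharacter.norm_le_one _ _) (hV.bd _) (abs_nonneg _) zero_le_one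
              _ = G := one_mul G
        _ = 2 * N * G := by
            rw [Finset.sum_const, nsmul_eq_mul, Nat.card_Icc, Nat.add_sub_cancel]
            push_cast
            ring
    refine h1.trans ?_
    have h2 : (N : ℝ) ≤ 8 * r := by exact_mod_cast hcase
    calc 2 * N * G ≤ 16 * r * G * (1 * 1) := by
          have := mul_le_mul_of_nonneg_right h2 hG
          linarith
      _ ≤ 48 * C * r * G * ((1 + Real.log N) * (R + N / R)) := by
          apply mul_le_mul
          · apply mul_le_mul_of_nonneg_right _ hG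
            apply mul_le_mul_of_nonneg_right _ hr0.le
            linarith
          · exact mul_le_mul (by linarith) (by linarith) (by norm_num) (by linarith)
          · norm_num
          · positivity
      _ = _ := by ring
  · -- the main case
    have h8 : 8 * (r : ℝ) < N := by exact_mod_cast hcase
    set B0 : ℝ := C * (1 + Real.log (2 * N)) * (R + (2 * N) / R) with hB0
    have hlog2 : 0 ≤ Real.log (2 * N) := Real.log_nonneg (by linarith)
    have hB0n : 0 ≤ B0 := by positivity
    unfold Pool.Agent.CH.D.dp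
    rw [smo_reindex r hr (2 * N) (by omega) (fun n => sf χ V N n * pz (-θ) n)]
    -- one class
    have hone : ∀ b ∈ Icc 1 r, ‖∑ k ∈ range ((2 * N - b) / r + 1),
        sf χ V N (b + r * k) * pz (-θ) ((b + r * k : ℕ) : ℝ)‖ ≤ 3 * G * (4 * B0) := by
      intro b hb
      obtain ⟨hb1, hb2⟩ := Finset.mem_Icc.1 hb
      have hb0 : (0 : ℝ) < b := by exact_mod_cast hb1
      have hbr : (b : ℝ) ≤ r := by exact_mod_cast hb2
      set u : ℝ := (b : ℝ) / r with hu
      have hu0 : 0 < u := by positivity
      have hu1 : u ≤ 1 := by rw [hu, div_le_one hr0]; exact hbr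
      set K : ℕ := (2 * N - b) / r with hK
      set k1 : ℕ := N / (4 * r) with hk1
      have hrK : r * K ≤ 2 * N := by
        have h1 := Nat.mul_div_le (2 * N - b) r
        rw [← hK] at h1
        omega
      have hk1r : 4 * (r * k1) ≤ N := by
        have := Nat.mul_div_le N (4 * r)
        calc 4 * (r * k1) = 4 * r * (N / (4 * r)) := by rw [hk1]; ring
          _ ≤ N := this
      have hk1l : N < 4 * (r * k1) + 4 * r := by
        have h1 := Nat.lt_div_mul_add (a := N) (b := 4 * r) (by omega)
        have h2 : 4 * (r * k1) = N / (4 * r) * (4 * r) := by rw [hk1]; ring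
        omega
      have hk1pos : 2 ≤ k1 := by
        rw [hk1, Nat.le_div_iff_mul_le (by omega)]
        omega
      have hk1K : k1 ≤ K := by
        rw [hK, Nat.le_div_iff_mul_le (by omega)]
        have : k1 * r = r * k1 := mul_comm _ _
        omega
      have hK16 : K ≤ 2 ^ 4 * k1 := by
        by_contra hcon
        push Not at hcon
        have h1 : r * (2 ^ 4 * k1 + 1) ≤ r * K := Nat.mul_le_mul_left r hcon
        have h2 : r * (2 ^ 4 * k1 + 1) = 16 * (r * k1) + r := by ring
        omega
      have hKN : K ≤ 2 * N := by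
        calc K = 1 * K := (one_mul K).symm
          _ ≤ r * K := Nat.mul_le_mul_right K hr
          _ ≤ 2 * N := hrK
      let z : ℕ → ℂ := fun k => pz (-θ) ((k : ℝ) + u)
      let h : ℕ → ℝ := fun k => V (((b + r * k : ℕ) : ℝ) / N)
      -- the terms
      have hterm : ∀ k : ℕ, sf χ V N (b + r * k) * pz (-θ) ((b + r * k : ℕ) : ℝ) =
          (χ (b : ZMod r) * pz (-θ) r) * ((h k : ℂ) * z k) := by
        intro k
        have e1 : ((b + r * k : ℕ) : ZMod r) = (b : ZMod r) := by
          push_cast
          simp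
        have e2 : ((b + r * k : ℕ) : ℝ) = (r : ℝ) * ((k : ℝ) + u) := by
          rw [hu]
          push_cast
          field_simp
          ring
        have e3 : pz (-θ) ((b + r * k : ℕ) : ℝ) = pz (-θ) r * z k := by
          rw [e2]
          exact smo_pz_mul _ _ _ hr0 (by positivity)
        unfold sf
        rw [e1, e3]
        show χ (b : ZMod r) * (h k : ℂ) * (pz (-θ) r * z k) = _
        ring
      have hzero : ∀ k, k ≤ k1 → h k = 0 := by
        intro k hk
        by_contra hne
        have h1 := (hV.supp _ hne).1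
        rw [div_le_div_iff₀ (by norm_num) hN0] at h1
        have h2 : r * k ≤ r * k1 := Nat.mul_le_mul_left r hk
        have h3 : 4 * ((b + r * k : ℕ) : ℝ) ≤ 4 * r + N := by
          have : 4 * (b + r * k) ≤ 4 * r + N := by omega
          exact_mod_cast this
        linarith
      have hsum : ∑ k ∈ range (K + 1), sf χ V N (b + r * k) * pz (-θ) ((b + r * k : ℕ) : ℝ) =
          (χ (b : ZMod r) * pz (-θ) r) * ∑ k ∈ Ioc k1 K, (h k : ℂ) * z k := by
        rw [Finset.mul_sum]
        have hsub : Ioc k1 K ⊆ range (K + 1) := by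
          intro k hk
          have := (Finset.mem_Ioc.1 hk).2
          exact Finset.mem_range.2 (by omega)
        rw [← Finset.sum_subset hsub]
        · exact Finset.sum_congr rfl fun k _ => hterm k
        · intro k hk1' hk2'
          have h1 : k ≤ k1 := by
            by_contra hcon
            exact hk2' (Finset.mem_Ioc.2 ⟨by omega, by have := Finset.mem_range.1 hk1'; omega⟩)
          rw [hterm, hzero k h1]
          simp
      rw [hsum, norm_mul]
      have hpre : ‖χ (b : ZMod r) * pz (-θ) r‖ ≤ 1 := by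
        rw [norm_mul, smo_pz_norm, mul_one]
        exact DirichletCharacter.norm_le_one _ _
      have hblock : ∀ M M' : ℕ, k1 ≤ M → M ≤ M' → M' ≤ 2 * M → M ≤ K →
          ‖∑ n ∈ Ioc M M', z n‖ ≤ B0 := by
        intro M M' h1 h2 h3 h4
        have h5 := hvdc (-θ) u M M' (by rw [abs_neg]; exact hθ) hu0.le hu1 (by omega) h2 h3
        refine h5.trans ?_
        rw [abs_neg, ← hRdef]
        have hM0 : (0 : ℝ) < M := by
          have : 0 < M := by omega
          exact_mod_cast this
        have hMN : (M : ℝ) ≤ 2 * N := by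
          have : M ≤ 2 * N := by omega
          exact_mod_cast this
        have h6 : Real.log M ≤ Real.log (2 * N) := Real.log_le_log hM0 hMN
        have h7 : (M : ℝ) / R ≤ 2 * N / R := div_le_div_of_nonneg_right hMN hR0.le
        have h9 : 0 ≤ Real.log M := Real.log_nonneg (by
          have : 1 ≤ M := by omega
          exact_mod_cast this)
        have h10 : 0 ≤ (M : ℝ) / R := by positivity
        apply mul_le_mul
        · exact mul_le_mul_of_nonneg_left (by linarith) (by linarith)
        · linarith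
        · linarith
        · exact mul_nonneg (by linarith) (by linarith)
      have hP : ∀ k, k1 ≤ k → k ≤ K → ‖∑ i ∈ Ioc k1 k, z i‖ ≤ 4 * B0 := by
        intro k h1 h2
        have := smo_cover z B0 k1 K hB0n hblock 4 k h1 h2 (by omega)
        push_cast at this
        exact this
      have hd : ∀ k, |h (k + 1) - h k| ≤ G * (r / N) := by
        intro k
        refine (hV.lip _ _).trans ?_
        apply le_of_eq
        congr 1
        rw [← sub_div]
        have e : (((b + r * (k + 1) : ℕ) : ℝ) - ((b + r * k : ℕ) : ℝ)) = r := by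
          push_cast
          ring
        rw [e, abs_of_pos (by positivity)]
      have hab := smo_abel_le z h k1 K hk1K (4 * B0) G (G * (r / N)) (by linarith) (by positivity) hG hP
        (hV.bd _) hd
      have hK2 : (K : ℝ) * (G * (r / N)) ≤ 2 * G := by
        have h1 : (r : ℝ) * K ≤ 2 * N := by exact_mod_cast hrK
        calc (K : ℝ) * (G * (r / N)) = G * ((r * K) / N) := by ring
          _ ≤ G * 2 := by
              apply mul_le_mul_of_nonneg_left _ hG
              rw [div_le_iff₀ hN0]
              exact h1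
          _ = 2 * G := mul_comm _ _
      calc ‖χ (b : ZMod r) * pz (-θ) r‖ * ‖∑ k ∈ Ioc k1 K, (h k : ℂ) * z k‖
          ≤ 1 * ((G + K * (G * (r / N))) * (4 * B0)) :=
            mul_le_mul hpre hab (norm_nonneg _) zero_le_one
        _ ≤ 3 * G * (4 * B0) := by
            rw [one_mul]
            apply mul_le_mul_of_nonneg_right _ (by linarith)
            linarith
    calc ‖∑ b ∈ Icc 1 r, ∑ k ∈ range ((2 * N - b) / r + 1),
          sf χ V N (b + r * k) * pz (-θ) ((b + r * k : ℕ) : ℝ)‖
        ≤ ∑ b ∈ Icc 1 r, 3 * G * (4 * B0) := (norm_sum_le _ _).trans (Finset.sum_le_sum hone)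
      _ = r * (3 * G * (4 * B0)) := by
          rw [Finset.sum_const, nsmul_eq_mul, Nat.card_Icc, Nat.add_sub_cancel]
      _ ≤ r * (3 * G * (4 * (C * (2 * (1 + Real.log N)) * (2 * (R + N / R))))) := by
          apply mul_le_mul_of_nonneg_left _ hr0.le
          apply mul_le_mul_of_nonneg_left _ (by linarith)
          apply mul_le_mul_of_nonneg_left _ (by norm_num)
          rw [hB0]
          apply mul_le_mul
          · apply mul_le_mul_of_nonneg_left _ (by linarith)
            rw [Real.log_mul (by norm_num) hN0.ne']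
            have : Real.log 2 < 0.7 := lt_trans Real.log_two_lt_d9 (by norm_num)
            linarith
          · have e : 2 * (N : ℝ) / R = 2 * (N / R) := by ring
            rw [e]
            linarith
          · positivity
          · exact mul_nonneg (by linarith) (by linarith)
      _ = 48 * C * r * G * (1 + Real.log N) * (R + N / R) := by ring

end Pool.Agent.CA.SC
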