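import Pool.Agent.Lib.MP_d610d0_nt.CA.SC.Stm

set_option autoImplicit false

/-!
Piece t0.
-/

namespace Pool.Agent.CA.SC

open Finset Filter MeasureTheory
open Pool.Agent.MP89da58 (tri)

/-- clamped identity -/
private noncomputable def t0_W (s : ℝ) : ℝ := max 0 (min 2 (1 + s))

private theorem t0_W_mono {s s' : ℝ} (h : s ≤ s') : t0_W s ≤ t0_W s' := by
  unfold t0_W
  exact max_le_max_left _ (min_le_min_left _ (by linarith only [h]))

private theorem t0_W_nonneg (s : ℝ) : 0 ≤ t0_W s := le_max_left _ _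

private theorem t0_W_le (s : ℝ) : t0_W s ≤ 2 := max_le (by norm_num) (min_le_left _ _)

private theorem t0_tri_eq (s : ℝ) : tri s = 1 - |t0_W s - 1| := by
  unfold tri t0_W
  rcases le_total s (-1) with h | h
  · rw [abs_of_nonpos (by linarith only [h] : s ≤ 0), max_eq_left (by linarith only [h]),
      min_eq_right (by linarith only [h]), max_eq_left (by linarith only [h])]
    norm_num
  rcases le_total s 1 with h' | h'
  · rw [min_eq_right (by linarith only [h']), max_eq_right (a := 0) (b := 1 + s)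
      (by linarith only [h]), add_sub_cancel_left]
    exact max_eq_right (by linarith only [abs_le.2 ⟨h, h'⟩])
  · rw [abs_of_nonneg (by linarith only [h'] : 0 ≤ s), max_eq_left (by linarith only [h']),
      min_eq_left (by linarith only [h']), max_eq_right (by norm_num)]
    norm_num

private theorem t0_tri_sub {s s' : ℝ} (h : s ≤ s') : |tri s' - tri s| ≤ t0_W s' - t0_W s := by
  rw [t0_tri_eq, t0_tri_eq]
  have h1 := abs_abs_sub_abs_le_abs_sub (t0_W s - 1) (t0_W s' - 1)
  have h2 := t0_W_mono h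
  rw [show 1 - |t0_W s' - 1| - (1 - |t0_W s - 1|) = |t0_W s - 1| - |t0_W s' - 1| by ring]
  refine h1.trans ?_
  rw [show t0_W s - 1 - (t0_W s' - 1) = -(t0_W s' - t0_W s) by ring, abs_neg,
    abs_of_nonneg (by linarith only [h2])]

private theorem t0_tri_cont : Continuous tri := by
  unfold tri
  fun_prop

private theorem t0_tri_zero {v : ℝ} (hv : 1 ≤ |v|) : tri v = 0 := by
  unfold tri
  exact max_eq_left (by linarith only [hv])

private theorem t0_tri_01 (v : ℝ) : 0 ≤ tri v ∧ tri v ≤ 1 := by
  unfold tri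
  exact ⟨le_max_left _ _, max_le zero_le_one (by linarith only [abs_nonneg v])⟩

private theorem t0_G {G : ℝ} {V : ℝ → ℝ} (hV : Cf G V) : 0 ≤ G :=
  (abs_nonneg (V 0)).trans (hV.bd 0)

private theorem t0_V_cont {G : ℝ} {V : ℝ → ℝ} (hV : Cf G V) : Continuous V := by
  have hG := t0_G hV
  have : LipschitzWith ⟨G, hG⟩ V := by
    apply LipschitzWith.of_dist_le_mul
    intro x y
    rw [Real.dist_eq, Real.dist_eq]
    exact hV.lip x y
  exact this.continuous

private theorem t0_V_big {G : ℝ} {V : ℝ → ℝ} (hV : Cf G V) {x : ℝ} (hx : 2 ≤ x) : V x = 0 := by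
  have h0 : ∀ z : ℝ, 2 < z → V z = 0 := by
    intro z hz
    by_contra hne
    have := (hV.supp z hne).2
    linarith only [this, hz]
  rcases eq_or_lt_of_le hx with h | h
  · subst h
    by_contra hne
    have hG := t0_G hV
    have hpos : 0 < |V 2| := abs_pos.2 hne
    have h1 := hV.lip 2 (2 + |V 2| / (2 * (G + 1)))
    have hp : 0 < |V 2| / (2 * (G + 1)) := by positivity
    have hz := h0 (2 + |V 2| / (2 * (G + 1))) (by linarith only [hp])
    rw [hz, sub_zero, sub_add_cancel_left, abs_neg, abs_of_pos hp] at h1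
    have h2 : G * (|V 2| / (2 * (G + 1))) < |V 2| := by
      have e : G * (|V 2| / (2 * (G + 1))) = |V 2| * (G / (2 * (G + 1))) := by ring
      rw [e]
      have h3 : G / (2 * (G + 1)) < 1 := by
        rw [div_lt_one (by positivity)]
        linarith only [hG]
      nlinarith only [h3, hpos]
    linarith only [h1, h2]
  · exact h0 x h

private theorem t0_V_small {G : ℝ} {V : ℝ → ℝ} (hV : Cf G V) {x : ℝ} (hx : x < 1 / 2) :
    V x = 0 := by
  by_contra hne
  have := (hV.supp x hne).1
  linarith only [this, hx]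

private theorem t0_ii {G : ℝ} {V : ℝ → ℝ} (hV : Cf G V) (μ Y : ℝ) (N : ℕ) (a b : ℝ) :
    IntervalIntegrable (fun t => V (t / N) * tri (μ * Real.log (t / Y))) volume a b := by
  rw [intervalIntegrable_iff]
  apply Measure.integrableOn_of_bounded (M := G) (by simp)
  · apply Measurable.aestronglyMeasurable
    apply Measurable.mul
    · exact (t0_V_cont hV).measurable.comp (measurable_id.div_const _)
    · exact t0_tri_cont.measurable.comp
        ((Real.measurable_log.comp (measurable_id.div_const _)).const_mul _)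
  · refine ae_of_all _ fun t => ?_
    rw [Real.norm_eq_abs, abs_mul, abs_of_nonneg (t0_tri_01 _).1]
    calc |V (t / N)| * tri (μ * Real.log (t / Y)) ≤ G * 1 :=
          mul_le_mul (hV.bd _) (t0_tri_01 _).2 (t0_tri_01 _).1 (t0_G hV)
      _ = G := mul_one G

private theorem t0_riem {V : ℝ → ℝ} {G μ Y : ℝ} {N : ℕ} (N' : ℕ) (hV : Cf G V) (hμ : 0 < μ)
    (hY : 0 < Y) (hN : 1 ≤ N) :
    |∑ n ∈ Icc 1 N', V (n / N) * tri (μ * Real.log (n / Y)) -
      ∫ t in (0 : ℝ)..N', V (t / N) * tri (μ * Real.log (t / Y))| ≤ 5 * G := by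
  have hG := t0_G hV
  have hN0 : (0 : ℝ) < N := by exact_mod_cast hN
  set h : ℝ → ℝ := fun t => V (t / N) * tri (μ * Real.log (t / Y)) with hh
  set U : ℕ → ℝ := fun k => if k = 0 then 0 else t0_W (μ * Real.log (k / Y)) with hU
  have s1 : ∑ n ∈ Icc 1 N', V (n / N) * tri (μ * Real.log (n / Y)) =
      ∑ k ∈ range N', h ((k + 1 : ℕ) : ℝ) := by
    rw [range_eq_Ico, sum_Ico_add' (fun n : ℕ => h (n : ℝ)) 0 N' 1]
    rfl
  have s2 : ∑ k ∈ range N', ∫ t in ((k : ℕ) : ℝ)..((k + 1 : ℕ) : ℝ), h t =
      ∫ t in (0 : ℝ)..N', h t := by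
    have := intervalIntegral.sum_integral_adjacent_intervals (f := h) (μ := volume)
      (a := fun k : ℕ => (k : ℝ)) (n := N') (fun k _ => t0_ii hV μ Y N _ _)
    rw [this, Nat.cast_zero]
  have s3 : ∀ k ∈ range N', |h ((k + 1 : ℕ) : ℝ) - ∫ t in ((k : ℕ) : ℝ)..((k + 1 : ℕ) : ℝ), h t| ≤
      (if k ≤ 2 * N then G / N else 0) + G * (U (k + 1) - U k) := by
    intro k _
    have e1 : h ((k + 1 : ℕ) : ℝ) - ∫ t in ((k : ℕ) : ℝ)..((k + 1 : ℕ) : ℝ), h t =
        ∫ t in ((k : ℕ) : ℝ)..((k + 1 : ℕ) : ℝ), (h ((k + 1 : ℕ) : ℝ) - h t) := by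
      rw [intervalIntegral.integral_sub (by simp) (t0_ii hV μ Y N _ _),
        intervalIntegral.integral_const]
      push_cast
      rw [add_sub_cancel_left, one_smul]
    rw [e1]
    have h2 := intervalIntegral.norm_integral_le_of_norm_le_const (a := ((k : ℕ) : ℝ))
      (b := ((k + 1 : ℕ) : ℝ)) (C := (if k ≤ 2 * N then G / N else 0) + G * (U (k + 1) - U k))
      (f := fun t => h ((k + 1 : ℕ) : ℝ) - h t) (by
        intro t ht
        rw [Set.uIoc_of_le (by push_cast; linarith only [])] at ht
        have hk0 : (0 : ℝ) ≤ k := Nat.cast_nonneg k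
        have ht0 : 0 < t := lt_of_le_of_lt hk0 ht.1
        have ht1 : t ≤ (k : ℝ) + 1 := by have := ht.2; push_cast at this; exact this
        have hlog : μ * Real.log (t / Y) ≤ μ * Real.log (((k + 1 : ℕ) : ℝ) / Y) := by
          apply mul_le_mul_of_nonneg_left _ hμ.le
          apply Real.log_le_log (by positivity)
          exact div_le_div_of_nonneg_right ht.2 hY.le
        have g1 := t0_tri_sub hlog
        have hU1 : U (k + 1) = t0_W (μ * Real.log (((k + 1 : ℕ) : ℝ) / Y)) := by
          simp only [hU]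
          rw [if_neg (by omega)]
        have hUk : U k ≤ t0_W (μ * Real.log (t / Y)) := by
          simp only [hU]
          by_cases hk : k = 0
          · rw [if_pos hk]
            exact t0_W_nonneg _
          · rw [if_neg hk]
            have hk1 : (0 : ℝ) < k := by
              have : 0 < k := Nat.pos_of_ne_zero hk
              exact_mod_cast this
            apply t0_W_mono
            apply mul_le_mul_of_nonneg_left _ hμ.le
            apply Real.log_le_log (by positivity)
            exact div_le_div_of_nonneg_right ht.1.le hY.le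
        have g2 : |V (((k + 1 : ℕ) : ℝ) / N) - V (t / N)| ≤ (if k ≤ 2 * N then G / N else 0) := by
          split_ifs with hk
          · refine (hV.lip _ _).trans ?_
            have e2 : ((k + 1 : ℕ) : ℝ) / N - t / N = ((k : ℝ) + 1 - t) / N := by
              push_cast
              ring
            rw [e2, abs_of_nonneg (div_nonneg (by linarith only [ht1]) hN0.le), ← mul_div_assoc]
            apply div_le_div_of_nonneg_right _ hN0.le
            have h3 : (k : ℝ) + 1 - t ≤ 1 := by linarith only [ht.1]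
            nlinarith only [h3, hG]
          · rw [not_le] at hk
            have hk' : (2 : ℝ) * N ≤ k := by exact_mod_cast hk.le
            rw [t0_V_big hV, t0_V_big hV, sub_zero, abs_zero]
            · rw [le_div_iff₀ hN0]
              linarith only [hk', ht.1]
            · rw [le_div_iff₀ hN0]
              push_cast
              linarith only [hk']
        rw [Real.norm_eq_abs]
        have e3 : h ((k + 1 : ℕ) : ℝ) - h t =
            (V (((k + 1 : ℕ) : ℝ) / N) - V (t / N)) * tri (μ * Real.log (((k + 1 : ℕ) : ℝ) / Y)) +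
            V (t / N) * (tri (μ * Real.log (((k + 1 : ℕ) : ℝ) / Y)) -
              tri (μ * Real.log (t / Y))) := by
          simp only [hh]
          ring
        rw [e3]
        refine (abs_add_le _ _).trans ?_
        rw [abs_mul, abs_mul, abs_of_nonneg (t0_tri_01 _).1]
        apply add_le_add
        · calc |V (((k + 1 : ℕ) : ℝ) / N) - V (t / N)| *
                tri (μ * Real.log (((k + 1 : ℕ) : ℝ) / Y)) ≤
                |V (((k + 1 : ℕ) : ℝ) / N) - V (t / N)| * 1 :=
                mul_le_mul_of_nonneg_left (t0_tri_01 _).2 (abs_nonneg _)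
            _ ≤ _ := by rw [mul_one]; exact g2
        · apply mul_le_mul (hV.bd _) _ (abs_nonneg _) hG
          rw [hU1]
          linarith only [g1, hUk])
    rw [Real.norm_eq_abs] at h2
    refine h2.trans (le_of_eq ?_)
    push_cast
    rw [add_sub_cancel_left, abs_one, mul_one]
  have s4 : ∑ k ∈ range N', (if k ≤ 2 * N then G / N else 0) ≤ 3 * G := by
    rw [← sum_filter, sum_const, nsmul_eq_mul]
    have h1 : ((range N').filter fun k => k ≤ 2 * N).card ≤ 2 * N + 1 := by
      calc ((range N').filter fun k => k ≤ 2 * N).card ≤ (range (2 * N + 1)).card := by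
            apply card_le_card
            intro k hk
            rw [mem_filter] at hk
            rw [mem_range]
            omega
        _ = 2 * N + 1 := card_range _
    have h2 : (((range N').filter fun k => k ≤ 2 * N).card : ℝ) ≤ 3 * N := by
      have h3 : ((range N').filter fun k => k ≤ 2 * N).card ≤ 3 * N := by omega
      exact_mod_cast h3
    calc (((range N').filter fun k => k ≤ 2 * N).card : ℝ) * (G / N) ≤ 3 * N * (G / N) :=
          mul_le_mul_of_nonneg_right h2 (by positivity)
      _ = 3 * G := by field_simp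
  have s5 : ∑ k ∈ range N', G * (U (k + 1) - U k) ≤ 2 * G := by
    rw [← mul_sum, sum_range_sub]
    have h0 : U 0 = 0 := by simp only [hU]; rw [if_pos trivial]
    have h1 : U N' ≤ 2 := by
      simp only [hU]
      split_ifs
      · norm_num
      · exact t0_W_le _
    rw [h0, sub_zero]
    nlinarith only [h1, hG]
  rw [s1, ← s2, ← sum_sub_distrib]
  calc |∑ k ∈ range N', (h ((k + 1 : ℕ) : ℝ) - ∫ t in ((k : ℕ) : ℝ)..((k + 1 : ℕ) : ℝ), h t)|
      ≤ ∑ k ∈ range N', |h ((k + 1 : ℕ) : ℝ) - ∫ t in ((k : ℕ) : ℝ)..((k + 1 : ℕ) : ℝ), h t| :=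
        abs_sum_le_sum_abs _ _
    _ ≤ ∑ k ∈ range N', ((if k ≤ 2 * N then G / N else 0) + G * (U (k + 1) - U k)) :=
        sum_le_sum s3
    _ = (∑ k ∈ range N', (if k ≤ 2 * N then G / N else 0)) +
        ∑ k ∈ range N', G * (U (k + 1) - U k) := sum_add_distrib
    _ ≤ 5 * G := by linarith only [s4, s5]

private theorem t0_sub {V : ℝ → ℝ} {G μ Y : ℝ} {N N' : ℕ} (hV : Cf G V) (hμ : 0 < μ)
    (hY : 0 < Y) (hN : 1 ≤ N) (hN' : 2 * N ≤ N') :
    μ * ∫ t in (0 : ℝ)..N', V (t / N) * tri (μ * Real.log (t / Y)) =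
      Y * ∫ v in (-1 : ℝ)..1, V (Y / N * Real.exp (v / μ)) * Real.exp (v / μ) * tri v := by
  have hG := t0_G hV
  have hN0 : (0 : ℝ) < N := by exact_mod_cast hN
  set F : ℝ → ℝ := fun t => V (t / N) * tri (μ * Real.log (t / Y)) with hF
  set a : ℝ := Y * Real.exp (-(1 / μ)) with ha
  set b : ℝ := Y * Real.exp (1 / μ) with hb
  have ha0 : 0 < a := by positivity
  have hb0 : 0 < b := by positivity
  have hFa : ∀ t, 0 ≤ t → t ≤ a → F t = 0 := by
    intro t ht hta
    simp only [hF]
    rcases eq_or_lt_of_le ht with h | h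
    · rw [← h, zero_div, t0_V_small hV (by norm_num), zero_mul]
    · rw [t0_tri_zero, mul_zero]
      have h1 : Real.log (t / Y) ≤ -(1 / μ) := by
        rw [Real.log_le_iff_le_exp (by positivity), div_le_iff₀ hY, mul_comm]
        exact hta
      have h2 : μ * Real.log (t / Y) ≤ -1 := by
        calc μ * Real.log (t / Y) ≤ μ * -(1 / μ) := mul_le_mul_of_nonneg_left h1 hμ.le
          _ = -1 := by field_simp
      rw [abs_of_nonpos (by linarith only [h2])]
      linarith only [h2]
  have hFb : ∀ t, b ≤ t → F t = 0 := by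
    intro t htb
    simp only [hF]
    rw [t0_tri_zero, mul_zero]
    have ht0 : 0 < t := lt_of_lt_of_le hb0 htb
    have h1 : 1 / μ ≤ Real.log (t / Y) := by
      rw [Real.le_log_iff_exp_le (by positivity), le_div_iff₀ hY, mul_comm]
      exact htb
    have h2 : 1 ≤ μ * Real.log (t / Y) := by
      calc (1 : ℝ) = μ * (1 / μ) := by field_simp
        _ ≤ μ * Real.log (t / Y) := mul_le_mul_of_nonneg_left h1 hμ.le
    exact h2.trans (le_abs_self _)
  have hFN : ∀ t, (N' : ℝ) ≤ t → F t = 0 := by
    intro t ht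
    simp only [hF]
    rw [t0_V_big hV, zero_mul]
    rw [le_div_iff₀ hN0]
    have : (2 : ℝ) * N ≤ N' := by exact_mod_cast hN'
    linarith only [this, ht]
  have hz : ∀ p q : ℝ, (∀ t ∈ Set.uIcc p q, F t = 0) → ∫ t in p..q, F t = 0 := by
    intro p q hpq
    rw [intervalIntegral.integral_congr (g := fun _ => (0 : ℝ))]
    · simp
    · intro t ht
      exact hpq t ht
  have hi : ∀ p q : ℝ, IntervalIntegrable F volume p q := fun p q => t0_ii hV μ Y N p q
  have s2 : ∫ t in (0 : ℝ)..N', F t = ∫ t in a..b, F t := by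
    have h1 : ∫ t in (0 : ℝ)..a, F t = 0 := by
      apply hz
      intro t ht
      rw [Set.uIcc_of_le ha0.le] at ht
      exact hFa t ht.1 ht.2
    have h2 : ∫ t in b..(N' : ℝ), F t = 0 := by
      apply hz
      intro t ht
      rw [Set.mem_uIcc] at ht
      rcases ht with h | h
      · exact hFb t h.1
      · exact hFN t h.1
    have h3 := intervalIntegral.integral_add_adjacent_intervals (hi 0 a) (hi a b)
    have h4 := intervalIntegral.integral_add_adjacent_intervals (hi 0 b) (hi b N')
    rw [← h4, ← h3, h1, h2]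
    ring
  have hFc : ContinuousOn F (Set.Ioi 0) := by
    apply ContinuousOn.mul
    · exact (t0_V_cont hV).comp_continuousOn (continuousOn_id.div_const _)
    · apply t0_tri_cont.comp_continuousOn
      apply ContinuousOn.mul continuousOn_const
      apply ContinuousOn.log
      · exact continuousOn_id.div_const Y
      · intro t ht
        have ht' : 0 < t := ht
        show t / Y ≠ 0
        positivity
  have h1 := intervalIntegral.integral_comp_mul_deriv' (a := -1) (b := 1)
    (f := fun v => Y * Real.exp (v / μ)) (f' := fun v => Y * (Real.exp (v / μ) * (1 / μ)))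
    (g := F)
    (by
      intro x _
      have := ((hasDerivAt_id x).div_const μ).exp.const_mul Y
      simpa using this)
    (by fun_prop)
    (by
      apply hFc.mono
      rintro _ ⟨x, _, rfl⟩
      show 0 < Y * Real.exp (x / μ)
      positivity)
  have h2 : (∫ x in (-1 : ℝ)..1, (F ∘ fun v => Y * Real.exp (v / μ)) x *
      (Y * (Real.exp (x / μ) * (1 / μ)))) =
      ∫ x in (-1 : ℝ)..1, Y / μ * (V (Y / N * Real.exp (x / μ)) * Real.exp (x / μ) * tri x) := by
    apply intervalIntegral.integral_congr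
    intro x _
    simp only [Function.comp_apply, hF]
    rw [mul_div_assoc Y (Real.exp (x / μ)) Y, mul_div_left_comm, div_self hY.ne', mul_one,
      Real.log_exp, mul_div_cancel₀ x hμ.ne', mul_div_right_comm]
    ring
  rw [h2, intervalIntegral.integral_const_mul] at h1
  have h3 : Y * Real.exp (-1 / μ) = a := by
    rw [ha]
    congr 2
    ring
  rw [h3] at h1
  have h5 : ∫ t in (0 : ℝ)..N', F t =
      Y / μ * ∫ v in (-1 : ℝ)..1, V (Y / N * Real.exp (v / μ)) * Real.exp (v / μ) * tri v := by
    rw [s2, h1]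
  rw [h5]
  field_simp

private theorem t0_pt {V : ℝ → ℝ} {G c w : ℝ} (hV : Cf G V) (hc : 0 < c) (hw : |w| ≤ 1 / 10) :
    |V (c * Real.exp w) * Real.exp w - V c| ≤ 12 * G * |w| := by
  have hG := t0_G hV
  have hw1 : |w| ≤ 1 := hw.trans (by norm_num)
  have h1 : |Real.exp w - 1| ≤ 2 * |w| := Real.abs_exp_sub_one_le hw1
  have h2 := abs_le.1 h1
  have h3 : Real.exp w ≤ 1.2 := by linarith only [h2.2, hw]
  have h4 : 0.8 ≤ Real.exp w := by linarith only [h2.1, hw]
  by_cases hc4 : c ≤ 4
  · have e1 : V (c * Real.exp w) * Real.exp w - V c =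
        (V (c * Real.exp w) - V c) * Real.exp w + V c * (Real.exp w - 1) := by ring
    rw [e1]
    refine (abs_add_le _ _).trans ?_
    rw [abs_mul, abs_mul, abs_of_pos (Real.exp_pos w)]
    have g1 : |V (c * Real.exp w) - V c| ≤ G * (8 * |w|) := by
      refine (hV.lip _ _).trans ?_
      apply mul_le_mul_of_nonneg_left _ hG
      rw [show c * Real.exp w - c = c * (Real.exp w - 1) by ring, abs_mul, abs_of_pos hc]
      calc c * |Real.exp w - 1| ≤ 4 * (2 * |w|) :=
            mul_le_mul hc4 h1 (abs_nonneg _) (by norm_num)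
        _ = 8 * |w| := by ring
    have g2 : |V (c * Real.exp w) - V c| * Real.exp w ≤ G * (8 * |w|) * 1.2 :=
      mul_le_mul g1 h3 (Real.exp_pos w).le (by positivity)
    have g3 : |V c| * |Real.exp w - 1| ≤ G * (2 * |w|) :=
      mul_le_mul (hV.bd c) h1 (abs_nonneg _) hG
    have g4 : 0 ≤ G * |w| := by positivity
    calc |V (c * Real.exp w) - V c| * Real.exp w + |V c| * |Real.exp w - 1| ≤
          G * (8 * |w|) * 1.2 + G * (2 * |w|) := add_le_add g2 g3
      _ ≤ 12 * G * |w| := by linarith only [g4]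
  · rw [not_le] at hc4
    rw [t0_V_big hV (by linarith only [hc4] : 2 ≤ c), t0_V_big hV, zero_mul, sub_zero, abs_zero]
    · positivity
    · nlinarith only [hc4, h4]

private theorem t0_int {V : ℝ → ℝ} {G μ c : ℝ} (hV : Cf G V) (hμ : 10 ≤ μ) (hc : 0 < c) :
    |(∫ v in (-1 : ℝ)..1, V (c * Real.exp (v / μ)) * Real.exp (v / μ) * tri v) -
      V c * ∫ v in (-1 : ℝ)..1, tri v| ≤ 24 * G / μ := by
  have hG := t0_G hV
  have hμ0 : 0 < μ := by linarith only [hμ]
  have hVc := t0_V_cont hV
  have htc := t0_tri_cont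
  have h1 : (∫ v in (-1 : ℝ)..1, V (c * Real.exp (v / μ)) * Real.exp (v / μ) * tri v) -
      V c * ∫ v in (-1 : ℝ)..1, tri v =
      ∫ v in (-1 : ℝ)..1, (V (c * Real.exp (v / μ)) * Real.exp (v / μ) - V c) * tri v := by
    rw [← intervalIntegral.integral_const_mul, ← intervalIntegral.integral_sub]
    · apply intervalIntegral.integral_congr
      intro v _
      simp only
      ring
    · exact (by fun_prop : Continuous fun v =>
        V (c * Real.exp (v / μ)) * Real.exp (v / μ) * tri v).intervalIntegrable _ _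
    · exact (by fun_prop : Continuous fun v => V c * tri v).intervalIntegrable _ _
  rw [h1]
  have h4 := intervalIntegral.norm_integral_le_of_norm_le_const (a := (-1 : ℝ)) (b := 1)
    (C := 12 * G / μ)
    (f := fun v => (V (c * Real.exp (v / μ)) * Real.exp (v / μ) - V c) * tri v) (by
      intro v hv
      rw [Set.uIoc_of_le (by norm_num)] at hv
      have hv1 : |v| ≤ 1 := abs_le.2 ⟨hv.1.le, hv.2⟩
      have hv2 : |v / μ| ≤ 1 / μ := by
        rw [abs_div, abs_of_pos hμ0]
        exact div_le_div_of_nonneg_right hv1 hμ0.le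
      have hv3 : 1 / μ ≤ 1 / 10 := one_div_le_one_div_of_le (by norm_num) hμ
      have g1 := t0_pt hV hc (hv2.trans hv3)
      rw [Real.norm_eq_abs, abs_mul, abs_of_nonneg (t0_tri_01 v).1]
      calc |V (c * Real.exp (v / μ)) * Real.exp (v / μ) - V c| * tri v ≤
            (12 * G * |v / μ|) * 1 :=
            mul_le_mul g1 (t0_tri_01 v).2 (t0_tri_01 v).1 (by positivity)
        _ ≤ (12 * G * (1 / μ)) * 1 := by
            apply mul_le_mul_of_nonneg_right _ zero_le_one
            exact mul_le_mul_of_nonneg_left hv2 (by positivity)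
        _ = 12 * G / μ := by ring)
  rw [Real.norm_eq_abs] at h4
  refine h4.trans (le_of_eq ?_)
  norm_num
  ring

private theorem t0_one {V : ℝ → ℝ} {G μ Y : ℝ} {N N' : ℕ} (hV : Cf G V) (hμ : 10 ≤ μ)
    (hY : 0 < Y) (hN : 1 ≤ N) (hN' : 2 * N ≤ N') :
    |μ * ∑ n ∈ Icc 1 N', V (n / N) * tri (μ * Real.log (n / Y)) -
      Y * (V (Y / N) * ∫ v in (-1 : ℝ)..1, tri v)| ≤ 24 * G * Y / μ + 5 * G * μ := by
  have hμ0 : 0 < μ := by linarith only [hμ]
  have hN0 : (0 : ℝ) < N := by exact_mod_cast hN
  have h1 := t0_riem N' hV hμ0 hY hN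
  have h2 := t0_sub hV hμ0 hY hN hN'
  have h3 := t0_int hV hμ (div_pos hY hN0)
  set A := ∑ n ∈ Icc 1 N', V (n / N) * tri (μ * Real.log (n / Y))
  set I := ∫ t in (0 : ℝ)..N', V (t / N) * tri (μ * Real.log (t / Y))
  set K := ∫ v in (-1 : ℝ)..1, V (Y / N * Real.exp (v / μ)) * Real.exp (v / μ) * tri v
  set c := V (Y / N) * ∫ v in (-1 : ℝ)..1, tri v
  have e1 : μ * A - Y * c = μ * (A - I) + Y * (K - c) := by
    rw [mul_sub, mul_sub, h2]
    ring
  rw [e1]
  refine (abs_add_le _ _).trans ?_
  rw [abs_mul, abs_mul, abs_of_pos hμ0, abs_of_pos hY]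
  have g1 := mul_le_mul_of_nonneg_left h1 hμ0.le
  have g2 := mul_le_mul_of_nonneg_left h3 hY.le
  calc μ * |A - I| + Y * |K - c| ≤ μ * (5 * G) + Y * (24 * G / μ) := add_le_add g1 g2
    _ = 24 * G * Y / μ + 5 * G * μ := by ring

theorem p_t0 : S_t0 := by
  refine ⟨48, by norm_num, ?_⟩
  intro G lam lam' y V d N N' hV hlam hll hy hd hN hN'
  have hG := t0_G hV
  have hd0 : (0 : ℝ) < d := by exact_mod_cast hd
  have hlam0 : 0 < lam := by linarith only [hlam]
  have hlam0' : 0 < lam' := by linarith only [hlam0, hll]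
  set Y : ℝ := y / d with hY
  have hY0 : 0 < Y := div_pos hy hd0
  have hlog : ∀ n : ℕ, Real.log (((d * n : ℕ) : ℝ) / y) = Real.log (n / Y) := by
    intro n
    congr 1
    rw [hY]
    push_cast
    field_simp
  have h1 := t0_one (μ := lam') hV (by linarith only [hlam, hll]) hY0 hN hN'
  have h2 := t0_one (μ := lam) hV hlam hY0 hN hN'
  have e1 : ∑ n ∈ Icc 1 N', V ((n : ℝ) / N) * (lam' * tri (lam' * Real.log ((d * n : ℕ) / y))
      - lam * tri (lam * Real.log ((d * n : ℕ) / y))) =
      lam' * ∑ n ∈ Icc 1 N', V (n / N) * tri (lam' * Real.log (n / Y)) -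
      lam * ∑ n ∈ Icc 1 N', V (n / N) * tri (lam * Real.log (n / Y)) := by
    rw [mul_sum, mul_sum, ← sum_sub_distrib]
    apply sum_congr rfl
    intro n _
    rw [hlog]
    ring
  rw [e1]
  set A' := lam' * ∑ n ∈ Icc 1 N', V (n / N) * tri (lam' * Real.log (n / Y))
  set A := lam * ∑ n ∈ Icc 1 N', V (n / N) * tri (lam * Real.log (n / Y))
  set c := Y * (V (Y / N) * ∫ v in (-1 : ℝ)..1, tri v)
  have e2 : A' - A = (A' - c) - (A - c) := by ring
  rw [e2]
  refine (abs_sub _ _).trans ?_
  have e3 : y / (d * lam) = Y / lam := by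
    rw [hY]
    field_simp
  rw [e3]
  have g1 : 24 * G * Y / lam' ≤ 24 * G * Y / lam :=
    div_le_div_of_nonneg_left (by positivity) hlam0 hll
  have g2 : 5 * G * lam ≤ 5 * G * lam' := mul_le_mul_of_nonneg_left hll (by positivity)
  have g3 : 0 ≤ G * lam' := by positivity
  have e4 : 48 * G * (Y / lam + lam') = 2 * (24 * G * Y / lam) + 48 * (G * lam') := by ring
  rw [e4]
  linarith only [h1, h2, g1, g2, g3]

end Pool.Agent.CA.SC
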