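import Pool.Agent.Lib.MP_d610d0_nt.CA.SC.Stm

set_option autoImplicit false

/-!
Piece t1.
-/

namespace Pool.Agent.CA.SC

open Finset Filter
open Pool.Agent.MP89da58 (tri)

private theorem t1_mono {a b : ℝ} (h : |b| ≤ |a|) : tri a ≤ tri b := by
  unfold tri
  exact max_le_max le_rfl (by linarith)

private theorem t1_nonneg (a : ℝ) : 0 ≤ tri a := le_max_left _ _

private theorem t1_le_one (a : ℝ) : tri a ≤ 1 := by
  unfold tri
  exact max_le (by norm_num) (by linarith [abs_nonneg a])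

private theorem t1_up (c X : ℝ) (hc : 0 ≤ c) (d n : ℕ) (hd : 1 ≤ d) (hn : 1 ≤ n)
    (h : ((d * (n + 1) : ℕ) : ℝ) ≤ X) :
    tri (c * Real.log (((d * n : ℕ) : ℝ) / X)) ≤ tri (c * Real.log (((d * (n + 1) : ℕ) : ℝ) / X)) := by
  have h0 : (0 : ℝ) < ((d * n : ℕ) : ℝ) := by
    have : 0 < d * n := Nat.mul_pos hd hn
    exact_mod_cast this
  have h1 : ((d * n : ℕ) : ℝ) ≤ ((d * (n + 1) : ℕ) : ℝ) := by
    exact_mod_cast Nat.mul_le_mul_left d (Nat.le_succ n)
  have hX : 0 < X := lt_of_lt_of_le (lt_of_lt_of_le h0 h1) h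
  have e1 : Real.log (((d * n : ℕ) : ℝ) / X) ≤ Real.log (((d * (n + 1) : ℕ) : ℝ) / X) :=
    Real.log_le_log (div_pos h0 hX) (div_le_div_of_nonneg_right h1 hX.le)
  have e2 : Real.log (((d * (n + 1) : ℕ) : ℝ) / X) ≤ 0 :=
    Real.log_nonpos (div_nonneg (h0.le.trans h1) hX.le) ((div_le_one hX).2 h)
  apply t1_mono
  rw [abs_mul, abs_mul, abs_of_nonneg hc, abs_of_nonpos e2, abs_of_nonpos (e1.trans e2)]
  exact mul_le_mul_of_nonneg_left (by linarith) hc

private theorem t1_down (c X : ℝ) (hc : 0 ≤ c) (hX : 0 < X) (d n : ℕ)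
    (h : X < ((d * n : ℕ) : ℝ)) :
    tri (c * Real.log (((d * (n + 1) : ℕ) : ℝ) / X)) ≤ tri (c * Real.log (((d * n : ℕ) : ℝ) / X)) := by
  have h0 : (0 : ℝ) < ((d * n : ℕ) : ℝ) := hX.trans h
  have h1 : ((d * n : ℕ) : ℝ) ≤ ((d * (n + 1) : ℕ) : ℝ) := by
    exact_mod_cast Nat.mul_le_mul_left d (Nat.le_succ n)
  have e1 : Real.log (((d * n : ℕ) : ℝ) / X) ≤ Real.log (((d * (n + 1) : ℕ) : ℝ) / X) :=
    Real.log_le_log (div_pos h0 hX) (div_le_div_of_nonneg_right h1 hX.le)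
  have e2 : 0 ≤ Real.log (((d * n : ℕ) : ℝ) / X) :=
    Real.log_nonneg ((one_le_div hX).2 h.le)
  apply t1_mono
  rw [abs_mul, abs_mul, abs_of_nonneg hc, abs_of_nonneg e2, abs_of_nonneg (e2.trans e1)]
  exact mul_le_mul_of_nonneg_left e1 hc

/-- the variation of the window -/
private theorem t1_var (c X : ℝ) (hc : 0 ≤ c) (hX : 0 < X) (d : ℕ) (hd : 1 ≤ d) (g : ℕ → ℝ)
    (hg : ∀ n, g n = tri (c * Real.log (((d * n : ℕ) : ℝ) / X))) (N : ℕ) (hN : 1 ≤ N) :
    (((d * N : ℕ) : ℝ) ≤ X → ∑ n ∈ Ico 1 N, |g n - g (n + 1)| ≤ g N) ∧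
      (X < ((d * N : ℕ) : ℝ) → ∑ n ∈ Ico 1 N, |g n - g (n + 1)| + g N ≤ 3) := by
  have g0 : ∀ n, 0 ≤ g n := fun n => by rw [hg]; exact t1_nonneg _
  have g1 : ∀ n, g n ≤ 1 := fun n => by rw [hg]; exact t1_le_one _
  induction N, hN using Nat.le_induction with
  | base =>
    rw [Ico_self, sum_empty]
    exact ⟨fun _ => g0 1, fun _ => by linarith [g1 1]⟩
  | succ N hN ih =>
    rw [sum_Ico_succ_top hN]
    have hle : ((d * N : ℕ) : ℝ) ≤ ((d * (N + 1) : ℕ) : ℝ) := by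
      exact_mod_cast Nat.mul_le_mul_left d (Nat.le_succ N)
    refine ⟨fun h => ?_, fun h => ?_⟩
    · have hm : g N ≤ g (N + 1) := by
        rw [hg, hg]
        exact t1_up c X hc d N hd hN h
      have := ih.1 (hle.trans h)
      rw [abs_of_nonpos (by linarith)]
      linarith
    · rcases le_or_gt ((d * N : ℕ) : ℝ) X with h2 | h2
      · have h3 := ih.1 h2
        have h4 : |g N - g (N + 1)| ≤ 1 := by
          rw [abs_le]
          constructor
          · linarith [g0 N, g1 (N + 1)]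
          · linarith [g1 N, g0 (N + 1)]
        linarith [g1 N, g1 (N + 1)]
      · have hm : g (N + 1) ≤ g N := by
          rw [hg, hg]
          exact t1_down c X hc hX d N h2
        have := ih.2 h2
        rw [abs_of_nonneg (by linarith)]
        linarith

private theorem t1_var' (c X : ℝ) (hc : 0 ≤ c) (hX : 0 < X) (d : ℕ) (hd : 1 ≤ d) (g : ℕ → ℝ)
    (hg : ∀ n, g n = tri (c * Real.log (((d * n : ℕ) : ℝ) / X))) (N : ℕ) (hN : 1 ≤ N) :
    ∑ n ∈ Ico 1 N, |g n - g (n + 1)| + g N ≤ 3 := by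
  have h := t1_var c X hc hX d hd g hg N hN
  have g1 : g N ≤ 1 := by rw [hg]; exact t1_le_one _
  rcases le_or_gt ((d * N : ℕ) : ℝ) X with h2 | h2
  · linarith [h.1 h2]
  · exact h.2 h2

/-- Abel summation -/
private theorem t1_abel (x : ℕ → ℂ) (g : ℕ → ℝ) (N : ℕ) :
    ∑ n ∈ Icc 1 N, x n * (g n : ℂ) =
      (∑ m ∈ Icc 1 N, x m) * (g N : ℂ) +
        ∑ n ∈ range N, (∑ m ∈ Icc 1 n, x m) * ((g n - g (n + 1) : ℝ) : ℂ) := by
  induction N with
  | zero => simp
  | succ N ih =>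
    rw [sum_Icc_succ_top (by omega), ih, sum_Icc_succ_top (by omega), sum_range_succ]
    push_cast
    ring

private theorem t1_abel_le (x : ℕ → ℂ) (g : ℕ → ℝ) (r : ℝ) (hr : 0 ≤ r)
    (hx : ∀ N, ‖∑ m ∈ Icc 1 N, x m‖ ≤ r) (N : ℕ) (hN : 1 ≤ N) :
    ‖∑ n ∈ Icc 1 N, x n * (g n : ℂ)‖ ≤
      r * (∑ n ∈ Ico 1 N, |g n - g (n + 1)| + |g N|) := by
  rw [t1_abel]
  refine (norm_add_le _ _).trans ?_
  have h1 : ‖(∑ m ∈ Icc 1 N, x m) * (g N : ℂ)‖ ≤ r * |g N| := by
    rw [norm_mul, Complex.norm_real, Real.norm_eq_abs]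
    exact mul_le_mul_of_nonneg_right (hx N) (abs_nonneg _)
  have h2 : ‖∑ n ∈ range N, (∑ m ∈ Icc 1 n, x m) * ((g n - g (n + 1) : ℝ) : ℂ)‖ ≤
      r * ∑ n ∈ Ico 1 N, |g n - g (n + 1)| := by
    rw [range_eq_Ico, sum_eq_sum_Ico_succ_bot (by omega), mul_sum]
    simp only [Icc_eq_empty_of_lt Nat.zero_lt_one, sum_empty, zero_mul, zero_add]
    refine (norm_sum_le _ _).trans (sum_le_sum fun n _ => ?_)
    rw [norm_mul, Complex.norm_real, Real.norm_eq_abs]
    exact mul_le_mul_of_nonneg_right (hx n) (abs_nonneg _)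
  linarith

theorem p_t1 : S_t1 := by
  intro r χ G lam y V d N N' hr hχ hV hlam hy hd hN
  have : NeZero r := ⟨by omega⟩
  have hr0 : (0 : ℝ) ≤ r := Nat.cast_nonneg r
  have hG : 0 ≤ G := (abs_nonneg _).trans (hV.bd 0)
  have hx : ∀ N : ℕ, ‖∑ m ∈ Icc 1 N, χ ((m : ℕ) : ZMod r)‖ ≤ r := fun N =>
    Pool.Agent.MP89da58.norm_sum_Icc_char_le χ hχ N
  rcases Nat.eq_zero_or_pos N' with rfl | hN'
  · simp only [Icc_eq_empty_of_lt Nat.zero_lt_one, sum_empty, norm_zero]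
    positivity
  have hNr : (0 : ℝ) < N := by exact_mod_cast hN
  set t : ℕ → ℝ := fun n => tri (lam * Real.log (((d * n : ℕ) : ℝ) / y)) with ht
  set v : ℕ → ℝ := fun n => V ((n : ℝ) / N) with hv
  have t0 : ∀ n, 0 ≤ t n := fun n => t1_nonneg _
  have t1 : ∀ n, t n ≤ 1 := fun n => t1_le_one _
  have hvG : ∀ n, |v n| ≤ G := fun n => hV.bd _
  have hT := t1_var' lam y hlam.le hy d hd t (fun n => rfl) N' hN'
  have h := t1_abel_le (fun n => χ (n : ZMod r)) (fun n => v n * t n) r hr0 hx N' hN'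
  have e : ∀ n : ℕ, χ (n : ZMod r) * (V ((n : ℝ) / N) : ℂ) *
      (tri (lam * Real.log ((d * n : ℕ) / y)) : ℂ) = χ (n : ZMod r) * ((v n * t n : ℝ) : ℂ) := by
    intro n
    rw [hv, ht]
    push_cast
    ring
  simp only [e]
  refine h.trans ?_
  -- the variation of `v`
  have hstep : ∀ n ∈ Ico 1 N', |v n - v (n + 1)| ≤ if n ≤ 2 * N then G / N else 0 := by
    intro n _
    split_ifs with hn
    · refine (hV.lip _ _).trans (le_of_eq ?_)
      have : (n : ℝ) / N - ((n + 1 : ℕ) : ℝ) / N = - (1 / N) := by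
        push_cast
        field_simp
        ring
      rw [this, abs_neg, abs_of_pos (by positivity)]
      ring
    · have h2 : ∀ m : ℕ, 2 * N < m → v m = 0 := by
        intro m hm
        by_contra hne
        have h3 := (hV.supp _ hne).2
        rw [div_le_iff₀ hNr] at h3
        have h4 : ((2 * N : ℕ) : ℝ) < m := by exact_mod_cast hm
        push_cast at h4
        linarith
      rw [h2 n (by omega), h2 (n + 1) (by omega)]
      simp
  have hvar : ∑ n ∈ Ico 1 N', |v n - v (n + 1)| ≤ 2 * G := by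
    refine (sum_le_sum hstep).trans ?_
    rw [← sum_filter, sum_const, nsmul_eq_mul]
    have hc : ((Ico 1 N').filter (fun n => n ≤ 2 * N)).card ≤ 2 * N := by
      refine (card_le_card (t := Icc 1 (2 * N)) ?_).trans (by simp)
      intro n hn
      rw [mem_filter, mem_Ico] at hn
      rw [mem_Icc]
      exact ⟨hn.1.1, hn.2⟩
    have hc' : (((Ico 1 N').filter (fun n => n ≤ 2 * N)).card : ℝ) ≤ 2 * N := by
      exact_mod_cast hc
    calc _ ≤ (2 * N : ℝ) * (G / N) :=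
          mul_le_mul_of_nonneg_right hc' (div_nonneg hG hNr.le)
      _ = 2 * G := by field_simp
  have hh : ∀ n, |v n * t n - v (n + 1) * t (n + 1)| ≤
      |v n - v (n + 1)| + G * |t n - t (n + 1)| := by
    intro n
    have e2 : v n * t n - v (n + 1) * t (n + 1) =
        (v n - v (n + 1)) * t n + v (n + 1) * (t n - t (n + 1)) := by ring
    rw [e2]
    refine (abs_add_le _ _).trans ?_
    rw [abs_mul, abs_mul, abs_of_nonneg (t0 n)]
    apply add_le_add
    · calc _ ≤ |v n - v (n + 1)| * 1 := mul_le_mul_of_nonneg_left (t1 n) (abs_nonneg _)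
        _ = _ := mul_one _
    · exact mul_le_mul_of_nonneg_right (hvG _) (abs_nonneg _)
  have hsum : ∑ n ∈ Ico 1 N', |v n * t n - v (n + 1) * t (n + 1)| + |v N' * t N'| ≤ 5 * G := by
    have h3 : ∑ n ∈ Ico 1 N', |v n * t n - v (n + 1) * t (n + 1)| ≤
        ∑ n ∈ Ico 1 N', |v n - v (n + 1)| + G * ∑ n ∈ Ico 1 N', |t n - t (n + 1)| := by
      refine (sum_le_sum fun n _ => hh n).trans (le_of_eq ?_)
      rw [sum_add_distrib, mul_sum]
    have h4 : |v N' * t N'| ≤ G * t N' := by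
      rw [abs_mul, abs_of_nonneg (t0 N')]
      exact mul_le_mul_of_nonneg_right (hvG _) (t0 _)
    have h5 := mul_le_mul_of_nonneg_left hT hG
    nlinarith
  calc _ ≤ (r : ℝ) * (5 * G) := mul_le_mul_of_nonneg_left hsum hr0
    _ ≤ 10 * r * G := by nlinarith [mul_nonneg hr0 hG]

end Pool.Agent.CA.SC
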