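import Pool.Agent.Lib.MP_d610d0_nt.CA.SC.Stm

set_option autoImplicit false

/-!
Project CA, section SC, piece tm: moments of the divisor functions.
-/

namespace Pool.Agent.CA.SC

open Finset

/-- Splitting off one coordinate. -/
theorem tm_rec (m n : ℕ) (hn : 1 ≤ n) :
    (Nat.finMulAntidiag (m + 1) n).card ≤ ∑ d ∈ n.divisors, (Nat.finMulAntidiag m d).card := by
  classical
  have h1 : ∀ f ∈ Nat.finMulAntidiag (m + 1) n, (∏ i, f (Fin.succ i)) ∈ n.divisors := by
    intro f hf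
    have h := (Nat.mem_finMulAntidiag.1 hf).1
    rw [Fin.prod_univ_succ] at h
    rw [Nat.mem_divisors]
    exact ⟨⟨f 0, by rw [← h]; ring⟩, by omega⟩
  rw [Finset.card_eq_sum_card_fiberwise (f := fun f : Fin (m + 1) → ℕ => ∏ i, f (Fin.succ i)) h1]
  apply Finset.sum_le_sum
  intro d hd
  have hd0 : d ≠ 0 := by
    intro h0
    rw [h0] at hd
    have h := Nat.dvd_of_mem_divisors hd
    rw [zero_dvd_iff] at h
    omega
  apply Finset.card_le_card_of_injOn (fun f i => f (Fin.succ i))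
  · intro f hf
    rw [Finset.mem_coe, Finset.mem_filter] at hf
    rw [Finset.mem_coe, Nat.mem_finMulAntidiag]
    exact ⟨hf.2, hd0⟩
  · intro f hf g hg hfg
    rw [Finset.mem_coe, Finset.mem_filter] at hf hg
    have hf1 := (Nat.mem_finMulAntidiag.1 hf.1).1
    have hg1 := (Nat.mem_finMulAntidiag.1 hg.1).1
    rw [Fin.prod_univ_succ, hf.2] at hf1
    rw [Fin.prod_univ_succ, hg.2] at hg1
    have h0 : f 0 = g 0 := by
      apply Nat.eq_of_mul_eq_mul_right (Nat.pos_of_ne_zero hd0)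
      rw [hf1, hg1]
    funext i
    refine Fin.cases h0 (fun i => ?_) i
    exact congrFun hfg i

/-- The divisor function is submultiplicative. -/
theorem tm_tau (n d : ℕ) (hd : d ∈ n.divisors) :
    (n.divisors.card : ℝ) ≤ (d.divisors.card : ℝ) * ((n / d).divisors.card : ℝ) := by
  classical
  have h1 := Nat.mul_div_cancel' (Nat.dvd_of_mem_divisors hd)
  have h2 : n.divisors.card ≤ d.divisors.card * (n / d).divisors.card := by
    conv_lhs => rw [← h1, Nat.divisors_mul]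
    exact Finset.card_mul_le
  exact_mod_cast h2

/-- Sums of Dirichlet convolutions. -/
theorem tm_conv (N : ℕ) (g h : ℕ → ℝ) (hg : ∀ n, 0 ≤ g n) (hh : ∀ n, 0 ≤ h n) :
    ∑ n ∈ Icc 1 N, (∑ d ∈ n.divisors, g d * h (n / d)) / (n : ℝ) ≤
      (∑ n ∈ Icc 1 N, g n / n) * ∑ n ∈ Icc 1 N, h n / n := by
  classical
  have e1 : ∀ n ∈ Icc 1 N, (∑ d ∈ n.divisors, g d * h (n / d)) / (n : ℝ) =
      ∑ p ∈ Icc 1 N ×ˢ Icc 1 N,
        if p.1 * p.2 = n then g p.1 / p.1 * (h p.2 / p.2) else 0 := by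
    intro n hn
    rw [Finset.mem_Icc] at hn
    rw [← Nat.sum_divisorsAntidiagonal (f := fun a b => g a * h b), Finset.sum_div,
      ← Finset.sum_filter]
    apply Finset.sum_subset_zero_on_sdiff
    · intro p hp
      rw [Nat.mem_divisorsAntidiagonal] at hp
      have h1 : p.1 ≠ 0 := by
        intro h0
        apply hp.2
        rw [← hp.1, h0, zero_mul]
      have h2 : p.2 ≠ 0 := by
        intro h0
        apply hp.2
        rw [← hp.1, h0, mul_zero]
      rw [Finset.mem_filter, Finset.mem_product, Finset.mem_Icc, Finset.mem_Icc]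
      have h3 : p.1 ≤ n := Nat.le_of_dvd hn.1 ⟨p.2, hp.1.symm⟩
      have h4 : p.2 ≤ n := Nat.le_of_dvd hn.1 ⟨p.1, by rw [← hp.1]; ring⟩
      exact ⟨⟨⟨by omega, by omega⟩, ⟨by omega, by omega⟩⟩, hp.1⟩
    · intro p hp
      rw [Finset.mem_sdiff, Finset.mem_filter, Nat.mem_divisorsAntidiagonal] at hp
      exact absurd ⟨hp.1.2, by omega⟩ hp.2
    · intro p hp
      rw [Nat.mem_divisorsAntidiagonal] at hp
      rw [← hp.1]
      push_cast
      rw [mul_div_mul_comm]
  have e2 : (∑ n ∈ Icc 1 N, g n / n) * ∑ n ∈ Icc 1 N, h n / n =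
      ∑ p ∈ Icc 1 N ×ˢ Icc 1 N, g p.1 / p.1 * (h p.2 / p.2) := by
    rw [Finset.sum_mul_sum, ← Finset.sum_product']
  rw [Finset.sum_congr rfl e1, Finset.sum_comm, e2]
  apply Finset.sum_le_sum
  intro p _
  have hp0 : 0 ≤ g p.1 / p.1 * (h p.2 / p.2) :=
    mul_nonneg (div_nonneg (hg _) (Nat.cast_nonneg _)) (div_nonneg (hh _) (Nat.cast_nonneg _))
  rw [Finset.sum_ite_eq]
  split_ifs
  · exact le_rfl
  · exact hp0

/-- The harmonic sum. -/
theorem tm_harm (N : ℕ) : ∑ n ∈ Icc 1 N, 1 / (n : ℝ) ≤ 1 + Real.log N := by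
  have h := harmonic_le_one_add_log N
  rw [harmonic_eq_sum_Icc] at h
  push_cast at h
  simpa [one_div] using h

theorem tm_one (N : ℕ) : 1 ≤ 1 + Real.log N := by
  have := Real.log_natCast_nonneg N
  linarith

/-- Moments of the number of divisors. -/
theorem tm_D (N j : ℕ) :
    ∑ n ∈ Icc 1 N, ((n.divisors.card : ℕ) : ℝ) ^ j / n ≤ (1 + Real.log N) ^ (2 ^ j) := by
  induction j with
  | zero => simpa using tm_harm N
  | succ j ih =>
    have hg : ∀ n : ℕ, (0 : ℝ) ≤ ((n.divisors.card : ℕ) : ℝ) ^ j := fun n => by positivity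
    have h0 : 0 ≤ ∑ n ∈ Icc 1 N, ((n.divisors.card : ℕ) : ℝ) ^ j / n :=
      Finset.sum_nonneg fun n _ => by positivity
    calc ∑ n ∈ Icc 1 N, ((n.divisors.card : ℕ) : ℝ) ^ (j + 1) / n
        ≤ ∑ n ∈ Icc 1 N, (∑ d ∈ n.divisors, ((d.divisors.card : ℕ) : ℝ) ^ j *
            (((n / d).divisors.card : ℕ) : ℝ) ^ j) / (n : ℝ) := by
          apply Finset.sum_le_sum
          intro n hn
          rw [Finset.mem_Icc] at hn
          apply div_le_div_of_nonneg_right _ (Nat.cast_nonneg _)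
          calc ((n.divisors.card : ℕ) : ℝ) ^ (j + 1)
              = ∑ _d ∈ n.divisors, ((n.divisors.card : ℕ) : ℝ) ^ j := by
                rw [Finset.sum_const, nsmul_eq_mul, pow_succ]
                ring
            _ ≤ _ := by
                apply Finset.sum_le_sum
                intro d hd
                rw [← mul_pow]
                exact pow_le_pow_left₀ (Nat.cast_nonneg _) (tm_tau n d hd) _
      _ ≤ (∑ n ∈ Icc 1 N, ((n.divisors.card : ℕ) : ℝ) ^ j / n) *
            ∑ n ∈ Icc 1 N, ((n.divisors.card : ℕ) : ℝ) ^ j / n := tm_conv N _ _ hg hg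
      _ ≤ (1 + Real.log N) ^ (2 ^ j) * (1 + Real.log N) ^ (2 ^ j) :=
          mul_le_mul ih ih h0 (h0.trans ih)
      _ = (1 + Real.log N) ^ (2 ^ (j + 1)) := by
          rw [← pow_add]
          congr 1
          ring

/-- The claim. -/
theorem tm_S (m : ℕ) : ∀ j : ℕ, ∃ C : ℕ, ∀ N : ℕ, 1 ≤ N →
    ∑ n ∈ Icc 1 N, ((Nat.finMulAntidiag m n).card : ℝ) ^ 2 *
      ((n.divisors.card : ℕ) : ℝ) ^ j / n ≤ (1 + Real.log N) ^ C := by
  induction m with
  | zero =>
    intro j
    refine ⟨0, ?_⟩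
    intro N hN
    rw [pow_zero, Finset.sum_eq_single_of_mem 1 (Finset.mem_Icc.2 ⟨le_rfl, hN⟩)]
    · simp [Nat.finMulAntidiag_one]
    · intro n _ hn
      simp [Nat.finMulAntidiag_zero_left hn]
  | succ m ih =>
    intro j
    obtain ⟨C, hC⟩ := ih (j + 1)
    refine ⟨C + 2 ^ (j + 1), ?_⟩
    intro N hN
    have hg : ∀ n : ℕ, (0 : ℝ) ≤ ((Nat.finMulAntidiag m n).card : ℝ) ^ 2 *
        ((n.divisors.card : ℕ) : ℝ) ^ (j + 1) := fun n => by positivity
    have hh : ∀ n : ℕ, (0 : ℝ) ≤ ((n.divisors.card : ℕ) : ℝ) ^ (j + 1) := fun n => by positivity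
    have h1 : (1 : ℝ) ≤ 1 + Real.log N := tm_one N
    calc ∑ n ∈ Icc 1 N, ((Nat.finMulAntidiag (m + 1) n).card : ℝ) ^ 2 *
          ((n.divisors.card : ℕ) : ℝ) ^ j / n
        ≤ ∑ n ∈ Icc 1 N, (∑ d ∈ n.divisors, (((Nat.finMulAntidiag m d).card : ℝ) ^ 2 *
            ((d.divisors.card : ℕ) : ℝ) ^ (j + 1)) *
              (((n / d).divisors.card : ℕ) : ℝ) ^ (j + 1)) / (n : ℝ) := by
          apply Finset.sum_le_sum
          intro n hn
          rw [Finset.mem_Icc] at hn
          apply div_le_div_of_nonneg_right _ (Nat.cast_nonneg _)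
          have h2 : ((Nat.finMulAntidiag (m + 1) n).card : ℝ) ≤
              ∑ d ∈ n.divisors, ((Nat.finMulAntidiag m d).card : ℝ) := by
            exact_mod_cast tm_rec m n hn.1
          have h3 : ((Nat.finMulAntidiag (m + 1) n).card : ℝ) ^ 2 ≤
              (n.divisors.card : ℝ) * ∑ d ∈ n.divisors, ((Nat.finMulAntidiag m d).card : ℝ) ^ 2 :=
            (pow_le_pow_left₀ (Nat.cast_nonneg _) h2 2).trans sq_sum_le_card_mul_sum_sq
          calc ((Nat.finMulAntidiag (m + 1) n).card : ℝ) ^ 2 * ((n.divisors.card : ℕ) : ℝ) ^ j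
              ≤ (n.divisors.card : ℝ) * (∑ d ∈ n.divisors,
                ((Nat.finMulAntidiag m d).card : ℝ) ^ 2) * ((n.divisors.card : ℕ) : ℝ) ^ j :=
                mul_le_mul_of_nonneg_right h3 (by positivity)
            _ = ∑ d ∈ n.divisors, ((Nat.finMulAntidiag m d).card : ℝ) ^ 2 *
                ((n.divisors.card : ℕ) : ℝ) ^ (j + 1) := by
                rw [← Finset.sum_mul, pow_succ]
                ring
            _ ≤ _ := by
                apply Finset.sum_le_sum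
                intro d hd
                rw [mul_assoc, ← mul_pow]
                exact mul_le_mul_of_nonneg_left
                  (pow_le_pow_left₀ (Nat.cast_nonneg _) (tm_tau n d hd) _) (by positivity)
      _ ≤ (∑ n ∈ Icc 1 N, ((Nat.finMulAntidiag m n).card : ℝ) ^ 2 *
            ((n.divisors.card : ℕ) : ℝ) ^ (j + 1) / n) *
            ∑ n ∈ Icc 1 N, ((n.divisors.card : ℕ) : ℝ) ^ (j + 1) / n := tm_conv N _ _ hg hh
      _ ≤ (1 + Real.log N) ^ C * (1 + Real.log N) ^ (2 ^ (j + 1)) := by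
          apply mul_le_mul (hC N hN) (tm_D N (j + 1))
          · exact Finset.sum_nonneg fun n _ => by positivity
          · positivity
      _ = (1 + Real.log N) ^ (C + 2 ^ (j + 1)) := by rw [← pow_add]

theorem p_tm : S_tm := by
  intro m
  obtain ⟨C, hC⟩ := tm_S m 0
  refine ⟨C, ?_⟩
  intro N hN
  have h1 := hC N hN
  have hN0 : (0 : ℝ) ≤ N := Nat.cast_nonneg _
  calc ∑ n ∈ Icc 1 N, ((Nat.finMulAntidiag m n).card : ℝ) ^ 2
      ≤ ∑ n ∈ Icc 1 N, (N : ℝ) * (((Nat.finMulAntidiag m n).card : ℝ) ^ 2 *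
        ((n.divisors.card : ℕ) : ℝ) ^ 0 / n) := by
        apply Finset.sum_le_sum
        intro n hn
        rw [Finset.mem_Icc] at hn
        have hn0 : (0 : ℝ) < n := by exact_mod_cast hn.1
        have hnN : (n : ℝ) ≤ N := by exact_mod_cast hn.2
        rw [pow_zero, mul_one, mul_div_assoc', le_div_iff₀ hn0]
        have : (0 : ℝ) ≤ ((Nat.finMulAntidiag m n).card : ℝ) ^ 2 := by positivity
        nlinarith
    _ = N * ∑ n ∈ Icc 1 N, (((Nat.finMulAntidiag m n).card : ℝ) ^ 2 *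
        ((n.divisors.card : ℕ) : ℝ) ^ 0 / n) := by rw [Finset.mul_sum]
    _ ≤ N * (1 + Real.log N) ^ C := mul_le_mul_of_nonneg_left h1 hN0

end Pool.Agent.CA.SC
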