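import Pool.Agent.Lib.MP_d610d0_nt.CA.SC.Stm

set_option autoImplicit false

/-!
[CA SC vdc] The second derivative test for `n^(-it)`, with a logarithm (blocks of length `H`,
Weyl differencing in every block, Kusmin-Landau).
-/

namespace Pool.Agent.CA.SC

open Finset Filter
open Pool.Agent.CH.V (pz ex)

private lemma vdc_id (g : ℕ → ℂ) (N : ℕ) :
    ‖∑ j ∈ range N, g j‖ ^ 2 = ∑ j ∈ range N, ‖g j‖ ^ 2 +
      2 * (∑ h ∈ Ico 1 N, ∑ j ∈ range (N - h), g (j + h) * (starRingEnd ℂ) (g j)).re := by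
  induction N with
  | zero => simp
  | succ N ih =>
    have h1 : ∑ h ∈ Ico 1 (N + 1), ∑ j ∈ range (N + 1 - h), g (j + h) * (starRingEnd ℂ) (g j) =
        ∑ h ∈ Ico 1 N, ∑ j ∈ range (N - h), g (j + h) * (starRingEnd ℂ) (g j) +
          g N * (starRingEnd ℂ) (∑ j ∈ range N, g j) := by
      have h2 : ∀ h ∈ Ico 1 (N + 1), ∑ j ∈ range (N + 1 - h), g (j + h) * (starRingEnd ℂ) (g j) =
          ∑ j ∈ range (N - h), g (j + h) * (starRingEnd ℂ) (g j) +
            g N * (starRingEnd ℂ) (g (N - h)) := by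
        intro h hh
        rw [Finset.mem_Ico] at hh
        have e1 : N + 1 - h = (N - h) + 1 := by omega
        have e2 : N - h + h = N := by omega
        rw [e1, Finset.sum_range_succ, e2]
      rw [Finset.sum_congr rfl h2, Finset.sum_add_distrib]
      congr 1
      · rcases Nat.eq_zero_or_pos N with h0 | h0
        · subst h0; simp
        · rw [Finset.sum_Ico_succ_top (by omega)]
          simp
      · rw [← Finset.mul_sum, map_sum]
        congr 1
        rw [← Finset.sum_range_reflect, Finset.sum_Ico_eq_sum_range]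
        apply Finset.sum_congr
        · congr 1
        · intro j hj
          rw [Finset.mem_range] at hj
          congr 2
          omega
    rw [h1, Finset.sum_range_succ, Finset.sum_range_succ (fun j => ‖g j‖ ^ 2)]
    rw [Complex.sq_norm, add_comm (∑ j ∈ range N, g j) (g N), Complex.normSq_add,
      ← Complex.sq_norm, ← Complex.sq_norm, ih, Complex.add_re]
    ring

private lemma vdc_diff (g : ℕ → ℂ) (M : ℕ) (hg : ∀ j, ‖g j‖ ≤ 1) (E : ℕ → ℝ)
    (hE : ∀ h ∈ Ico 1 M, ‖∑ j ∈ range (M - h), g (j + h) * (starRingEnd ℂ) (g j)‖ ≤ E h) :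
    ‖∑ j ∈ range M, g j‖ ^ 2 ≤ M + 2 * ∑ h ∈ Ico 1 M, E h := by
  rw [vdc_id]
  have h1 : ∑ j ∈ range M, ‖g j‖ ^ 2 ≤ M := by
    calc ∑ j ∈ range M, ‖g j‖ ^ 2 ≤ ∑ _j ∈ range M, (1 : ℝ) :=
          Finset.sum_le_sum fun j _ => pow_le_one₀ (norm_nonneg _) (hg j)
      _ = M := by simp
  have h2 : (∑ h ∈ Ico 1 M, ∑ j ∈ range (M - h), g (j + h) * (starRingEnd ℂ) (g j)).re ≤
      ∑ h ∈ Ico 1 M, E h :=
    (Complex.re_le_norm _).trans ((norm_sum_le _ _).trans (Finset.sum_le_sum hE))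
  linarith

private lemma vdc_norm (t x : ℝ) : ‖pz t x‖ = 1 := by
  rw [pz, Complex.norm_exp]
  simp

private lemma vdc_neg (t x : ℝ) : pz (-t) x = (starRingEnd ℂ) (pz t x) := by
  rw [pz, pz, ← Complex.exp_conj]
  congr 1
  rw [map_neg, map_mul, Complex.conj_I, Complex.conj_ofReal]
  push_cast
  ring

private lemma vdc_prod (t x y : ℝ) : pz t x * (starRingEnd ℂ) (pz t y) =
    ex (-(t / (2 * Real.pi)) * (Real.log x - Real.log y)) := by
  have hpi : (Real.pi : ℂ) ≠ 0 := by exact_mod_cast Real.pi_ne_zero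
  rw [← vdc_neg, pz, pz, ex, ← Complex.exp_add]
  congr 1
  push_cast
  field_simp
  ring

/-- The increment of the phase. -/
private noncomputable def vdc_G (h v : ℝ) : ℝ :=
  Real.log (v + h) - Real.log v - (Real.log (v + 1 + h) - Real.log (v + 1))

private lemma vdc_G_eq (h v : ℝ) (hv : 0 < v) (hh : 0 ≤ h) :
    vdc_G h v = Real.log (1 + h / (v * (v + h + 1))) := by
  have h1 : 1 + h / (v * (v + h + 1)) = ((v + h) * (v + 1)) / (v * (v + 1 + h)) := by
    field_simp
    ring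
  rw [h1, Real.log_div (by positivity) (by positivity), Real.log_mul (by positivity) (by positivity),
    Real.log_mul (by positivity) (by positivity), vdc_G]
  ring

private lemma vdc_G_le (h v : ℝ) (hv : 0 < v) (hh : 0 ≤ h) : vdc_G h v ≤ h / v ^ 2 := by
  rw [vdc_G_eq h v hv hh]
  have h1 := Real.log_le_sub_one_of_pos (x := 1 + h / (v * (v + h + 1))) (by positivity)
  have h2 : h / (v * (v + h + 1)) ≤ h / v ^ 2 := by
    apply div_le_div_of_nonneg_left hh (by positivity)
    nlinarith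
  linarith

private lemma vdc_G_ge (h v : ℝ) (hv : 0 < v) (hh : 0 ≤ h) :
    h / ((v + h) * (v + 1)) ≤ vdc_G h v := by
  rw [vdc_G_eq h v hv hh]
  have h1 := Real.one_sub_inv_le_log_of_pos (x := 1 + h / (v * (v + h + 1))) (by positivity)
  have h2 : 1 - (1 + h / (v * (v + h + 1)))⁻¹ = h / ((v + h) * (v + 1)) := by
    have h3 : 1 + h / (v * (v + h + 1)) = ((v + h) * (v + 1)) / (v * (v + h + 1)) := by
      field_simp
      ring
    rw [h3, inv_div]
    field_simp
    ring
  linarith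

private lemma vdc_G_anti (h v : ℝ) (hv : 0 < v) (hh : 0 ≤ h) : vdc_G h (v + 1) ≤ vdc_G h v := by
  rw [vdc_G_eq h v hv hh, vdc_G_eq h (v + 1) (by linarith) hh]
  apply Real.log_le_log (by positivity)
  have : h / ((v + 1) * (v + 1 + h + 1)) ≤ h / (v * (v + h + 1)) := by
    apply div_le_div_of_nonneg_left hh (by positivity)
    nlinarith
  linarith

/-- The correlation sums. -/
private lemma vdc_corr (hKL : R_KL) (t v : ℝ) (N K h : ℕ) (ht : 1 ≤ t) (hN : 1 ≤ N) (hh : 1 ≤ h)
    (hv : (N : ℝ) ≤ v) (hvK : v + K + h ≤ 2 * N + 2) (hth : h * t ≤ (N : ℝ) ^ 2) :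
    ‖∑ j ∈ range K, pz t (v + (j + h : ℕ)) * (starRingEnd ℂ) (pz t (v + j))‖ ≤
      18 * Real.pi * N ^ 2 / t * (1 / h) := by
  have hN0 : (1 : ℝ) ≤ N := by exact_mod_cast hN
  have hh0 : (1 : ℝ) ≤ h := by exact_mod_cast hh
  have hpi := Real.pi_pos
  have hpi3 := Real.pi_gt_three
  set δ : ℝ := t / (2 * Real.pi) * (h / (9 * N ^ 2)) with hδ
  have hδ0 : 0 < δ := by positivity
  have hth1 : t * h / (N : ℝ) ^ 2 ≤ 1 := by
    rw [div_le_one (by positivity)]
    linarith
  have hδ1 : δ ≤ 1 / 54 := by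
    have h1 : δ = t * h / (N : ℝ) ^ 2 * (1 / (18 * Real.pi)) := by
      rw [hδ]
      field_simp
      ring
    rw [h1]
    have h2 : 1 / (18 * Real.pi) ≤ 1 / 54 := by
      apply one_div_le_one_div_of_le (by norm_num)
      linarith
    calc t * h / (N : ℝ) ^ 2 * (1 / (18 * Real.pi)) ≤ 1 * (1 / 54) :=
          mul_le_mul hth1 h2 (by positivity) (by norm_num)
      _ = 1 / 54 := by ring
  set φ : ℕ → ℝ := fun j => -(t / (2 * Real.pi)) * (Real.log (v + (j + h : ℕ)) - Real.log (v + j))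
    with hφ
  have hinc : ∀ n : ℕ, φ (n + 1) - φ n = t / (2 * Real.pi) * vdc_G h (v + n) := by
    intro n
    simp only [hφ, vdc_G]
    have e1 : v + ((n + 1 + h : ℕ) : ℝ) = v + n + 1 + h := by push_cast; ring
    have e2 : v + ((n + 1 : ℕ) : ℝ) = v + n + 1 := by push_cast; ring
    have e3 : v + ((n + h : ℕ) : ℝ) = v + n + h := by push_cast; ring
    rw [e1, e2, e3]
    ring
  have hv0 : ∀ n : ℕ, 0 < v + n := fun n => by
    have : (0 : ℝ) ≤ n := Nat.cast_nonneg n
    linarith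
  have h1 := hKL K φ δ hδ0 (by linarith) (by
    intro n hn
    rw [hinc]
    have hn1 : ((n + 1 : ℕ) : ℝ) ≤ K := by exact_mod_cast hn
    push_cast at hn1
    have hn0 : (0 : ℝ) ≤ n := Nat.cast_nonneg n
    constructor
    · rw [hδ]
      apply mul_le_mul_of_nonneg_left _ (by positivity)
      refine le_trans ?_ (vdc_G_ge h (v + n) (hv0 n) (by linarith))
      apply div_le_div_of_nonneg_left (by linarith) (by have := hv0 n; positivity)
      have e1 : v + n + h ≤ 3 * N := by linarith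
      have e2 : v + n + 1 ≤ 3 * N := by linarith
      calc (v + n + h) * (v + n + 1) ≤ (3 * N) * (3 * N) :=
            mul_le_mul e1 e2 (by linarith [hv0 n]) (by linarith)
        _ = 9 * (N : ℝ) ^ 2 := by ring
    · have e1 := vdc_G_le h (v + n) (hv0 n) (by linarith)
      have e2 : (h : ℝ) / (v + n) ^ 2 ≤ h / N ^ 2 := by
        apply div_le_div_of_nonneg_left (by linarith) (by positivity)
        apply pow_le_pow_left₀ (by linarith)
        linarith
      have e3 : t / (2 * Real.pi) * vdc_G h (v + n) ≤ t / (2 * Real.pi) * (h / N ^ 2) :=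
        mul_le_mul_of_nonneg_left (e1.trans e2) (by positivity)
      have e4 : t / (2 * Real.pi) * (h / (N : ℝ) ^ 2) = t * h / (N : ℝ) ^ 2 * (1 / (2 * Real.pi)) := by
        field_simp
      have e5 : 1 / (2 * Real.pi) ≤ 1 / 6 := by
        apply one_div_le_one_div_of_le (by norm_num)
        linarith
      have e6 : t * h / (N : ℝ) ^ 2 * (1 / (2 * Real.pi)) ≤ 1 * (1 / 6) :=
        mul_le_mul hth1 e5 (by positivity) (by norm_num)
      linarith) (by
    intro n _
    rw [show n + 2 = (n + 1) + 1 by ring, hinc, hinc]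
    apply mul_le_mul_of_nonneg_left _ (by positivity)
    have e1 : v + ((n + 1 : ℕ) : ℝ) = v + n + 1 := by push_cast; ring
    rw [e1]
    exact vdc_G_anti h (v + n) (hv0 n) (by linarith))
  have h2 : ∑ j ∈ range K, pz t (v + (j + h : ℕ)) * (starRingEnd ℂ) (pz t (v + j)) =
      ∑ j ∈ range K, ex (φ j) := Finset.sum_congr rfl fun j _ => vdc_prod _ _ _
  rw [h2]
  refine h1.trans (le_of_eq ?_)
  rw [hδ]
  field_simp
  ring

private lemma vdc_harm (M N : ℕ) (hMN : M ≤ N + 1) :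
    ∑ h ∈ Ico 1 M, (1 : ℝ) / h ≤ 1 + Real.log N := by
  have h1 := harmonic_le_one_add_log N
  rw [harmonic_eq_sum_Icc] at h1
  push_cast at h1
  refine le_trans ?_ h1
  have h2 : Ico 1 M ⊆ Icc 1 N := by
    intro x hx
    rw [Finset.mem_Ico] at hx
    rw [Finset.mem_Icc]
    omega
  refine le_trans (Finset.sum_le_sum_of_subset_of_nonneg h2 fun _ _ _ => by positivity) ?_
  apply le_of_eq
  apply Finset.sum_congr rfl
  intro x _
  rw [one_div]

/-- One block. -/
private lemma vdc_block (hKL : R_KL) (t u : ℝ) (N a M : ℕ) (ht : 1 ≤ t) (hu : 0 ≤ u) (hu1 : u ≤ 1)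
    (hN : 1 ≤ N) (ha : N ≤ a) (hM : a + M ≤ 2 * N) (hMt : M * t ≤ (N : ℝ) ^ 2) :
    ‖∑ n ∈ Ioc a (a + M), pz t ((n : ℝ) + u)‖ ^ 2 ≤
      (1 + 36 * Real.pi) * (1 + Real.log N) * ((N : ℝ) ^ 2 / t) := by
  have hN0 : (1 : ℝ) ≤ N := by exact_mod_cast hN
  have ha0 : (N : ℝ) ≤ a := by exact_mod_cast ha
  have hlog : 0 ≤ Real.log N := Real.log_nonneg hN0
  have hpi := Real.pi_pos
  set v : ℝ := a + 1 + u with hv
  have h1 : ∑ n ∈ Ioc a (a + M), pz t ((n : ℝ) + u) = ∑ j ∈ range M, pz t (v + j) := by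
    rw [← Finset.Ico_add_one_add_one_eq_Ioc, Finset.sum_Ico_eq_sum_range]
    apply Finset.sum_congr
    · congr 1
      omega
    · intro j _
      congr 1
      rw [hv]
      push_cast
      ring
  rw [h1]
  have h2 := vdc_diff (fun j => pz t (v + j)) M (fun j => (vdc_norm _ _).le)
    (fun h => 18 * Real.pi * N ^ 2 / t * (1 / h)) (by
      intro h hh
      rw [Finset.mem_Ico] at hh
      have e1 : ((M - h : ℕ) : ℝ) = M - h := by
        rw [Nat.cast_sub (by omega)]
      have e2 : (a : ℝ) + M ≤ 2 * N := by exact_mod_cast hM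
      have e3 : (h : ℝ) ≤ M := by exact_mod_cast hh.2.le
      refine vdc_corr hKL t v N (M - h) h ht hN hh.1 (by rw [hv]; linarith) ?_ ?_
      · rw [e1, hv]
        linarith
      · calc (h : ℝ) * t ≤ M * t := mul_le_mul_of_nonneg_right e3 (by linarith)
          _ ≤ _ := hMt)
  refine h2.trans ?_
  rw [← Finset.mul_sum]
  have hM1 : M ≤ N + 1 := by omega
  have h3 := vdc_harm M N hM1
  have h4 : (M : ℝ) ≤ (N : ℝ) ^ 2 / t := by
    rw [le_div_iff₀ (by linarith)]
    exact hMt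
  have h5 : 0 ≤ (N : ℝ) ^ 2 / t := by positivity
  have h6 : (18 * Real.pi * N ^ 2 / t) * ∑ h ∈ Ico 1 M, (1 : ℝ) / h ≤
      (18 * Real.pi * N ^ 2 / t) * (1 + Real.log N) :=
    mul_le_mul_of_nonneg_left h3 (by positivity)
  have h7 : (18 * Real.pi * N ^ 2 / t) * (1 + Real.log N) =
      18 * Real.pi * (1 + Real.log N) * ((N : ℝ) ^ 2 / t) := by ring
  have h8 : (N : ℝ) ^ 2 / t ≤ (1 + Real.log N) * ((N : ℝ) ^ 2 / t) := by
    nlinarith
  calc (M : ℝ) + 2 * ((18 * Real.pi * N ^ 2 / t) * ∑ h ∈ Ico 1 M, (1 : ℝ) / h)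
      ≤ (1 + Real.log N) * ((N : ℝ) ^ 2 / t) +
        2 * (18 * Real.pi * (1 + Real.log N) * ((N : ℝ) ^ 2 / t)) := by linarith
    _ = _ := by ring

/-- Cutting an interval into blocks. -/
private lemma vdc_cut (f : ℕ → ℂ) (H : ℕ) (D : ℝ) (hD : 0 ≤ D) (b : ℕ) : ∀ (B a : ℕ), a ≤ b →
    b ≤ a + B * H → (∀ a' M : ℕ, a ≤ a' → a' + M ≤ b → M ≤ H → ‖∑ n ∈ Ioc a' (a' + M), f n‖ ≤ D) →
    ‖∑ n ∈ Ioc a b, f n‖ ≤ B * D := by
  intro B
  induction B with
  | zero =>
    intro a hab hb _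
    have : a = b := by omega
    subst this
    simp
  | succ B ih =>
    intro a hab hb hf
    rcases le_total b (a + H) with h | h
    · obtain ⟨M, rfl⟩ := Nat.exists_eq_add_of_le hab
      have h1 := hf a M le_rfl le_rfl (by omega)
      have h2 : (0 : ℝ) ≤ B := Nat.cast_nonneg B
      push_cast
      nlinarith
    · rw [← Finset.sum_Ioc_consecutive f (m := a) (n := a + H) (k := b) (by omega) h]
      have h1 := hf a H le_rfl h le_rfl
      have h2 := ih (a + H) h (by
        have : (B + 1) * H = B * H + H := by ring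
        omega) (fun a' M h1 h2 h3 => hf a' M (by omega) h2 h3)
      refine (norm_add_le _ _).trans ?_
      push_cast
      linarith

private lemma vdc_pos (hKL : R_KL) (t u : ℝ) (N N' : ℕ) (ht : 1 ≤ t) (hu : 0 ≤ u) (hu1 : u ≤ 1)
    (hN : 1 ≤ N) (hNN : N ≤ N') (hN' : N' ≤ 2 * N) :
    ‖∑ n ∈ Ioc N N', pz t ((n : ℝ) + u)‖ ≤
      (4 * (1 + 36 * Real.pi)) * (1 + Real.log N) * (Real.sqrt t + N / Real.sqrt t) := by
  have hN0 : (1 : ℝ) ≤ N := by exact_mod_cast hN
  have hlog : 0 ≤ Real.log N := Real.log_nonneg hN0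
  have hpi := Real.pi_pos
  have hst : 0 < Real.sqrt t := Real.sqrt_pos.2 (by linarith)
  have hst2 : Real.sqrt t ^ 2 = t := Real.sq_sqrt (by linarith)
  have hP : 1 ≤ (1 + 36 * Real.pi) * (1 + Real.log N) := by
    have : 1 * 1 ≤ (1 + 36 * Real.pi) * (1 + Real.log N) :=
      mul_le_mul (by linarith) (by linarith) (by norm_num) (by linarith)
    linarith
  set P : ℝ := (1 + 36 * Real.pi) * (1 + Real.log N) with hPdef
  have hgoal : (4 * (1 + 36 * Real.pi)) * (1 + Real.log N) * (Real.sqrt t + N / Real.sqrt t) =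
      4 * P * (Real.sqrt t + N / Real.sqrt t) := by rw [hPdef]; ring
  rw [hgoal]
  have hNs : 0 ≤ N / Real.sqrt t := by positivity
  rcases le_or_gt ((N : ℝ) ^ 2) t with hbig | hsmall
  · -- trivial bound
    have h1 : ‖∑ n ∈ Ioc N N', pz t ((n : ℝ) + u)‖ ≤ N := by
      refine (norm_sum_le _ _).trans ?_
      have : ∑ n ∈ Ioc N N', ‖pz t ((n : ℝ) + u)‖ = ((N' - N : ℕ) : ℝ) := by
        simp [vdc_norm]
      rw [this]
      exact_mod_cast (by omega : N' - N ≤ N)
    have h2 : (N : ℝ) ≤ Real.sqrt t := Real.le_sqrt_of_sq_le hbig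
    nlinarith
  · set H : ℕ := ⌊min (N : ℝ) ((N : ℝ) ^ 2 / t)⌋₊ with hH
    have hx1 : 1 ≤ min (N : ℝ) ((N : ℝ) ^ 2 / t) := by
      apply le_min hN0
      rw [le_div_iff₀ (by linarith)]
      linarith
    have hH1 : 1 ≤ H := Nat.le_floor (by exact_mod_cast hx1)
    have hHx : (H : ℝ) ≤ min (N : ℝ) ((N : ℝ) ^ 2 / t) := Nat.floor_le (by linarith)
    have hHN : (H : ℝ) ≤ N := hHx.trans (min_le_left _ _)
    have hHt : (H : ℝ) * t ≤ (N : ℝ) ^ 2 := by
      have := hHx.trans (min_le_right _ _)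
      rwa [le_div_iff₀ (by linarith)] at this
    have hHl : min (N : ℝ) ((N : ℝ) ^ 2 / t) < H + 1 := Nat.lt_floor_add_one _
    have hH0 : (1 : ℝ) ≤ H := by exact_mod_cast hH1
    -- the number of blocks
    set B : ℕ := (N' - N) / H + 1 with hB
    have hBH : N' ≤ N + B * H := by
      have h1 := Nat.div_add_mod (N' - N) H
      have h2 := Nat.mod_lt (N' - N) (by omega : 0 < H)
      have h3 : B * H = H * ((N' - N) / H) + H := by rw [hB]; ring
      omega
    have hBb : (B : ℝ) ≤ 2 * N / H := by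
      rw [le_div_iff₀ (by linarith)]
      have h1 := Nat.div_add_mod (N' - N) H
      have h3 : B * H = H * ((N' - N) / H) + H := by rw [hB]; ring
      have h4 : B * H ≤ N + H := by omega
      have h5 : ((B * H : ℕ) : ℝ) ≤ ((N + H : ℕ) : ℝ) := by exact_mod_cast h4
      push_cast at h5
      linarith
    have hD : 0 ≤ P * (N / Real.sqrt t) := by positivity
    have hcut := vdc_cut (fun n => pz t ((n : ℝ) + u)) H (P * (N / Real.sqrt t)) hD N' B N hNN hBH (by
      intro a' M ha hM hMH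
      have hMH' : (M : ℝ) ≤ H := by exact_mod_cast hMH
      have h1 := vdc_block hKL t u N a' M ht hu hu1 hN ha (by omega)
        ((mul_le_mul_of_nonneg_right hMH' (by linarith)).trans hHt)
      rw [← hPdef] at h1
      refine (pow_le_pow_iff_left₀ (norm_nonneg _) hD two_ne_zero).1 ?_
      refine h1.trans ?_
      have h2 : (N : ℝ) ^ 2 / t = (N / Real.sqrt t) ^ 2 := by rw [div_pow, hst2]
      rw [h2, mul_pow]
      apply mul_le_mul_of_nonneg_right _ (by positivity)
      nlinarith)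
    refine hcut.trans ?_
    -- `2N/H ≤ 4 + 4t/N`
    have h6 : 2 * (N : ℝ) / H ≤ 4 + 4 * t / N := by
      have h7 : min (N : ℝ) ((N : ℝ) ^ 2 / t) ≤ 2 * H := by linarith
      rcases min_le_iff.1 h7 with h8 | h8
      · have : 2 * (N : ℝ) / H ≤ 4 := by
          rw [div_le_iff₀ (by linarith)]
          linarith
        have : 0 ≤ 4 * t / N := by positivity
        linarith
      · have : 2 * (N : ℝ) / H ≤ 4 * t / N := by
          rw [div_le_div_iff₀ (by linarith) (by linarith)]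
          rw [div_le_iff₀ (by linarith)] at h8
          nlinarith
        linarith
    have h9 : (B : ℝ) * (P * (N / Real.sqrt t)) ≤ (4 + 4 * t / N) * (P * (N / Real.sqrt t)) :=
      mul_le_mul_of_nonneg_right (hBb.trans h6) hD
    refine h9.trans (le_of_eq ?_)
    have h10 : t / Real.sqrt t = Real.sqrt t := by
      rw [div_eq_iff hst.ne', ← sq, hst2]
    calc (4 + 4 * t / N) * (P * (N / Real.sqrt t))
        = 4 * P * (t / Real.sqrt t * (N / N) + N / Real.sqrt t) := by ring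
      _ = 4 * P * (Real.sqrt t + N / Real.sqrt t) := by
        rw [h10, div_self (by linarith), mul_one]

theorem p_vdc : S_vdc := by
  intro hKL
  have hpi := Real.pi_pos
  refine ⟨4 * (1 + 36 * Real.pi), by linarith, ?_⟩
  intro t u N N' ht hu hu1 hN hNN hN'
  rcases le_or_gt 0 t with h | h
  · rw [abs_of_nonneg h] at ht ⊢
    exact vdc_pos hKL t u N N' ht hu hu1 hN hNN hN'
  · rw [abs_of_neg h] at ht ⊢
    have h1 := vdc_pos hKL (-t) u N N' ht hu hu1 hN hNN hN'
    have h2 : ∑ n ∈ Ioc N N', pz t ((n : ℝ) + u) =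
        (starRingEnd ℂ) (∑ n ∈ Ioc N N', pz (-t) ((n : ℝ) + u)) := by
      rw [map_sum]
      apply Finset.sum_congr rfl
      intro n _
      rw [← vdc_neg, neg_neg]
    rw [h2, RCLike.norm_conj]
    exact h1

end Pool.Agent.CA.SC
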