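import Pool.Agent.Lib.MP_d610d0_nt.CH.D.Main
import Pool.Agent.Lib.MP_d610d0_nt.CA.LC.Stm
import Pool.Agent.Lib.MP_d610d0_nt.CA.SC.p_tm
import Pool.Agent.Lib.MP_d610d0_nt.CA.SC.p_mvp
import Pool.Agent.Lib.MP_d610d0_nt.CA.SC.p_G
import Pool.Agent.Lib.MP_d610d0_nt.CA.SC.p_KL
import Pool.Agent.Lib.MP_d610d0_nt.CA.SC.p_vdc
import Pool.Agent.Lib.MP_d610d0_nt.CA.SC.p_smo
import Pool.Agent.Lib.MP_d610d0_nt.CA.SC.p_smk
import Pool.Agent.Lib.MP_d610d0_nt.CA.SC.p_mrc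
import Pool.Agent.Lib.MP_d610d0_nt.CA.SC.p_mEu
import Pool.Agent.Lib.MP_d610d0_nt.CA.SC.p_mI
import Pool.Agent.Lib.MP_d610d0_nt.CA.SC.p_mwin
import Pool.Agent.Lib.MP_d610d0_nt.CA.SC.p_mPW
import Pool.Agent.Lib.MP_d610d0_nt.CA.SC.p_muk
import Pool.Agent.Lib.MP_d610d0_nt.CA.SC.p_prk
import Pool.Agent.Lib.MP_d610d0_nt.CA.SC.p_t1
import Pool.Agent.Lib.MP_d610d0_nt.CA.SC.p_t0
import Pool.Agent.Lib.MP_d610d0_nt.CA.SC.p_grd
import Pool.Agent.Lib.MP_d610d0_nt.CA.SC.p_spl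
import Pool.Agent.Lib.MP_d610d0_nt.CA.SC.p_Wd
import Pool.Agent.Lib.MP_d610d0_nt.CA.SC.p_cv
import Pool.Agent.Lib.MP_d610d0_nt.CA.SC.p_bx1
import Pool.Agent.Lib.MP_d610d0_nt.CA.SC.p_bx2
import Pool.Agent.Lib.MP_d610d0_nt.CA.SC.p_bxs
import Pool.Agent.Lib.MP_d610d0_nt.CA.SC.p_bx3
import Pool.Agent.Lib.MP_d610d0_nt.CA.SC.p_box
import Pool.Agent.Lib.MP_d610d0_nt.CA.SC.p_hbi
import Pool.Agent.Lib.MP_d610d0_nt.CA.SC.p_dec
import Pool.Agent.Lib.MP_d610d0_nt.CA.SC.p_CMP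
import Pool.Agent.Lib.MP_d610d0_nt.CA.SC.p_lwL
import Pool.Agent.Lib.MP_d610d0_nt.CA.SC.p_SL
import Pool.Agent.Lib.MP_d610d0_nt.CA.SC.p_CL
import Pool.Agent.Lib.MP_d610d0_nt.CA.SC.p_dyb
import Pool.Agent.Lib.MP_d610d0_nt.CA.SC.p_bxP
import Pool.Agent.Lib.MP_d610d0_nt.CA.SC.p_CMB
import Pool.Agent.Lib.MP_d610d0_nt.CA.SC.p_lwB
import Pool.Agent.Lib.MP_d610d0_nt.CA.SC.p_SB
import Pool.Agent.Lib.MP_d610d0_nt.CA.SC.p_CB

set_option autoImplicit false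

/-!
Assembly of section SC of project CA (small conductors and comparison of windows, in EVERY window), without
hypotheses.
-/

namespace Pool.Agent.CA.SC

open Finset Filter
open Pool.Agent.CH.P (R_cls R_rank R_rgh R_Lb R_zs R_low R_mer2)
open Pool.Agent.CH.D (R_spc)

theorem h_cls : R_cls := CH.P.p_cls Pool.Agent.CH.V.main

theorem h_Lb : R_Lb :=
  CH.P.p_Lb CH.P.h_mer2 (CH.P.p_rgh h_cls (CH.P.p_rank CH.P.h_mer2))

theorem h_low : R_low := CH.P.p_low h_Lb (CH.P.p_zs CH.P.h_mer2)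

theorem h_mvp : R_mvp := p_mvp CH.D.p_kf CH.D.p_kb CH.D.h_sch p_tm

theorem h_G : R_G := p_G CH.D.p_kf CH.D.p_kb h_mvp

theorem h_vdc : R_vdc := p_vdc p_KL

theorem h_smo : R_smo := p_smo h_vdc

theorem h_smk : R_smk := p_smk h_cls

theorem h_mI : R_mI := p_mI h_Lb h_low p_mrc (p_mEu CH.P.h_mer2)

theorem h_mPW : R_mPW := p_mPW (p_mwin CH.P.h_psi h_mI) CH.P.p_shp

theorem h_muk : R_muk := p_muk h_mPW

theorem h_prk : R_prk := p_prk CH.D.h_pwp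

theorem h_bx1 : R_bx1 := p_bx1 p_t1 p_t0

theorem h_bx2 : R_bx2 := p_bx2 h_G h_smo p_grd

theorem h_bxs : R_bxs := p_bxs h_G

theorem h_bx3 : R_bx3 := p_bx3 h_bxs p_grd

theorem h_box : R_box := p_box p_Wd p_cv h_bx1 h_bx2 h_bx3 h_smk h_muk CH.D.p_spc

theorem h_dec : R_dec := p_dec p_hbi p_Wd

theorem h_CMP : R_CMP := p_CMP h_dec h_box CH.D.p_spc

theorem h_lwL : R_lwL := p_lwL CH.P.h_PW

theorem h_SL : I_SL := p_SL h_CMP h_lwL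

theorem h_CL : I_CL := p_CL h_CMP

theorem h_bxP : R_bxP := p_bxP h_bxs p_spl h_prk CH.D.p_spc

theorem h_CMB : R_CMB := p_CMB p_dyb h_bxP CH.D.p_spc

theorem h_lwB : R_lwB := p_lwB CH.D.h_pwp

theorem h_SB : I_SB := p_SB h_CMB h_lwB

theorem h_CB : I_CB := p_CB h_CMB

/-! ### The results of the section -/

theorem main_SL : I_SL := h_SL

theorem main_CL : I_CL := h_CL

theorem main_SB : I_SB := h_SB

theorem main_CB : I_CB := h_CB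

/-- Heath-Brown's decomposition in the form used in section LC. -/
theorem main_dec : Pool.Agent.CA.LC.I_dec := by
  intro k hk
  obtain ⟨C, hC⟩ := h_dec k hk
  refine ⟨C, ?_⟩
  filter_upwards [hC] with J hJ ι P w K Z hK hZ hw hbox
  exact hJ ι P w K Z hK hZ hw fun f N _ hf hN => hbox f (fun i => (N i : ℝ)) hf hN

end Pool.Agent.CA.SC
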