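import Pool.Agent.Lib.MP_d610d0_nt.CA.Blk
import Pool.Agent.Lib.MP_d610d0_nt.CH.D.Stm

set_option autoImplicit false

/-!
Project CA, section SC (small conductors in EVERY window): definitions.
-/

namespace Pool.Agent.CA.SC

open Finset Filter
open Pool.Agent.MP89da58 (tri)
open Pool.Agent.CH (wJ wL)
open Pool.Agent.CH.V (pz)
open Pool.Agent.CH.D (dp)

/-- The sum over all tuples `n` with `1 ≤ n l ≤ N l` of `∏ a l (n l) * w (∏ n l)`. -/
noncomputable def TS {m : ℕ} (a : Fin m → ℕ → ℂ) (N : Fin m → ℕ) (w : ℕ → ℂ) : ℂ :=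
  ∑ n ∈ Fintype.piFinset (fun l => Icc 1 (N l)), (∏ l, a l (n l)) * w (∏ l, n l)

/-- The difference between the short window and the long window. -/
noncomputable def dW (lam : ℝ) (J j n : ℕ) : ℂ := ((2 * J * wJ J j n - lam * wL lam j n : ℝ) : ℂ)

/-- Cutoff functions: bounded by `G`, Lipschitz with constant `G`, supported in `[1/2, 2]`. -/
structure Cf (G : ℝ) (V : ℝ → ℝ) : Prop where
  bd : ∀ x, |V x| ≤ G
  lip : ∀ x y, |V x - V y| ≤ G * |x - y|
  supp : ∀ x, V x ≠ 0 → 1 / 2 ≤ x ∧ x ≤ 2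

/-- The smooth factor `χ(n) V(n/N)`. -/
noncomputable def sf {r : ℕ} (χ : DirichletCharacter ℂ r) (V : ℝ → ℝ) (N n : ℕ) : ℂ :=
  χ (n : ZMod r) * (V ((n : ℝ) / N) : ℂ)

/-- The Moebius factor `μ(n) χ(n)` on `(a, b]`. -/
noncomputable def mf {r : ℕ} (χ : DirichletCharacter ℂ r) (a b n : ℕ) : ℂ :=
  if a < n ∧ n ≤ b then ((ArithmeticFunction.moebius n : ℤ) : ℂ) * χ (n : ZMod r) else 0

/-- The prime factor: `χ(p)` on the primes of `(a, b]`. -/
noncomputable def pf {r : ℕ} (χ : DirichletCharacter ℂ r) (a b n : ℕ) : ℂ := open Classical in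
  if n.Prime ∧ a < n ∧ n ≤ b then χ (n : ZMod r) else 0

/-- The hypotheses on a family of factors in the box theorems: sizes `N l ≥ 1`, coefficients of size at
most `L ^ 2`, product of the sizes about `J ^ 3`. -/
structure Box (m J : ℕ) (N : Fin m → ℕ) (a : Fin m → ℕ → ℂ) : Prop where
  one : ∀ l, 1 ≤ N l
  bd : ∀ l n, ‖a l n‖ ≤ (Real.log J) ^ 2
  lo : (J : ℝ) ^ 3 ≤ 2 ^ (m + 5) * ∏ l, (N l : ℝ)
  hi : ∏ l, (N l : ℝ) ≤ 2 ^ (m + 5) * (J : ℝ) ^ 3

end Pool.Agent.CA.SC
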