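import Pool.Agent.Lib.MP_d610d0_nt.CA.SC.Defs

set_option autoImplicit false

/-!
Project CA, section SC, part 1 (analysis): statements of the pieces. `R_x` is the conclusion, `S_x` the
statement to be proved (with the results it uses as hypotheses). All results of section CH (`R_kf`, `R_kb`,
`R_sch`, `R_tI`, `R_PW`, ...) are available as hypotheses; they are proved in `CH/D/Main.lean`, `CH/P/Main.lean`.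

`J` is large, `L = log J`, windows `J < j ≤ 2 J`, `wJ J j n = tri (2 J log (n / xj j))`,
`wL lam j n = tri (lam log (n / xj j))`, `dW lam J j n = 2 J wJ J j n - lam wL lam j n`.
`dp a N θ = ∑_{n ≤ N} a n n^(iθ)` (`pz (-θ) n = n^(iθ)`).
-/

namespace Pool.Agent.CA.SC

open Finset Filter
open ArithmeticFunction (vonMangoldt moebius)
open Pool.Agent.MP89da58 (tri)
open Pool.Agent.MP89da58.S (Lj)
open Pool.Agent.BVall (OmL)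
open Pool.Agent.CH (wJ wL)
open Pool.Agent.CH.V (pz ex)
open Pool.Agent.CH.P (R_cls R_psi R_shp R_Lb R_low R_mer2 R_PW PP sp chy)
open Pool.Agent.CH.D (dp kap xj R_kf R_kb R_sch R_spc R_pwp)

/-! ### Mean values -/

/-- Moments of the divisor functions. -/
def R_tm : Prop := ∀ m : ℕ, ∃ C : ℕ, ∀ N : ℕ, 1 ≤ N →
  ∑ n ∈ Icc 1 N, ((Nat.finMulAntidiag m n).card : ℝ) ^ 2 ≤ N * (1 + Real.log N) ^ C

/-- [SC tm] Proof: `t_m(n) = card (Nat.finMulAntidiag m n)` is the number of `m`-tuples of natural numbers with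
product `n ≥ 1`; `t_0(n) = [n = 1]`, `t_(m+1)(n) = ∑_{d ∣ n} t_m(d)` (split off one coordinate). Let `τ(n)` be
the number of divisors; `τ(d e) ≤ τ(d) τ(e)`. Put `S(m,j) = ∑_{n≤N} t_m(n)^2 τ(n)^j/n` and
`D(j) = ∑_{n≤N} τ(n)^j/n`. `D(0) ≤ 1 + log N`; `D(j+1) = ∑_n τ(n)^j/n ∑_{d e = n} 1 ≤ ∑_{d,e≤N} τ(d)^j τ(e)^j/(d e) = D(j)^2`,
so `D(j) ≤ (1 + log N)^(2^j)`. Claim: for all `m, j` there is `C` with `S(m,j) ≤ (1 + log N)^C` for all `N ≥ 1`.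
`m = 0`: `S = 1`. Step: `t_(m+1)(n)^2 ≤ τ(n) ∑_{d∣n} t_m(d)^2` (Cauchy), so with `n = d e`
`S(m+1,j) ≤ ∑_{d,e ≤ N} t_m(d)^2 τ(d)^(j+1) τ(e)^(j+1)/(d e) = S(m,j+1) D(j+1)`. Finally
`∑_{n≤N} t_m(n)^2 ≤ N S(m,0)`. (Hypothesis form: prove the claim `∀ m, ∀ j, ∃ C, ∀ N ≥ 1, ...` by induction on `m`.) -/
def S_tm : Prop := R_tm

/-- Mean values of products of Dirichlet polynomials. -/
def R_mvp : Prop := ∀ m : ℕ, ∃ C : ℕ, 1 ≤ C ∧ ∀ (N : Fin m → ℕ) (a : Fin m → ℕ → ℂ)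
  (S : Finset (Fin m)) (G T : ℝ), 1 ≤ G → 1 ≤ T → (∀ l, 1 ≤ N l) → (∀ l n, ‖a l n‖ ≤ G) →
  ∫ θ in Set.Icc (-T) T, ∏ l ∈ S, ‖dp (a l) (N l) θ‖ ^ 2
    ≤ C * G ^ (2 * m) * (1 + Real.log (∏ l ∈ S, (N l : ℝ))) ^ C *
      ((T + ∏ l ∈ S, (N l : ℝ)) * ∏ l ∈ S, (N l : ℝ))

/-- [SC mvp] (uses CH.D kb, CH.D sch, SC tm) Proof: let `P = ∏_{l∈S} N l` (a natural number `≥ 1`),
`b(n) = ∑ ∏_{l ∈ S} a l (t l)`, the sum over the tuples `t : S → ℕ` (or the functions `t : Fin m → ℕ` with `t l = 1` for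
`l ∉ S`) with `1 ≤ t l ≤ N l` and product `n`. Since `pz` is multiplicative on positive integers,
`∏_{l∈S} dp (a l) (N l) θ = dp b P θ` (expand the product: `Finset.prod_univ_sum` / `Finset.prod_sum`, then group by the value
of the product: `Finset.sum_fiberwise`). `‖b n‖ ≤ G^m t_m(n)`, `t_m(n) = card (Nat.finMulAntidiag m n)`. R_kb with
`lam = T`: `1/(8T) ≤ kap T θ` for `|θ| ≤ T`, `kap ≥ 0`, so the integral is at most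
`8T ∫ kap T θ ‖dp b P θ‖^2 ≤ 8T (1 + 3P/T) ∑_{n≤P} ‖b n‖^2` (R_sch), `≤ 24 (T + P) G^(2m) P (1 + log P)^C` (R_tm).
(Integrability: `kap T` is integrable by R_kf, `‖dp b P θ‖^2` is continuous and bounded.) -/
def S_mvp : Prop := R_kf → R_kb → R_sch → R_tm → R_mvp

/-- The general trilinear estimate for the comparison of the short window and the long window. -/
def R_G : Prop := ∀ m : ℕ, ∃ C : ℕ, 1 ≤ C ∧ ∀ (J j I : ℕ) (lam T0 G : ℝ) (N : Fin m → ℕ)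
  (a : Fin m → ℕ → ℂ) (l0 : Fin m) (S1 S2 : Finset (Fin m)) (S : ℕ → ℝ), 2 ≤ J → j ∈ Ioc J (2 * J) →
  1 ≤ T0 → 1 ≤ lam → lam ≤ 2 * J → 1 ≤ G → (J : ℝ) ^ 3 ≤ 2 ^ I * T0 → (∀ l, 1 ≤ N l) →
  (∀ l n, ‖a l n‖ ≤ G) → l0 ∉ S1 → l0 ∉ S2 → Disjoint S1 S2 → insert l0 (S1 ∪ S2) = univ →
  (∀ i < I, ∀ θ : ℝ, 2 ^ i * T0 ≤ |θ| → |θ| ≤ 2 * (2 ^ i * T0) → ‖dp (a l0) (N l0) θ‖ ≤ S i) →
  ‖TS a N (dW lam J j)‖ ≤ (T0 ^ 3 / lam ^ 2 + 11 / J) * (G ^ m * ∏ l, (N l : ℝ))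
    + C * G ^ (2 * m) * (1 + Real.log (∏ l, (N l : ℝ))) ^ C * ∑ i ∈ range I,
      min 1 ((J : ℝ) ^ 2 / (2 ^ i * T0) ^ 2) * S i *
        Real.sqrt (((2 ^ i * T0 + ∏ l ∈ S1, (N l : ℝ)) * ∏ l ∈ S1, (N l : ℝ)) *
          ((2 ^ i * T0 + ∏ l ∈ S2, (N l : ℝ)) * ∏ l ∈ S2, (N l : ℝ)))

/-- [SC G] (uses CH.D kf, CH.D kb, SC mvp) Proof: let `K(θ) = 2J kap(2J,θ) - lam kap(lam,θ)`, `y = log (xj j)`,
`F(θ) = ∏_l dp (a l) (N l) θ`. By R_kf (`dW lam J j n = ∫ K(θ) e^{iθ(log n - y)} dθ` for `n ≥ 1`, exchange the finite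
sum and the integral, expand the product `F`): `TS a N (dW lam J j) = ∫ K(θ) F(θ) e^{-iθy} dθ`, so its norm is at most
`∫ |K| ∏_l ‖dp (a l) (N l) θ‖`. `‖F‖ ≤ W := G^m ∏ N l`. Split the line:
(i) `|θ| ≤ T0`: `|K| ≤ θ^2/lam^2` (R_kb, fifth part), contribution `≤ (2/3) T0^3/lam^2 W`.
(ii) `|θ| > 2^I T0 ≥ J^3`: `|K| ≤ (8J^2 + 2 lam^2)/(π θ^2) ≤ 16 J^2/(π θ^2)` (R_kb, third part), contribution
`≤ 32 J^2/(π J^3) W ≤ 11/J W`.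
(iii) `T ≤ |θ| ≤ 2T`, `T = 2^i T0`, `i < I`: `|K| ≤ 1/(2π)` (sixth part) and `|K| ≤ 16J^2/(πT^2)`, so
`|K| ≤ 6 min(1, J^2/T^2)`; `‖dp (a l0) (N l0) θ‖ ≤ S i` (so `S i ≥ 0`), and by the Cauchy-Schwarz inequality
`∫_{|θ| ≤ 2T} ∏_{S1} ‖dp‖ ∏_{S2} ‖dp‖ ≤ (∫_{|θ|≤2T} ∏_{S1} ‖dp‖^2)^(1/2) (∫_{|θ|≤2T} ∏_{S2} ‖dp‖^2)^(1/2)`, each by R_mvp with `2T`
(`2T + P ≤ 2 (T + P)`; the product of the two factors `G^(2m)` under the root gives `G^(2m)`;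
`log ∏_{S1} N ≤ log ∏ N`). -/
def S_G : Prop := R_kf → R_kb → R_mvp → R_G

/-! ### Exponential sums -/

/-- The Kusmin-Landau inequality. -/
def R_KL : Prop := ∀ (K : ℕ) (φ : ℕ → ℝ) (δ : ℝ), 0 < δ → δ ≤ 1 / 2 →
  (∀ n < K, δ ≤ φ (n + 1) - φ n ∧ φ (n + 1) - φ n ≤ 1 - δ) →
  (∀ n, n + 1 < K → φ (n + 2) - φ (n + 1) ≤ φ (n + 1) - φ n) →
  ‖∑ n ∈ range K, ex (φ n)‖ ≤ 1 / δ

/-- [SC KL] Proof: `g_n = φ(n+1) - φ(n) ∈ [δ, 1-δ]`, nonincreasing, `e_n = ex (φ n)`,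
`c_n = 1/(ex (g_n) - 1) = -1/2 - (i/2) cot(π g_n)`, so `e_n = c_n (e_(n+1) - e_n)`. Abel summation:
`∑_{n<K} e_n = c_(K-1) e_K - c_0 e_0 + ∑_{1≤n<K} (c_(n-1) - c_n) e_n`. `|c_n| = 1/(2 sin(π g_n)) ≤ 1/(4δ)`
(`sin(π g) ≥ 2 min(g, 1-g) ≥ 2δ`), and, `cot` being monotone on `(0,π)`,
`∑ |c_(n-1) - c_n| = (1/2)(cot(π g_(K-1)) - cot(π g_0)) ≤ |c_(K-1)| + |c_0| ≤ 1/(2δ)` (`(1/2)|cot| ≤ |c|`). Total
`≤ 1/(4δ) + 1/(4δ) + 1/(2δ) = 1/δ`. (To avoid `cot`: `c_n - c_(n-1)` is purely imaginary of constant sign.) -/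
def S_KL : Prop := R_KL

/-- The second derivative test for `n^(-it)`, with a logarithm. -/
def R_vdc : Prop := ∃ C : ℝ, 1 ≤ C ∧ ∀ (t u : ℝ) (N N' : ℕ), 1 ≤ |t| → 0 ≤ u → u ≤ 1 → 1 ≤ N →
  N ≤ N' → N' ≤ 2 * N → ‖∑ n ∈ Ioc N N', pz t ((n : ℝ) + u)‖
    ≤ C * (1 + Real.log N) * (Real.sqrt |t| + N / Real.sqrt |t|)

/-- [SC vdc] (uses SC KL) Proof: `pz (-t) = conj (pz t)`, so let `t ≥ 1`. If `t ≥ N^2` the sum is at most `N ≤ √t`.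
Let `t < N^2`, `z(n) = pz t (n+u)` for `N < n ≤ N'`, `z(n) = 0` for the other `n`, and `H = ⌊min(N, N^2/t)⌋ ≥ 1`
(a natural number `≤ N`). Van der Corput: `H ∑ z(n) = ∑_n ∑_{h<H} z(n+h)` (sum over the integers `n` with
`N - H < n ≤ N'`, at most `2N` of them), so by Cauchy
`H^2 |S|^2 ≤ 2N ∑_n |∑_{h<H} z(n+h)|^2 ≤ 2N (H N + 2 H ∑_{1≤h<H} |∑_n z(n+h) conj z(n)|)`. For `h ≥ 1`,
`z(n) conj z(n+h) = exp(i t log(1 + h/(n+u))) `; take `φ(n) = -(t/2π) log(1 + h/(n+u))` (conjugate), with increments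
`(t/2π) ∫_v^(v+1) h/(w(w+h)) dw`, `v = n + u`, nonincreasing in `n`, at most `t h/(2π N^2) ≤ 1/(2π)` (`h < H ≤ N^2/t`), at
least `t h/(40 π N^2) =: δ` (`w ≤ 2N + 2 ≤ 4N`, `w + h ≤ 5N`); `δ ≤ 1/2`, `1/(2π) ≤ 1 - δ`. R_KL: the inner sum is at most
`40 π N^2/(t h)`. So `|S|^2 ≤ (2N/H)(N + 2 ∑_{h<H} 40π N^2/(t h)) ≤ (2N/H)(N + 80π (1 + log N) N^2/t)`.
If `t ≥ N`: `H ≥ N^2/(2t)`, `|S|^2 ≤ 4t + C (1 + log N) N ≤ C' (1 + log N) t`. If `t < N`: `H = N`,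
`|S|^2 ≤ 2 (N + 80π (1 + log N) N^2/t) ≤ C' (1 + log N) N^2/t`. -/
def S_vdc : Prop := R_KL → R_vdc

/-- The smooth factor, van der Corput. -/
def R_smo : Prop := ∃ C : ℝ, 1 ≤ C ∧ ∀ (r : ℕ) (χ : DirichletCharacter ℂ r) (N : ℕ) (G θ : ℝ)
  (V : ℝ → ℝ), 1 ≤ r → 1 ≤ N → Cf G V → 1 ≤ |θ| →
  ‖dp (sf χ V N) (2 * N) θ‖ ≤ C * r * G * (1 + Real.log N) * (Real.sqrt |θ| + N / Real.sqrt |θ|)

/-- [SC smo] (uses SC vdc) Proof: `G ≥ 0`. If `N ≤ 8 r`: at most `2N G ≤ 16 r G √|θ|`. Let `N > 8 r`. Only `n ≥ N/2`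
contribute. Write `n = b + r k`, `1 ≤ b ≤ r`, `χ(n) = χ(b)`, `pz (-θ) (b + r k) = pz (-θ) r * pz (-θ) (k + b/r)`
(`r, k + b/r > 0`). For fixed `b` the `k` with `N/2 ≤ b + r k ≤ 2N` satisfy `k ≥ N/(2r) - 1 ≥ 3` and `k ≤ 2N/r`; let
`k1 = ⌈(N/2 - b)/r⌉ - 1 ≥ 1` be the largest `k` with `b + r k < N/2`; then `2N/r ≤ 8 k1 + 8 ≤ 16 k1`. For `K ≤ 2N/r` the sum
`∑_{k1<k≤K} pz (-θ) (k + b/r)` is covered by at most 4 blocks `(2^i k1, min(K, 2^(i+1) k1)]`; by R_vdc it is at most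
`4 C (1 + log(2N)) (√|θ| + (2N/r)/√|θ|)`. Abel summation with `h(k) = V((b + r k)/N)`: `|h| ≤ G`,
`∑ |h(k+1) - h(k)| ≤ (2N/r + 1) G r/N ≤ 3G`. Sum over the `r` values of `b`. -/
def S_smo : Prop := R_vdc → R_smo

/-- The smooth factor, Vinogradov. -/
def R_smk : Prop := ∀ A B : ℕ, ∀ᶠ J : ℕ in atTop, ∀ (r : ℕ) (χ : DirichletCharacter ℂ r) (N : ℕ)
  (G θ : ℝ) (V : ℝ → ℝ), 1 ≤ r → (r : ℝ) ≤ (Real.log J) ^ B → Cf G V →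
  (Real.log J) ^ (19 / 20 : ℝ) ≤ Real.log N → (Real.log J) ^ (A + 5) ≤ |θ| → |θ| ≤ (J : ℝ) ^ 2 →
  ‖dp (sf χ V N) (2 * N) θ‖ ≤ G * N / (Real.log J) ^ A

/-- [SC smk] (uses CH.P cls) Proof: R_cls with `A + 1`, `B`, `κ = 2`, `l = log J` (`exp(2l) = J^2`, `l^(A+4) ≤ |θ|`), `t = -θ`:
`‖∑_{n≤M} χ(n) pz (-θ) n‖ ≤ M/l^(A+1)` for all `M` with `log M ≥ l^(451/500)`, in particular for
`N/2 - 1 ≤ M ≤ 2N` (`log(N/2 - 1) ≥ l^(19/20) - 1 ≥ l^(451/500)`). Abel summation over `N/2 ≤ n ≤ 2N` with `V(n/N)`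
(`|V| ≤ G`, total variation `≤ 2G`): at most `2N/l^(A+1) * 6G ≤ G N/l^A`. -/
def S_smk : Prop := R_cls → R_smk

/-! ### The Moebius function -/

/-- Derivatives of `1/L`. -/
def R_mrc : Prop := ∀ (r : ℕ) (χ : DirichletCharacter ℂ r) (s : ℂ) (k : ℕ) (K U V W : ℝ), 1 < s.re →
  1 ≤ K → 1 ≤ U → 1 ≤ V → U ≤ W → V * K * U * 2 ^ k ≤ W →
  (∀ i ≤ k, ‖Lj (fun n => χ n) i s‖ ≤ K * U ^ i) → 1 / V ≤ ‖Lj (fun n => χ n) 0 s‖ →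
  ∀ j ≤ k, ‖Lj (fun n => ((moebius n : ℤ) : ℂ) * χ n) j s‖ ≤ V * W ^ j

/-- [SC mrc] Proof: let `G_j`, `L_j` be the series `∑ (log n)^j μ(n) χ(n) n^(-s)`, `∑ (log n)^j χ(n) n^(-s)` (absolutely
convergent for `Re s > 1`: `summable_Lj` in `Lib/MP_89da58_nt/S/DerivRec.lean`, or `LSeriesSummable`). As
`(log (d e))^j = ∑_i C(j,i) (log d)^i (log e)^(j-i)` and `∑_{d e = n} μ(d) χ(d) χ(e) = χ(n) [n = 1]`:
`∑_i C(j,i) G_i L_(j-i) = [j = 0]` (product of absolutely convergent series, `LSeries_convolution'` or compare the lemma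
`leibniz` of that file). `j = 0`: `‖G_0‖ = 1/‖L_0‖ ≤ V`. `j ≥ 1`, strong induction:
`‖G_j‖ ≤ V ∑_{i<j} C(j,i) V W^i K U^(j-i) ≤ V (V K U) W^(j-1) 2^j ≤ V W^j` (`U^(j-i) = U U^(j-i-1) ≤ U W^(j-i-1)`). -/
def S_mrc : Prop := R_mrc

/-- The small primes. -/
def R_mEu : Prop := ∀ k : ℕ, ∃ C : ℝ, 1 ≤ C ∧ ∀ᶠ l : ℝ in atTop, ∀ (r : ℕ)
  (χ : DirichletCharacter ℂ r) (t : ℝ), ∀ j ≤ k,
  ‖Lj (fun n => if n ∣ PP l then ((moebius n : ℤ) : ℂ) * χ n else 0) j (sp l t)‖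
    ≤ C * (l ^ (9 / 10 : ℝ)) ^ (j + 3)

/-- [SC mEu] (uses CH.P mer2) Proof: a finite sum over `d ∣ PP l` (`PP l ≠ 0`), at most `∑_{d ∣ PP l} (log d)^j/d`
(`|d^(-sp l t)| = d^(-1-1/l) ≤ 1/d`). Let `M = l^(9/10)`, `y = exp M`. `(log d)^j ≤ j! M^j d^(1/M)` (`x^j/j! ≤ e^x`), and
`∑_{d ∣ PP l} d^(-1+1/M) = ∏_{p ≤ y} (1 + p^(-1+1/M)) ≤ exp(e ∑_{p≤y} 1/p) ≤ exp(e (log M + C)) ≤ C' M^3` (as in
`CH/P/p_rank.lean`). -/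
def S_mEu : Prop := R_mer2 → R_mEu

/-- Derivatives of `1/L(s, χ)` near the line `1`. -/
def R_mI : Prop := ∀ (B k : ℕ) (κ : ℝ), 1 ≤ κ → ∃ C0 : ℕ, ∀ᶠ l : ℝ in atTop, ∀ (r : ℕ)
  (χ : DirichletCharacter ℂ r), 1 ≤ r → (r : ℝ) ≤ l ^ B → ∀ t : ℝ, l ^ C0 ≤ |t| →
  |t| ≤ Real.exp (κ * l) → ∀ j ≤ k,
  ‖Lj (fun n => ((moebius n : ℤ) : ℂ) * χ n) j (sp l t)‖ ≤ l ^ 3 * (l ^ (9895 / 10000 : ℝ)) ^ j

/-- [SC mI] (uses CH.P Lb, CH.P low, SC mrc, SC mEu) Proof: R_mrc for `chy χ (PP l)` with `K = l^(6/1000)`, `U = l^(905/1000)`,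
`V = l^(78/1000)`, `W = l^(9895/10000)`: `V K U 2^k = 2^k l^(989/1000) ≤ W`. So the derivatives of
`∑ μ(n) chy(n) n^(-s)` are at most `V W^j`. For `n ≥ 1`: `μ(n) χ(n) = ∑_{d e = n, d ∣ PP l} μ(d) χ(d) μ(e) chy(e)`,
where `chy(e) = χ(e)` if `e` is coprime to `PP l` and `0` otherwise (for squarefree `n` exactly the pair
`d = gcd(n, PP l)`, `e = n/d` contributes; if `n` is not squarefree, no pair does, since `d`, `e` are coprime and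
squarefree). The product rule: `Lj (μχ) j s = ∑_i C(j,i) Lj (μχ 1_{∣PP}) i s * Lj (μ chy) (j-i) s`, at most
`∑_i C(j,i) C (l^(9/10))^(i+3) V W^(j-i) ≤ 2^j C l^(27/10) l^(78/1000) W^j ≤ l^3 W^j`. -/
def S_mI : Prop := R_Lb → R_low → R_mrc → R_mEu → R_mI

/-- Smooth windows for the Moebius function. -/
def R_mwin : Prop := ∀ (A B E : ℕ) (κ : ℝ), 1 ≤ κ → ∃ C0 : ℕ, ∀ᶠ X : ℝ in atTop, ∀ lam : ℝ, 1 ≤ lam →
  lam ≤ (Real.log X) ^ E → ∀ (r : ℕ) (χ : DirichletCharacter ℂ r), 1 ≤ r →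
  (r : ℝ) ≤ (Real.log X) ^ B → ∀ τ : ℝ, (Real.log X) ^ C0 ≤ |τ| → |τ| ≤ X ^ κ →
  ‖∑ n ∈ Icc 1 ⌊3 * X⌋₊, (Real.log n : ℂ) * (((moebius n : ℤ) : ℂ) * χ (n : ZMod r) * pz (-τ) n) *
    (OmL lam X n : ℂ)‖ ≤ X / (Real.log X) ^ A

/-- [SC mwin] (uses CH.P psi, SC mI) Proof: adapt `CH/P/p_win.lean`. The sum is `psiG lam X a` with
`a(n) = μ(n) χ(n) pz (-τ) n`, `‖a n‖ ≤ 1`. R_psi with `A + 60` (it gives `D`), `k = 100 (A + 63)`; for `|t| ≤ L^D`: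
`Lj a (k+1) (sp L t) = Lj (μχ) (k+1) (sp L (t - τ))` (`win_shift`), and R_mI with `k + 1`, `κ + 1` and
`C0 = max(C1, D) + 1`: `L^C1 ≤ |t - τ| ≤ exp((κ+1) L)` (as `|τ| ≥ L^C0 ≥ 2 L^(C0-1)`), so it is at most
`L^3 (L^(0.9895))^(k+1) ≤ 2 (L^(99/100))^(k+1)` because `0.0005 (k+1) ≥ 3`. -/
def S_mwin : Prop := R_psi → R_mI → R_mwin

/-- Sharp sums of the Moebius function twisted by `χ(n) n^(iτ)`. -/
def R_mPW : Prop := ∀ (A B : ℕ) (κ : ℝ), 1 ≤ κ → ∃ C0 : ℕ, ∀ᶠ M : ℝ in atTop, ∀ (r : ℕ)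
  (χ : DirichletCharacter ℂ r), 1 ≤ r → (r : ℝ) ≤ (Real.log M) ^ B → ∀ τ : ℝ,
  (Real.log M) ^ C0 ≤ |τ| → |τ| ≤ M ^ κ → ∀ M1 M2 : ℕ, (M2 : ℝ) ≤ M →
  ‖∑ n ∈ Ioc M1 M2, ((moebius n : ℤ) : ℂ) * χ (n : ZMod r) * pz (-τ) n‖ ≤ M / (Real.log M) ^ A

/-- [SC mPW] (uses SC mwin, CH.P shp) Proof: as `CH/P/p_PW.lean`, R_shp with `b(n) = log n * (μ(n) χ(n) pz (-τ) n)`
(`‖b n‖ ≤ log n`) gives `‖∑_{M1<n≤M2} b(n)‖ ≤ M/(log M)^(A+1)` for all `M1`, `M2 ≤ M` (R_mwin with `A' = 2(A+1) + 7`,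
`B + 1`, `E = A + 5`, `κ' = 2κ`; `(log M)^C0 ≥ (log X)^C0` for `X ≤ M`). Remove the factor `log n` by Abel summation:
the terms `n ≤ √M` contribute at most `√M`; for `n > √M` the weight `1/log n ≤ 2/log M` is monotone, at most
`(4/log M) M/(log M)^(A+1)`. Total `≤ M/(log M)^A`. -/
def S_mPW : Prop := R_mwin → R_shp → R_mPW

/-- The Moebius factor. -/
def R_muk : Prop := ∀ A B : ℕ, ∃ C0 : ℕ, ∀ᶠ J : ℕ in atTop, ∀ (r : ℕ) (χ : DirichletCharacter ℂ r)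
  (N a b : ℕ) (θ : ℝ), 1 ≤ r → (r : ℝ) ≤ (Real.log J) ^ B → b ≤ N →
  Real.log J / 20 ≤ Real.log N → Real.log N ≤ 4 * Real.log J → (Real.log J) ^ C0 ≤ |θ| →
  |θ| ≤ (J : ℝ) ^ 2 → ‖dp (mf χ a b) (2 * N) θ‖ ≤ N / (Real.log J) ^ A

/-- [SC muk] (uses SC mPW) Proof: the polynomial is `∑_{a<n≤b} μ(n) χ(n) pz (-θ) n`. R_mPW with `A + 1`, `B + 1`, `κ = 40`,
`M = N`: with `l = log J`, `l/20 ≤ log N ≤ 4l`: `l^B ≤ (log N)^(B+1)`, `(log N)^C1 ≤ l^(C1+1) = l^C0`,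
`J^2 ≤ N^40`, `N/(log N)^(A+1) ≤ N 20^(A+1)/l^(A+1) ≤ N/l^A`. (`N → ∞` with `J`.) -/
def S_muk : Prop := R_mPW → R_muk

/-- The prime factor. -/
def R_prk : Prop := ∀ A B : ℕ, ∃ C0 : ℕ, ∀ᶠ J : ℕ in atTop, ∀ (r : ℕ) (χ : DirichletCharacter ℂ r)
  (N a b : ℕ) (θ : ℝ), 1 ≤ r → (r : ℝ) ≤ (Real.log J) ^ B → χ.IsPrimitive → b ≤ N →
  Real.log J / 20 ≤ Real.log N → Real.log N ≤ 4 * Real.log J → |θ| ≤ (J : ℝ) ^ 2 →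
  (2 ≤ r ∨ (Real.log J) ^ C0 ≤ |θ|) → ‖dp (pf χ a b) (2 * N) θ‖ ≤ N / (Real.log J) ^ A

/-- [SC prk] (uses CH.D pwp) Proof: as SC muk, with R_pwp. -/
def S_prk : Prop := R_pwp → R_prk

/-! ### Type I sums -/

/-- Type I sums with a nontrivial character. -/
def R_t1 : Prop := ∀ (r : ℕ) (χ : DirichletCharacter ℂ r) (G lam y : ℝ) (V : ℝ → ℝ) (d N N' : ℕ),
  2 ≤ r → χ ≠ 1 → Cf G V → 0 < lam → 0 < y → 1 ≤ d → 1 ≤ N →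
  ‖∑ n ∈ Icc 1 N', χ (n : ZMod r) * (V ((n : ℝ) / N) : ℂ) *
    (tri (lam * Real.log ((d * n : ℕ) / y)) : ℂ)‖ ≤ 10 * r * G

/-- [SC t1] Proof: Abel summation with the partial sums of `χ` (at most `r`: `norm_sum_Icc_char_le` in
`Lib/MP_89da58_nt/LargeSieve.lean`): at most `r (|h(N')| + ∑_{1≤n<N'} |h(n+1) - h(n)|)`, `h(n) = V(n/N) tri(lam log(d n/y))`. `|h| ≤ G`;
`|h(n+1) - h(n)| ≤ |V((n+1)/N) - V(n/N)| + G |tri_(n+1) - tri_n|`; the first sum is at most `G/N` for each of the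
`≤ 2N + 2` numbers `n` with `V(n/N)` or `V((n+1)/N)` nonzero, total `≤ 4G`; `tri(lam log(d n/y))` is nondecreasing up to
`d n ≤ y` and nonincreasing afterwards, so the second sum is at most `2G`. -/
def S_t1 : Prop := R_t1

/-- Type I sums without character: comparison of two windows. -/
def R_t0 : Prop := ∃ C : ℝ, 1 ≤ C ∧ ∀ (G lam lam' y : ℝ) (V : ℝ → ℝ) (d N N' : ℕ), Cf G V →
  10 ≤ lam → lam ≤ lam' → 0 < y → 1 ≤ d → 1 ≤ N → 2 * N ≤ N' →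
  |∑ n ∈ Icc 1 N', V ((n : ℝ) / N) * (lam' * tri (lam' * Real.log ((d * n : ℕ) / y))
      - lam * tri (lam * Real.log ((d * n : ℕ) / y)))| ≤ C * G * (y / (d * lam) + lam')

/-- [SC t0] Proof: let `μ ∈ {lam, lam'}`, `h(t) = V(t/N) tri(μ log(d t/y))` (`t > 0`), supported in `[N/2, 2N]`.
`|∑_{n≤N'} h(n) - ∫_0^∞ h(t) dt| ≤` total variation of `h` `≤ 8G` (see SC t1), times `μ ≤ lam'`. Substituting
`t = (y/d) e^u`: `μ ∫ h = (y/d) ∫ V(c e^u) e^u μ tri(μ u) du`, `c = y/(d N)`, `|u| ≤ 1/μ ≤ 1/10`, `∫ μ tri(μ u) du = 1`. If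
`c > 3` or `c < 2/5`, then `V(c e^u) = 0 = V(c)` for `|u| ≤ 1/10`. Otherwise
`|V(c e^u) e^u - V(c)| ≤ G c |e^u - 1| e^u + G |e^u - 1| ≤ 6 G |u| ≤ 6G/μ`. So `μ ∫ h = (y/d)(V(c) + O(6G/lam))` for
both values of `μ`; subtract. (If one prefers to avoid the substitution: `∫_0^∞ h(t) dt` with `t = (y/d) s`.) -/
def S_t0 : Prop := R_t0

/-! ### Combinatorics -/

/-- The greedy partition, multiplicative form. -/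
def R_grd : Prop := ∀ (m : ℕ) (S : Finset (Fin m)) (x : Fin m → ℝ) (b : ℝ), 1 ≤ b →
  (∀ l ∈ S, 1 ≤ x l ∧ x l ≤ b) → ∃ S1 S2 : Finset (Fin m), Disjoint S1 S2 ∧ S1 ∪ S2 = S ∧
    ∏ l ∈ S1, x l ≤ b * ∏ l ∈ S2, x l ∧ ∏ l ∈ S2, x l ≤ b * ∏ l ∈ S1, x l

/-- [SC grd] Proof: induction on `S` (`Finset.induction_on`). Empty set: `1 ≤ b`. Insert a new element `e` with
`1 ≤ x e ≤ b`: let `P1 ≤ b P2`, `P2 ≤ b P1`, and say `P1 ≤ P2` (the other case is symmetric); put `e` into `S1`: the new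
products are `x e P1` and `P2`; `x e P1 ≤ b P2` and `P2 ≤ b P1 ≤ b (x e P1)`. -/
def S_grd : Prop := R_grd

/-- Splitting five or more sizes. -/
def R_spl : Prop := ∀ (k : ℕ) (x : Fin k → ℝ), 5 ≤ k → (∀ l, 0 ≤ x l) → (∀ l, x l ≤ 5 / 3) →
  ∑ l, x l = 3 → ∃ (l0 : Fin k) (S1 S2 : Finset (Fin k)), l0 ∉ S1 ∧ l0 ∉ S2 ∧ Disjoint S1 S2 ∧
    insert l0 (S1 ∪ S2) = univ ∧ 1 ≤ ∑ l ∈ S1, x l ∧ 1 ≤ ∑ l ∈ S2, x l

/-- [SC spl] Proof: let `s = x l0` be the smallest, `t = x l1` the largest (`l1 ≠ l0`). `4 s ≤ 3 - t`.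
(a) `t ≥ 1`: `S1 = {l1}`, `S2` = the rest: its sum is `3 - s - t ≥ 1` because `s + t ≤ (3 - t)/4 + t = 3/4 + 3t/4 ≤ 2`.
(b) `t < 1`, `t ≤ 1 - s`: choose `S1` not containing `l0`, minimal (for example of minimal cardinality) with sum `≥ 1`
(all of `univ \ {l0}` has sum `3 - s ≥ 1`); removing an element gives a sum `< 1`, so the sum of `S1` is `< 1 + (1 - s)`, and
the rest has a sum `> 3 - s - (2 - s) = 1`.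
(c) `t < 1`, `t > 1 - s`: let `l2` be the smallest element after `l0` (`l2 ≠ l0, l1`), `x l2 = s2 ≥ s`. `S1 = {l1, l2}`: sum
`≥ t + s > 1`. The rest: `3 - s - t - s2`; `s + s2 ≤ (3 - t)/2` (`k - 1 ≥ 4` elements other than `l1` with sum `3 - t`, the
two smallest have a sum at most half of it), so `s + s2 + t ≤ 3/2 + t/2 ≤ 2`. -/
def S_spl : Prop := R_spl

end Pool.Agent.CA.SC
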