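import Pool.Agent.Lib.MP_d610d0_nt.CA.SC.Stm

set_option autoImplicit false

/-!
Project CA, section SC, part 2 (boxes and assembly): statements of the pieces. Conventions as in `Stm.lean`.
`Box m J N a`: sizes `N l ≥ 1`, `‖a l n‖ ≤ L^2`, `J^3/2^(m+5) ≤ ∏ N l ≤ 2^(m+5) J^3`. In all box theorems the
variables run over `1 ≤ n_l ≤ 2 N l`.
-/

namespace Pool.Agent.CA.SC

open Finset Filter
open ArithmeticFunction (vonMangoldt moebius)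
open Pool.Agent.MP89da58 (tri)
open Pool.Agent.CH (wJ wL)
open Pool.Agent.CH.V (pz ex)
open Pool.Agent.CH.P (R_PW)
open Pool.Agent.CH.D (dp kap xj Sf FL R_spc R_pwp)

/-! ### Tools -/

/-- The two smooth shapes. -/
def R_Wd : Prop := ∃ G : ℝ, 1 ≤ G ∧ Cf G (Pool.Agent.CA.Vs 0) ∧ Cf G (Pool.Agent.CA.Vs 1) ∧
  (∀ i x, |Pool.Agent.CA.Vs i x| ≤ 1) ∧
  ∀ (K : ℕ) (x : ℝ), 1 ≤ x → x ≤ 2 ^ K → ∑ k ∈ range (K + 1), Wd (x / 2 ^ k) = 1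

/-- [SC Wd] Proof: `s = Real.smoothTransition` is `C^∞` (`Real.smoothTransition.contDiff`), `s = 0` on `x ≤ 0`, `s = 1` on
`x ≥ 1`, `0 ≤ s ≤ 1`. `Wd x = s(2-x) - s(2-2x)` vanishes for `x ≤ 1/2` and for `x ≥ 2`, is `s(2-x)` for `x ≥ 1`, `1 - s(2-2x)` for
`x ≤ 1`, so `0 ≤ Wd ≤ 1`. `|log x| ≤ log 2 ≤ 1` on `[1/2, 2]`. Lipschitz: `Wd` is continuously differentiable, its derivative
is continuous with compact support, hence bounded; `Wd x * log x` is continuously differentiable too (near a point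
`x < 1/2` it is `0`, for `x > 0` it is a product); mean value theorem
(`Convex.norm_image_sub_le_of_norm_deriv_le` on `univ`). The sum telescopes: `Wd(x/2^k) = s(2 - x/2^k) - s(2 - 2x/2^k)`, the
sum is `s(2 - x/2^K) - s(2 - 2x) = 1 - 0`. -/
def S_Wd : Prop := R_Wd

/-- From products of arithmetic functions to sums over tuples. -/
def R_cv : Prop := ∀ (m : ℕ) (f : Fin m → ArithmeticFunction ℂ) (M : Fin m → ℕ) (X : ℕ) (w : ℕ → ℂ),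
  (∀ l n, M l < n → f l n = 0) → (∀ n, X < n → w n = 0) →
  ∑ n ∈ Icc 1 X, (∏ l, f l) n * w n = TS (fun l n => f l n) M w

/-- [SC cv] Proof: for `n ≥ 1`, `(∏_{l : Fin m} f l) n = ∑_{t ∈ Nat.finMulAntidiag m n} ∏_l f l (t l)`, by induction on `m`
(`Fin.prod_univ_succ`, `ArithmeticFunction.mul_apply`, split off the first coordinate with `Fin.cons`; there may be a lemma
of this kind in `CA/LC`). So the left side is the sum over all tuples of positive integers with product `≤ X` of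
`(∏ f l (t l)) w(∏ t l)`; the tuples with some `t l > M l` contribute `0` to it, and the tuples with product `> X` contribute
`0` to the right side. -/
def S_cv : Prop := R_cv

/-! ### The box theorems -/

/-- Boxes with a long smooth variable (type I). -/
def R_bx1 : Prop := ∀ m A B : ℕ, ∃ A1 E0 : ℕ, ∀ E : ℕ, E0 ≤ E → ∀ᶠ J : ℕ in atTop,
  ∀ (j r : ℕ) (χ : DirichletCharacter ℂ r) (N : Fin m → ℕ) (a : Fin m → ℕ → ℂ) (V : ℝ → ℝ)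
  (l0 : Fin m), j ∈ Ioc J (2 * J) → 1 ≤ r → (r : ℝ) ≤ (Real.log J) ^ B → (r = 1 ∨ χ ≠ 1) →
  Box m J N a → Cf ((Real.log J) ^ 2) V → a l0 = sf χ V (N l0) →
  (J : ℝ) * (Real.log J) ^ A1 ≤ N l0 →
  ‖TS a (fun l => 2 * N l) (dW ((Real.log J) ^ E) J j)‖ ≤ (J : ℝ) ^ 3 / (Real.log J) ^ A

/-- [SC bx1] (uses SC t1, SC t0) Proof: `A1 = A + B + 3m + 3`, `E0 = A + 3m + 3`, `L = log J`, `lam = L^E`, `J` large (so
`10 ≤ lam ≤ 2J`). Write the sum over the tuples as the sum over the tuples `t` of the other variables (`t l ≤ 2 N l`,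
`l ≠ l0`; product `d`) of `∏_{l≠l0} a l (t l)` (norm `≤ L^(2(m-1))`) times the inner sum
`∑_{n ≤ 2 N l0} χ(n) V(n/N l0) (2J tri(2J log(d n/y)) - lam tri(lam log(d n/y)))`, `y = xj j ≤ 16 J^3`. If `r ≥ 2`: by R_t1 (twice)
it is at most `(2J + lam) 10 r L^2 ≤ 40 J L^(B+2)`; the number of tuples is `∏_{l≠l0} 2 N l ≤ 2^m ∏ N/N l0
≤ 2^(2m+5) J^3/(J L^A1)`; total `≤ 40 * 2^(2m+5) J^3 L^(2m+B-A1) ≤ J^3/L^A`. If `r = 1`: `χ(n) = 1` (`ZMod 1` is trivial), by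
R_t0 it is at most `C L^2 (16 J^3/(d lam) + 2J)`; `∑_t 1/d ≤ ∏_{l≠l0} (1 + log(2 N l)) ≤ (4L)^m`
(`N l ≤ 2^(m+5) J^3`); total `≤ C' L^(2m) (J^3 L^m/L^E + J^3/L^A1) ≤ J^3/L^A`. -/
def S_bx1 : Prop := R_t1 → R_t0 → R_bx1

/-- Boxes whose longest variable is smooth of medium length (van der Corput). -/
def R_bx2 : Prop := ∀ m A A1 B : ℕ, ∃ A2 E0 : ℕ, ∀ E : ℕ, E0 ≤ E → ∀ᶠ J : ℕ in atTop,
  ∀ (j r : ℕ) (χ : DirichletCharacter ℂ r) (N : Fin m → ℕ) (a : Fin m → ℕ → ℂ) (V : ℝ → ℝ)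
  (l0 : Fin m), j ∈ Ioc J (2 * J) → 1 ≤ r → (r : ℝ) ≤ (Real.log J) ^ B →
  Box m J N a → Cf ((Real.log J) ^ 2) V → a l0 = sf χ V (N l0) →
  Real.sqrt J * (Real.log J) ^ A2 ≤ N l0 → (N l0 : ℝ) ≤ J * (Real.log J) ^ A1 →
  (∀ l, (N l : ℝ) ≤ 4 * N l0) →
  ‖TS a (fun l => 2 * N l) (dW ((Real.log J) ^ E) J j)‖ ≤ (J : ℝ) ^ 3 / (Real.log J) ^ A

/-- [SC bx2] (uses SC G, SC smo, SC grd) Proof: `n := N l0`, `C` from R_G. `Z = A + A1 + B + 4m + C + 20`, `A2 = 2Z`,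
`T0 = L^(2Z)`, `E0 = 3Z + A + 2m + 10`, `I = ⌈5L⌉` (`2^I ≥ J^3`), `G = L^2`, `J` large. R_grd for `S = univ \ {l0}`,
`x l = 2 N l`, `b = 8n`: `S1, S2` with products `P1`, `P2`; let `P2 ≤ P1` (else exchange). `P1 P2 = 2^(m-1) ∏ N/n ≥ J^3/(64 n)` and
`P1 ≤ 8 n P2`, so `P1^2 ≥ J^3/(64 n) ≥ J^2/(64 L^A1)`, `P1 ≥ J/(8 L^A1)`; `P2^2 ≥ P1 P2/(8n) ≥ J^3/(512 n^2)`,
`P2 ≥ J^(3/2)/(23 n)`. R_smo: for `T ≤ |θ| ≤ 2T`, `T ≥ 1`, `‖dp (a l0) (2n) θ‖ ≤ C' L^B L^2 (1 + log n)(√(2T) + n/√T)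
≤ L^(B+4) (√T + n/√T) =: S i` (`T = 2^i T0`). R_G (lengths `2 N l`, `∏ 2 N l ≤ 2^(2m+5) J^3`, `1 + log ∏ ≤ 4L`): the first term is at
most `(L^(6Z-2E) + 11/J) L^(2m) 2^(2m+5) J^3 ≤ J^3/(2L^A)`. The second: `√((T+P1)P1(T+P2)P2) = P1 P2 √((1+T/P1)(1+T/P2))`,
`n P1 P2 ≤ 2^(2m+5) J^3`, so it is at most `C L^(4m) (4L)^C L^(B+4) 2^(2m+5) J^3 ∑_i Y(T_i)`,
`Y(T) = min(1, J^2/T^2) (√T/n + 1/√T) √((1+T/P1)(1+T/P2))`. With `1 + T/P1 ≤ 9 L^A1 max(1, T/J)` and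
`√(1+T/P2) ≤ 1 + 5 √(T n) J^(-3/4)`:
for `T0 ≤ T ≤ J`: `Y ≤ 3 L^A1 (√J/n + 1/√T0 + 5 T/(√n J^(3/4)) + 5 √n J^(-3/4)) ≤ 3 L^A1 (L^(-A2) + L^(-Z) + 5 L^(-A2/2) + 5 L^A1 J^(-1/4))`;
for `T = J x`, `x ≥ 1`: `Y ≤ x^(-2) (√x √J/n + 1/√(J x)) 3 L^A1 √x (1 + 5 √x √n J^(-1/4)) ≤ 3 L^A1 (√J/n + 1/√J)(1 + 5 √n J^(-1/4))
≤ 3 L^A1 (L^(-A2) + J^(-1/2) + 5 L^(-A2/2) + 5 L^A1 J^(-1/4))`. So `Y ≤ 40 L^(A1-Z)`, and there are at most `5L + 1`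
values of `i`; total `≤ J^3/(2L^A)`. -/
def S_bx2 : Prop := R_G → R_smo → R_grd → R_bx2

/-- Boxes which split well. -/
def R_bxs : Prop := ∀ m A H : ℕ, ∃ A' : ℕ, ∀ C0 : ℕ, ∃ E0 : ℕ, ∀ E : ℕ, E0 ≤ E →
  ∀ᶠ J : ℕ in atTop, ∀ (j : ℕ) (N : Fin m → ℕ) (a : Fin m → ℕ → ℂ) (l0 : Fin m)
  (S1 S2 : Finset (Fin m)), j ∈ Ioc J (2 * J) → Box m J N a → l0 ∉ S1 → l0 ∉ S2 → Disjoint S1 S2 →
  insert l0 (S1 ∪ S2) = univ → (J : ℝ) ≤ (Real.log J) ^ H * ∏ l ∈ S1, (N l : ℝ) →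
  (J : ℝ) ≤ (Real.log J) ^ H * ∏ l ∈ S2, (N l : ℝ) →
  (∀ θ : ℝ, (Real.log J) ^ C0 ≤ |θ| → |θ| ≤ (J : ℝ) ^ 2 →
    ‖dp (a l0) (2 * N l0) θ‖ ≤ N l0 / (Real.log J) ^ A') →
  ‖TS a (fun l => 2 * N l) (dW ((Real.log J) ^ E) J j)‖ ≤ (J : ℝ) ^ 3 / (Real.log J) ^ A

/-- [SC bxs] (uses SC G) Proof: `C` from R_G, `A' = A + H + 4m + C + 10`, `T0 = L^C0`, `E0 = 2 C0 + A + 2m + 10`, `I = ⌈5L⌉`,
`G = L^2`, `J` large, `lam = L^E`. R_G with lengths `2 N l`: first term `≤ (L^(3C0-2E) + 11/J) L^(2m) 2^(2m+5) J^3 ≤ J^3/(2L^A)`. Second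
term, `T = 2^i T0`, `P1 = ∏_{S1} 2 N l ≥ J/L^H`, `P2` similarly, `√((T+P1)P1(T+P2)P2) ≤ P1 P2 (1 + T L^H/J) ≤ 2 L^H P1 P2 max(1, T/J)`.
If `2T ≤ J^2`, take `S i = N l0/L^A'`: the term is at most `2 L^(H-A') N l0 P1 P2` (`min(1, J^2/T^2) max(1, T/J) ≤ 1`). If
`2T > J^2`, take the trivial `S i = 2 N l0 L^2`: at most `(J^2/T^2) 2 L^2 N l0 * 2 L^H P1 P2 T/J ≤ 8 L^(H+2) N l0 P1 P2/J`.
`N l0 P1 P2 ≤ 2^(2m+5) J^3`; at most `5L + 1` values of `i`; factor `C L^(4m) (4L)^C`. -/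
def S_bxs : Prop := R_G → R_bxs

/-- Boxes all of whose sizes are at most about `√J`. -/
def R_bx3 : Prop := ∀ m A A2 : ℕ, ∃ A' : ℕ, ∀ C0 : ℕ, ∃ E0 : ℕ, ∀ E : ℕ, E0 ≤ E →
  ∀ᶠ J : ℕ in atTop, ∀ (j : ℕ) (N : Fin m → ℕ) (a : Fin m → ℕ → ℂ) (l0 : Fin m),
  j ∈ Ioc J (2 * J) → Box m J N a → (∀ l, (N l : ℝ) ≤ Real.sqrt J * (Real.log J) ^ A2) →
  (∀ θ : ℝ, (Real.log J) ^ C0 ≤ |θ| → |θ| ≤ (J : ℝ) ^ 2 →
    ‖dp (a l0) (2 * N l0) θ‖ ≤ N l0 / (Real.log J) ^ A') →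
  ‖TS a (fun l => 2 * N l) (dW ((Real.log J) ^ E) J j)‖ ≤ (J : ℝ) ^ 3 / (Real.log J) ^ A

/-- [SC bx3] (uses SC bxs, SC grd) Proof: R_bxs with `H = A2 + 1`. R_grd for `univ \ {l0}`, `x l = N l`, `b = √J L^A2`: products
`P1`, `P2`, `P1 P2 = ∏ N/N l0 ≥ J^3/(2^(m+5) √J L^A2)`, `P1 ≤ b P2`, so `P2^2 ≥ P1 P2/b ≥ J^2/(2^(m+5) L^(2 A2))` and
`P2 ≥ J/L^(A2+1)` for large `J`; the same for `P1`. -/
def S_bx3 : Prop := R_bxs → R_grd → R_bx3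

/-- Products of 12 blocks in the difference of the windows. -/
def R_box : Prop := ∀ A B : ℕ, ∃ E0 : ℕ, ∀ E : ℕ, E0 ≤ E → ∀ᶠ J : ℕ in atTop, ∀ (j r Z : ℕ)
  (χ : DirichletCharacter ℂ r) (f : Fin (2 * 6) → ArithmeticFunction ℂ) (N : Fin (2 * 6) → ℕ),
  j ∈ Ioc J (2 * J) → 1 ≤ r → (r : ℝ) ≤ (Real.log J) ^ B → (r = 1 ∨ χ ≠ 1) →
  (Z : ℝ) ≤ 2 * Real.sqrt J → (∀ i, Sb (f i) (N i) ∨ (Mb (f i) (N i) ∧ (N i : ℝ) ≤ 2 * Z)) →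
  ∏ i, (N i : ℝ) ≤ 2 ^ (2 * 6) * (27 * (J : ℝ) ^ 3) →
  ‖∑ n ∈ Icc 1 (27 * J ^ 3), (∏ i, f i) n * (χ (n : ZMod r) * dW ((Real.log J) ^ E) J j n)‖
    ≤ (J : ℝ) ^ 3 / (Real.log J) ^ A

/-- [SC box] (uses SC Wd, cv, bx1, bx2, bx3, smk, muk, CH.D spc) Proof: `m = 12`. `A1, E1` from bx1 (`A, B`), `A2, E2` from bx2
(`A, A1, B`), `A'` from bx3 (`A, A2 + 1`), `C1` from muk (`A', B`), `C0 = max (A' + 6) C1`, `E3` from bx3; `E0 = max(E1, E2, E3) + 1`.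
Let `J` be large. Every block satisfies `N i ≥ 1`, `‖f i n‖ ≤ 1` (R_Wd) and `f i n ≠ 0 → N i/2 ≤ n ≤ 2 N i`, `n ≥ 1`.
By R_spc `dW lam J j n = 0` unless `J^3 < 2n`, `n < 27 J^3` (`n ≥ 1`, `lam = L^E ≥ 10`). If `2^17 ∏ N < J^3`, all terms are `0`. Let
`2^17 ∏ N ≥ J^3` (and `∏ N ≤ 2^12 27 J^3 ≤ 2^17 J^3`). R_cv with `M i = 2 N i` and `w n = χ(n) dW n` for `1 ≤ n ≤ 27 J^3`, `w n = 0`
otherwise: the sum is `TS f (2N) w = TS a (2N) (dW ..)` with `a i n = f i n * χ(n)` (`χ` is multiplicative; the products of the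
variables are `≥ 1`, and `dW` vanishes beyond `27 J^3`). `Box 12 J N a` holds. Smooth blocks: `a i = sf χ (Vs k) (N i)`
except at `n = 0` (replace `a i 0` by the value of `sf`; `TS` and `dp` only use `n ≥ 1`), `Cf G ⇒ Cf (L^2)`.
(1) Some smooth block has `N i ≥ J L^A1`: bx1. (2) Otherwise, if some smooth block has `N i ≥ √J L^A2`, let `l0` be a
smooth block of maximal size: the Möbius blocks have `N i ≤ 2Z ≤ 4√J ≤ N l0`: bx2. (3) Otherwise all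
`N i ≤ √J L^(A2+1)`; let `l0` have maximal size: `N l0^12 ≥ ∏ N ≥ J^3/2^17`, so `log N l0 ≥ L/5`, and bx3; its hypothesis for a
smooth block is R_smk (`A' + 1`, `G N/L^(A'+1) ≤ N/L^A'`, `A' + 6 ≤ C0`), for a Möbius block R_muk (`N ≤ 2 (a+1)` is not
needed; `mf χ a b n = f n χ(n)`). -/
def S_box : Prop := R_Wd → R_cv → R_bx1 → R_bx2 → R_bx3 → R_smk → R_muk → R_spc → R_box

/-! ### The von Mangoldt function -/

/-- Heath-Brown's decomposition with blocks of size a power of two. -/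
def R_dec : Prop := ∀ k : ℕ, 1 ≤ k → ∃ C : ℕ, ∀ᶠ J : ℕ in atTop, ∀ (ι : Type) (P : Finset ι)
  (w : ι → ℕ → ℂ) (K : ℝ) (Z : ℕ), 0 ≤ K → 27 * J ^ 3 ≤ Z ^ k →
  (∀ p n, w p n ≠ 0 → J ^ 3 < 2 * n ∧ n ≤ 27 * J ^ 3) →
  (∀ (f : Fin (2 * k) → ArithmeticFunction ℂ) (N : Fin (2 * k) → ℕ),
    (∀ i, ∃ s : ℕ, N i = 2 ^ s) →
    (∀ i, Sb (f i) (N i) ∨ (Mb (f i) (N i) ∧ (N i : ℝ) ≤ 2 * (Z : ℝ))) →
    ∏ i, (N i : ℝ) ≤ 2 ^ (2 * k) * (27 * (J : ℝ) ^ 3) →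
    ∑ p ∈ P, ‖∑ n ∈ Icc 1 (27 * J ^ 3), (∏ i, f i) n * w p n‖ ≤ K) →
  ∑ p ∈ P, ‖∑ n ∈ Icc 1 (27 * J ^ 3), ((vonMangoldt n : ℝ) : ℂ) * w p n‖ ≤ (Real.log J) ^ C * K

/-- Heath-Brown's identity: `muU U` is the Möbius function up to `U`. -/
noncomputable def muU (U : ℕ) : ArithmeticFunction ℂ where
  toFun n := if n ≤ U then ((moebius n : ℤ) : ℂ) else 0
  map_zero' := by simp

/-- The logarithm as an arithmetic function with values in `ℂ`. -/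
noncomputable def lgC : ArithmeticFunction ℂ where
  toFun n := ((Real.log n : ℝ) : ℂ)
  map_zero' := by simp

/-- Heath-Brown's identity. -/
def R_hbi : Prop := ∀ (k U n : ℕ), 1 ≤ k → 1 ≤ n → n ≤ U ^ k →
  ((vonMangoldt n : ℝ) : ℂ) = ∑ i ∈ Icc 1 k, (-1 : ℂ) ^ (i - 1) * (k.choose i : ℂ) *
    ((lgC * (ArithmeticFunction.zeta : ArithmeticFunction ℂ) ^ (i - 1) * muU U ^ i) n)

/-- [SC hbi] Proof: in the commutative ring of arithmetic functions with values in `ℂ`, `ζ` (all ones), `Λ * ζ = log`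
(`ArithmeticFunction.vonMangoldt_mul_zeta`), `D = 1 - ζ * muU U`. `D n = 0` for `n ≤ U` (`(ζ * muU U) n = ∑_{d ∣ n} μ(d) = [n = 1]`
for `1 ≤ n ≤ U`), so by induction on `k`, `D^k n = 0` for `1 ≤ n ≤ U^k` (if `n = d e`, `D^(k-1) d ≠ 0 ≠ D e` then `d > U^(k-1)`, `e > U`,
so `n > U^k`; `k = 1` is the base), hence `(Λ * D^k) n = 0` for `n ≤ U^k`. Binomial theorem:
`1 - D^k = 1 - (1 - ζ M)^k = ∑_{i=1}^k (-1)^(i-1) C(k,i) ζ^i M^i`, `M = muU U`, and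
`Λ = Λ * (1 - D^k) + Λ * D^k`, `Λ ζ^i M^i = log * ζ^(i-1) * M^i` for `i ≥ 1`. Evaluate at `n`. -/
def S_hbi : Prop := R_hbi

/-- [SC dec] (uses SC hbi, SC Wd) Proof: `X = 27 J^3`, `K0` with `X ≤ 2^K0`, `K0 ≤ 5L`; `n ≤ X ≤ Z^k`: R_hbi with `U = Z`. Write
the `i`-th term as a product of `2k` functions `F_l`: `i` times `muU Z`, `k - i` times `1` (the unit of the ring, `[n = 1]`),
once `lgC`, `i - 1` times `ζ`, `k - i` times `1`. On `1 ≤ n ≤ X` each `F_l` is a sum of at most `2 (K0 + 1)` blocks with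
coefficients `≤ K0`: `muU Z = ∑_s M_s` over the `s ≤ K0` with `2^s ≤ 2Z`, `M_s n = μ(n)` for
`2^s/2 < n ≤ min(2^s, Z)` (natural division; Mb with `a = 2^s/2`, `b = min(2^s, Z)`, `N = 2^s ≤ 2 (a + 1)`);
`1 = μ` on `(0, 1]`, `N = 1`; `ζ = ∑_{s ≤ K0} Wd(n/2^s)`; `log n = ∑_s (log(2^s) Wd(n/2^s) + Wd(n/2^s) log(n/2^s))` (R_Wd).
The values `(∏ F_l) n` for `n ≤ X` only depend on the values of `F_l` up to `X`. Expand the product of the sums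
(`Finset.prod_univ_sum`): `∑_{n ≤ X} Λ(n) w p n` is a combination of at most `k (2 (K0+1))^(2k)` sums
`∑_n (∏ f_l) n * w p n` with coefficients of absolute value `≤ 2^k K0^(2k)`; the tuples with `∏ N > 2^(2k) X` contribute `0`
(`(∏ f) n ≠ 0` implies `n ≥ ∏ N/2^(2k)`). Sum over `p`, triangle inequality: at most
`k 2^k K0^(2k) (2(K0+1))^(2k) K ≤ L^C K`. (`w p n` is only used for `1 ≤ n ≤ X`.) -/
def S_dec : Prop := R_hbi → R_Wd → R_dec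

/-- The comparison of the windows for `Λ` twisted by `χ`. -/
def R_CMP : Prop := ∀ A B : ℕ, ∃ E0 : ℕ, ∀ E : ℕ, E0 ≤ E → ∀ᶠ J : ℕ in atTop, ∀ (j r : ℕ)
  (χ : DirichletCharacter ℂ r), j ∈ Ioc J (2 * J) → 1 ≤ r → (r : ℝ) ≤ (Real.log J) ^ B →
  (r = 1 ∨ χ ≠ 1) →
  ‖∑ n ∈ Icc 1 (27 * J ^ 3), ((vonMangoldt n : ℝ) : ℂ) *
    (χ (n : ZMod r) * dW ((Real.log J) ^ E) J j n)‖ ≤ (J : ℝ) ^ 3 / (Real.log J) ^ A

/-- [SC CMP] (uses SC dec, SC box, CH.D spc) Proof: R_dec with `k = 6` (constant `C`), `ι = Unit`, `P = univ`,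
`Z = ⌈√(3J)⌉₊` (`Z^6 ≥ 27 J^3`, `Z ≤ 2√J`), `w n = χ(n) dW n` for `n ≥ 1`, `w 0 = 0` (support: R_spc, `L^E ≥ 10`),
`K = J^3/L^(A+C)`, and R_box with `A + C`. -/
def S_CMP : Prop := R_dec → R_box → R_spc → R_CMP

/-- Long windows for `Λ` twisted by `χ`. -/
def R_lwL : Prop := ∀ A B E : ℕ, ∀ᶠ J : ℕ in atTop, ∀ (j r : ℕ) (χ : DirichletCharacter ℂ r),
  j ∈ Ioc J (2 * J) → 2 ≤ r → (r : ℝ) ≤ (Real.log J) ^ B → χ.IsPrimitive →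
  ‖∑ n ∈ Icc 1 (27 * J ^ 3), ((vonMangoldt n : ℝ) : ℂ) *
    (χ (n : ZMod r) * (wL ((Real.log J) ^ E) j n : ℂ))‖ ≤ (J : ℝ) ^ 3 / (Real.log J) ^ A

/-- [SC lwL] (uses CH.P PW) Proof: R_PW with `A + 1`, `B`, `κ = 1`, `τ = 0` (`pz 0 n = 1`), `M = 27 J^3`:
`‖∑_{n ≤ M'} Λ(n) χ(n)‖ ≤ 27 J^3/(log M)^(A+1)` for all `M' ≤ M` (`log M ≥ L`). Abel summation with the weight
`wL lam j n ∈ [0,1]`, monotone before and after `xj j` (variation `≤ 2`): at most `81 J^3/L^(A+1) ≤ J^3/L^A`. (For `E = 0` or small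
`J` nothing special happens.) -/
def S_lwL : Prop := R_PW → R_lwL

/-- [SC SL] (uses SC CMP, SC lwL) Small conductors for `Λ`. Proof: `E = E0` of R_CMP for `A + 1`, `B`. A primitive character modulo
`r ≥ 2` is `≠ 1`. `2J Sf (FL J) J j χ = ∑ Λ χ dW + L^E ∑ Λ χ wL`; R_lwL with `A + 1 + E`: norm
`≤ J^3/L^(A+1) + L^E J^3/L^(A+1+E)`; divide by `2J`. -/
def S_SL : Prop := R_CMP → R_lwL → I_SL

/-- [SC CL] (uses SC CMP) Comparison for `Λ`. Proof: R_CMP with `B = 0`, `r = 1`, `χ = 1` (`(1 : ℝ) ≤ L^0`), real parts. -/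
def S_CL : Prop := R_CMP → I_CL

/-! ### Products of primes -/

open Classical in
/-- Dyadic decomposition of `bx`. -/
def R_dyb : Prop := ∀ (k X K : ℕ) (lo hi : Fin k → ℝ) (w : ℕ → ℂ), X ≤ 2 ^ K →
  (∀ n, X < n → w n = 0) →
  ∑ n ∈ Icc 1 X, (bx k lo hi n : ℂ) * w n = ∑ s ∈ Fintype.piFinset (fun _ : Fin k => range (K + 1)),
    TS (fun l n => if n.Prime ∧ max (⌈lo l⌉₊ - 1) (2 ^ s l / 2) < n ∧ n ≤ min ⌊hi l⌋₊ (2 ^ s l)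
      then 1 else 0) (fun l => 2 * 2 ^ s l) w

/-- [SC dyb] Proof: unfold `bx` (a number of tuples) and `TS`. The left side is the sum of `w(∏ q)` over the tuples `q` of
primes with `lo i ≤ q i ≤ hi i` and product `≤ X` (each `q i ≤ n` is automatic; for `k = 0` only `n = 1`). Every prime
`p ≤ X ≤ 2^K` lies in exactly one interval `(2^s/2, 2^s]`, `1 ≤ s ≤ K` (`s = Nat.clog 2 p`); for `p ≥ 1`: `lo ≤ p` iff
`⌈lo⌉₊ - 1 < p` (if `⌈lo⌉₊ = 0` both hold) and `p ≤ hi` iff `p ≤ ⌊hi⌋₊`. The tuples of the right side with product `> X` have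
`w = 0`. Exchange the sums (`Finset.sum_comm'`, or a bijection from tuples to pairs (s, tuple)). -/
def S_dyb : Prop := R_dyb

/-- Boxes of at least five primes. -/
def R_bxP : Prop := ∀ k A B : ℕ, 5 ≤ k → ∃ E0 : ℕ, ∀ E : ℕ, E0 ≤ E → ∀ᶠ J : ℕ in atTop,
  ∀ (j r : ℕ) (χ : DirichletCharacter ℂ r) (N a b : Fin k → ℕ), j ∈ Ioc J (2 * J) → 1 ≤ r →
  (r : ℝ) ≤ (Real.log J) ^ B → χ.IsPrimitive → (∀ l, 1 ≤ N l ∧ N l ≤ 2 * (a l + 1) ∧ b l ≤ N l) →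
  (∀ l, (J : ℝ) ^ (1 / 12 : ℝ) ≤ N l ∧ (N l : ℝ) ≤ 2 * (J : ℝ) ^ (33 / 20 : ℝ)) →
  ‖TS (fun l => pf χ (a l) (b l)) (fun l => 2 * N l) (dW ((Real.log J) ^ E) J j)‖
    ≤ (J : ℝ) ^ 3 / (Real.log J) ^ A

/-- [SC bxP] (uses SC bxs, SC spl, SC prk, CH.D spc) Proof: `A'` from bxs (`m = k`, `A`, `H = 1`), `C0` from prk (`A', B`), `E0` from
bxs. The variables satisfy `N l/2 ≤ a l + 1 ≤ n_l ≤ b l ≤ N l`, and `dW n = 0` unless `J^3 < 2n`, `n < 27 J^3` (R_spc, `L^E ≥ 10`, take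
`E0 ≥ 1`); so if `∏ N < J^3/2` or `∏ N > 2^k 27 J^3` the sum is `0`. Otherwise `Box k J N _` (coefficients of norm `≤ 1`). Let
`S = ∑ log N l ∈ [3L - k - 6, 3L + k + 6]`, `x l = 3 log N l/S ≥ 0`, `∑ x = 3`, `x l ≤ 3 (33L/20 + 1)/(3L - k - 6) ≤ 5/3` for
large `J`. R_spl: `l0, S1, S2`, `∑_{S1} log N l ≥ S/3 ≥ L - k - 2`, so `∏_{S1} N l ≥ J e^(-k-2) ≥ J/L`, the same for `S2`. bxs;
its hypothesis is R_prk (`L/20 ≤ log N l0 ≤ 4L`, and `2 ≤ r ∨ L^C0 ≤ |θ|` holds in the range of `θ`). -/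
def S_bxP : Prop := R_bxs → R_spl → R_prk → R_spc → R_bxP

/-- The comparison of the windows for products of primes twisted by `χ`. -/
def R_CMB : Prop := ∀ (k : ℕ) (lo hi : ℕ → Fin k → ℝ), BoxOK k lo hi → ∀ A B : ℕ, ∃ E0 : ℕ,
  ∀ E : ℕ, E0 ≤ E → ∀ᶠ J : ℕ in atTop, ∀ (j r : ℕ) (χ : DirichletCharacter ℂ r),
  j ∈ Ioc J (2 * J) → 1 ≤ r → (r : ℝ) ≤ (Real.log J) ^ B → χ.IsPrimitive →
  ‖∑ n ∈ Icc 1 (27 * J ^ 3), (bx k (lo J) (hi J) n : ℂ) *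
    (χ (n : ZMod r) * dW ((Real.log J) ^ E) J j n)‖ ≤ (J : ℝ) ^ 3 / (Real.log J) ^ A

/-- [SC CMB] (uses SC dyb, SC bxP, CH.D spc) Proof: R_bxP with `A + k + 1`. `K ≤ 5L - 1` with `27 J^3 ≤ 2^K`; R_dyb with
`w n = χ(n) dW n` for `1 ≤ n ≤ 27 J^3`, `0` otherwise: at most `(5L)^k` sums
`TS (fun l => pf χ (a l) (b l)) (2 * 2^(s l)) (dW ..)` (`χ` is multiplicative; all variables are `≥ 1`; `dW n = 0` for `n > 27 J^3` by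
R_spc), `a l = max(⌈lo l⌉₊ - 1, 2^(s l)/2)`, `b l = min(⌊hi l⌋₊, 2^(s l))`. If some factor vanishes identically, the sum is
`0`; otherwise for each `l` there is a prime `p` with `lo l ≤ p ≤ hi l`, `2^(s l)/2 < p ≤ 2^(s l)`, so
`2^(s l) ≥ J^(1/12)`, `2^(s l) ≤ 2p ≤ 2 J^(33/20)`, and R_bxP applies. -/
def S_CMB : Prop := R_dyb → R_bxP → R_spc → R_CMB

/-- Long windows for products of primes. -/
def R_lwB : Prop := ∀ (k : ℕ) (lo hi : ℕ → Fin k → ℝ), BoxOK k lo hi → ∀ A B E : ℕ,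
  ∀ᶠ J : ℕ in atTop, ∀ (j r : ℕ) (χ : DirichletCharacter ℂ r), j ∈ Ioc J (2 * J) → 2 ≤ r →
  (r : ℝ) ≤ (Real.log J) ^ B → χ.IsPrimitive →
  ‖∑ n ∈ Icc 1 (27 * J ^ 3), (bx k (lo J) (hi J) n : ℂ) *
    (χ (n : ZMod r) * (wL ((Real.log J) ^ E) j n : ℂ))‖ ≤ (J : ℝ) ^ 3 / (Real.log J) ^ A

/-- [SC lwB] (uses CH.D pwp) Proof: `X = 27 J^3`. The sum is the sum over the tuples of primes `q` (`lo i ≤ q i ≤ hi i`,
product `≤ X`) of `χ(∏ q) wL(∏ q)`. Fix all primes but one (say `q 0`), product `d ≥ 1`; the inner sum is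
`χ(d) ∑_p χ(p) wL lam j (d p)` over the primes `p` in an interval with `J^(1/12) ≤ p ≤ M := X/d`. If `M < J^(1/12)` it is
empty. Otherwise R_pwp with `A' = A + k + 1`, `B + 1`, `κ = 1`, `τ = 0`: `‖∑_{M1<p≤M2} χ(p)‖ ≤ M/(log M)^A' ≤ 12^A' M/L^A'` for
`M2 ≤ M` (`r ≤ L^B ≤ (12 log M)^B ≤ (log M)^(B+1)`); the weight `wL lam j (d p) ∈ [0,1]` is monotone before and after
`xj j/d`, so the inner sum is at most `3 * 12^A' X/(d L^A')`. The sum over the other primes: `∑ 1/d ≤ (1 + log X)^(k-1) ≤ (4L)^(k-1)`.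
Total `≤ J^3/L^A`. -/
def S_lwB : Prop := R_pwp → R_lwB

/-- [SC SB] (uses SC CMB, SC lwB) Small conductors for products of primes. Proof: as SC SL. -/
def S_SB : Prop := R_CMB → R_lwB → I_SB

/-- [SC CB] (uses SC CMB) Comparison for products of primes. Proof: as SC CL. -/
def S_CB : Prop := R_CMB → I_CB

end Pool.Agent.CA.SC
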