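import Pool.Agent.Lib.MP_d610d0_nt.CA.SC.Stm2

set_option autoImplicit false

/-!
Project CA, section SC, piece CMP.
-/

namespace Pool.Agent.CA.SC

open Finset Filter
open ArithmeticFunction (vonMangoldt moebius)
open Pool.Agent.CH (wJ wL)
open Pool.Agent.CH.D (R_spc)

private lemma CMP_dW {lam : ℝ} {J j n : ℕ} (hspc : R_spc) (hJ : 1 ≤ J) (hj : j ∈ Ioc J (2 * J))
    (hlam : 10 ≤ lam) (hn : 1 ≤ n) (h : dW lam J j n ≠ 0) : J ^ 3 < 2 * n ∧ n ≤ 27 * J ^ 3 := by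
  obtain ⟨-, h1, h2⟩ := hspc J hJ
  by_cases hw : wL lam j n = 0
  · have hw2 : wJ J j n ≠ 0 := by
      intro h0
      apply h
      unfold dW
      rw [hw, h0]
      simp
    obtain ⟨h3, h4⟩ := h1 j hj n hn hw2
    rw [mem_Ioc] at hj
    have h5 : J ^ 3 ≤ j ^ 3 := Nat.pow_le_pow_left hj.1.le 3
    have h6 : (j + 1) ^ 3 ≤ (3 * J) ^ 3 := Nat.pow_le_pow_left (by omega) 3
    have h7 : (3 * J) ^ 3 = 27 * J ^ 3 := by ring
    omega
  · obtain ⟨h3, h4⟩ := h2 j hj n lam hn hlam hw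
    exact ⟨h3, h4.le⟩

private lemma CMP_Z {J : ℕ} (hJ : 16 ≤ J) : 27 * J ^ 3 ≤ ⌈Real.sqrt (3 * J)⌉₊ ^ 6 ∧
    (⌈Real.sqrt (3 * J)⌉₊ : ℝ) ≤ 2 * Real.sqrt J := by
  have hJ' : (16 : ℝ) ≤ J := by exact_mod_cast hJ
  have hs : Real.sqrt (3 * J) ^ 2 = 3 * J := Real.sq_sqrt (by linarith)
  have hs0 : 0 ≤ Real.sqrt (3 * J) := Real.sqrt_nonneg _
  have ht : Real.sqrt J ^ 2 = J := Real.sq_sqrt (by linarith)
  have ht4 : 4 ≤ Real.sqrt J := by
    apply Real.le_sqrt_of_sq_le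
    linarith
  constructor
  · have h1 : Real.sqrt (3 * J) ≤ (⌈Real.sqrt (3 * J)⌉₊ : ℝ) := Nat.le_ceil _
    have h2 : (27 : ℝ) * (J : ℝ) ^ 3 ≤ (⌈Real.sqrt (3 * J)⌉₊ : ℝ) ^ 6 := by
      calc (27 : ℝ) * (J : ℝ) ^ 3 = (Real.sqrt (3 * J) ^ 2) ^ 3 := by rw [hs]; ring
        _ = Real.sqrt (3 * J) ^ 6 := by ring
        _ ≤ _ := pow_le_pow_left₀ hs0 h1 6
    exact_mod_cast h2
  · have h1 : (⌈Real.sqrt (3 * J)⌉₊ : ℝ) < Real.sqrt (3 * J) + 1 := Nat.ceil_lt_add_one hs0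
    have h2 : Real.sqrt (3 * J) ≤ 7 / 4 * Real.sqrt J := by
      apply abs_le_of_sq_le_sq' _ (by linarith) |>.2
      rw [hs, mul_pow, ht]
      linarith
    linarith

theorem p_CMP : S_CMP := by
  intro hdec hbox hspc A B
  obtain ⟨C, hC⟩ := hdec 6 (by norm_num)
  obtain ⟨E0, hE0⟩ := hbox (A + C) B
  refine ⟨max E0 1, fun E hE => ?_⟩
  have hlog : ∀ᶠ J : ℕ in atTop, (10 : ℝ) ≤ Real.log J :=
    (Real.tendsto_log_atTop.comp tendsto_natCast_atTop_atTop).eventually_ge_atTop 10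
  filter_upwards [hC, hE0 E ((le_max_left _ _).trans hE), hlog, eventually_ge_atTop 16]
    with J hJ1 hJ2 hL hJ16
  intro j r χ hj hr hrB hχ
  obtain ⟨hZ1, hZ2⟩ := CMP_Z hJ16
  have hL0 : (0 : ℝ) < Real.log J := by linarith
  have hlam : (10 : ℝ) ≤ (Real.log J) ^ E :=
    hL.trans (le_self_pow₀ (by linarith) (by have := (le_max_right E0 1).trans hE; omega))
  have hK : (0 : ℝ) ≤ (J : ℝ) ^ 3 / (Real.log J) ^ (A + C) := by positivity
  have hmain := hJ1 Unit univ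
    (fun _ n => if n = 0 then 0 else χ (n : ZMod r) * dW ((Real.log J) ^ E) J j n)
    ((J : ℝ) ^ 3 / (Real.log J) ^ (A + C)) ⌈Real.sqrt (3 * J)⌉₊ hK hZ1
    (by
      intro _ n hn
      by_cases h0 : n = 0
      · rw [if_pos h0] at hn
        exact absurd rfl hn
      · rw [if_neg h0] at hn
        exact CMP_dW hspc (by omega) hj hlam (Nat.one_le_iff_ne_zero.2 h0) (right_ne_zero_of_mul hn))
    (by
      intro f N _ hf hprod
      have h1 := hJ2 j r ⌈Real.sqrt (3 * J)⌉₊ χ f N hj hr hrB hχ hZ2 hf hprod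
      rw [univ_unique, sum_singleton]
      refine le_of_eq_of_le ?_ h1
      congr 1
      refine sum_congr rfl fun n hn => ?_
      rw [if_neg (by rw [mem_Icc] at hn; omega)])
  rw [univ_unique, sum_singleton] at hmain
  have heq : ∑ n ∈ Icc 1 (27 * J ^ 3), ((vonMangoldt n : ℝ) : ℂ) *
      (if n = 0 then 0 else χ (n : ZMod r) * dW ((Real.log J) ^ E) J j n) =
      ∑ n ∈ Icc 1 (27 * J ^ 3), ((vonMangoldt n : ℝ) : ℂ) *
        (χ (n : ZMod r) * dW ((Real.log J) ^ E) J j n) := by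
    refine sum_congr rfl fun n hn => ?_
    rw [if_neg (by rw [mem_Icc] at hn; omega)]
  rw [heq] at hmain
  refine hmain.trans (le_of_eq ?_)
  rw [pow_add]
  field_simp

end Pool.Agent.CA.SC
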