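import Pool.Agent.Lib.MP_d610d0_nt.CA.SC.Stm

set_option autoImplicit false

/-!
Piece mrc: derivatives of `1/L(s, χ)`.
-/

namespace Pool.Agent.CA.SC

open Finset Filter
open ArithmeticFunction (vonMangoldt moebius)
open Pool.Agent.MP89da58.S (Lj summable_Lj)

private lemma mrc_norm {r : ℕ} (χ : DirichletCharacter ℂ r) (n : ℕ) :
    ‖((moebius n : ℤ) : ℂ) * χ n‖ ≤ 1 := by
  rw [norm_mul]
  have h1 : ‖((moebius n : ℤ) : ℂ)‖ ≤ 1 := by
    rw [Complex.norm_intCast]
    exact_mod_cast ArithmeticFunction.abs_moebius_le_one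
  calc _ ≤ 1 * 1 := mul_le_mul h1 (χ.norm_le_one _) (norm_nonneg _) (by norm_num)
    _ = 1 := one_mul 1

private lemma mrc_leibniz {r : ℕ} (χ : DirichletCharacter ℂ r) (k : ℕ) {s : ℂ} (hs : 1 < s.re) :
    ∑ j ∈ range (k + 1), (k.choose j : ℂ) * (Lj (fun n => ((moebius n : ℤ) : ℂ) * χ n) j s *
      Lj (fun n => χ n) (k - j) s) = 0 ^ k := by
  have hf : ∀ j, LSeriesHasSum (fun n => ((Real.log n : ℝ) : ℂ) ^ j *
      (((moebius n : ℤ) : ℂ) * χ n)) s (Lj (fun n => ((moebius n : ℤ) : ℂ) * χ n) j s) :=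
    fun j => (summable_Lj (mrc_norm χ) j hs).LSeriesHasSum
  have hg : ∀ i, LSeriesHasSum (fun n => ((Real.log n : ℝ) : ℂ) ^ i * χ n) s
      (Lj (fun n => χ n) i s) :=
    fun i => (summable_Lj (fun n => χ.norm_le_one _) i hs).LSeriesHasSum
  have hfg : ∀ j, HasSum (fun n => (k.choose j : ℂ) *
      LSeries.term (LSeries.convolution (fun n => ((Real.log n : ℝ) : ℂ) ^ j *
        (((moebius n : ℤ) : ℂ) * χ n))
        (fun n => ((Real.log n : ℝ) : ℂ) ^ (k - j) * χ n)) s n)
      ((k.choose j : ℂ) * (Lj (fun n => ((moebius n : ℤ) : ℂ) * χ n) j s *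
        Lj (fun n => χ n) (k - j) s)) := fun j =>
    ((hf j).convolution (hg (k - j))).mul_left _
  have hsum := hasSum_sum (fun j (_ : j ∈ range (k + 1)) => hfg j)
  refine hsum.unique ?_
  have hgoal : HasSum (fun n : ℕ => if n = 1 then (0 : ℂ) ^ k else 0) (0 ^ k) := by
    have := hasSum_ite_eq (1 : ℕ) ((0 : ℂ) ^ k)
    exact this
  convert hgoal using 1
  funext n
  rcases eq_or_ne n 0 with rfl | hn
  · simp
  simp only [LSeries.term_of_ne_zero hn]
  rw [← Finset.sum_congr rfl (fun j _ => mul_div_assoc _ _ _), ← Finset.sum_div]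
  simp only [LSeries.convolution_def, Finset.mul_sum]
  rw [Finset.sum_comm]
  have key : ∀ p ∈ n.divisorsAntidiagonal, ∑ j ∈ range (k + 1), (k.choose j : ℂ) *
      ((((Real.log p.1 : ℝ) : ℂ) ^ j * (((moebius p.1 : ℤ) : ℂ) * χ p.1)) *
        (((Real.log p.2 : ℝ) : ℂ) ^ (k - j) * χ p.2)) =
      ((Real.log n : ℝ) : ℂ) ^ k * χ n * ((moebius p.1 : ℤ) : ℂ) := by
    intro p hp
    obtain ⟨hp1, _⟩ := Nat.mem_divisorsAntidiagonal.1 hp
    have hp1' : p.1 ≠ 0 := by rintro h; rw [h, zero_mul] at hp1; exact hn hp1.symm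
    have hp2' : p.2 ≠ 0 := by rintro h; rw [h, mul_zero] at hp1; exact hn hp1.symm
    have hlog : ((Real.log n : ℝ) : ℂ) = ((Real.log p.1 : ℝ) : ℂ) + ((Real.log p.2 : ℝ) : ℂ) := by
      rw [← hp1]
      push_cast [Real.log_mul (show ((p.1 : ℕ) : ℝ) ≠ 0 by exact_mod_cast hp1')
        (show ((p.2 : ℕ) : ℝ) ≠ 0 by exact_mod_cast hp2')]
      ring
    have hχ : χ n = χ p.1 * χ p.2 := by
      rw [← hp1]; push_cast; rw [map_mul]
    rw [hlog, add_pow, hχ, Finset.sum_mul, Finset.sum_mul]
    apply Finset.sum_congr rfl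
    intro j _
    ring
  rw [Finset.sum_congr rfl key, ← Finset.mul_sum,
    Nat.sum_divisorsAntidiagonal (fun i _ => ((moebius i : ℤ) : ℂ))]
  have h1 : ∑ i ∈ n.divisors, ((moebius i : ℤ) : ℂ) = if n = 1 then 1 else 0 := by
    have h3 : ((moebius : ArithmeticFunction ℤ) * (ArithmeticFunction.zeta : ArithmeticFunction ℤ)) n =
        (1 : ArithmeticFunction ℤ) n := by rw [ArithmeticFunction.moebius_mul_coe_zeta]
    rw [ArithmeticFunction.coe_mul_zeta_apply, ArithmeticFunction.one_apply] at h3
    have h4 := congrArg (fun z : ℤ => (z : ℂ)) h3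
    push_cast at h4
    rw [h4]
  rw [h1]
  rcases eq_or_ne n 1 with rfl | hn1
  · simp
  · simp [hn1]

theorem p_mrc : S_mrc := by
  intro r χ s k K U V W hs hK hU hV hUW hW hL h0 j
  induction j using Nat.strong_induction_on with
  | _ j ih =>
    intro hj
    have hW1 : 1 ≤ W := hU.trans hUW
    have hK0 : 0 ≤ K := by linarith
    have hU0 : 0 ≤ U := by linarith
    have hW0 : 0 ≤ W := by linarith
    have hV0 : 0 < V := by linarith
    set G : ℕ → ℂ := fun i => Lj (fun n => ((moebius n : ℤ) : ℂ) * χ n) i s with hG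
    set L : ℕ → ℂ := fun i => Lj (fun n => χ n) i s with hLdef
    have hrec : ∑ i ∈ range (j + 1), (j.choose i : ℂ) * (G i * L (j - i)) = 0 ^ j :=
      mrc_leibniz χ j hs
    rw [Finset.sum_range_succ, Nat.choose_self, Nat.sub_self] at hrec
    have h1 : ‖G j * L 0‖ ≤ W ^ j := by
      rcases Nat.eq_zero_or_pos j with rfl | hj0
      · simp only [Finset.range_zero, Finset.sum_empty, zero_add, Nat.cast_one, one_mul,
          pow_zero] at hrec
        rw [hrec]
        simp
      have e1 : G j * L 0 = -∑ i ∈ range j, (j.choose i : ℂ) * (G i * L (j - i)) := by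
        rw [zero_pow hj0.ne'] at hrec
        linear_combination hrec
      rw [e1, norm_neg]
      calc _ ≤ ∑ i ∈ range j, (j.choose i : ℝ) * (V * K * U * W ^ (j - 1)) := by
            refine (norm_sum_le _ _).trans (Finset.sum_le_sum ?_)
            intro i hi
            have hij := Finset.mem_range.1 hi
            rw [norm_mul, norm_mul, Complex.norm_natCast]
            apply mul_le_mul_of_nonneg_left _ (Nat.cast_nonneg _)
            calc ‖G i‖ * ‖L (j - i)‖ ≤ (V * W ^ i) * (K * U ^ (j - i)) := by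
                  apply mul_le_mul (ih i hij (by omega)) (hL (j - i) (by omega)) (norm_nonneg _)
                    (by positivity)
              _ = (V * K * U * W ^ i) * U ^ (j - 1 - i) := by
                  rw [show j - i = (j - 1 - i) + 1 by omega, pow_succ]
                  ring
              _ ≤ (V * K * U * W ^ i) * W ^ (j - 1 - i) := by
                  apply mul_le_mul_of_nonneg_left _ (by positivity)
                  exact pow_le_pow_left₀ hU0 hUW _
              _ = V * K * U * W ^ (j - 1) := by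
                  rw [mul_assoc, ← pow_add]; congr 2; omega
        _ = (∑ i ∈ range j, (j.choose i : ℝ)) * (V * K * U * W ^ (j - 1)) := by
            rw [Finset.sum_mul]
        _ ≤ 2 ^ k * (V * K * U * W ^ (j - 1)) := by
            have h2 : ∑ i ∈ range (j + 1), (j.choose i : ℝ) = 2 ^ j := by
              exact_mod_cast Nat.sum_range_choose j
            have h3 : ∑ i ∈ range j, (j.choose i : ℝ) ≤ 2 ^ k := by
              calc ∑ i ∈ range j, (j.choose i : ℝ) ≤ ∑ i ∈ range (j + 1), (j.choose i : ℝ) := by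
                    apply Finset.sum_le_sum_of_subset_of_nonneg
                    · intro i hi
                      rw [Finset.mem_range] at hi ⊢
                      omega
                    · intro i _ _
                      positivity
                _ = 2 ^ j := h2
                _ ≤ 2 ^ k := pow_le_pow_right₀ (by norm_num) hj
            exact mul_le_mul_of_nonneg_right h3 (by positivity)
        _ = (V * K * U * 2 ^ k) * W ^ (j - 1) := by ring
        _ ≤ W * W ^ (j - 1) := mul_le_mul_of_nonneg_right hW (by positivity)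
        _ = W ^ j := by
            rw [← pow_succ']
            congr 1
            omega
    rw [norm_mul] at h1
    have h5 : 1 ≤ V * ‖L 0‖ := by
      have := (div_le_iff₀ hV0).1 h0
      linarith
    calc ‖G j‖ = ‖G j‖ * 1 := by ring
      _ ≤ ‖G j‖ * (V * ‖L 0‖) := mul_le_mul_of_nonneg_left h5 (norm_nonneg _)
      _ = V * (‖G j‖ * ‖L 0‖) := by ring
      _ ≤ V * W ^ j := mul_le_mul_of_nonneg_left h1 hV0.le

end Pool.Agent.CA.SC
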